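import Pool.Agent.Lib.MP_e1b29e_al.Extend
import Pool.Agent.Lib.MP_06935a_al.BaseHyp

/-! T11 : the base of the tower. -/

set_option autoImplicit false

namespace Pool.Agent.Lib.MP_e1b29e_al

open Pool.Agent.Lib.MP_06935a_al
open scoped Pointwise

theorem base_hypLen : HypLen (FreeGroup.norm : FreeGroup (Fin 2) → ℕ) 0 where
  one := FreeGroup.norm_one
  eq_one := fun _ h => FreeGroup.norm_eq_zero.1 h
  inv := fun _ => FreeGroup.norm_inv_eq
  mul := FreeGroup.norm_mul_le
  split := by
    intro x k hk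
    refine ⟨FreeGroup.mk (x.toWord.take k), FreeGroup.mk (x.toWord.drop k), ?_, ?_, ?_⟩
    · rw [FreeGroup.mul_mk, List.take_append_drop, FreeGroup.mk_toWord]
    · have h : FreeGroup.IsReduced (x.toWord.take k) :=
        List.IsChain.take FreeGroup.isReduced_toWord k
      rw [BaseHyp.norm_mk h, List.length_take]
      exact min_eq_left hk
    · have h : FreeGroup.IsReduced (x.toWord.drop k) :=
        List.IsChain.drop FreeGroup.isReduced_toWord k
      rw [BaseHyp.norm_mk h, List.length_drop]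
      have : x.toWord.length = x.norm := rfl
      omega
  four := by
    intro x y z w
    rcases BaseHyp.four_free x y z w with h | h
    · left; exact h
    · right; exact h

theorem base_proper : ProperLen (FreeGroup.norm : FreeGroup (Fin 2) → ℕ) := by
  intro r
  have h := List.finite_length_le (Fin 2 × Bool) r
  refine Set.Finite.subset (h.preimage (f := FreeGroup.toWord)
    FreeGroup.toWord_injective.injOn) ?_
  intro x hx
  exact hx

theorem base_good : Good (FreeGroup (Fin 2)) ⊥ ⊥ ⊤ ∅ where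
  hyp := by
    refine ⟨FreeGroup.norm, 0, 0, base_hypLen, base_proper, ?_, ?_, ?_⟩
    · rintro a ha b hb z hz
      rw [SetLike.mem_coe, Subgroup.mem_bot] at ha hb
      subst ha hb
      refine ⟨1, one_mem _, ?_⟩
      rw [base_hypLen.dst_self] at hz
      omega
    · rintro a ha b hb z hz
      rw [SetLike.mem_coe, Subgroup.mem_bot] at ha hb
      subst ha hb
      refine ⟨1, one_mem _, ?_⟩
      rw [base_hypLen.dst_self] at hz
      omega
    · intro a _ b _ z _
      exact ⟨z, Subgroup.mem_top z, by rw [base_hypLen.dst_self]⟩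
  tf := by
    intro x hx
    obtain ⟨n, hn, hp⟩ := isOfFinOrder_iff_pow_eq_one.1 hx
    by_contra hne
    exact (IsMulTorsionFree.pow_left_injective (M := FreeGroup (Fin 2)) (n := n) (by omega)).ne hne
      (by simp [hp])
  malA := fun g h hh h1 _ => absurd ((Subgroup.mem_bot).1 hh) h1
  malB := fun g h hh h1 _ => absurd ((Subgroup.mem_bot).1 hh) h1
  dAB := fun g h hh h1 _ => absurd ((Subgroup.mem_bot).1 hh) h1
  dAC := fun g h hh h1 _ => absurd ((Subgroup.mem_bot).1 hh) h1
  dBC := fun g h hh h1 _ => absurd ((Subgroup.mem_bot).1 hh) h1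
  fin := Set.finite_empty
  malL := fun u hu => absurd hu (Set.notMem_empty u)

/-- image of a closure and one more generator -/
theorem closure_image_union {G G' : Type} [Group G] [Group G'] (i : G →* G') (x : G) (z : G') :
    Subgroup.closure (i '' ((Subgroup.closure {x} : Subgroup G) : Set G) ∪ {z}) =
      Subgroup.closure {i x, z} := by
  have h1 : (i '' ((Subgroup.closure {x} : Subgroup G) : Set G)) =
      (((Subgroup.closure {x} : Subgroup G).map i : Subgroup G') : Set G') := rfl
  rw [h1, Subgroup.closure_union, Subgroup.closure_eq, MonoidHom.map_closure, Set.image_singleton,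
    ← Subgroup.closure_union]
  rfl

theorem base : ∃ (Γ : Type) (_ : Group Γ) (A B C : Subgroup Γ) (a₁ a₂ b₁ b₂ : Γ)
    (c : FreeGroup (Fin 2) →* Γ),
    Good Γ A B C ∅ ∧ A = Subgroup.closure {a₁, a₂} ∧ B = Subgroup.closure {b₁, b₂} ∧
    a₁ * a₂ ≠ a₂ * a₁ ∧ b₁ * b₂ ≠ b₂ * b₁ ∧ Function.Injective c ∧ C = c.range := by
  set c₁ : FreeGroup (Fin 2) := FreeGroup.of 0 with hc₁
  set c₂ : FreeGroup (Fin 2) := FreeGroup.of 1 with hc₂
  obtain ⟨Γ₁, _, i, z₁, hi, G₁, -, L₁⟩ := extend base_good c₁ (by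
    intro a ha b hb
    rw [Subgroup.mem_bot] at ha hb
    rw [ha, hb, mul_one]
    exact FreeGroup.of_ne_one 0)
  have hbot : (i '' ((⊥ : Subgroup (FreeGroup (Fin 2))) : Set (FreeGroup (Fin 2)))) = {1} := by
    rw [Subgroup.coe_bot, Set.image_singleton, map_one]
  have hcl : ∀ z : Γ₁, Subgroup.closure (({1} : Set Γ₁) ∪ {z}) = Subgroup.closure {z} := by
    intro z
    rw [Subgroup.closure_union, Subgroup.closure_singleton_one, bot_sup_eq]
  rw [hbot, hcl, hcl, Set.image_empty] at G₁
  obtain ⟨Γ₂, _, i₂, z₂, hi₂, G₂, -, L₂⟩ := extend G₁ (i c₂) (by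
    intro a ha b hb hab
    obtain ⟨F, hF, hF1⟩ := L₁ (Multiplicative ℤ)
      (FreeGroup.lift fun k : Fin 2 => if k = 0 then 1 else Multiplicative.ofAdd (1 : ℤ)) 1
    have h1 : F a = 1 := by
      have : Subgroup.closure {z₁} ≤ F.ker := by
        rw [Subgroup.closure_le]
        rintro x rfl
        exact hF1
      exact this ha
    have h2 : F b = 1 := by
      have : Subgroup.closure {z₁⁻¹ * i c₁} ≤ F.ker := by
        rw [Subgroup.closure_le]
        rintro x rfl
        change F (z₁⁻¹ * i c₁) = 1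
        rw [map_mul, map_inv, hF1, hF, hc₁]
        simp
      exact this hb
    have h3 : F (i c₂) = 1 := by rw [hab, map_mul, h1, h2, mul_one]
    rw [hF, hc₂] at h3
    simp at h3)
  rw [closure_image_union, closure_image_union, Set.image_empty] at G₂
  -- a homomorphism to a symmetric group
  obtain ⟨F₁, hF₁, hF₁z⟩ := L₁ (Equiv.Perm (Fin 3)) 1 (Equiv.swap 0 1)
  obtain ⟨F₂, hF₂, hF₂z⟩ := L₂ (Equiv.Perm (Fin 3)) F₁ (Equiv.swap 1 2)
  refine ⟨Γ₂, inferInstance, _, _, _, i₂ z₁, z₂, i₂ (z₁⁻¹ * i c₁), z₂⁻¹ * i₂ (i c₂), i₂.comp i,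
    G₂, rfl, rfl, ?_, ?_, ?_, ?_⟩
  · intro h
    have h1 := congrArg F₂ h
    rw [map_mul, map_mul, hF₂, hF₁z, hF₂z] at h1
    revert h1
    decide
  · intro h
    have h1 := congrArg F₂ h
    simp only [map_mul, map_inv, hF₂, hF₁, hF₁z, hF₂z, MonoidHom.one_apply, mul_one] at h1
    revert h1
    decide
  · exact hi₂.comp hi
  · rw [Subgroup.map_map, MonoidHom.range_eq_map]

end Pool.Agent.Lib.MP_e1b29e_al
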