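import Pool.Agent.Lib.MP_e1b29e_al.Cone

set_option autoImplicit false

namespace Pool.Agent.Lib.MP_e1b29e_al

open Pool.Agent.Lib.MP_06935a_al
open scoped Pointwise

variable {Γ : Type} [Group Γ] {ℓ : Γ → ℕ} {δ : ℕ}

/-- bounded geodesic image: if the projections to a translate of the axis are far apart, some
geodesic of the coned-off metric jumps along this translate. -/
theorem bgi (H : HypLen ℓ δ) (κ C θ K : ℕ) :
    ∃ B : ℕ, ∀ (S : Set Γ) (R : Γ) (P : Γ → ℤ) (pt : ℤ → Γ) (q : ℕ),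
      Axis ℓ S R P pt q C θ K → QC ℓ S κ →
      ∀ x y h : Γ, (B : ℤ) ≤ |P (h⁻¹ * x) - P (h⁻¹ * y)| →
      ∃ a ∈ S, ∃ b ∈ S, dst (wl (cset ℓ S)) x (h * a) + 1 + dst (wl (cset ℓ S)) (h * b) y ≤
        dst (wl (cset ℓ S)) x y := by
  obtain ⟨R₀, hR⟩ := cmorse H κ
  set R₁ := R₀ + K + 2 * δ with hR₁
  refine ⟨2 * (3 + (C + 2 * θ)) + (2 * R₁ + 1) * (C + 2 * θ) + 1, ?_⟩
  intro S R P pt q Ax hS x y h hB
  have hM := hR S hS
  obtain ⟨a, a0, am, ha⟩ := hat_geod H S x y
  set d := dst (wl (cset ℓ S)) with hd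
  set m := d x y with hm
  have dcomm : ∀ x y, d x y = d y x := hat_comm H S
  have dtri : ∀ x y z, d x z ≤ d x y + d y z := hat_tri H S
  by_contra hcon
  have astep : ∀ i < m, (a i)⁻¹ * a (i + 1) ∈ cset ℓ S := by
    intro i hi
    rw [← wl_le_one (cset_gen H S) (cset_one H S)]
    have := ha i (i + 1) (by omega) (by omega)
    show d (a i) (a (i + 1)) ≤ 1
    omega
  -- no step inside the translate
  have hno : ∀ t < m, ¬ (h⁻¹ * a t ∈ S ∧ h⁻¹ * a (t + 1) ∈ S) := by
    rintro t ht ⟨h1, h2⟩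
    apply hcon
    refine ⟨_, h1, _, h2, ?_⟩
    rw [mul_inv_cancel_left, mul_inv_cancel_left]
    have h3 := ha 0 t (Nat.zero_le _) (by omega)
    have h4 := ha (t + 1) m (by omega) le_rfl
    rw [a0] at h3
    rw [am] at h4
    omega
  let f : ℕ → ℤ := fun i => P (h⁻¹ * a i)
  set L : ℕ := C + 2 * θ with hL
  have fstep : ∀ i < m, |f i - f (i + 1)| ≤ L := by
    intro i hi
    have hθ : (0 : ℤ) ≤ θ := Int.natCast_nonneg _
    have hC : (0 : ℤ) ≤ C := Int.natCast_nonneg _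
    rcases astep i hi with hs | ⟨s, hs, s', hs', e⟩
    · have h1 := Ax.lip (h⁻¹ * a i) _ hs
      have e : h⁻¹ * a i * ((a i)⁻¹ * a (i + 1)) = h⁻¹ * a (i + 1) := by group
      rw [e, abs_sub_comm] at h1
      rw [hL]; push_cast; linarith
    · have e1 : h⁻¹ * a i = (h⁻¹ * a i * s⁻¹) * s := by group
      have e2 : h⁻¹ * a (i + 1) = (h⁻¹ * a i * s⁻¹) * s' := by
        have : a (i + 1) = a i * (s⁻¹ * s') := by rw [← e]; group
        rw [this]; group
      by_cases hg : h⁻¹ * a i * s⁻¹ ∈ Subgroup.zpowers R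
      · exfalso
        obtain ⟨k, hk⟩ := Subgroup.mem_zpowers_iff.mp hg
        apply hno i hi
        constructor
        · rw [e1, ← hk]; exact Ax.smul_mem k s hs
        · rw [e2, ← hk]; exact Ax.smul_mem k s' hs'
      · have h1 := Ax.bdd _ hg s hs
        have h2 := Ax.bdd _ hg s' hs'
        rw [← e1] at h1
        rw [← e2] at h2
        have h3 : |f i - f (i + 1)| ≤ |f i - P (h⁻¹ * a i * s⁻¹)| + |P (h⁻¹ * a i * s⁻¹) - f (i + 1)| :=
          abs_sub_le _ _ _
        rw [abs_sub_comm (P (h⁻¹ * a i * s⁻¹))] at h3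
        rw [hL]; push_cast
        have h4 : |f i - P (h⁻¹ * a i * s⁻¹)| ≤ θ := h1
        have h5 : |f (i + 1) - P (h⁻¹ * a i * s⁻¹)| ≤ θ := h2
        linarith
  have fbd : ∀ i j, i ≤ j → j ≤ m → |f i - f j| ≤ L * (j - i : ℕ) := by
    intro i j hij
    induction j, hij using Nat.le_induction with
    | base => intro _; simp
    | succ j hj ih =>
      intro hjm
      have h1 := ih (by omega)
      have h2 := fstep j (by omega)
      have h3 : |f i - f (j + 1)| ≤ |f i - f j| + |f j - f (j + 1)| := abs_sub_le _ _ _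
      have h4 : j + 1 - i = (j - i) + 1 := by omega
      rw [h4]; push_cast
      push_cast at h1
      nlinarith
  let near : ℕ → Prop := fun i => ∃ s ∈ S, d (h * s) (a i) ≤ R₁
  -- large projection implies a near vertex
  have key : ∀ i j, i ≤ j → j ≤ m → (3 : ℤ) ≤ |f i - f j| → ∃ l, i ≤ l ∧ l ≤ j ∧ near l := by
    intro i j hij hj hK
    obtain ⟨k, hk⟩ : ∃ k : ℤ, dst ℓ (h⁻¹ * a i) (pt k) + dst ℓ (pt k) (h⁻¹ * a j) ≤
        dst ℓ (h⁻¹ * a i) (h⁻¹ * a j) + K := by
      rcases le_abs.mp hK with h1 | h1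
      · refine ⟨f j + 2, ?_⟩
        have := Ax.near (h⁻¹ * a j) (h⁻¹ * a i) (f j + 2) (le_refl _) (by
          show f j + 2 + 1 ≤ f i
          linarith)
        rw [H.dst_comm (h⁻¹ * a i) (pt (f j + 2)), H.dst_comm (pt (f j + 2)) (h⁻¹ * a j),
          H.dst_comm (h⁻¹ * a i) (h⁻¹ * a j)]
        omega
      · refine ⟨f i + 2, ?_⟩
        exact Ax.near (h⁻¹ * a i) (h⁻¹ * a j) (f i + 2) (le_refl _) (by
          show f i + 2 + 1 ≤ f j
          linarith)
    set z := h * pt k with hz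
    have e1 : dst ℓ (h⁻¹ * a i) (pt k) = dst ℓ (a i) z := by
      rw [← dst_mul_left ℓ h, mul_inv_cancel_left]
    have e2 : dst ℓ (pt k) (h⁻¹ * a j) = dst ℓ z (a j) := by
      rw [← dst_mul_left ℓ h, mul_inv_cancel_left]
    have e3 : dst ℓ (h⁻¹ * a i) (h⁻¹ * a j) = dst ℓ (a i) (a j) := dst_mul_left _ _ _ _
    rw [e1, e2, e3] at hk
    have h3 : gpr ℓ (a i) (a j) z ≤ 2 * K := by
      unfold gpr
      rw [H.dst_comm (a j) z]
      omega
    obtain ⟨l, hl, hle⟩ := morse_near H S R₀ hM (j - i) (fun l => a (i + l)) (by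
        intro l l' hl hl'
        have h7 : dst (wl (cset ℓ S)) (a (i + l)) (a (i + l')) = (i + l') - (i + l) :=
          ha (i + l) (i + l') (by omega) (by omega)
        rw [h7]
        omega) z K (by
        simp only [add_zero]
        rw [show i + (j - i) = j by omega]
        exact h3)
    exact ⟨i + l, by omega, by omega, pt k, Ax.pt_mem k, by rw [hR₁]; exact hle⟩
  have hfm : (2 * (3 + L) + (2 * R₁ + 1) * L + 1 : ℤ) ≤ |f 0 - f m| := by
    have : |P (h⁻¹ * x) - P (h⁻¹ * y)| = |f 0 - f m| := by simp only [f, a0, am]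
    rw [← this]
    push_cast at hB
    rw [hL]; push_cast
    exact hB
  have hKL : (0 : ℤ) ≤ (2 * R₁ + 1) * L := by positivity
  have hL0 : (0 : ℤ) ≤ L := Int.natCast_nonneg _
  -- the first near vertex
  have ex : ∃ l, l ≤ m ∧ near l := by
    obtain ⟨l, -, hl, hn⟩ := key 0 m (Nat.zero_le _) le_rfl (by linarith)
    exact ⟨l, hl, hn⟩
  classical
  set i1 := Nat.find ex with hi1
  obtain ⟨hi1m, hn1⟩ := Nat.find_spec ex
  rw [← hi1] at hi1m hn1
  have hf1 : |f 0 - f i1| ≤ 3 + L := by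
    rcases Nat.eq_zero_or_pos i1 with h0 | h0
    · rw [h0, sub_self, abs_zero]; positivity
    · have h1 : |f 0 - f (i1 - 1)| < 3 := by
        by_contra hge
        push Not at hge
        obtain ⟨l, -, hl, hn⟩ := key 0 (i1 - 1) (Nat.zero_le _) (by omega) hge
        exact Nat.find_min ex (m := l) (by omega) ⟨by omega, hn⟩
      have h2 := fstep (i1 - 1) (by omega)
      rw [show i1 - 1 + 1 = i1 by omega] at h2
      have h3 : |f 0 - f i1| ≤ |f 0 - f (i1 - 1)| + |f (i1 - 1) - f i1| := abs_sub_le _ _ _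
      linarith
  -- the last near vertex
  obtain ⟨i2, hi2m, hn2, hlast⟩ : ∃ i2 ≤ m, near i2 ∧ ∀ l, l ≤ m → near l → l ≤ i2 := by
    refine ⟨Nat.findGreatest near m, Nat.findGreatest_le m, ?_, ?_⟩
    · exact Nat.findGreatest_spec (P := near) hi1m hn1
    · intro l hl hn
      exact Nat.le_findGreatest hl hn
  have hf2 : |f i2 - f m| ≤ 3 + L := by
    rcases Nat.eq_or_lt_of_le hi2m with h0 | h0
    · rw [h0, sub_self, abs_zero]; positivity
    · have h1 : |f (i2 + 1) - f m| < 3 := by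
        by_contra hge
        push Not at hge
        obtain ⟨l, hl, hl', hn⟩ := key (i2 + 1) m (by omega) le_rfl hge
        have := hlast l hl' hn
        omega
      have h2 := fstep i2 h0
      have h3 : |f i2 - f m| ≤ |f i2 - f (i2 + 1)| + |f (i2 + 1) - f m| := abs_sub_le _ _ _
      linarith
  have h12 : i1 ≤ i2 := hlast i1 hi1m hn1
  have hlen : i2 - i1 ≤ 2 * R₁ + 1 := by
    obtain ⟨s1, hs1, hk1⟩ := hn1
    obtain ⟨s2, hs2, hk2⟩ := hn2
    have h1 : d (h * s1) (h * s2) ≤ 1 := hat_le_one H S h s1 s2 hs1 hs2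
    have h2 := dtri (a i1) (h * s1) (a i2)
    have h3 := dtri (h * s1) (h * s2) (a i2)
    have h4 := dcomm (a i1) (h * s1)
    have h5 := ha i1 i2 h12 hi2m
    omega
  have hf3 := fbd i1 i2 h12 hi2m
  have hlen' : ((i2 - i1 : ℕ) : ℤ) ≤ 2 * R₁ + 1 := by exact_mod_cast hlen
  have hf3' : |f i1 - f i2| ≤ L * (2 * R₁ + 1) := by
    refine hf3.trans ?_
    exact mul_le_mul_of_nonneg_left hlen' (Int.natCast_nonneg _)
  have h1 : |f 0 - f m| ≤ |f 0 - f i1| + |f i1 - f i2| + |f i2 - f m| := by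
    have h2 : |f 0 - f m| ≤ |f 0 - f i1| + |f i1 - f m| := abs_sub_le _ _ _
    have h3 : |f i1 - f m| ≤ |f i1 - f i2| + |f i2 - f m| := abs_sub_le _ _ _
    linarith
  have e : (L : ℤ) * (2 * R₁ + 1) = (2 * R₁ + 1) * L := mul_comm _ _
  rw [e] at hf3'
  linarith

end Pool.Agent.Lib.MP_e1b29e_al
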