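import Pool.Agent.Lib.MP_e1b29e_al.Defs

/-! T8a : chains of segments. -/

set_option autoImplicit false

namespace Pool.Agent.Lib.MP_e1b29e_al

open Pool.Agent.Lib.MP_06935a_al
open scoped Pointwise

variable {Γ : Type} [Group Γ] {ℓ : Γ → ℕ} {δ : ℕ}

section chain

variable {u : Γ} {p : Γ → ℤ} {K₀ K C θ lam W : ℕ} {T : ℤ → ℤ} {v h : ℤ → Γ} {q : ℕ}

theorem Chn.h_pred (D : Chn ℓ u p K₀ K C θ lam W T v h q) (i : ℤ) :
    h i = h (i + 1) * (u ^ T i * v i)⁻¹ := by
  rw [D.hs i]; group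

theorem Chn.h_shift_one (D : Chn ℓ u p K₀ K C θ lam W T v h q) (i : ℤ) :
    h (i + q) = h q * h i := by
  induction i using Int.induction_on with
  | zero => rw [zero_add, D.h0, mul_one]
  | succ i ih =>
    have e : ((i : ℤ) + 1 + q) = (i + q) + 1 := by ring
    rw [e, D.hs, ih, D.Tq, D.vq, D.hs (i : ℤ)]
    group
  | pred i ih =>
    have h1 := D.h_pred (-(i : ℤ) - 1 + q)
    have e : (-(i : ℤ) - 1 + q + 1) = (-(i : ℤ) + q) := by ring
    rw [e, ih, D.Tq, D.vq] at h1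
    rw [h1]
    have h2 := D.h_pred (-(i : ℤ) - 1)
    have e2 : (-(i : ℤ) - 1 + 1) = (-(i : ℤ)) := by ring
    rw [e2] at h2
    rw [h2, mul_assoc]

theorem Chn.h_shift (D : Chn ℓ u p K₀ K C θ lam W T v h q) (i n : ℤ) :
    h (i + n * q) = h q ^ n * h i := by
  induction n using Int.induction_on with
  | zero => simp
  | succ n ih =>
    have e : i + ((n : ℤ) + 1) * q = (i + n * q) + q := by ring
    rw [e, D.h_shift_one, ih, ← mul_assoc, ← zpow_one_add, add_comm (1 : ℤ)]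
  | pred n ih =>
    have e : i + -(n : ℤ) * q = (i + (-(n : ℤ) - 1) * q) + q := by ring
    rw [e, D.h_shift_one] at ih
    have h2 : h (i + (-(n : ℤ) - 1) * q) = (h q)⁻¹ * (h q ^ (-(n : ℤ)) * h i) := by
      rw [← ih]; group
    rw [h2, ← mul_assoc, ← zpow_neg_one, ← zpow_add]
    congr 2
    ring

theorem Chn.T_shift (D : Chn ℓ u p K₀ K C θ lam W T v h q) (i n : ℤ) : T (i + n * q) = T i := by
  induction n using Int.induction_on with
  | zero => simp
  | succ n ih =>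
    have e : i + ((n : ℤ) + 1) * q = (i + n * q) + q := by ring
    rw [e, D.Tq, ih]
  | pred n ih =>
    have e : i + -(n : ℤ) * q = (i + (-(n : ℤ) - 1) * q) + q := by ring
    rw [e, D.Tq] at ih
    exact ih

theorem Chn.p_zpow (D : Chn ℓ u p K₀ K C θ lam W T v h q) (n : ℤ) (x : Γ) :
    p (u ^ n * x) = p x + n := by
  induction n using Int.induction_on with
  | zero => simp
  | succ n ih =>
    rw [zpow_add_one, (Commute.zpow_self u (n : ℤ)).eq, mul_assoc, D.PS.shift, ih]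
    ring
  | pred n ih =>
    have h1 := D.PS.shift (u ^ (-(n : ℤ) - 1) * x)
    have e : u * (u ^ (-(n : ℤ) - 1) * x) = u ^ (-(n : ℤ)) * x := by
      rw [← mul_assoc, ← zpow_one_add]; congr 2; ring
    rw [e, ih] at h1
    linarith

theorem Chn.p_pow (D : Chn ℓ u p K₀ K C θ lam W T v h q) (n : ℤ) : p (u ^ n) = n := by
  have := D.p_zpow n 1
  rw [mul_one, D.p1, zero_add] at this
  exact this

/-- iterated Lipschitz bound -/
theorem Chn.lipl (H : HypLen ℓ δ) (D : Chn ℓ u p K₀ K C θ lam W T v h q) (x s : Γ) :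
    |p (x * s) - p x| ≤ C * ℓ s := by
  have key : ∀ (n : ℕ) (x s : Γ), ℓ s = n → |p (x * s) - p x| ≤ C * n := by
    intro n
    induction n with
    | zero =>
      intro x s hs
      have : s = 1 := H.eq_one s hs
      simp [this]
    | succ n ih =>
      intro x s hs
      obtain ⟨y, z, rfl, hy, hz⟩ := H.split s 1 (by omega)
      have h1 := D.PS.lip x y (by omega)
      have h2 := ih (x * y) z (by omega)
      rw [mul_assoc] at h2
      have h3 := abs_sub_le (p (x * (y * z))) (p (x * y)) (p x)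
      push_cast
      linarith
  exact key _ x s rfl

theorem Chn.zpow_ne (_H : HypLen ℓ δ) (D : Chn ℓ u p K₀ K C θ lam W T v h q) {n : ℤ} (hn : n ≠ 0) :
    u ^ n ≠ 1 := by
  intro h1
  have h2 := D.p_pow n
  rw [h1, D.p1] at h2
  exact hn h2.symm

theorem Chn.Wpos (D : Chn ℓ u p K₀ K C θ lam W T v h q) : 1 ≤ W := by
  have := D.hW; omega

/-- `C * lam + θ ≤ W` etc. as integer inequalities -/
theorem Chn.hWz (D : Chn ℓ u p K₀ K C θ lam W T v h q) :
    (C : ℤ) * lam + θ + C + K + K₀ + lam + 1 ≤ W := by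
  have := D.hW
  exact_mod_cast this

theorem Chn.step_eq (D : Chn ℓ u p K₀ K C θ lam W T v h q) (i : ℤ) :
    (h i)⁻¹ * h (i + 1) = u ^ T i * v i := by
  rw [D.hs i]; group

theorem Chn.step_notMem (D : Chn ℓ u p K₀ K C θ lam W T v h q) (i : ℤ) :
    (h i)⁻¹ * h (i + 1) ∉ Subgroup.zpowers u := by
  rw [D.step_eq]
  intro h1
  exact D.vU i ((Subgroup.mul_mem_cancel_left _ (Subgroup.zpow_mem_zpowers u _)).1 h1)

theorem Chn.pv (H : HypLen ℓ δ) (D : Chn ℓ u p K₀ K C θ lam W T v h q) (i : ℤ) :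
    |p (v i)| ≤ C * lam := by
  have h1 := D.lipl H 1 (v i)
  rw [one_mul, D.p1, sub_zero] at h1
  have h2 : (ℓ (v i) : ℤ) ≤ lam := by exact_mod_cast D.vl i
  have h3 : (C : ℤ) * ℓ (v i) ≤ C * lam := mul_le_mul_of_nonneg_left h2 (by positivity)
  linarith

theorem Chn.pvi (H : HypLen ℓ δ) (D : Chn ℓ u p K₀ K C θ lam W T v h q) (i : ℤ) :
    |p (v i)⁻¹| ≤ C * lam := by
  have h1 := D.lipl H 1 (v i)⁻¹
  rw [one_mul, D.p1, sub_zero, H.inv] at h1
  have h2 : (ℓ (v i) : ℤ) ≤ lam := by exact_mod_cast D.vl i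
  have h3 : (C : ℤ) * ℓ (v i) ≤ C * lam := mul_le_mul_of_nonneg_left h2 (by positivity)
  linarith

/-- forward step -/
theorem Chn.p_step (H : HypLen ℓ δ) (D : Chn ℓ u p K₀ K C θ lam W T v h q) (i : ℤ) :
    |p ((h i)⁻¹ * h (i + 1)) - T i| ≤ C * lam := by
  rw [D.step_eq, D.p_zpow, add_sub_cancel_right]
  exact D.pv H i

/-- backward step -/
theorem Chn.p_step_inv (H : HypLen ℓ δ) (D : Chn ℓ u p K₀ K C θ lam W T v h q) (i : ℤ) :
    |p ((h i)⁻¹ * h (i + 1))⁻¹| ≤ C * lam + θ := by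
  rw [D.step_eq, mul_inv_rev, ← zpow_neg]
  have hv : (v i)⁻¹ ∉ Subgroup.zpowers u := fun h1 => D.vU i (inv_mem_iff.1 h1)
  have h1 := D.PS.bdd (v i)⁻¹ hv (-T i)
  have h2 := D.pvi H i
  rw [abs_le] at *
  constructor <;> linarith [h1.1, h1.2, h2.1, h2.2]

theorem Chn.gt (H : HypLen ℓ δ) (D : Chn ℓ u p K₀ K C θ lam W T v h q) {i j : ℤ} (hij : i < j) :
    |p ((h i)⁻¹ * h j) - T i| ≤ 2 * W := by
  have key : ∀ (n : ℕ) (i : ℤ), |p ((h i)⁻¹ * h (i + 1 + n)) - T i| ≤ 2 * W := by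
    intro n
    induction n with
    | zero =>
      intro i
      have h1 := D.p_step H i
      have h2 := D.hWz
      have h3 : (0 : ℤ) ≤ θ := by positivity
      have h4 : (0 : ℤ) ≤ C * lam := by positivity
      rw [Nat.cast_zero, add_zero]
      have : (C : ℤ) * lam ≤ 2 * W := by linarith
      linarith
    | succ n ih =>
      intro i
      have h1 := D.p_step H i
      have h2 := D.hWz
      have h3 := D.p_step_inv H i
      have h4 := ih (i + 1)
      have e : i + 1 + ((n + 1 : ℕ) : ℤ) = i + 1 + 1 + n := by push_cast; ring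
      rw [e]
      have hT := D.TW (i + 1)
      have h7 : (0 : ℤ) ≤ C * lam := by positivity
      rcases D.PS.behr _ (D.step_notMem i) ((h i)⁻¹ * h (i + 1 + 1 + n)) with h5 | h5
      · rw [abs_le] at *
        constructor <;> linarith [h1.1, h1.2, h5.1, h5.2]
      · have e2 : ((h i)⁻¹ * h (i + 1))⁻¹ * ((h i)⁻¹ * h (i + 1 + 1 + n)) =
            (h (i + 1))⁻¹ * h (i + 1 + 1 + n) := by group
        rw [e2] at h5
        exfalso
        rw [abs_le] at *
        linarith [h3.1, h3.2, h4.1, h4.2, h5.1, h5.2]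
  obtain ⟨n, hn⟩ := Int.eq_ofNat_of_zero_le (show 0 ≤ j - i - 1 by omega)
  have := key n i
  have e : i + 1 + (n : ℤ) = j := by omega
  rwa [e] at this

theorem Chn.lt (H : HypLen ℓ δ) (D : Chn ℓ u p K₀ K C θ lam W T v h q) {i j : ℤ} (hij : j < i) :
    |p ((h i)⁻¹ * h j)| ≤ 2 * W := by
  have key : ∀ (n : ℕ) (i : ℤ), |p ((h (i + 1))⁻¹ * h (i - n))| ≤ 2 * W := by
    intro n
    induction n with
    | zero =>
      intro i
      have h1 := D.p_step_inv H i
      have h2 := D.hWz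
      have e : (h (i + 1))⁻¹ * h (i - (0 : ℕ)) = ((h i)⁻¹ * h (i + 1))⁻¹ := by
        simp
      rw [e]
      linarith
    | succ n ih =>
      intro i
      have h1 := D.p_step H i
      have h2 := D.hWz
      have h3 := D.p_step_inv H i
      have h4 := ih (i - 1)
      have e : i - ((n + 1 : ℕ) : ℤ) = i - 1 - n := by push_cast; ring
      rw [e]
      rw [sub_add_cancel] at h4
      have hT := D.TW i
      have h7 : (0 : ℤ) ≤ C * lam := by positivity
      have hg : ((h i)⁻¹ * h (i + 1))⁻¹ ∉ Subgroup.zpowers u :=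
        fun h1 => D.step_notMem i (inv_mem_iff.1 h1)
      rcases D.PS.behr _ hg ((h (i + 1))⁻¹ * h (i - 1 - n)) with h5 | h5
      · rw [abs_le] at *
        constructor <;> linarith [h3.1, h3.2, h5.1, h5.2]
      · have e2 : ((h i)⁻¹ * h (i + 1))⁻¹⁻¹ * ((h (i + 1))⁻¹ * h (i - 1 - n)) =
            (h i)⁻¹ * h (i - 1 - n) := by group
        rw [e2, inv_inv] at h5
        exfalso
        rw [abs_le] at *
        linarith [h1.1, h1.2, h4.1, h4.2, h5.1, h5.2]
  obtain ⟨n, hn⟩ := Int.eq_ofNat_of_zero_le (show 0 ≤ i - 1 - j by omega)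
  have := key n (i - 1)
  have e : i - 1 - (n : ℤ) = j := by omega
  rw [e, sub_add_cancel] at this
  exact this

theorem Chn.coset_ne (H : HypLen ℓ δ) (D : Chn ℓ u p K₀ K C θ lam W T v h q) {i j : ℤ}
    (hij : i ≠ j) : (h i)⁻¹ * h j ∉ Subgroup.zpowers u := by
  have key : ∀ {i j : ℤ}, i < j → (h i)⁻¹ * h j ∉ Subgroup.zpowers u := by
    intro i j hij hmem
    obtain ⟨m, hm⟩ := Subgroup.mem_zpowers_iff.1 hmem
    have h1 := D.gt H hij
    have h2 := D.lt H hij
    rw [← hm, D.p_pow] at h1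
    have e : (h j)⁻¹ * h i = u ^ (-m) := by
      rw [zpow_neg, hm]; group
    rw [e, D.p_pow] at h2
    have hT := D.TW i
    have hW := D.Wpos
    rw [abs_le] at *
    have : (1 : ℤ) ≤ W := by exact_mod_cast hW
    linarith [h1.1, h1.2, h2.1, h2.2]
  rcases lt_or_gt_of_ne hij with h1 | h1
  · exact key h1
  · intro hmem
    apply key h1
    have : (h j)⁻¹ * h i = ((h i)⁻¹ * h j)⁻¹ := by group
    rw [this]
    exact inv_mem hmem

theorem Chn.h_inj (H : HypLen ℓ δ) (D : Chn ℓ u p K₀ K C θ lam W T v h q) :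
    Function.Injective h := by
  intro i j hij
  by_contra hne
  apply D.coset_ne H hne
  rw [hij, inv_mul_cancel]
  exact one_mem _

theorem Chn.rt_succ (H : HypLen ℓ δ) (D : Chn ℓ u p K₀ K C θ lam W T v h q) {x : Γ} {i : ℤ}
    (hx : rt p T h x (i + 1)) : |p ((h i)⁻¹ * x) - T i| ≤ 2 * W ∧ rt p T h x i := by
  unfold rt at *
  have h1 := D.p_step H i
  have h2 := D.hWz
  have h3 := D.p_step_inv H i
  have hT := D.TW i
  have hT' := D.TW (i + 1)
  have h7 : (0 : ℤ) ≤ C * lam := by positivity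
  rcases D.PS.behr _ (D.step_notMem i) ((h i)⁻¹ * x) with h5 | h5
  · rw [abs_le] at *
    refine ⟨⟨?_, ?_⟩, ?_⟩ <;> linarith [h1.1, h1.2, h5.1, h5.2]
  · have e2 : ((h i)⁻¹ * h (i + 1))⁻¹ * ((h i)⁻¹ * x) = (h (i + 1))⁻¹ * x := by group
    rw [e2] at h5
    exfalso
    rw [abs_le] at *
    linarith [h3.1, h3.2, h5.1, h5.2]

theorem Chn.not_rt (H : HypLen ℓ δ) (D : Chn ℓ u p K₀ K C θ lam W T v h q) {x : Γ} {i : ℤ}
    (hx : ¬ rt p T h x i) : |p ((h (i + 1))⁻¹ * x)| ≤ 2 * W ∧ ¬ rt p T h x (i + 1) := by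
  unfold rt at *
  have h1 := D.p_step H i
  have h2 := D.hWz
  have h3 := D.p_step_inv H i
  have hT := D.TW i
  have hT' := D.TW (i + 1)
  have h7 : (0 : ℤ) ≤ C * lam := by positivity
  rw [not_lt] at hx
  rcases D.PS.behr _ (D.step_notMem i) ((h i)⁻¹ * x) with h5 | h5
  · exfalso
    rw [abs_le] at *
    linarith [h1.1, h1.2, h5.1, h5.2]
  · have e2 : ((h i)⁻¹ * h (i + 1))⁻¹ * ((h i)⁻¹ * x) = (h (i + 1))⁻¹ * x := by group
    rw [e2] at h5
    rw [abs_le] at *
    refine ⟨⟨?_, ?_⟩, ?_⟩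
    · linarith [h3.1, h3.2, h5.1, h5.2]
    · linarith [h3.1, h3.2, h5.1, h5.2]
    · rw [not_lt]
      linarith [h3.1, h3.2, h5.1, h5.2]

theorem chn_len_zpow (H : HypLen ℓ δ) (u : Γ) (m : ℤ) {w : ℕ} (hm : |m| ≤ w) :
    ℓ (u ^ m) ≤ w * ℓ u := by
  have key : ∀ n : ℕ, ℓ (u ^ n) ≤ n * ℓ u := by
    intro n
    induction n with
    | zero => simp [H.one]
    | succ n ih =>
      rw [pow_succ]
      have := H.mul (u ^ n) u
      calc ℓ (u ^ n * u) ≤ ℓ (u ^ n) + ℓ u := this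
        _ ≤ n * ℓ u + ℓ u := by omega
        _ = (n + 1) * ℓ u := by ring
  rw [H.zpow_natAbs]
  refine (key _).trans (Nat.mul_le_mul_right _ ?_)
  have := Int.natCast_natAbs m
  omega

/-- a segment crossed from left to right is close to geodesics -/
theorem Chn.near2 (H : HypLen ℓ δ) (D : Chn ℓ u p K₀ K C θ lam W T v h q) {x y : Γ} {i : ℤ}
    (hx : |p ((h i)⁻¹ * x)| ≤ 3 * W) (hy : |p ((h i)⁻¹ * y) - T i| ≤ 3 * W) :
    dst ℓ x (h i) + dst ℓ (h i) y ≤ dst ℓ x y + (K + 6 * W * ℓ u) ∧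
    dst ℓ x (h i * u ^ T i) + dst ℓ (h i * u ^ T i) y ≤ dst ℓ x y + (K + 6 * W * ℓ u) := by
  have hW := D.hWz
  have hT := D.TW i
  set x' := (h i)⁻¹ * x with hx'
  set y' := (h i)⁻¹ * y with hy'
  have h7 : (0 : ℤ) ≤ C * lam := by positivity
  have hK : (K : ℤ) ≤ |p x' - p y'| := by
    rw [abs_sub_comm]
    refine le_trans ?_ (le_abs_self _)
    rw [abs_le] at hx hy
    linarith [hx.1, hx.2, hy.1, hy.2]
  have h2 := D.MP.two x' y' hK
  have dx : ∀ z : Γ, dst ℓ x (h i * z) = dst ℓ x' z := by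
    intro z
    rw [← dst_mul_left ℓ (h i)⁻¹, hx', inv_mul_cancel_left]
  have dy : ∀ z : Γ, dst ℓ (h i * z) y = dst ℓ z y' := by
    intro z
    rw [← dst_mul_left ℓ (h i)⁻¹, hy', inv_mul_cancel_left]
  have dxy : dst ℓ x y = dst ℓ x' y' := by
    rw [← dst_mul_left ℓ (h i)⁻¹]
  have a1 : ℓ (u ^ p x') ≤ 3 * W * ℓ u := chn_len_zpow H u _ (by push_cast; exact hx)
  have a2 : ℓ (u ^ (p y' - T i)) ≤ 3 * W * ℓ u := chn_len_zpow H u _ (by push_cast; exact hy)
  constructor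
  · have e1 := dx 1
    have e2 := dy 1
    rw [mul_one] at e1 e2
    rw [e1, e2, dxy]
    have b1 := H.dst_tri x' (u ^ p x') 1
    have b2 := H.dst_tri 1 (u ^ p y') y'
    rw [H.dst_one_right (u ^ p x')] at b1
    rw [dst_one_left ℓ (u ^ p y')] at b2
    have b3 : ℓ (u ^ p y') ≤ ℓ (u ^ p x') + ℓ (u ^ (p x' - p y')) := by
      have := H.mul (u ^ p x') (u ^ (-(p x' - p y')))
      rw [← zpow_add, H.zpow_neg] at this
      have e : p x' + -(p x' - p y') = p y' := by ring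
      rwa [e] at this
    have e6 : 6 * W * ℓ u = 3 * W * ℓ u + 3 * W * ℓ u := by ring
    omega
  · rw [dx, dy, dxy]
    have b1 := H.dst_tri x' (u ^ p x') (u ^ T i)
    have b2 := H.dst_tri (u ^ T i) (u ^ p y') y'
    rw [H.dst_zpow] at b1 b2
    have b3 : ℓ (u ^ (p x' - T i)) ≤ ℓ (u ^ (p x' - p y')) + ℓ (u ^ (p y' - T i)) := by
      have := H.mul (u ^ (p x' - p y')) (u ^ (p y' - T i))
      rw [← zpow_add] at this
      have e : p x' - p y' + (p y' - T i) = p x' - T i := by ring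
      rwa [e] at this
    have b4 : ℓ (u ^ (T i - p y')) = ℓ (u ^ (p y' - T i)) := by
      rw [← H.zpow_neg]; congr 2; ring
    have e6 : 6 * W * ℓ u = 3 * W * ℓ u + 3 * W * ℓ u := by ring
    omega

theorem Chn.rt_h (H : HypLen ℓ δ) (D : Chn ℓ u p K₀ K C θ lam W T v h q) (i j : ℤ) :
    rt p T h (h j) i ↔ i < j := by
  unfold rt
  have hW : (1 : ℤ) ≤ W := by exact_mod_cast D.Wpos
  have hT := D.TW i
  rcases lt_trichotomy i j with h1 | h1 | h1
  · have h2 := D.gt H h1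
    rw [abs_le] at h2
    constructor
    · intro _; exact h1
    · intro _; linarith [h2.1, h2.2]
  · subst h1
    rw [inv_mul_cancel, D.p1]
    constructor
    · intro h2; linarith
    · intro h2; exact absurd h2 (lt_irrefl _)
  · have h2 := D.lt H h1
    rw [abs_le] at h2
    constructor
    · intro h3; linarith [h2.1, h2.2]
    · intro h3; exact absurd h3 (not_lt.2 h1.le)

theorem Chn.rt_anti (H : HypLen ℓ δ) (D : Chn ℓ u p K₀ K C θ lam W T v h q) {x : Γ} {i j : ℤ}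
    (hij : i ≤ j) (hx : rt p T h x j) : rt p T h x i := by
  have key : ∀ (n : ℕ) (i : ℤ), rt p T h x (i + n) → rt p T h x i := by
    intro n
    induction n with
    | zero => intro i hi; simpa using hi
    | succ n ih =>
      intro i hi
      have e : i + ((n + 1 : ℕ) : ℤ) = (i + 1) + n := by push_cast; ring
      rw [e] at hi
      exact (D.rt_succ H (ih (i + 1) hi)).2
  obtain ⟨n, hn⟩ := Int.eq_ofNat_of_zero_le (show 0 ≤ j - i by omega)
  apply key n i
  have : i + (n : ℤ) = j := by omega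
  rwa [this]

theorem Chn.exists_idx (H : HypLen ℓ δ) (hp : ProperLen ℓ)
    (D : Chn ℓ u p K₀ K C θ lam W T v h q) : ∃ P : Γ → ℤ, IsIdx p T h P := by
  have hW : (1 : ℤ) ≤ W := by exact_mod_cast D.Wpos
  have hinj := D.h_inj H
  -- a ball cannot contain infinitely many nodes
  have noinf : ∀ (r : ℕ) (f : ℕ → ℤ), Function.Injective f → ¬ ∀ n : ℕ, ℓ (h (f n)) ≤ r := by
    intro r f hf hall
    have h1 : (Set.range fun n : ℕ => h (f n)).Infinite :=
      Set.infinite_range_of_injective (hinj.comp hf)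
    apply h1
    apply (hp r).subset
    rintro _ ⟨n, rfl⟩
    exact hall n
  have ex1 : ∀ x : Γ, ∃ i, rt p T h x i := by
    intro x
    by_contra hcon
    push Not at hcon
    apply noinf (dst ℓ x 1 + (K + 6 * W * ℓ u)) (fun n : ℕ => -1 - (n : ℤ))
      (fun a b hab => by simpa using hab)
    intro n
    have h1 := (D.not_rt H (hcon (-1 - (n : ℤ) - 1))).1
    rw [sub_add_cancel] at h1
    have h2 := D.gt H (show (-1 - (n : ℤ)) < 0 by omega)
    rw [D.h0] at h2
    have h3 := (D.near2 H (x := x) (y := 1) (i := -1 - (n : ℤ)) (by linarith) (by linarith)).1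
    rw [H.dst_one_right] at h3
    omega
  have ex2 : ∀ x : Γ, ∃ i, ¬ rt p T h x i := by
    intro x
    by_contra hcon
    push Not at hcon
    apply noinf (dst ℓ 1 x + (K + 6 * W * ℓ u)) (fun n : ℕ => 1 + (n : ℤ))
      (fun a b hab => by simpa using hab)
    intro n
    have h1 := (D.rt_succ H (hcon (1 + (n : ℤ) + 1))).1
    have h2 := D.lt H (show (0 : ℤ) < (1 + (n : ℤ)) by omega)
    rw [D.h0] at h2
    have h3 := (D.near2 H (x := 1) (y := x) (i := 1 + (n : ℤ)) (by linarith) (by linarith)).1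
    rw [dst_one_left] at h3
    omega
  have main : ∀ x : Γ, ∃ m : ℤ, ∀ i, rt p T h x i ↔ i ≤ m := by
    intro x
    obtain ⟨i0, hi0⟩ := ex1 x
    obtain ⟨b, hb⟩ := ex2 x
    have hbd : ∀ z : ℤ, rt p T h x z → z ≤ b := by
      intro z hz
      by_contra hlt
      push Not at hlt
      exact hb (D.rt_anti H hlt.le hz)
    obtain ⟨m, hm1, hm2⟩ := Int.exists_greatest_of_bdd ⟨b, hbd⟩ ⟨i0, hi0⟩
    exact ⟨m, fun i => ⟨fun hi => hm2 i hi, fun hi => D.rt_anti H hi hm1⟩⟩
  choose P hP using main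
  exact ⟨P, hP⟩

theorem Chn.idx_h (H : HypLen ℓ δ) (D : Chn ℓ u p K₀ K C θ lam W T v h q) {P : Γ → ℤ}
    (hP : IsIdx p T h P) (i : ℤ) : P (h i) = i - 1 := by
  have h1 := hP (h i)
  have h2 := (h1 (i - 1)).1 ((D.rt_h H _ _).2 (by omega))
  have h3 := (h1 (P (h i))).2 le_rfl
  have h4 := (D.rt_h H _ _).1 h3
  omega

theorem Chn.idx_shift (D : Chn ℓ u p K₀ K C θ lam W T v h q) {P : Γ → ℤ}
    (hP : IsIdx p T h P) (x : Γ) : P (h q * x) = P x + q := by
  have key : ∀ i : ℤ, rt p T h (h q * x) i ↔ rt p T h x (i - q) := by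
    intro i
    unfold rt
    have h1 := D.h_shift_one (i - q)
    have h2 := D.Tq (i - q)
    rw [sub_add_cancel] at h1 h2
    have e : (h i)⁻¹ * (h q * x) = (h (i - q))⁻¹ * x := by
      rw [h1]; group
    rw [e, h2]
  have h1 := fun i => (hP (h q * x) i).symm.trans ((key i).trans (hP x (i - q)))
  have h2 := (h1 (P (h q * x))).1 le_rfl
  have h3 := (h1 (P x + q)).2 (by omega)
  omega

theorem Chn.idx_lip (H : HypLen ℓ δ) (D : Chn ℓ u p K₀ K C θ lam W T v h q) {P : Γ → ℤ}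
    (hP : IsIdx p T h P) (x s : Γ) (hs : ℓ s ≤ 1) : |P (x * s) - P x| ≤ 1 := by
  have hWz := D.hWz
  have h7 : (0 : ℤ) ≤ C * lam := by positivity
  have key : ∀ y z : Γ, (∀ g : Γ, |p (g * y) - p (g * z)| ≤ C) → P y ≤ P z + 1 := by
    intro y z hyz
    by_contra hlt
    push Not at hlt
    have h1 : ¬ rt p T h z (P z + 1) := fun h1 => by
      have := (hP z (P z + 1)).1 h1
      omega
    have h2 : rt p T h y (P z + 1 + 1) := (hP y _).2 (by omega)
    have h3 := (D.rt_succ H h2).1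
    unfold rt at h1
    rw [not_lt] at h1
    have h4 := hyz (h (P z + 1))⁻¹
    have h5 := D.TW (P z + 1)
    rw [abs_le] at *
    linarith [h3.1, h3.2, h4.1, h4.2]
  have h1 := key (x * s) x fun g => by
    rw [← mul_assoc]; exact D.PS.lip _ _ hs
  have h2 := key x (x * s) fun g => by
    rw [← mul_assoc, abs_sub_comm]; exact D.PS.lip _ _ hs
  rw [abs_le]
  constructor <;> linarith

/-- the segment `i` is crossed if `P x + 2 ≤ i` and `i + 1 ≤ P y` -/
theorem Chn.idx_cross (H : HypLen ℓ δ) (D : Chn ℓ u p K₀ K C θ lam W T v h q) {P : Γ → ℤ}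
    (hP : IsIdx p T h P) {x y : Γ} {i : ℤ} (hx : P x + 2 ≤ i) (hy : i + 1 ≤ P y) :
    |p ((h i)⁻¹ * x)| ≤ 2 * W ∧ |p ((h i)⁻¹ * y) - T i| ≤ 2 * W := by
  constructor
  · have h1 : ¬ rt p T h x (i - 1) := fun h1 => by
      have := (hP x (i - 1)).1 h1
      omega
    have h2 := (D.not_rt H h1).1
    rwa [sub_add_cancel] at h2
  · exact (D.rt_succ H ((hP y (i + 1)).2 hy)).1

end chain

end Pool.Agent.Lib.MP_e1b29e_al
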