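import Pool.Agent.Lib.MP_e1b29e_al.Chain

/-! T8b : projections of a chain to the translates of a chain. -/

set_option autoImplicit false

namespace Pool.Agent.Lib.MP_e1b29e_al

open Pool.Agent.Lib.MP_06935a_al
open scoped Pointwise

variable {Γ : Type} [Group Γ] {ℓ : Γ → ℕ} {δ : ℕ}

section chain

variable {u : Γ} {p : Γ → ℤ} {K₀ K C θ lam W : ℕ} {T : ℤ → ℤ} {v h : ℤ → Γ} {q : ℕ}

theorem chn_abs_tri {a b c x y : ℤ} (h1 : |a - b| ≤ x) (h2 : |b - c| ≤ y) : |a - c| ≤ x + y := by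
  have := abs_sub_le a b c
  linarith

theorem Chn.h_mem (D : Chn ℓ u p K₀ K C θ lam W T v h q) (i : ℤ) : h i ∈ chS u T h := by
  refine ⟨i, 0, le_rfl, ?_, by simp⟩
  have := D.TW i
  have h2 : (0 : ℤ) ≤ W := by positivity
  linarith

theorem Chn.one_mem (D : Chn ℓ u p K₀ K C θ lam W T v h q) : (1 : Γ) ∈ chS u T h := by
  have := D.h_mem 0
  rwa [D.h0] at this

/-- change of the base point inside a coset -/
theorem Chn.p_coset (D : Chn ℓ u p K₀ K C θ lam W T v h q) {k : Γ}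
    (hk : k ∉ Subgroup.zpowers u) {z : Γ} (hz : z ∈ Subgroup.zpowers u) :
    |p (k * z) - p k| ≤ θ := by
  obtain ⟨m, rfl⟩ := Subgroup.mem_zpowers_iff.1 hz
  exact D.PS.bdd k hk m

theorem Chn.foreign_nodes (H : HypLen ℓ δ) (D : Chn ℓ u p K₀ K C θ lam W T v h q) {k : Γ}
    (hk : ∀ j : ℤ, k⁻¹ * h j ∉ Subgroup.zpowers u) {i i' : ℤ} (hi : i ≤ i') :
    |p (k⁻¹ * h i) - p (k⁻¹ * h i')| ≤ 3 * θ + C * lam := by
  have hWz := D.hWz
  have h7 : (0 : ℤ) ≤ C * lam := by positivity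
  have hθ : (0 : ℤ) ≤ θ := by positivity
  -- type R
  have hR : ∀ j i : ℤ, j < i → 3 * (W : ℤ) < |p ((h j)⁻¹ * k) - T j| →
      |p (k⁻¹ * h i) - p (k⁻¹ * h j)| ≤ θ := by
    intro j i hji hr
    rcases D.PS.behr _ (hk j) (k⁻¹ * h i) with h1 | h1
    · exact h1
    · exfalso
      have e1 : (k⁻¹ * h j)⁻¹ * (k⁻¹ * h i) = (h j)⁻¹ * h i := by group
      have e2 : (k⁻¹ * h j)⁻¹ = (h j)⁻¹ * k := by group
      rw [e1, e2] at h1
      have h2 := D.gt H hji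
      rw [abs_sub_comm] at h1
      have h3 := chn_abs_tri h1 h2
      linarith
  -- type L
  have hL : ∀ j i : ℤ, i < j → 3 * (W : ℤ) < |p ((h j)⁻¹ * k)| →
      |p (k⁻¹ * h i) - p (k⁻¹ * h j)| ≤ θ := by
    intro j i hji hr
    rcases D.PS.behr _ (hk j) (k⁻¹ * h i) with h1 | h1
    · exact h1
    · exfalso
      have e1 : (k⁻¹ * h j)⁻¹ * (k⁻¹ * h i) = (h j)⁻¹ * h i := by group
      have e2 : (k⁻¹ * h j)⁻¹ = (h j)⁻¹ * k := by group
      rw [e1, e2] at h1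
      have h2 := D.lt H hji
      rw [abs_le] at h1 h2
      rw [lt_abs] at hr
      rcases hr with hr | hr <;> linarith [h1.1, h1.2, h2.1, h2.2]
  have hRL : ∀ j, ¬ (3 * (W : ℤ) < |p ((h j)⁻¹ * k) - T j|) → 3 * (W : ℤ) < |p ((h j)⁻¹ * k)| := by
    intro j hj
    rw [not_lt, abs_le] at hj
    have hT := D.TW j
    have hW := D.Wpos
    refine lt_of_lt_of_le ?_ (le_abs_self _)
    have : (1 : ℤ) ≤ W := by exact_mod_cast hW
    linarith [hj.1, hj.2]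
  rcases hi.eq_or_lt with rfl | hi
  · rw [sub_self, abs_zero]; linarith
  by_cases hiR : 3 * (W : ℤ) < |p ((h i)⁻¹ * k) - T i|
  · have := hR i i' hi hiR
    rw [abs_sub_comm] at this
    linarith
  by_cases hiL : 3 * (W : ℤ) < |p ((h i')⁻¹ * k)|
  · have := hL i' i hi hiL
    linarith
  -- find the switch
  have hi'R : 3 * (W : ℤ) < |p ((h i')⁻¹ * k) - T i'| := by
    by_contra hcon
    exact hiL (hRL i' hcon)
  have sw : ∃ j, i ≤ j ∧ j + 1 ≤ i' ∧ ¬ (3 * (W : ℤ) < |p ((h j)⁻¹ * k) - T j|) ∧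
      3 * (W : ℤ) < |p ((h (j + 1))⁻¹ * k) - T (j + 1)| := by
    by_contra hcon
    push Not at hcon
    have key : ∀ n : ℕ, i + n ≤ i' → ¬ (3 * (W : ℤ) < |p ((h (i + n))⁻¹ * k) - T (i + n)|) := by
      intro n
      induction n with
      | zero => intro _; simpa using hiR
      | succ n ih =>
        intro hn
        push_cast at hn
        have h1 := ih (by omega)
        have h2 := hcon (i + n) (by omega) (by omega) (by rwa [not_lt] at h1)
        push_cast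
        rw [← add_assoc, not_lt]
        exact h2
    obtain ⟨n, hn⟩ := Int.eq_ofNat_of_zero_le (show 0 ≤ i' - i by omega)
    have e : i + (n : ℤ) = i' := by omega
    apply key n (by omega)
    rw [e]; exact hi'R
  obtain ⟨j, hj1, hj2, hj3, hj4⟩ := sw
  have s1 : |p (k⁻¹ * h i) - p (k⁻¹ * h j)| ≤ θ := by
    rcases hj1.eq_or_lt with rfl | hlt
    · rw [sub_self, abs_zero]; exact hθ
    · exact hL j i hlt (hRL j hj3)
  have s2 : |p (k⁻¹ * h j) - p (k⁻¹ * h j * u ^ T j)| ≤ θ := by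
    rw [abs_sub_comm]
    exact D.PS.bdd _ (hk j) _
  have s3 : |p (k⁻¹ * h j * u ^ T j) - p (k⁻¹ * h (j + 1))| ≤ C * lam := by
    rw [abs_sub_comm, D.hs j]
    have e : k⁻¹ * (h j * u ^ T j * v j) = k⁻¹ * h j * u ^ T j * v j := by group
    rw [e]
    refine (D.lipl H _ _).trans ?_
    have h2 : (ℓ (v j) : ℤ) ≤ lam := by exact_mod_cast D.vl j
    exact mul_le_mul_of_nonneg_left h2 (by positivity)
  have s4 : |p (k⁻¹ * h (j + 1)) - p (k⁻¹ * h i')| ≤ θ := by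
    rcases hj2.eq_or_lt with heq | hlt
    · rw [heq, sub_self, abs_zero]; exact hθ
    · rw [abs_sub_comm]
      exact hR (j + 1) i' hlt hj4
  have := chn_abs_tri (chn_abs_tri (chn_abs_tri s1 s2) s3) s4
  linarith

/-- the projection of the chain to a foreign coset is small -/
theorem Chn.foreign (H : HypLen ℓ δ) (D : Chn ℓ u p K₀ K C θ lam W T v h q) {k : Γ}
    (hk : ∀ j : ℤ, k⁻¹ * h j ∉ Subgroup.zpowers u) {a b : Γ} (ha : a ∈ chS u T h)
    (hb : b ∈ chS u T h) : |p (k⁻¹ * a) - p (k⁻¹ * b)| ≤ 5 * W := by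
  obtain ⟨i, s, -, -, rfl⟩ := ha
  obtain ⟨j, t, -, -, rfl⟩ := hb
  have hWz := D.hWz
  have h7 : (0 : ℤ) ≤ C * lam := by positivity
  have hθ : (0 : ℤ) ≤ θ := by positivity
  have s1 : |p (k⁻¹ * (h i * u ^ s)) - p (k⁻¹ * h i)| ≤ θ := by
    rw [← mul_assoc]; exact D.PS.bdd _ (hk i) _
  have s3 : |p (k⁻¹ * h j) - p (k⁻¹ * (h j * u ^ t))| ≤ θ := by
    rw [abs_sub_comm, ← mul_assoc]; exact D.PS.bdd _ (hk j) _
  have s2 : |p (k⁻¹ * h i) - p (k⁻¹ * h j)| ≤ 3 * θ + C * lam := by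
    rcases le_total i j with hij | hij
    · exact D.foreign_nodes H hk hij
    · rw [abs_sub_comm]; exact D.foreign_nodes H hk hij
  have := chn_abs_tri (chn_abs_tri s1 s2) s3
  linarith

/-- comparison of two coordinates on a common coset: the middle coset -/
theorem Chn.middle (H : HypLen ℓ δ) (D : Chn ℓ u p K₀ K C θ lam W T v h q) {g : Γ}
    {i j0 j j1 : ℤ} (h0 : (h (i - 1))⁻¹ * (g * h j0) ∈ Subgroup.zpowers u)
    (h1 : (h i)⁻¹ * (g * h j) ∈ Subgroup.zpowers u)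
    (h2 : (h (i + 1))⁻¹ * (g * h j1) ∈ Subgroup.zpowers u) :
    (q : ℤ) ∣ i - j ∧ j0 < j ∧ j < j1 := by
  have hWz := D.hWz
  have h7 : (0 : ℤ) ≤ C * lam := by positivity
  have hθ : (0 : ℤ) ≤ θ := by positivity
  have hTi := D.TW i
  have hTj := D.TW j
  -- general: same coset relation of indices
  have inj : ∀ {a b c d : ℤ}, a ≠ b → (h a)⁻¹ * (g * h c) ∈ Subgroup.zpowers u →
      (h b)⁻¹ * (g * h d) ∈ Subgroup.zpowers u → c ≠ d := by
    intro a b c d hab hc hd hcd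
    subst hcd
    apply D.coset_ne H hab
    have e : (h a)⁻¹ * h b = ((h a)⁻¹ * (g * h c)) * ((h b)⁻¹ * (g * h c))⁻¹ := by group
    rw [e]
    exact mul_mem hc (inv_mem hd)
  have n0 : j ≠ j0 := (inj (by omega) h0 h1).symm
  have n1 : j ≠ j1 := inj (by omega) h1 h2
  obtain ⟨m, hm⟩ := Subgroup.mem_zpowers_iff.1 h1
  -- p((g h_j)⁻¹ z) = p(h_i⁻¹ z) - m
  have coord : ∀ z : Γ, p ((g * h j)⁻¹ * z) = p ((h i)⁻¹ * z) - m := by
    intro z
    have e : (g * h j)⁻¹ * z = u ^ (-m) * ((h i)⁻¹ * z) := by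
      rw [zpow_neg, hm]; group
    rw [e, D.p_zpow]; ring
  -- the projection of a node h_b with g h_d in the same coset
  have pr : ∀ {b d : ℤ}, j ≠ d → (h b)⁻¹ * (g * h d) ∈ Subgroup.zpowers u →
      |p ((g * h j)⁻¹ * h b) - p ((h j)⁻¹ * h d)| ≤ θ := by
    intro b d hjd hd
    have e : (g * h j)⁻¹ * h b = ((h j)⁻¹ * h d) * ((h b)⁻¹ * (g * h d))⁻¹ := by group
    rw [e]
    exact D.p_coset (D.coset_ne H hjd) (inv_mem hd)
  have a0 := D.lt H (show i - 1 < i by omega)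
  have a1 := D.gt H (show i < i + 1 by omega)
  have b0 := pr n0 h0
  have b1 := pr n1 h2
  rw [coord] at b0 b1
  have cse : ∀ d : ℤ, j ≠ d → (d < j ∧ |p ((h j)⁻¹ * h d)| ≤ 2 * W) ∨
      (j < d ∧ |p ((h j)⁻¹ * h d) - T j| ≤ 2 * W) := by
    intro d hd
    rcases lt_or_gt_of_ne hd with hlt | hlt
    · exact Or.inr ⟨hlt, D.gt H hlt⟩
    · exact Or.inl ⟨hlt, D.lt H hlt⟩
  have hW : (1 : ℤ) ≤ W := by exact_mod_cast D.Wpos
  rcases cse j0 n0 with ⟨c0, d0⟩ | ⟨c0, d0⟩ <;> rcases cse j1 n1 with ⟨c1, d1⟩ | ⟨c1, d1⟩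
  · exfalso
    rw [abs_le] at *
    linarith [a0.1, a0.2, a1.1, a1.2, b0.1, b0.2, b1.1, b1.2, d0.1, d0.2, d1.1, d1.2]
  · refine ⟨D.Td i j ?_, c0, c1⟩
    rw [abs_le] at *
    constructor <;>
      linarith [a0.1, a0.2, a1.1, a1.2, b0.1, b0.2, b1.1, b1.2, d0.1, d0.2, d1.1, d1.2]
  · exfalso
    rw [abs_le] at *
    linarith [a0.1, a0.2, a1.1, a1.2, b0.1, b0.2, b1.1, b1.2, d0.1, d0.2, d1.1, d1.2]
  · exfalso
    rw [abs_le] at *
    linarith [a0.1, a0.2, a1.1, a1.2, b0.1, b0.2, b1.1, b1.2, d0.1, d0.2, d1.1, d1.2]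

/-- four consecutive common cosets -/
theorem Chn.four_common (H : HypLen ℓ δ) (D : Chn ℓ u p K₀ K C θ lam W T v h q) {g : Γ} {i₀ : ℤ}
    (hg : ∀ i, i₀ ≤ i → i ≤ i₀ + 3 → ∃ j : ℤ, (h i)⁻¹ * (g * h j) ∈ Subgroup.zpowers u) :
    g ∈ Subgroup.zpowers (h q) := by
  have hWz := D.hWz
  have h7 : (0 : ℤ) ≤ C * lam := by positivity
  have hθ : (0 : ℤ) ≤ θ := by positivity
  have hW : (1 : ℤ) ≤ W := by exact_mod_cast D.Wpos
  obtain ⟨j0, hj0⟩ := hg i₀ le_rfl (by omega)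
  obtain ⟨j1, hj1⟩ := hg (i₀ + 1) (by omega) (by omega)
  obtain ⟨j2, hj2⟩ := hg (i₀ + 2) (by omega) (by omega)
  obtain ⟨j3, hj3⟩ := hg (i₀ + 3) (by omega) (by omega)
  have e01 : i₀ + 1 - 1 = i₀ := by ring
  have e12 : i₀ + 1 + 1 = i₀ + 2 := by ring
  have e21 : i₀ + 2 - 1 = i₀ + 1 := by ring
  have e23 : i₀ + 2 + 1 = i₀ + 3 := by ring
  obtain ⟨d1, l01, l12⟩ := D.middle H (i := i₀ + 1) (g := g) (j0 := j0) (j := j1) (j1 := j2)
    (by rw [e01]; exact hj0) hj1 (by rw [e12]; exact hj2)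
  obtain ⟨d2, -, l23⟩ := D.middle H (i := i₀ + 2) (g := g) (j0 := j1) (j := j2) (j1 := j3)
    (by rw [e21]; exact hj1) hj2 (by rw [e23]; exact hj3)
  -- j2 = j1 + 1
  have hcons : j2 = j1 + 1 := by
    by_contra hne
    have hlt : j1 + 1 < j2 := by omega
    -- projections to g h_{j1+1} U
    have q1 : |p ((g * h (j1 + 1))⁻¹ * h (i₀ + 1))| ≤ 2 * W + θ := by
      have e : (g * h (j1 + 1))⁻¹ * h (i₀ + 1) =
          ((h (j1 + 1))⁻¹ * h j1) * ((h (i₀ + 1))⁻¹ * (g * h j1))⁻¹ := by group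
      rw [e]
      have h1 := D.p_coset (D.coset_ne H (show j1 + 1 ≠ j1 by omega)) (inv_mem hj1)
      have h2 := D.lt H (show j1 < j1 + 1 by omega)
      rw [abs_le] at *
      constructor <;> linarith [h1.1, h1.2, h2.1, h2.2]
    have q2 : |p ((g * h (j1 + 1))⁻¹ * h (i₀ + 2)) - T (j1 + 1)| ≤ 2 * W + θ := by
      have e : (g * h (j1 + 1))⁻¹ * h (i₀ + 2) =
          ((h (j1 + 1))⁻¹ * h j2) * ((h (i₀ + 2))⁻¹ * (g * h j2))⁻¹ := by group
      rw [e]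
      have h1 := D.p_coset (D.coset_ne H (show j1 + 1 ≠ j2 by omega)) (inv_mem hj2)
      have h2 := D.gt H hlt
      rw [abs_le] at *
      constructor <;> linarith [h1.1, h1.2, h2.1, h2.2]
    have hT := D.TW (j1 + 1)
    -- there is l with g h_{j1+1} U = h_l U
    have hex : ∃ l : ℤ, (g * h (j1 + 1))⁻¹ * h l ∈ Subgroup.zpowers u := by
      by_contra hcon
      push Not at hcon
      have := D.foreign H (k := g * h (j1 + 1)) hcon (D.h_mem (i₀ + 1)) (D.h_mem (i₀ + 2))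
      rw [abs_le] at *
      linarith [q1.1, q1.2, q2.1, q2.2, this.1, this.2]
    obtain ⟨l, hl⟩ := hex
    have nl : ∀ {b d : ℤ}, j1 + 1 ≠ d → (h b)⁻¹ * (g * h d) ∈ Subgroup.zpowers u → l ≠ b := by
      intro b d hd hbd hlb
      subst hlb
      apply D.coset_ne H hd
      have e : (h (j1 + 1))⁻¹ * h d =
          ((g * h (j1 + 1))⁻¹ * h l) * ((h l)⁻¹ * (g * h d)) := by group
      rw [e]
      exact mul_mem hl hbd
    have n1 : l ≠ i₀ + 1 := nl (by omega) hj1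
    have n2 : l ≠ i₀ + 2 := nl (by omega) hj2
    obtain ⟨m, hm⟩ := Subgroup.mem_zpowers_iff.1 hl
    have coord : ∀ z : Γ, p ((g * h (j1 + 1))⁻¹ * z) = p ((h l)⁻¹ * z) + m := by
      intro z
      have e : (g * h (j1 + 1))⁻¹ * z = u ^ m * ((h l)⁻¹ * z) := by
        rw [hm]; group
      rw [e, D.p_zpow]
    rw [coord] at q1 q2
    rcases lt_or_gt_of_ne n1 with h1 | h1
    · have a1 := D.gt H h1
      have a2 := D.gt H (show l < i₀ + 2 by omega)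
      rw [abs_le] at *
      linarith [q1.1, q1.2, q2.1, q2.2, a1.1, a1.2, a2.1, a2.2]
    · have a1 := D.lt H (show i₀ + 1 < l by omega)
      have a2 := D.lt H (show i₀ + 2 < l by omega)
      rw [abs_le] at *
      linarith [q1.1, q1.2, q2.1, q2.2, a1.1, a1.2, a2.1, a2.2]
  obtain ⟨n, hn⟩ := d1
  have ej1 : j1 = (i₀ + 1) + (-n) * q := by linarith
  have ej2 : j2 = (i₀ + 2) + (-n) * q := by rw [hcons, ej1]; ring
  rw [ej1, D.h_shift] at hj1
  rw [ej2, D.h_shift] at hj2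
  set R := h q
  obtain ⟨a, ha⟩ := Subgroup.mem_zpowers_iff.1 hj1
  obtain ⟨b, hb⟩ := Subgroup.mem_zpowers_iff.1 hj2
  -- c = h_i⁻¹ h_{i+1}
  have hc := D.coset_ne H (show i₀ + 1 ≠ i₀ + 2 by omega)
  have hconj : ((h (i₀ + 1))⁻¹ * h (i₀ + 2))⁻¹ * u ^ a * ((h (i₀ + 1))⁻¹ * h (i₀ + 2))⁻¹⁻¹ =
      u ^ b := by
    rw [ha, hb]; group
  have ha0 : a = 0 := by
    by_contra hne
    exact hc (inv_mem_iff.1 (D.mal _ a b hne hconj))
  rw [ha0, zpow_zero] at ha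
  have hg1 : g * R ^ (-n) = 1 := by
    have h1 : g * (R ^ (-n) * h (i₀ + 1)) = h (i₀ + 1) := by
      have := (inv_mul_eq_one.1 ha.symm)
      exact this.symm
    rw [← mul_assoc] at h1
    exact mul_eq_right.1 h1
  have : g = (R ^ (-n))⁻¹ := eq_inv_of_mul_eq_one_left hg1
  rw [this]
  exact inv_mem (Subgroup.zpow_mem_zpowers _ _)

/-- four consecutive crossed segments, one of which is not common -/
theorem Chn.crossed (H : HypLen ℓ δ) (D : Chn ℓ u p K₀ K C θ lam W T v h q) {P : Γ → ℤ}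
    (hP : IsIdx p T h P) {g : Γ} (hg : g ∉ Subgroup.zpowers (h q)) {x y : Γ}
    (hxy : 6 ≤ |P x - P y|) :
    ∃ i : ℤ, (∀ j : ℤ, (h i)⁻¹ * (g * h j) ∉ Subgroup.zpowers u) ∧
      16 * (W : ℤ) ≤ |p ((h i)⁻¹ * x) - p ((h i)⁻¹ * y)| := by
  by_contra hcon
  push Not at hcon
  apply hg
  rcases le_total (P x) (P y) with hle | hle
  · have h1 : P x + 6 ≤ P y := by
      rw [abs_sub_comm, abs_of_nonneg (by omega)] at hxy; omega
    refine D.four_common H (i₀ := P x + 2) fun i hi1 hi2 => ?_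
    by_contra hno
    push Not at hno
    have h2 := hcon i hno
    have h3 := D.idx_cross H hP (x := x) (y := y) (i := i) hi1 (by omega)
    have hT := D.TW i
    obtain ⟨h3a, h3b⟩ := h3
    rw [abs_lt] at h2
    rw [abs_le] at h3a h3b
    linarith [h2.1, h2.2, h3a.1, h3a.2, h3b.1, h3b.2]
  · have h1 : P y + 6 ≤ P x := by
      rw [abs_of_nonneg (by omega)] at hxy; omega
    refine D.four_common H (i₀ := P y + 2) fun i hi1 hi2 => ?_
    by_contra hno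
    push Not at hno
    have h2 := hcon i hno
    have h3 := D.idx_cross H hP (x := y) (y := x) (i := i) hi1 (by omega)
    have hT := D.TW i
    obtain ⟨h3a, h3b⟩ := h3
    rw [abs_lt] at h2
    rw [abs_le] at h3a h3b
    linarith [h2.1, h2.2, h3a.1, h3a.2, h3b.1, h3b.2]

theorem Chn.bdd (H : HypLen ℓ δ) (D : Chn ℓ u p K₀ K C θ lam W T v h q) {P : Γ → ℤ}
    (hP : IsIdx p T h P) (g : Γ) (hg : g ∉ Subgroup.zpowers (h q)) (a : Γ) (ha : a ∈ chS u T h) :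
    |P (g * a) - P g| ≤ 5 := by
  by_contra hcon
  rw [not_le] at hcon
  obtain ⟨i, hi1, hi2⟩ := D.crossed H hP hg (x := g * a) (y := g) (by omega)
  have hW : (1 : ℤ) ≤ W := by exact_mod_cast D.Wpos
  have h1 := D.foreign H (k := g⁻¹ * h i)
    (fun j => by
      have e : (g⁻¹ * h i)⁻¹ * h j = (h i)⁻¹ * (g * h j) := by group
      rw [e]; exact hi1 j) ha D.one_mem
  have e1 : (g⁻¹ * h i)⁻¹ * a = (h i)⁻¹ * (g * a) := by group
  have e2 : (g⁻¹ * h i)⁻¹ * 1 = (h i)⁻¹ * g := by group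
  rw [e1, e2] at h1
  linarith

theorem Chn.behr (H : HypLen ℓ δ) (D : Chn ℓ u p K₀ K C θ lam W T v h q) {P : Γ → ℤ}
    (hP : IsIdx p T h P) (g : Γ) (hg : g ∉ Subgroup.zpowers (h q)) (a : Γ) :
    |P a - P g| ≤ 5 ∨ |P (g⁻¹ * a) - P g⁻¹| ≤ 5 := by
  by_contra hcon
  push Not at hcon
  obtain ⟨c1, c2⟩ := hcon
  have hWz := D.hWz
  have h7 : (0 : ℤ) ≤ C * lam := by positivity
  have hθ : (0 : ℤ) ≤ θ := by positivity
  obtain ⟨i, hi1, hi2⟩ := D.crossed H hP hg (x := a) (y := g) (by omega)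
  obtain ⟨i', hi1', hi2'⟩ := D.crossed H hP (g := g⁻¹) (fun h => hg (inv_mem_iff.1 h))
    (x := g⁻¹ * a) (y := g⁻¹) (by omega)
  have f1 := D.foreign H (k := g⁻¹ * h i)
    (fun j => by
      have e : (g⁻¹ * h i)⁻¹ * h j = (h i)⁻¹ * (g * h j) := by group
      rw [e]; exact hi1 j) D.one_mem (D.h_mem i')
  have e1 : (g⁻¹ * h i)⁻¹ * 1 = (h i)⁻¹ * g := by group
  have e2 : (g⁻¹ * h i)⁻¹ * h i' = (h i)⁻¹ * (g * h i') := by group
  rw [e1, e2] at f1
  have f2 := D.foreign H (k := g * h i')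
    (fun j => by
      have e : (g * h i')⁻¹ * h j = (h i')⁻¹ * (g⁻¹ * h j) := by group
      rw [e]; exact hi1' j) D.one_mem (D.h_mem i)
  have e3 : (g * h i')⁻¹ * 1 = (h i')⁻¹ * g⁻¹ := by group
  have e4 : (g * h i')⁻¹ * h i = (h i')⁻¹ * (g⁻¹ * h i) := by group
  rw [e3, e4] at f2
  rcases D.PS.behr _ (hi1 i') ((h i)⁻¹ * a) with b | b
  · rw [abs_sub_comm] at f1
    have := chn_abs_tri b f1
    linarith
  · have e5 : ((h i)⁻¹ * (g * h i'))⁻¹ * ((h i)⁻¹ * a) = (h i')⁻¹ * (g⁻¹ * a) := by group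
    have e6 : ((h i)⁻¹ * (g * h i'))⁻¹ = (h i')⁻¹ * (g⁻¹ * h i) := by group
    rw [e5, e6] at b
    rw [abs_sub_comm] at f2
    have := chn_abs_tri b f2
    linarith

end chain

end Pool.Agent.Lib.MP_e1b29e_al
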