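import Pool.Agent.Lib.MP_e1b29e_al.Chain
import Pool.Agent.Lib.MP_e1b29e_al.ChainBdd

set_option autoImplicit false

namespace Pool.Agent.Lib.MP_e1b29e_al

open Pool.Agent.Lib.MP_06935a_al
open scoped Pointwise

variable {Γ : Type} [Group Γ] {ℓ : Γ → ℕ} {δ : ℕ}

section chain

variable {u : Γ} {p : Γ → ℤ} {K₀ K C θ lam W : ℕ} {T : ℤ → ℤ} {v h : ℤ → Γ} {q : ℕ}

theorem Chn.h_mem_chS (D : Chn ℓ u p K₀ K C θ lam W T v h q) (i : ℤ) : h i ∈ chS u T h := by
  refine ⟨i, 0, le_rfl, ?_, by simp⟩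
  have := D.TW i
  have h2 : (0 : ℤ) ≤ W := by positivity
  linarith

theorem Chn.axis (H : HypLen ℓ δ) (D : Chn ℓ u p K₀ K C θ lam W T v h q) {P : Γ → ℤ}
    (hP : IsIdx p T h P) :
    Axis ℓ (chS u T h) (h q) P h q 1 5 (K + 6 * W * ℓ u) where
  one_mem := by
    have := D.h_mem_chS 0
    rwa [D.h0] at this
  smul_mem := by
    rintro k a ⟨i, t, ht0, ht, rfl⟩
    refine ⟨i + k * q, t, ht0, ?_, ?_⟩
    · rwa [D.T_shift]
    · rw [D.h_shift, mul_assoc]
  fin := by
    classical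
    refine ⟨(Finset.Ico (0 : ℤ) q).biUnion (fun i =>
      (Finset.Icc (0 : ℤ) (T i)).image (fun t => h i * u ^ t)), ?_⟩
    rintro a ⟨i, t, ht0, ht, rfl⟩
    have hqpos : (0 : ℤ) < q := by
      have := D.hq
      omega
    have hi : i = i % q + (i / q) * q := (Int.emod_add_ediv_mul i q).symm
    refine ⟨h (i % q) * u ^ t, ?_, i / q, ?_⟩
    · rw [Finset.mem_biUnion]
      refine ⟨i % q, Finset.mem_Ico.mpr ⟨Int.emod_nonneg _ hqpos.ne', Int.emod_lt_of_pos _ hqpos⟩, ?_⟩
      refine Finset.mem_image.mpr ⟨t, Finset.mem_Icc.mpr ⟨ht0, ?_⟩, rfl⟩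
      rw [hi, D.T_shift] at ht
      exact ht
    · conv_lhs => rw [hi, D.h_shift]
      rw [mul_assoc]
  pt_mem := D.h_mem_chS
  pt_shift := by
    intro i
    have := D.h_shift i 1
    simpa using this
  P_pt := D.idx_h H hP
  shift := D.idx_shift hP
  lip := by
    intro x s hs
    have := D.idx_lip H hP x s hs
    simpa using this
  bdd := by
    intro g hg a ha
    have := D.bdd H hP g hg a ha
    simpa using this
  behr := by
    intro g hg a
    have := D.behr H hP g hg a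
    simpa using this
  near := by
    intro x y i hx hy
    obtain ⟨h1, h2⟩ := D.idx_cross H hP hx hy
    have hW : (0 : ℤ) ≤ W := by positivity
    exact (D.near2 H (h1.trans (by linarith)) (h2.trans (by linarith))).1

end chain

end Pool.Agent.Lib.MP_e1b29e_al
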