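import Pool.Agent.Lib.MP_e1b29e_al.Chain

set_option autoImplicit false

namespace Pool.Agent.Lib.MP_e1b29e_al

open Pool.Agent.Lib.MP_06935a_al
open scoped Pointwise

variable {Γ : Type} [Group Γ] {ℓ : Γ → ℕ} {δ : ℕ}

section chain

variable {u : Γ} {p : Γ → ℤ} {K₀ K C θ lam W : ℕ} {T : ℤ → ℤ} {v h : ℤ → Γ} {q : ℕ}

/-- the segments have comparable lengths -/
theorem Chn.gap_seg (H : HypLen ℓ δ) (D : Chn ℓ u p K₀ K C θ lam W T v h q) (M' : ℕ)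
    (hT : ∀ i, (M' : ℤ) ≤ T i ∧ T i ≤ 2 * M') (i : ℤ) :
    ℓ (u ^ M') ≤ ℓ (u ^ T i) + K₀ ∧ ℓ (u ^ T i) ≤ 2 * ℓ (u ^ M') + K₀ := by
  obtain ⟨h1, h2⟩ := hT i
  obtain ⟨t, ht⟩ : ∃ t : ℕ, T i = ((M' + t : ℕ) : ℤ) := by
    refine ⟨(T i - M').toNat, ?_⟩
    push_cast
    rw [Int.toNat_of_nonneg (by linarith)]
    ring
  have ht2 : t ≤ M' := by
    rw [ht] at h2
    push_cast at h2
    omega
  obtain ⟨s, hs⟩ := Nat.exists_eq_add_of_le ht2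
  have e1 : ℓ (u ^ T i) = ℓ (u ^ (M' + t)) := by rw [ht, zpow_natCast]
  have s1 := D.Q.super M' t
  have s2 := D.Q.super t s
  have s3 := H.mul (u ^ M') (u ^ t)
  rw [← pow_add] at s3
  rw [← hs] at s2
  rw [e1]
  constructor <;> omega

/-- lengths of the steps between consecutive nodes -/
theorem Chn.gap_step (H : HypLen ℓ δ) (D : Chn ℓ u p K₀ K C θ lam W T v h q) (M' : ℕ)
    (hT : ∀ i, (M' : ℤ) ≤ T i ∧ T i ≤ 2 * M') (i : ℤ) :
    ℓ (u ^ M') ≤ dst ℓ (h i) (h (i + 1)) + K₀ + lam ∧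
      dst ℓ (h i) (h (i + 1)) ≤ 2 * ℓ (u ^ M') + K₀ + lam := by
  obtain ⟨h1, h2⟩ := D.gap_seg H M' hT i
  have e : dst ℓ (h i) (h (i + 1)) = ℓ (u ^ T i * v i) := by
    unfold dst
    rw [D.hs]
    congr 1
    group
  have hv := D.vl i
  have h3 := H.mul (u ^ T i) (v i)
  have h4 := H.mul (u ^ T i * v i) (v i)⁻¹
  rw [H.inv, mul_inv_cancel_right] at h4
  rw [e]
  constructor <;> omega

/-- upper bound for the distance of nodes -/
theorem Chn.gap_upper (H : HypLen ℓ δ) (D : Chn ℓ u p K₀ K C θ lam W T v h q) (M' : ℕ)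
    (hT : ∀ i, (M' : ℤ) ≤ T i ∧ T i ≤ 2 * M') (i : ℤ) (n : ℕ) :
    dst ℓ (h i) (h (i + n)) ≤ n * (2 * ℓ (u ^ M') + K₀ + lam) := by
  induction n with
  | zero => simp [H.dst_self]
  | succ n ih =>
    have h1 := (D.gap_step H M' hT (i + n)).2
    have h2 := H.dst_tri (h i) (h (i + n)) (h (i + n + 1))
    have e : i + ((n + 1 : ℕ) : ℤ) = i + n + 1 := by push_cast; ring
    rw [e]
    have e2 : (n + 1) * (2 * ℓ (u ^ M') + K₀ + lam) =
      n * (2 * ℓ (u ^ M') + K₀ + lam) + (2 * ℓ (u ^ M') + K₀ + lam) := by ring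
    omega

/-- lower bound for the distance of nodes -/
theorem Chn.gap_lower (H : HypLen ℓ δ) (D : Chn ℓ u p K₀ K C θ lam W T v h q) (M' : ℕ)
    (hT : ∀ i, (M' : ℤ) ≤ T i ∧ T i ≤ 2 * M') (i : ℤ) (n : ℕ) :
    (n + 1) * ℓ (u ^ M') ≤ dst ℓ (h i) (h (i + (n + 1 : ℕ))) + (n + 1) * (K₀ + lam) +
      n * (K + 6 * W * ℓ u) := by
  induction n with
  | zero =>
    have h1 := (D.gap_step H M' hT i).1
    simp
    omega
  | succ n ih =>
    have h1 := (D.gap_step H M' hT (i + (n + 1 : ℕ))).1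
    have hW : (0 : ℤ) ≤ W := by positivity
    have hx : |p ((h (i + (n + 1 : ℕ)))⁻¹ * h i)| ≤ 3 * W :=
      (D.lt H (by push_cast; linarith)).trans (by linarith)
    have hy : |p ((h (i + (n + 1 : ℕ)))⁻¹ * h (i + (n + 1 : ℕ) + 1)) - T (i + (n + 1 : ℕ))|
        ≤ 3 * W := (D.gt H (by linarith)).trans (by linarith)
    have h2 := (D.near2 H hx hy).1
    have e : i + ((n + 1 + 1 : ℕ) : ℤ) = i + (n + 1 : ℕ) + 1 := by push_cast; ring
    rw [e]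
    have e1 : (n + 1 + 1) * ℓ (u ^ M') = (n + 1) * ℓ (u ^ M') + ℓ (u ^ M') := by ring
    have e2 : (n + 1 + 1) * (K₀ + lam) = (n + 1) * (K₀ + lam) + (K₀ + lam) := by ring
    have e3 : (n + 1) * (K + 6 * W * ℓ u) = n * (K + 6 * W * ℓ u) + (K + 6 * W * ℓ u) := by ring
    rw [e1, e2, e3]
    omega

/-- nodes at almost a full turn are much farther apart than nodes with close indices -/
theorem chain_gap (H : HypLen ℓ δ) (c' R' : ℕ) (hq : 3 * c' + 1 ≤ q) (M' : ℕ)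
    (D : Chn ℓ u p K₀ K C θ lam W T v h q) (hT : ∀ i, (M' : ℤ) ≤ T i ∧ T i ≤ 2 * M')
    (hM : q * (K₀ + 2 * lam + 2 * (K + 6 * W * ℓ u)) + R' ≤ ℓ (u ^ M')) :
    Gap ℓ h q c' R' := by
  intro i j a b hij hab
  obtain ⟨m, hm, hmc⟩ : ∃ m : ℕ, dst ℓ (h i) (h j) ≤ m * (2 * ℓ (u ^ M') + K₀ + lam) ∧ m ≤ c' := by
    rw [abs_le] at hij
    rcases le_total i j with hle | hle
    · obtain ⟨m, hm⟩ := Int.le.dest hle
      refine ⟨m, ?_, by omega⟩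
      have := D.gap_upper H M' hT i m
      rwa [hm] at this
    · obtain ⟨m, hm⟩ := Int.le.dest hle
      refine ⟨m, ?_, by omega⟩
      have := D.gap_upper H M' hT j m
      rw [hm] at this
      rwa [H.dst_comm]
  obtain ⟨n, hn, hnc⟩ : ∃ n : ℕ, b = a + (n + 1 : ℕ) ∧ 2 * c' ≤ n := by
    refine ⟨(b - a - 1).toNat, ?_, ?_⟩ <;> omega
  have hlow := D.gap_lower H M' hT a n
  rw [← hn] at hlow
  generalize ℓ (u ^ M') = Λ at *
  generalize K + 6 * W * ℓ u = K₃ at *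
  have hX : K₀ + lam + K₃ ≤ K₀ + 2 * lam + 2 * K₃ := by omega
  have hΛ1 : (3 * c' + 1) * (K₀ + lam + K₃) + R' ≤ Λ :=
    (Nat.add_le_add_right (Nat.mul_le_mul hq hX) R').trans hM
  have hΛ2 : K₀ + lam + K₃ ≤ Λ := by
    have : 1 * (K₀ + lam + K₃) ≤ (3 * c' + 1) * (K₀ + lam + K₃) :=
      Nat.mul_le_mul_right _ (by omega)
    omega
  have h3 : m * (2 * Λ + K₀ + lam) ≤ c' * (2 * Λ + K₀ + lam) := Nat.mul_le_mul_right _ hmc
  obtain ⟨r, hr⟩ := Nat.exists_eq_add_of_le hnc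
  have h4 : r * (K₀ + lam + K₃) ≤ r * Λ := Nat.mul_le_mul_left _ hΛ2
  subst hr
  have e1 : (2 * c' + r + 1) * Λ = c' * (2 * Λ) + r * Λ + Λ := by ring
  have e2 : c' * (2 * Λ + K₀ + lam) = c' * (2 * Λ) + c' * (K₀ + lam) := by ring
  have e3 : (2 * c' + r + 1) * (K₀ + lam) + (2 * c' + r) * K₃ + c' * (K₀ + lam) + c' * K₃ + K₃ =
    (3 * c' + 1) * (K₀ + lam + K₃) + r * (K₀ + lam + K₃) := by ring
  omega

end chain

end Pool.Agent.Lib.MP_e1b29e_al
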