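import Pool.Agent.Lib.MP_e1b29e_al.Chain
import Pool.Agent.Lib.MP_06935a_al.PSys

/-!
T8c : a chain of segments is quasiconvex, with a constant independent of the chain.
-/

set_option autoImplicit false

namespace Pool.Agent.Lib.MP_e1b29e_al

open Pool.Agent.Lib.MP_06935a_al
open scoped Pointwise

variable {Γ : Type} [Group Γ] {ℓ : Γ → ℕ} {δ : ℕ}

section chain

variable {u : Γ} {p : Γ → ℤ} {K₀ K C θ lam W : ℕ} {T : ℤ → ℤ} {v h : ℤ → Γ} {q : ℕ}

/-- a point of the axis near the projection of `x` is almost on geodesics from `x` -/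
theorem chqc_proj (H : HypLen ℓ δ) (D : Chn ℓ u p K₀ K C θ lam W T v h q) (x y : Γ) (m : ℤ)
    (hx : |p x - m| ≤ 3 * W) (hy : (K : ℤ) ≤ |p x - p y| ∨ ∃ t : ℤ, y = u ^ t) :
    dst ℓ x (u ^ m) + dst ℓ (u ^ m) y ≤ dst ℓ x y + (K + 12 * W * ℓ u) := by
  have hW := D.hWz
  have h7 : (0 : ℤ) ≤ C * lam := by positivity
  by_cases hK : (K : ℤ) ≤ |p x - p y|
  · have h2 := D.MP.two x y hK
    have a1 : ℓ (u ^ (p x - m)) ≤ 3 * W * ℓ u := chn_len_zpow H u _ (by push_cast; exact hx)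
    have t1 := H.dst_tri x (u ^ p x) (u ^ m)
    rw [H.dst_zpow] at t1
    have t2 := H.dst_tri (u ^ m) (u ^ p x) y
    rw [H.dst_comm (u ^ m) (u ^ p x), H.dst_zpow] at t2
    have t3 := H.dst_tri (u ^ p x) (u ^ p y) y
    rw [H.dst_zpow] at t3
    have e6 : 12 * W * ℓ u = 4 * (3 * W * ℓ u) := by ring
    omega
  · obtain ⟨t, rfl⟩ := hy.resolve_left hK
    rw [not_le] at hK
    rw [D.p_pow] at hK
    have a1 : ℓ (u ^ (m - t)) ≤ (6 * W) * ℓ u := by
      apply chn_len_zpow H u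
      push_cast
      have hK' : |p x - t| ≤ 3 * W := by linarith
      have := abs_sub_le m (p x) t
      rw [abs_sub_comm m (p x)] at this
      linarith
    have t1 := H.dst_tri x (u ^ t) (u ^ m)
    have t2 := H.dst_comm (u ^ t) (u ^ m)
    have t3 := H.dst_zpow u m t
    have e6 : 12 * W * ℓ u = 2 * (6 * W * ℓ u) := by ring
    omega

/-- the projection of a point of an earlier segment -/
theorem chqc_left (H : HypLen ℓ δ) (D : Chn ℓ u p K₀ K C θ lam W T v h q) {i l : ℤ} (s : ℤ)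
    (hil : i < l) : |p ((h l)⁻¹ * (h i * u ^ s))| ≤ 3 * W := by
  have h1 := D.lt H hil
  have h2 := D.PS.bdd _ (D.coset_ne H (ne_of_gt hil)) s
  rw [mul_assoc] at h2
  have h3 := D.hWz
  have h7 : (0 : ℤ) ≤ C * lam := by positivity
  rw [abs_le] at *
  constructor <;> linarith [h1.1, h1.2, h2.1, h2.2]

/-- the projection of a point of a later segment -/
theorem chqc_right (H : HypLen ℓ δ) (D : Chn ℓ u p K₀ K C θ lam W T v h q) {j l : ℤ} (t : ℤ)
    (hlj : l < j) : |p ((h l)⁻¹ * (h j * u ^ t)) - T l| ≤ 3 * W := by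
  have h1 := D.gt H hlj
  have h2 := D.PS.bdd _ (D.coset_ne H (ne_of_lt hlj)) t
  rw [mul_assoc] at h2
  have h3 := D.hWz
  have h7 : (0 : ℤ) ≤ C * lam := by positivity
  rw [abs_le] at *
  constructor <;> linarith [h1.1, h1.2, h2.1, h2.2]

/-- left nodes of the segments are almost on geodesics -/
theorem chqc_nodeE (H : HypLen ℓ δ) (D : Chn ℓ u p K₀ K C θ lam W T v h q) {i j l : ℤ} (s t : ℤ)
    (hil : i < l) (hlj : l ≤ j) :
    dst ℓ (h i * u ^ s) (h l) + dst ℓ (h l) (h j * u ^ t) ≤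
      dst ℓ (h i * u ^ s) (h j * u ^ t) + (K + 12 * W * ℓ u) := by
  have hW := D.hWz
  have hT := D.TW l
  have h7 : (0 : ℤ) ≤ C * lam := by positivity
  have h1 := chqc_left H D s hil
  have h3 := chqc_proj H D ((h l)⁻¹ * (h i * u ^ s)) ((h l)⁻¹ * (h j * u ^ t)) 0
    (by rw [sub_zero]; exact h1) (by
      rcases eq_or_lt_of_le hlj with h2 | h2
      · right
        exact ⟨t, by rw [h2, inv_mul_cancel_left]⟩
      · left
        have h4 := chqc_right H D t h2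
        rw [abs_sub_comm]
        refine le_trans ?_ (le_abs_self _)
        rw [abs_le] at h1 h4
        linarith [h1.1, h1.2, h4.1, h4.2])
  rw [zpow_zero, ← dst_mul_left ℓ (h l) ((h l)⁻¹ * (h i * u ^ s)) 1,
    ← dst_mul_left ℓ (h l) 1 ((h l)⁻¹ * (h j * u ^ t)),
    ← dst_mul_left ℓ (h l) ((h l)⁻¹ * (h i * u ^ s)) ((h l)⁻¹ * (h j * u ^ t)),
    mul_one, mul_inv_cancel_left, mul_inv_cancel_left] at h3
  exact h3

/-- right nodes of the segments are almost on geodesics -/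
theorem chqc_nodeF (H : HypLen ℓ δ) (D : Chn ℓ u p K₀ K C θ lam W T v h q) {i j l : ℤ} (s t : ℤ)
    (hil : i ≤ l) (hlj : l < j) :
    dst ℓ (h i * u ^ s) (h l * u ^ T l) + dst ℓ (h l * u ^ T l) (h j * u ^ t) ≤
      dst ℓ (h i * u ^ s) (h j * u ^ t) + (K + 12 * W * ℓ u) := by
  have hW := D.hWz
  have hT := D.TW l
  have h7 : (0 : ℤ) ≤ C * lam := by positivity
  have h1 := chqc_right H D t hlj
  have h3 := chqc_proj H D ((h l)⁻¹ * (h j * u ^ t)) ((h l)⁻¹ * (h i * u ^ s)) (T l)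
    h1 (by
      rcases eq_or_lt_of_le hil with h2 | h2
      · right
        exact ⟨s, by rw [h2, inv_mul_cancel_left]⟩
      · left
        have h4 := chqc_left H D s h2
        refine le_trans ?_ (le_abs_self _)
        rw [abs_le] at h1 h4
        linarith [h1.1, h1.2, h4.1, h4.2])
  rw [← dst_mul_left ℓ (h l) ((h l)⁻¹ * (h j * u ^ t)) (u ^ T l),
    ← dst_mul_left ℓ (h l) (u ^ T l) ((h l)⁻¹ * (h i * u ^ s)),
    ← dst_mul_left ℓ (h l) ((h l)⁻¹ * (h j * u ^ t)) ((h l)⁻¹ * (h i * u ^ s)),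
    mul_inv_cancel_left, mul_inv_cancel_left] at h3
  rw [H.dst_comm (h i * u ^ s) (h l * u ^ T l), H.dst_comm (h l * u ^ T l) (h j * u ^ t),
    H.dst_comm (h i * u ^ s) (h j * u ^ t)]
  omega

/-- a point almost between two points of an axis is close to the segment between them -/
theorem chqc_seg (H : HypLen ℓ δ) (D : Chn ℓ u p K₀ K C θ lam W T v h q) (z : Γ) (s t : ℤ)
    (hst : s ≤ t) (E : ℕ)
    (hz : dst ℓ z (u ^ s) + dst ℓ z (u ^ t) ≤ ℓ (u ^ (s - t)) + E) :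
    ∃ n : ℤ, s ≤ n ∧ n ≤ t ∧ dst ℓ z (u ^ n) ≤ E + 2 * K + K₀ := by
  have h1 := psys_qc H D.MP z s t E hz
  have g1 := D.MP.gp z s
  have g2 := D.MP.gp z t
  by_cases c1 : p z < s
  · refine ⟨s, le_rfl, hst, ?_⟩
    have h2 := D.Q.super_int (i := s - p z) (j := t - s) (by omega) (by omega)
    have e1 : s - p z + (t - s) = t - p z := by ring
    rw [e1] at h2
    have e2 : ℓ (u ^ (t - s)) = ℓ (u ^ (s - t)) := by rw [← H.zpow_neg]; congr 2; ring
    have e3 : ℓ (u ^ (s - p z)) = ℓ (u ^ (p z - s)) := by rw [← H.zpow_neg]; congr 2; ring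
    have e4 : ℓ (u ^ (t - p z)) = ℓ (u ^ (p z - t)) := by rw [← H.zpow_neg]; congr 2; ring
    have t1 := H.dst_tri z (u ^ p z) (u ^ s)
    rw [H.dst_zpow] at t1
    omega
  by_cases c2 : t < p z
  · refine ⟨t, hst, le_rfl, ?_⟩
    have h2 := D.Q.super_int (i := t - s) (j := p z - t) (by omega) (by omega)
    have e1 : t - s + (p z - t) = p z - s := by ring
    rw [e1] at h2
    have e2 : ℓ (u ^ (t - s)) = ℓ (u ^ (s - t)) := by rw [← H.zpow_neg]; congr 2; ring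
    have t1 := H.dst_tri z (u ^ p z) (u ^ t)
    rw [H.dst_zpow] at t1
    omega
  · exact ⟨p z, by omega, by omega, by omega⟩

/-- the ordered case -/
theorem chqc_ordered (H : HypLen ℓ δ) (D : Chn ℓ u p K₀ K C θ lam W T v h q) {i j s t : ℤ}
    (hs0 : 0 ≤ s) (hsT : s ≤ T i) (ht0 : 0 ≤ t) (htT : t ≤ T j) (hij : i ≤ j)
    (hst : i = j → s ≤ t) (z : Γ)
    (hz : dst ℓ (h i * u ^ s) z + dst ℓ z (h j * u ^ t) = dst ℓ (h i * u ^ s) (h j * u ^ t)) :
    ∃ c ∈ chS u T h, dst ℓ z c ≤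
      (2 * (K + 12 * W * ℓ u) + 4 * δ + 2 * lam) + 2 * K + K₀ := by
  classical
  set a := h i * u ^ s with ha
  set b := h j * u ^ t with hb
  set K' := K + 12 * W * ℓ u with hK'
  -- the exponents of the nodes
  obtain ⟨se, hse⟩ : ∃ se : ℤ → ℤ, ∀ l, se l = if l = i then s else 0 := ⟨_, fun _ => rfl⟩
  obtain ⟨te, hte⟩ : ∃ te : ℤ → ℤ, ∀ l, te l = if l = j then t else T l := ⟨_, fun _ => rfl⟩
  have hTpos : ∀ l, 0 ≤ T l := fun l => by
    have := D.TW l
    have : (0 : ℤ) ≤ W := by positivity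
    linarith
  have nodeE : ∀ l, i ≤ l → l ≤ j →
      dst ℓ a (h l * u ^ se l) + dst ℓ (h l * u ^ se l) b ≤ dst ℓ a b + K' := by
    intro l h1 h2
    rcases eq_or_lt_of_le h1 with h3 | h3
    · subst h3
      rw [hse, if_pos rfl, ← ha, H.dst_self]
      omega
    · rw [hse, if_neg (ne_of_gt h3), zpow_zero, mul_one]
      exact chqc_nodeE H D s t h3 h2
  have nodeF : ∀ l, i ≤ l → l ≤ j →
      dst ℓ a (h l * u ^ te l) + dst ℓ (h l * u ^ te l) b ≤ dst ℓ a b + K' := by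
    intro l h1 h2
    rcases eq_or_lt_of_le h2 with h3 | h3
    · subst h3
      rw [hte, if_pos rfl, ← hb, H.dst_self]
      omega
    · rw [hte, if_neg (ne_of_lt h3)]
      exact chqc_nodeF H D s t h1 h3
  obtain ⟨l, ⟨hl1, hl2, hl3⟩, hmax⟩ := Int.exists_greatest_of_bdd
    (P := fun l => i ≤ l ∧ l ≤ j ∧ dst ℓ a (h l * u ^ se l) ≤ dst ℓ a z)
    ⟨j, fun l hl => hl.2.1⟩ ⟨i, le_rfl, hij, by
      rw [hse, if_pos rfl, ← ha, H.dst_self]; exact Nat.zero_le _⟩
  have hse0 : 0 ≤ se l := by rw [hse]; split_ifs <;> omega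
  have hteT : te l ≤ T l := by
    rw [hte]
    split_ifs with h1
    · rw [h1]; exact htT
    · exact le_rfl
  have hset : se l ≤ te l := by
    rw [hse, hte]
    split_ifs with h1 h2 h2
    · exact hst (by omega)
    · rw [h1]; exact hsT
    · exact ht0
    · exact hTpos l
  have far : dst ℓ a z ≤ dst ℓ a (h l * u ^ te l) + lam := by
    rcases eq_or_lt_of_le hl2 with h1 | h1
    · rw [hte, if_pos h1, h1, ← hb]
      omega
    · have h2 : ¬ dst ℓ a (h (l + 1) * u ^ se (l + 1)) ≤ dst ℓ a z := by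
        intro hc
        have := hmax (l + 1) ⟨by omega, by omega, hc⟩
        omega
      rw [hse, if_neg (by omega), zpow_zero, mul_one] at h2
      rw [hte, if_neg (ne_of_lt h1)]
      have h3 := H.dst_tri a (h l * u ^ T l) (h (l + 1))
      rw [D.hs l, dst_mul_right] at h3
      rw [D.hs l] at h2
      have h4 := D.vl l
      omega
  have F1 := H.four (h l * u ^ se l) z a b
  have F2 := H.four (h l * u ^ te l) z a b
  have nE := nodeE l hl1 hl2
  have nF := nodeF l hl1 hl2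
  have t1 := H.dst_tri a (h l * u ^ se l) (h l * u ^ te l)
  have c1 := H.dst_comm (h l * u ^ se l) a
  have c2 := H.dst_comm (h l * u ^ te l) a
  have c3 := H.dst_comm z a
  have c4 := H.dst_comm (h l * u ^ se l) z
  have c5 := H.dst_comm (h l * u ^ te l) z
  have sum : dst ℓ z (h l * u ^ se l) + dst ℓ z (h l * u ^ te l) ≤
      dst ℓ (h l * u ^ se l) (h l * u ^ te l) + (2 * K' + 4 * δ + 2 * lam) := by
    rcases F1 with F1 | F1 <;> rcases F2 with F2 | F2 <;> omega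
  rw [dst_mul_left, H.dst_zpow, ← dst_mul_left ℓ (h l)⁻¹ z, ← dst_mul_left ℓ (h l)⁻¹ z,
    inv_mul_cancel_left, inv_mul_cancel_left] at sum
  obtain ⟨n, hn1, hn2, hn3⟩ := chqc_seg H D _ _ _ hset _ sum
  refine ⟨h l * u ^ n, ⟨l, n, by omega, by omega, rfl⟩, ?_⟩
  rw [← dst_mul_left ℓ (h l)⁻¹ z, inv_mul_cancel_left]
  exact hn3

end chain

theorem chain_qc (H : HypLen ℓ δ) (u : Γ) (p : Γ → ℤ) (K₀ K C θ lam W : ℕ) :
    ∃ κ' : ℕ, ∀ (T : ℤ → ℤ) (v h : ℤ → Γ) (q : ℕ), Chn ℓ u p K₀ K C θ lam W T v h q →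
      QC ℓ (chS u T h) κ' := by
  refine ⟨(2 * (K + 12 * W * ℓ u) + 4 * δ + 2 * lam) + 2 * K + K₀, ?_⟩
  rintro T v h q D _ ⟨i, s, hs0, hsT, rfl⟩ _ ⟨j, t, ht0, htT, rfl⟩ z hz
  by_cases hc : i < j ∨ (i = j ∧ s ≤ t)
  · exact chqc_ordered H D hs0 hsT ht0 htT (by omega) (fun h => by omega) z hz
  · refine chqc_ordered H D ht0 htT hs0 hsT (by omega) (fun h => by omega) z ?_
    have c1 := H.dst_comm (h j * u ^ t) z
    have c2 := H.dst_comm (h i * u ^ s) z
    have c3 := H.dst_comm (h j * u ^ t) (h i * u ^ s)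
    omega

end Pool.Agent.Lib.MP_e1b29e_al
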