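import Pool.Agent.Lib.MP_e1b29e_al.Chain
import Pool.Agent.Lib.MP_06935a_al.Cone2

/-!
Quasi-convex subgroups having a long common part with a chain contain powers of conjugates
of `u`.
-/

set_option autoImplicit false

namespace Pool.Agent.Lib.MP_e1b29e_al

open Pool.Agent.Lib.MP_06935a_al
open scoped Pointwise

variable {Γ : Type} [Group Γ] {ℓ : Γ → ℕ} {δ : ℕ}

section chain

variable {u : Γ} {p : Γ → ℤ} {K₀ K C θ lam W : ℕ} {T : ℤ → ℤ} {v h : ℤ → Γ} {q : ℕ}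

/-- elements of a quasi-convex subgroup near the points of a long crossed segment -/
theorem csub_near (H : HypLen ℓ δ) (D : Chn ℓ u p K₀ K C θ lam W T v h q) {κ : ℕ}
    (J : Subgroup Γ) (hJ : QC ℓ (J : Set Γ) κ) (g t : Γ) (ht : t ∈ J) (i : ℤ)
    (h1 : |p ((h i)⁻¹ * g)| ≤ 2 * W) (h2 : |p ((h i)⁻¹ * (g * t)) - T i| ≤ 2 * W)
    (n : ℤ) (n1 : 2 * W ≤ n) (n2 : n ≤ T i - 2 * W) :
    ∃ j ∈ J, ℓ ((u ^ n)⁻¹ * ((h i)⁻¹ * g) * j) ≤ K + K₀ + 2 * δ + κ := by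
  set a := (h i)⁻¹ * g with ha
  set b := (h i)⁻¹ * (g * t) with hb
  have hTW := D.TW i
  have hW := D.hW
  have hKW : (K : ℤ) ≤ W := by
    have : K ≤ W := by omega
    exact_mod_cast this
  rw [abs_le] at h1 h2
  have h3 : (K : ℤ) ≤ |p a - p b| := by
    rw [abs_sub_comm]
    refine le_trans ?_ (le_abs_self _)
    linarith [h1.2, h2.1]
  have e1 := D.MP.two a b h3
  have e2 : ℓ (u ^ (n - p a)) + ℓ (u ^ (p b - n)) ≤ ℓ (u ^ (p b - p a)) + K₀ := by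
    have := D.Q.super_int (i := n - p a) (j := p b - n) (by linarith [h1.2]) (by linarith [h2.1])
    have e : n - p a + (p b - n) = p b - p a := by ring
    rwa [e] at this
  have e3 : dst ℓ a (u ^ n) ≤ dst ℓ a (u ^ p a) + ℓ (u ^ (n - p a)) := by
    have := H.dst_tri a (u ^ p a) (u ^ n)
    rw [H.dst_comm (u ^ p a), H.dst_zpow] at this
    exact this
  have e4 : dst ℓ (u ^ n) b ≤ ℓ (u ^ (p b - n)) + dst ℓ (u ^ p b) b := by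
    have := H.dst_tri (u ^ n) (u ^ p b) b
    rw [H.dst_comm (u ^ n) (u ^ p b), H.dst_zpow] at this
    exact this
  have e5 : ℓ (u ^ (p a - p b)) = ℓ (u ^ (p b - p a)) := by
    rw [← H.zpow_neg]; congr 2; ring
  have e6 : gpr ℓ a b (u ^ n) ≤ 2 * (K + K₀) := by
    unfold gpr
    have := H.dst_comm b (u ^ n)
    omega
  obtain ⟨c, hc1, hc2⟩ := H.near_geod _ _ _ _ e6
  -- translate to the subgroup
  have f1 : dst ℓ 1 (g⁻¹ * h i * c) + dst ℓ (g⁻¹ * h i * c) t = dst ℓ 1 t := by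
    have k1 : dst ℓ 1 (g⁻¹ * h i * c) = dst ℓ a c := by
      rw [← dst_mul_left ℓ (g⁻¹ * h i) a c]; congr 1; simp [ha]
    have k2 : dst ℓ (g⁻¹ * h i * c) t = dst ℓ c b := by
      rw [← dst_mul_left ℓ (g⁻¹ * h i) c b]; congr 1; simp [hb]
    have k3 : dst ℓ 1 t = dst ℓ a b := by
      rw [← dst_mul_left ℓ (g⁻¹ * h i) a b]; congr 1 <;> simp [ha, hb]
    rw [k1, k2, k3]; exact hc1
  obtain ⟨j, hj, hj2⟩ := hJ 1 (Subgroup.one_mem J) t ht _ f1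
  refine ⟨j, hj, ?_⟩
  have g1 : ℓ ((u ^ n)⁻¹ * a * j) = dst ℓ (u ^ n) (a * j) := by simp [dst, mul_assoc]
  have g2 : dst ℓ (g⁻¹ * h i * c) j = dst ℓ c (a * j) := by
    rw [← dst_mul_left ℓ (g⁻¹ * h i) c (a * j)]; congr 1; simp [ha, mul_assoc]
  rw [g1]
  have := H.dst_tri (u ^ n) c (a * j)
  have g3 : dst ℓ (u ^ n) c ≤ K + K₀ + 2 * δ := hc2
  rw [g2] at hj2
  omega

theorem chain_sub (H : HypLen ℓ δ) (hp : ProperLen ℓ) (u : Γ) (p : Γ → ℤ)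
    (K₀ K C θ lam W κ : ℕ) :
    ∃ M₂ : ℕ, ∀ (T : ℤ → ℤ) (v h : ℤ → Γ) (q : ℕ), Chn ℓ u p K₀ K C θ lam W T v h q →
      (∀ i, (M₂ : ℤ) ≤ T i) → ∀ J : Subgroup Γ, QC ℓ (J : Set Γ) κ → ∀ g t : Γ, t ∈ J → ∀ i : ℤ,
      |p ((h i)⁻¹ * g)| ≤ 2 * W → |p ((h i)⁻¹ * (g * t)) - T i| ≤ 2 * W →
      ∃ m : ℤ, m ≠ 0 ∧ g⁻¹ * (h i * u ^ m * (h i)⁻¹) * g ∈ J := by
  set N := (hp (K + K₀ + 2 * δ + κ)).toFinset.card with hN
  refine ⟨4 * W + N + 1, ?_⟩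
  intro T v h q D hT J hJ g t ht i h1 h2
  have hTi := hT i
  push_cast at hTi
  have key : ∀ k : Fin (N + 1), ∃ j ∈ J,
      ℓ ((u ^ (2 * (W : ℤ) + k))⁻¹ * ((h i)⁻¹ * g) * j) ≤ K + K₀ + 2 * δ + κ := by
    intro k
    refine csub_near H D J hJ g t ht i h1 h2 _ (by linarith [(Nat.cast_nonneg k : (0 : ℤ) ≤ k)]) ?_
    have : (k : ℤ) ≤ N := by exact_mod_cast Nat.lt_succ_iff.mp k.2
    linarith
  choose j hj hj2 using key
  have hmaps : ∀ k ∈ (Finset.univ : Finset (Fin (N + 1))),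
      (u ^ (2 * (W : ℤ) + k))⁻¹ * ((h i)⁻¹ * g) * j k ∈ (hp (K + K₀ + 2 * δ + κ)).toFinset := by
    intro k _
    rw [Set.Finite.mem_toFinset]
    exact hj2 k
  obtain ⟨k, _, l, _, hkl, he⟩ := Finset.exists_ne_map_eq_of_card_lt_of_maps_to
    (by simp [hN]) hmaps
  refine ⟨(l : ℤ) - k, ?_, ?_⟩
  · intro h0
    apply hkl
    have : (l : ℤ) = k := by linarith
    have : (l : ℕ) = k := by exact_mod_cast this
    exact (Fin.ext this).symm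
  · have e1 : g⁻¹ * (h i * u ^ ((l : ℤ) - k) * (h i)⁻¹) * g = j l * (j k)⁻¹ := by
      have e2 : u ^ ((l : ℤ) - k) = u ^ (2 * (W : ℤ) + l) * (u ^ (2 * (W : ℤ) + k))⁻¹ := by
        rw [← zpow_neg, ← zpow_add]; congr 1; ring
      have e3 : (u ^ (2 * (W : ℤ) + k))⁻¹ * ((h i)⁻¹ * g) =
          (u ^ (2 * (W : ℤ) + l))⁻¹ * ((h i)⁻¹ * g) * j l * (j k)⁻¹ := by
        rw [← he]; group
      calc g⁻¹ * (h i * u ^ ((l : ℤ) - k) * (h i)⁻¹) * g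
          = g⁻¹ * h i * u ^ (2 * (W : ℤ) + l) *
            ((u ^ (2 * (W : ℤ) + k))⁻¹ * ((h i)⁻¹ * g)) := by rw [e2]; group
        _ = j l * (j k)⁻¹ := by rw [e3]; group
    rw [e1]
    exact Subgroup.mul_mem _ (hj l) (Subgroup.inv_mem _ (hj k))

theorem csub_noncomm (D : Chn ℓ u p K₀ K C θ lam W T v h q) (i m n : ℤ) (hm : m ≠ 0)
    (hn : n ≠ 0) :
    (h i * u ^ m * (h i)⁻¹) * (h (i + 1) * u ^ n * (h (i + 1))⁻¹) ≠
      (h (i + 1) * u ^ n * (h (i + 1))⁻¹) * (h i * u ^ m * (h i)⁻¹) := by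
  intro hcomm
  set w := (h i)⁻¹ * h (i + 1) with hw
  have h1 : (w * u ^ n * w⁻¹) * u ^ m * (w * u ^ n * w⁻¹)⁻¹ = u ^ m := by
    have e : (w * u ^ n * w⁻¹) * u ^ m = (h i)⁻¹ *
        ((h (i + 1) * u ^ n * (h (i + 1))⁻¹) * (h i * u ^ m * (h i)⁻¹)) * h i := by
      rw [hw]; group
    have e' : u ^ m * (w * u ^ n * w⁻¹) = (h i)⁻¹ *
        ((h i * u ^ m * (h i)⁻¹) * (h (i + 1) * u ^ n * (h (i + 1))⁻¹)) * h i := by
      rw [hw]; group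
    rw [mul_inv_eq_iff_eq_mul, e, ← hcomm, ← e']
  have h2 := D.mal _ _ _ hm h1
  obtain ⟨k, hk⟩ := h2
  have h3 := D.mal _ _ _ hn hk.symm
  have h4 : w = u ^ T i * v i := by rw [hw, D.hs i]; group
  rw [h4] at h3
  exact D.vU i ((Subgroup.mul_mem_cancel_left _ (Subgroup.zpow_mem _
    (Subgroup.mem_zpowers u) _)).mp h3)

theorem chain_sub2 (H : HypLen ℓ δ) (hp : ProperLen ℓ) (u : Γ) (p : Γ → ℤ)
    (K₀ K C θ lam W κ : ℕ) :
    ∃ M₂ : ℕ, ∀ (T : ℤ → ℤ) (v h : ℤ → Γ) (q : ℕ), Chn ℓ u p K₀ K C θ lam W T v h q →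
      (∀ i, (M₂ : ℤ) ≤ T i) → ∀ P : Γ → ℤ, IsIdx p T h P → ∀ J : Subgroup Γ,
      QC ℓ (J : Set Γ) κ → ∀ g t : Γ, t ∈ J → 5 ≤ |P g - P (g * t)| →
      ∃ (i m n : ℤ), g⁻¹ * (h i * u ^ m * (h i)⁻¹) * g ∈ J ∧
        g⁻¹ * (h (i + 1) * u ^ n * (h (i + 1))⁻¹) * g ∈ J ∧
        (h i * u ^ m * (h i)⁻¹) * (h (i + 1) * u ^ n * (h (i + 1))⁻¹) ≠
          (h (i + 1) * u ^ n * (h (i + 1))⁻¹) * (h i * u ^ m * (h i)⁻¹) := by
  obtain ⟨M₂, hM⟩ := chain_sub H hp u p K₀ K C θ lam W κ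
  refine ⟨M₂, ?_⟩
  intro T v h q D hT P hP J hJ
  have main : ∀ g t : Γ, t ∈ J → P g + 5 ≤ P (g * t) →
      ∃ (i m n : ℤ), g⁻¹ * (h i * u ^ m * (h i)⁻¹) * g ∈ J ∧
        g⁻¹ * (h (i + 1) * u ^ n * (h (i + 1))⁻¹) * g ∈ J ∧
        (h i * u ^ m * (h i)⁻¹) * (h (i + 1) * u ^ n * (h (i + 1))⁻¹) ≠
          (h (i + 1) * u ^ n * (h (i + 1))⁻¹) * (h i * u ^ m * (h i)⁻¹) := by
    intro g t ht hgt
    obtain ⟨a1, b1⟩ := D.idx_cross H hP (x := g) (y := g * t) (i := P g + 2) (by linarith)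
      (by linarith)
    obtain ⟨a2, b2⟩ := D.idx_cross H hP (x := g) (y := g * t) (i := P g + 2 + 1) (by linarith)
      (by linarith)
    obtain ⟨m, hm, hmJ⟩ := hM T v h q D hT J hJ g t ht _ a1 b1
    obtain ⟨n, hn, hnJ⟩ := hM T v h q D hT J hJ g t ht _ a2 b2
    exact ⟨P g + 2, m, n, hmJ, hnJ, csub_noncomm D _ _ _ hm hn⟩
  intro g t ht hgt
  rcases le_total (P g) (P (g * t)) with hle | hle
  · refine main g t ht ?_
    rw [abs_of_nonpos (by linarith)] at hgt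
    linarith
  · rw [abs_of_nonneg (by linarith)] at hgt
    obtain ⟨i, m, n, hm, hn, hne⟩ := main (g * t) t⁻¹ (Subgroup.inv_mem _ ht) (by
      rw [mul_inv_cancel_right]; linarith)
    refine ⟨i, m, n, ?_, ?_, hne⟩
    · have := Subgroup.mul_mem _ (Subgroup.mul_mem _ ht hm) (Subgroup.inv_mem _ ht)
      have e : t * ((g * t)⁻¹ * (h i * u ^ m * (h i)⁻¹) * (g * t)) * t⁻¹ =
          g⁻¹ * (h i * u ^ m * (h i)⁻¹) * g := by group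
      rwa [e] at this
    · have := Subgroup.mul_mem _ (Subgroup.mul_mem _ ht hn) (Subgroup.inv_mem _ ht)
      have e : t * ((g * t)⁻¹ * (h (i + 1) * u ^ n * (h (i + 1))⁻¹) * (g * t)) * t⁻¹ =
          g⁻¹ * (h (i + 1) * u ^ n * (h (i + 1))⁻¹) * g := by group
      rwa [e] at this

end chain

end Pool.Agent.Lib.MP_e1b29e_al
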