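import Pool.Agent.Lib.MP_e1b29e_al.Defs
import Pool.Agent.Lib.MP_06935a_al.Cone2

/-!
# T1: Cayley graphs coned off along the translates of a quasiconvex set

Adapted from helper45's files `Cone1.lean`, `Cone2.lean` of `MP_06935a_al`.
-/

set_option autoImplicit false

namespace Pool.Agent.Lib.MP_e1b29e_al

open Pool.Agent.Lib.MP_06935a_al
open scoped Pointwise

variable {Γ : Type} [Group Γ] {ℓ : Γ → ℕ} {δ : ℕ}

theorem cset_one (H : HypLen ℓ δ) (S : Set Γ) : (1 : Γ) ∈ cset ℓ S := by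
  left; simp [H.one]

theorem cset_inv (H : HypLen ℓ δ) (S : Set Γ) : ∀ x ∈ cset ℓ S, x⁻¹ ∈ cset ℓ S := by
  rintro x (hx | ⟨a, ha, b, hb, rfl⟩)
  · left; simpa [H.inv] using hx
  · right; exact ⟨b, hb, a, ha, by group⟩

theorem cset_gen (H : HypLen ℓ δ) (S : Set Γ) (x : Γ) : ∃ k : ℕ, x ∈ cset ℓ S ^ k := by
  obtain ⟨k, hk⟩ := H.gen x
  exact ⟨k, Set.pow_subset_pow_left Set.subset_union_left hk⟩

theorem wl_cset_le (H : HypLen ℓ δ) (S : Set Γ) (x : Γ) : wl (cset ℓ S) x ≤ ℓ x :=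
  wl_le (Set.pow_subset_pow_left Set.subset_union_left (H.mem_ball_pow _ x le_rfl))

theorem hat_le (H : HypLen ℓ δ) (S : Set Γ) (x y : Γ) :
    dst (wl (cset ℓ S)) x y ≤ dst ℓ x y := wl_cset_le H S _

theorem hat_self (S : Set Γ) (x : Γ) : dst (wl (cset ℓ S)) x x = 0 := by
  simp [dst, wl_one]

theorem hat_comm (H : HypLen ℓ δ) (S : Set Γ) (x y : Γ) :
    dst (wl (cset ℓ S)) x y = dst (wl (cset ℓ S)) y x := by
  unfold dst
  rw [← wl_inv (cset_gen H S) (cset_inv H S) (x⁻¹ * y)]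
  congr 1
  group

theorem hat_tri (H : HypLen ℓ δ) (S : Set Γ) (x y z : Γ) :
    dst (wl (cset ℓ S)) x z ≤ dst (wl (cset ℓ S)) x y + dst (wl (cset ℓ S)) y z := by
  unfold dst
  have h := wl_mul (cset_gen H S) (x⁻¹ * y) (y⁻¹ * z)
  have e : x⁻¹ * y * (y⁻¹ * z) = x⁻¹ * z := by group
  rwa [e] at h

theorem hat_le_one' (H : HypLen ℓ δ) (S : Set Γ) (x y : Γ) (h : x⁻¹ * y ∈ cset ℓ S) :
    dst (wl (cset ℓ S)) x y ≤ 1 :=
  (wl_le_one (cset_gen H S) (cset_one H S)).mpr h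

theorem hat_le_one (H : HypLen ℓ δ) (S : Set Γ) (g a b : Γ) (ha : a ∈ S) (hb : b ∈ S) :
    dst (wl (cset ℓ S)) (g * a) (g * b) ≤ 1 := by
  apply hat_le_one' H
  right
  exact ⟨a, ha, b, hb, by group⟩

/-- geodesic paths for the coned-off metric -/
theorem hat_geod_aux (H : HypLen ℓ δ) (S : Set Γ) (n : ℕ) (x y : Γ)
    (h : dst (wl (cset ℓ S)) x y = n) :
    ∃ c : ℕ → Γ, c 0 = x ∧ c n = y ∧ ∀ i < n, dst (wl (cset ℓ S)) (c i) (c (i + 1)) ≤ 1 := by
  induction n generalizing x with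
  | zero =>
    refine ⟨fun _ => x, rfl, ?_, fun i hi => by omega⟩
    have := wl_eq_one (cset_gen H S) h
    exact inv_mul_eq_one.mp this
  | succ n ih =>
    obtain ⟨s, w, e, hs, hw⟩ := wl_split (cset_gen H S) (x⁻¹ * y) 1
      (by unfold dst at h; omega)
    have hxy : dst (wl (cset ℓ S)) (x * s) y = n := by
      have e' : (x * s)⁻¹ * y = w := by rw [mul_inv_rev, mul_assoc, e]; simp
      unfold dst at h ⊢
      rw [e']; omega
    obtain ⟨c, h0, h1, h2⟩ := ih (x * s) hxy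
    refine ⟨fun i => Nat.casesOn i x c, rfl, h1, ?_⟩
    intro i hi
    cases i with
    | zero =>
      show dst (wl (cset ℓ S)) x (c 0) ≤ 1
      rw [h0, dst_mul_right]; omega
    | succ i => exact h2 i (by omega)

theorem hat_geod (H : HypLen ℓ δ) (S : Set Γ) (x y : Γ) :
    ∃ c : ℕ → Γ, c 0 = x ∧ c (dst (wl (cset ℓ S)) x y) = y ∧
      ∀ i j, i ≤ j → j ≤ dst (wl (cset ℓ S)) x y →
        dst (wl (cset ℓ S)) (c i) (c j) = j - i := by
  obtain ⟨e, e0, en, estep⟩ := hat_geod_aux H S _ x y rfl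
  have ele : ∀ i j, i ≤ j → j ≤ dst (wl (cset ℓ S)) x y →
      dst (wl (cset ℓ S)) (e i) (e j) ≤ j - i := by
    intro i j hij
    induction j, hij using Nat.le_induction with
    | base => intro _; simp [hat_self]
    | succ j hj ih =>
      intro hjn
      have h1 := ih (by omega)
      have h2 := estep j (by omega)
      have h3 := hat_tri H S (e i) (e j) (e (j + 1))
      omega
  refine ⟨e, e0, en, ?_⟩
  intro i j hij hj
  apply le_antisymm (ele i j hij hj)
  have h1 := ele 0 i (by omega) (by omega)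
  have h2 := ele j _ hj le_rfl
  have h3 := hat_tri H S (e 0) (e i) (e (dst (wl (cset ℓ S)) x y))
  have h4 := hat_tri H S (e i) (e j) (e (dst (wl (cset ℓ S)) x y))
  rw [e0, en] at h3
  rw [en] at h2 h4
  rw [e0] at h1
  omega

/-- Morse property of the coned-off metric -/
def Morse (ℓ : Γ → ℕ) (S : Set Γ) (R₀ : ℕ) : Prop :=
  ∀ (m : ℕ) (a : ℕ → Γ),
    (∀ i j, i ≤ j → j ≤ m → dst (wl (cset ℓ S)) (a i) (a j) = j - i) →
    ∀ z : Γ, dst ℓ (a 0) z + dst ℓ z (a m) = dst ℓ (a 0) (a m) →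
      ∃ i ≤ m, dst (wl (cset ℓ S)) z (a i) ≤ R₀

/-- (jump) if a step of the coned-off graph has small Gromov product seen from `z`, then its initial
point is close to `z` in the coned-off metric -/
theorem hat_jump (H : HypLen ℓ δ) (S : Set Γ) (κ : ℕ) (hS : QC ℓ S κ) (a a' z : Γ)
    (ht : a⁻¹ * a' ∈ cset ℓ S) (t : ℕ) (h : gpr ℓ a a' z ≤ 2 * t) :
    dst (wl (cset ℓ S)) a z ≤ t + (2 * δ + κ) + 1 := by
  rcases ht with ht | ⟨s, hs, s', hs', ht⟩
  · have h1 : dst ℓ a a' ≤ 1 := ht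
    have h2 := H.dst_tri a a' z
    have h3 := hat_le H S a z
    unfold gpr at h
    omega
  · obtain ⟨g, rfl⟩ : ∃ g, a = g * s := ⟨a * s⁻¹, by group⟩
    obtain rfl : a' = g * s' := by
      have : (g * s) * ((g * s)⁻¹ * a') = (g * s) * (s⁻¹ * s') := by rw [ht]
      rw [mul_inv_cancel_left] at this
      rw [this]; group
    obtain ⟨c, hc, hz⟩ := H.near_geod (g * s) (g * s') z t h
    obtain ⟨c, rfl⟩ : ∃ c', c = g * c' := ⟨g⁻¹ * c, by group⟩
    rw [dst_mul_left, dst_mul_left, dst_mul_left] at hc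
    obtain ⟨s2, hs2, hle⟩ := hS s hs s' hs' _ hc
    rw [← dst_mul_left ℓ g] at hle
    have h1 := hat_le_one H S g s s2 hs hs2
    have h2 := hat_tri H S (g * s) (g * s2) z
    have h3 := hat_tri H S (g * s2) (g * c) z
    have h4 := hat_comm H S (g * s2) (g * c)
    have h5 := hat_comm H S (g * c) z
    have h6 := hat_le H S (g * c) (g * s2)
    have h7 := hat_le H S z (g * c)
    omega

/-- a chain in the coned-off graph with endpoints `x`, `y` at most `2 ^ k` steps apart passes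
close to every point `z` with small Gromov product -/
theorem hat_chain_near (H : HypLen ℓ δ) (S : Set Γ) (κ : ℕ) (hS : QC ℓ S κ)
    {V : Γ → Prop} (k t n : ℕ) (hn : n ≤ 2 ^ k) (x y z : Γ) (hc : Chain (cset ℓ S) V n x y)
    (h : gpr ℓ x y z ≤ 2 * t) :
    ∃ v, V v ∧ dst (wl (cset ℓ S)) v z ≤ δ * k + t + (2 * δ + κ) + 1 := by
  obtain ⟨v, v', hv, -, ht, hg⟩ := (hc.pad (cset_one H S) hn).log H z k
  refine ⟨v, hv, ?_⟩
  have := hat_jump H S κ hS v v' z ht (δ * k + t) (by push_cast; linarith)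
  omega

/-- Morse property: points on geodesics of `ℓ` are close, in the coned-off metric, to any
geodesic path of the coned-off metric with the same endpoints. -/
theorem cmorse (H : HypLen ℓ δ) (κ : ℕ) : ∃ R₀ : ℕ, ∀ S : Set Γ, QC ℓ S κ → Morse ℓ S R₀ := by
  obtain ⟨k₀, hk₀⟩ := exists_log_bound δ (2 * δ + κ)
  refine ⟨2 ^ k₀, ?_⟩
  intro S hS m a ha z hz
  set T := cset ℓ S with hT
  set d := dst (wl T) with hd
  have dself : ∀ x, d x x = 0 := hat_self S
  have dcomm : ∀ x y, d x y = d y x := hat_comm H S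
  have dtri : ∀ x y z, d x z ≤ d x y + d y z := hat_tri H S
  have dle : ∀ x y, d x y ≤ dst ℓ x y := hat_le H S
  obtain ⟨c, c0, cn, cz, cd⟩ := H.exists_geod_through (a 0) (a m) z hz
  set n := dst ℓ (a 0) (a m) with hn
  -- the maximal distance
  let P : ℕ → Prop := fun R => ∃ j ≤ n, ∀ i ≤ m, R ≤ d (c j) (a i)
  have P0 : P 0 := ⟨0, Nat.zero_le _, fun _ _ => Nat.zero_le _⟩
  have Pbd : ∀ R, P R → R ≤ n := by
    rintro R ⟨j, hj, hR⟩
    have h1 := hR 0 (Nat.zero_le _)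
    have h2 := dle (c j) (a 0)
    have h3 := cd 0 j (Nat.zero_le _) hj
    rw [c0, H.dst_comm] at h3
    omega
  obtain ⟨R, PR, PR1⟩ : ∃ R, P R ∧ ¬ P (R + 1) := by
    by_contra hcon
    push Not at hcon
    have : ∀ r, P r := fun r => by
      induction r with
      | zero => exact P0
      | succ r ih => exact hcon r ih
    have := Pbd _ (this (n + 1))
    omega
  have hall : ∀ j ≤ n, ∃ i ≤ m, d (c j) (a i) ≤ R := by
    intro j hj
    by_contra hcon
    push Not at hcon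
    exact PR1 ⟨j, hj, fun i hi => hcon i hi⟩
  -- suffices: R is bounded
  suffices hR : R ≤ 2 ^ k₀ by
    obtain ⟨i, hi, hle⟩ := hall (dst ℓ (a 0) z) (by omega)
    rw [cz] at hle
    exact ⟨i, hi, hle.trans hR⟩
  obtain ⟨js, hjs, hfar⟩ := PR
  set z' := c js with hz'
  have step : ∀ i < n, d (c i) (c (i + 1)) ≤ 1 := by
    intro i hi
    have h1 := dle (c i) (c (i + 1))
    have h2 := cd i (i + 1) (by omega) (by omega)
    omega
  let V : Γ → Prop := fun v => R ≤ d v z'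
  have Va : ∀ i ≤ m, V (a i) := fun i hi => by
    show R ≤ d (a i) z'
    rw [dcomm]; exact hfar i hi
  -- a connecting chain
  have conn : ∀ j ≤ n, d (c j) z' = 2 * R → ∃ i ≤ m, d (c j) (a i) ≤ R ∧
      ∃ r ≤ R, Chain T V r (c j) (a i) := by
    intro j hj hjz
    obtain ⟨i, hi, hle⟩ := hall j hj
    refine ⟨i, hi, hle, d (c j) (a i), hle, ?_⟩
    refine (chain_of_dst (cset_gen H S) (c j) (a i)).mono ?_
    intro v hv
    show R ≤ d v z'
    have h1 := dtri (c j) v z'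
    have h2 : d (c j) v ≤ d (c j) (a i) := hv
    omega
  -- left end
  obtain ⟨j1, i1, hj1, hi1, hd1, hd1', r1, hr1, hc1⟩ : ∃ j1 i1, j1 ≤ js ∧ i1 ≤ m ∧
      d (c j1) (a i1) ≤ R ∧ d (c j1) z' ≤ 2 * R ∧ ∃ r ≤ R, Chain T V r (c j1) (a i1) := by
    by_cases h : 2 * R ≤ d (c 0) z'
    · obtain ⟨j1, hj1, he⟩ := nat_ivt (fun i => d (c i) z') (2 * R) js h
        (by simp only [hz', dself]; omega) (by
          intro i hi
          have h1 := dtri (c i) (c (i + 1)) z'
          have h2 := step i (by omega)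
          omega)
      obtain ⟨i1, hi1, hle, r, hr, hc⟩ := conn j1 (by omega) he
      exact ⟨j1, i1, hj1, hi1, hle, he.le, r, hr, hc⟩
    · refine ⟨0, 0, Nat.zero_le _, Nat.zero_le _, ?_, by omega, 0, Nat.zero_le _, ?_⟩
      · rw [c0, dself]; omega
      · rw [c0]; exact ⟨rfl, Va 0 (Nat.zero_le _)⟩
  -- right end
  obtain ⟨j2, i2, hj2, hj2n, hi2, hd2, hd2', r2, hr2, hc2⟩ : ∃ j2 i2, js ≤ j2 ∧ j2 ≤ n ∧ i2 ≤ m ∧
      d (c j2) (a i2) ≤ R ∧ d (c j2) z' ≤ 2 * R ∧ ∃ r ≤ R, Chain T V r (c j2) (a i2) := by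
    by_cases h : 2 * R ≤ d (c n) z'
    · obtain ⟨j', hj', he⟩ := nat_ivt (fun i => d (c (n - i)) z') (2 * R) (n - js)
        (by simpa using h)
        (by
          have : n - (n - js) = js := by omega
          simp only [this, hz', dself]; omega) (by
          intro i hi
          have h1 := dtri (c (n - i)) (c (n - (i + 1))) z'
          have h2 := step (n - (i + 1)) (by omega)
          have h3 : n - (i + 1) + 1 = n - i := by omega
          rw [h3, dcomm] at h2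
          omega)
      obtain ⟨i2, hi2, hle, r, hr, hc⟩ := conn (n - j') (by omega) he
      exact ⟨n - j', i2, by omega, by omega, hi2, hle, he.le, r, hr, hc⟩
    · refine ⟨n, m, hjs, le_rfl, le_rfl, ?_, by omega, 0, Nat.zero_le _, ?_⟩
      · rw [cn, dself]; omega
      · rw [cn]; exact ⟨rfl, Va m le_rfl⟩
  -- the middle part
  have astep : ∀ i < m, (a i)⁻¹ * a (i + 1) ∈ T := by
    intro i hi
    rw [← wl_le_one (cset_gen H S) (cset_one H S)]
    have := ha i (i + 1) (by omega) (by omega)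
    show d (a i) (a (i + 1)) ≤ 1
    omega
  obtain ⟨r3, hr3, hc3⟩ : ∃ r ≤ 6 * R, Chain T V r (a i1) (a i2) := by
    have h1 := dtri (a i1) (c j1) (a i2)
    have h2 := dtri (c j1) z' (a i2)
    have h3 := dtri z' (c j2) (a i2)
    have h4 := dcomm (a i1) (c j1)
    have h5 := dcomm z' (c j2)
    rcases Nat.le_total i1 i2 with h | h
    · have h6 := ha i1 i2 h hi2
      exact ⟨i2 - i1, by omega, chain_along a m astep Va i1 i2 h hi2⟩
    · have h6 := ha i2 i1 h hi1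
      have h7 := dcomm (a i1) (a i2)
      exact ⟨i1 - i2, by omega,
        (chain_along a m astep Va i2 i1 h hi1).symm (cset_inv H S)⟩
  have hchain := (hc1.append hc3).append (hc2.symm (cset_inv H S))
  have hg : gpr ℓ (c j1) (c j2) z' ≤ 2 * (0 : ℕ) := by
    unfold gpr
    have h1 := cd j1 js hj1 (by omega)
    have h2 := cd js j2 hj2 hj2n
    have h3 := cd j1 j2 (by omega) hj2n
    rw [← hz'] at h1 h2
    rw [H.dst_comm] at h2
    omega
  -- conclusion
  by_contra hcon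
  push Not at hcon
  have hR0 : R ≠ 0 := by
    have : 0 < 2 ^ k₀ := Nat.two_pow_pos k₀
    omega
  set k := Nat.log 2 R with hk
  have hk1 : 2 ^ k ≤ R := Nat.pow_log_le_self 2 hR0
  have hk2 : R < 2 ^ (k + 1) := Nat.lt_pow_succ_log_self (by norm_num) R
  have hkk : k₀ ≤ k := by
    by_contra hlt
    push Not at hlt
    have : 2 ^ (k + 1) ≤ 2 ^ k₀ := Nat.pow_le_pow_right (by norm_num) hlt
    omega
  have h8 : r1 + r3 + r2 ≤ 2 ^ (k + 4) := by
    have : 2 ^ (k + 4) = 8 * 2 ^ (k + 1) := by ring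
    omega
  obtain ⟨v, hv, hle⟩ := hat_chain_near H S κ hS (k + 4) 0 _ h8 _ _ z' hchain hg
  have hv' : R ≤ d v z' := hv
  have := hk₀ k hkk
  have hle' : d v z' ≤ δ * (k + 4) + 0 + (2 * δ + κ) + 1 := hle
  omega

/-- (star), vertex form: a `D^`-geodesic path passes close to points with small Gromov product -/
theorem morse_near (H : HypLen ℓ δ) (S : Set Γ) (R₀ : ℕ) (hR : Morse ℓ S R₀)
    (m : ℕ) (a : ℕ → Γ) (ha : ∀ i j, i ≤ j → j ≤ m → dst (wl (cset ℓ S)) (a i) (a j) = j - i)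
    (z : Γ) (t : ℕ) (h : gpr ℓ (a 0) (a m) z ≤ 2 * t) :
    ∃ i ≤ m, dst (wl (cset ℓ S)) z (a i) ≤ R₀ + t + 2 * δ := by
  obtain ⟨c, hc, hz⟩ := H.near_geod _ _ z t h
  obtain ⟨i, hi, hle⟩ := hR m a ha c hc
  refine ⟨i, hi, ?_⟩
  have h1 := hat_tri H S z c (a i)
  have h2 := hat_le H S z c
  omega

/-- (star) -/
theorem morse_star (H : HypLen ℓ δ) (S : Set Γ) (R₀ : ℕ) (hR : Morse ℓ S R₀)
    (x y z : Γ) (t : ℕ) (h : gpr ℓ x y z ≤ 2 * t) :
    dst (wl (cset ℓ S)) x z + dst (wl (cset ℓ S)) z y ≤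
      dst (wl (cset ℓ S)) x y + 2 * (R₀ + t + 2 * δ) := by
  obtain ⟨a, a0, am, ha⟩ := hat_geod H S x y
  obtain ⟨i, hi, hle⟩ := morse_near H S R₀ hR _ a ha z t (by rw [a0, am]; exact h)
  have h1 := ha 0 i (Nat.zero_le _) hi
  have h2 := ha i _ hi le_rfl
  rw [a0] at h1
  rw [am] at h2
  have h3 := hat_tri H S x (a i) z
  have h4 := hat_tri H S z (a i) y
  have h5 := hat_comm H S z (a i)
  omega

/-- the coned-off metric is hyperbolic. -/
theorem chyp (H : HypLen ℓ δ) (κ : ℕ) :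
    ∃ δ' : ℕ, ∀ S : Set Γ, QC ℓ S κ → HypLen (wl (cset ℓ S)) δ' := by
  obtain ⟨R₀, hR'⟩ := cmorse H κ
  refine ⟨2 * R₀ + 7 * δ + 1, fun S hS => wl_hyp (cset_inv H S) (cset_gen H S) ?_⟩
  have hR := hR' S hS
  have key : ∀ x y z w : Γ, dst ℓ x w + dst ℓ y z ≤ dst ℓ x z + dst ℓ y w →
      dst (wl (cset ℓ S)) x y + dst (wl (cset ℓ S)) z w ≤
        dst (wl (cset ℓ S)) x z + dst (wl (cset ℓ S)) y w + 2 * (2 * R₀ + 7 * δ + 1) := by
    intro x y z w h
    obtain ⟨c, h1, h2⟩ := H.centre x y z w h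
    have s1 := morse_star H S R₀ hR x z c 0 (by
      unfold gpr
      rw [H.dst_comm z c]; push_cast; omega)
    have s2 := morse_star H S R₀ hR y w c (3 * δ + 1) (by
      unfold gpr
      rw [H.dst_comm w c]; push_cast; omega)
    have e1 := hat_tri H S x c y
    have e2 := hat_tri H S z c w
    have e3 := hat_comm H S c y
    have e4 := hat_comm H S z c
    omega
  intro x y z w
  rcases Nat.le_total (dst ℓ x w + dst ℓ y z) (dst ℓ x z + dst ℓ y w) with h | h
  · exact Or.inl (key x y z w h)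
  · right
    have := key x y w z h
    rw [hat_comm H S w z] at this
    exact this

end Pool.Agent.Lib.MP_e1b29e_al
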