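import Mathlib
import Pool.Agent.Lib.MP_06935a_al.Basic

/-!
Definitions for the construction of a group `G = A B` with `A`, `B` satisfying the maximum
condition and `G` not satisfying it.  The geometric definitions `dst`, `HypLen`, `ProperLen`,
`QGeo`, `Mal`, `MetProj`, `ProjSys`, `wl` are those of `Pool.Agent.Lib.MP_06935a_al.Defs`.
-/

set_option autoImplicit false

namespace Pool.Agent.Lib.MP_e1b29e_al

open Pool.Agent.Lib.MP_06935a_al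
open scoped Pointwise

variable {Γ : Type} [Group Γ]

/-- every point on a geodesic between two points of `S` is `κ`-close to `S` -/
def QC (ℓ : Γ → ℕ) (S : Set Γ) (κ : ℕ) : Prop :=
  ∀ a ∈ S, ∀ b ∈ S, ∀ z, dst ℓ a z + dst ℓ z b = dst ℓ a b → ∃ c ∈ S, dst ℓ z c ≤ κ

/-- torsion-free -/
def TF (Γ : Type) [Group Γ] : Prop := ∀ x : Γ, IsOfFinOrder x → x = 1

/-- malnormal subgroup -/
def Maln (H : Subgroup Γ) : Prop := ∀ g h : Γ, h ∈ H → h ≠ 1 → g⁻¹ * h * g ∈ H → g ∈ H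

/-- no nontrivial element of `H` is conjugate to an element of `K` -/
def Disj (H K : Subgroup Γ) : Prop := ∀ g h : Γ, h ∈ H → h ≠ 1 → g⁻¹ * h * g ∉ K

/-- generating set of the Cayley graph coned off along the translates of `S` -/
def cset (ℓ : Γ → ℕ) (S : Set Γ) : Set Γ := {x | ℓ x ≤ 1} ∪ {x | ∃ a ∈ S, ∃ b ∈ S, x = a⁻¹ * b}

/-- the axis `S` of the relator `R`: `P` is the index of the projection to `S`, and `pt i` is the
`i`-th node of `S`; translation by `R` moves the index by `q` -/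
structure Axis (ℓ : Γ → ℕ) (S : Set Γ) (R : Γ) (P : Γ → ℤ) (pt : ℤ → Γ) (q C θ K : ℕ) : Prop where
  one_mem : (1 : Γ) ∈ S
  smul_mem : ∀ (k : ℤ), ∀ a ∈ S, R ^ k * a ∈ S
  fin : ∃ F : Finset Γ, ∀ a ∈ S, ∃ f ∈ F, ∃ k : ℤ, a = R ^ k * f
  pt_mem : ∀ i, pt i ∈ S
  pt_shift : ∀ i, pt (i + q) = R * pt i
  P_pt : ∀ i, P (pt i) = i - 1
  shift : ∀ x, P (R * x) = P x + q
  lip : ∀ x s, ℓ s ≤ 1 → |P (x * s) - P x| ≤ C
  bdd : ∀ g, g ∉ Subgroup.zpowers R → ∀ a ∈ S, |P (g * a) - P g| ≤ θ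
  behr : ∀ g, g ∉ Subgroup.zpowers R → ∀ a, |P a - P g| ≤ θ ∨ |P (g⁻¹ * a) - P g⁻¹| ≤ θ
  near : ∀ x y (i : ℤ), P x + 2 ≤ i → i + 1 ≤ P y →
    dst ℓ x (pt i) + dst ℓ (pt i) y ≤ dst ℓ x y + K

/-- nodes at almost a full turn are much farther apart than nodes with close indices -/
def Gap (ℓ : Γ → ℕ) (pt : ℤ → Γ) (q c R' : ℕ) : Prop :=
  ∀ i j a b : ℤ, |i - j| ≤ c → (q : ℤ) ≤ b - a + c → dst ℓ (pt i) (pt j) + R' ≤ dst ℓ (pt a) (pt b)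

/-- elements resolvable by large rotations, seen from `x` -/
inductive Res (R : Γ) (P : Γ → ℤ) (q : ℕ) (c : ℤ) (x : Γ) : Γ → Prop
  | one : Res R P q c x 1
  | step (g h : Γ) (k : ℤ) : (q : ℤ) - c ≤ |P (h⁻¹ * x) - P (h⁻¹ * (g * x))| →
      Res R P q c x (h * R ^ k * h⁻¹ * g) → Res R P q c x g

/-- a left-invariant relation preserved by large rotations -/
structure Rot (R : Γ) (P : Γ → ℤ) (β : ℤ) (Sg : Γ → Γ → Prop) : Prop where
  inv : ∀ g a b, Sg a b → Sg (g * a) (g * b)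
  rot : ∀ h a b, Sg a b → β ≤ |P (h⁻¹ * a) - P (h⁻¹ * b)| → ∀ k : ℤ, Sg a (h * R ^ k * h⁻¹ * b)

/-- the subgroup `J` is compatible with large rotations -/
def RotH (R : Γ) (P : Γ → ℤ) (β : ℤ) (J : Subgroup Γ) : Prop :=
  ∀ g t : Γ, t ∈ J → β ≤ |P g - P (g * t)| → g⁻¹ * R * g ∈ J

/-- normal closure of the relator -/
abbrev NR (R : Γ) : Subgroup Γ := Subgroup.normalClosure {R}

/-- the invariants carried through the tower of quotients -/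
structure Good (Γ : Type) [Group Γ] (A B C : Subgroup Γ) (L : Set Γ) : Prop where
  hyp : ∃ (ℓ : Γ → ℕ) (δ κ : ℕ), HypLen ℓ δ ∧ ProperLen ℓ ∧ QC ℓ (A : Set Γ) κ ∧
    QC ℓ (B : Set Γ) κ ∧ QC ℓ (C : Set Γ) κ
  tf : TF Γ
  malA : Maln A
  malB : Maln B
  dAB : Disj A B
  dAC : Disj A C
  dBC : Disj B C
  fin : L.Finite
  malL : ∀ u ∈ L, u ≠ 1 ∧ Mal u

/-! ### chains of segments along the axes of `u` -/

/-- a periodic chain of long segments `h i * u ^ t`, `0 ≤ t ≤ T i`, of axes of `u`, joined by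
short connectors `v i` -/
structure Chn (ℓ : Γ → ℕ) (u : Γ) (p : Γ → ℤ) (K₀ K C θ lam W : ℕ) (T : ℤ → ℤ) (v h : ℤ → Γ)
    (q : ℕ) : Prop where
  Q : QGeo ℓ u K₀
  MP : MetProj ℓ u p K
  PS : ProjSys ℓ u p C θ
  mal : Mal u
  p1 : p 1 = 0
  h0 : h 0 = 1
  hs : ∀ i, h (i + 1) = h i * u ^ (T i) * v i
  vU : ∀ i, v i ∉ Subgroup.zpowers u
  vl : ∀ i, ℓ (v i) ≤ lam
  Tq : ∀ i, T (i + q) = T i
  vq : ∀ i, v (i + q) = v i
  hW : C * lam + θ + C + K + K₀ + lam + 1 ≤ W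
  TW : ∀ i, 20 * (W : ℤ) ≤ T i
  Td : ∀ i j, |T i - T j| ≤ 20 * (W : ℤ) → (q : ℤ) ∣ i - j
  hq : 3 ≤ q

/-- the union of the segments of a chain -/
def chS (u : Γ) (T : ℤ → ℤ) (h : ℤ → Γ) : Set Γ :=
  {z | ∃ (i t : ℤ), 0 ≤ t ∧ t ≤ T i ∧ z = h i * u ^ t}

/-- `x` is to the right of the `i`-th segment -/
def rt (p : Γ → ℤ) (T : ℤ → ℤ) (h : ℤ → Γ) (x : Γ) (i : ℤ) : Prop := T i < 2 * p ((h i)⁻¹ * x)

/-- `P` is the index function of the chain: the largest index whose segment is left of `x` -/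
def IsIdx (p : Γ → ℤ) (T : ℤ → ℤ) (h : ℤ → Γ) (P : Γ → ℤ) : Prop :=
  ∀ (x : Γ) (i : ℤ), rt p T h x i ↔ i ≤ P x

end Pool.Agent.Lib.MP_e1b29e_al
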