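import Pool.Agent.Lib.MP_e1b29e_al.Defs

/-!
Existence of periodic chains with long segments (pure construction of the sequences).
-/

set_option autoImplicit false

namespace Pool.Agent.Lib.MP_e1b29e_al

open Pool.Agent.Lib.MP_06935a_al
open scoped Pointwise

variable {Γ : Type} [Group Γ] {ℓ : Γ → ℕ} {δ : ℕ}

/-- prefix products -/
def exPre (u : Γ) (T : ℤ → ℤ) (v : ℤ → Γ) : ℕ → Γ
  | 0 => 1
  | n + 1 => exPre u T v n * u ^ (T n) * v n

/-- the periodic sequence of nodes -/
def exNode (u : Γ) (T : ℤ → ℤ) (v : ℤ → Γ) (q : ℕ) (i : ℤ) : Γ :=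
  exPre u T v q ^ (i / q) * exPre u T v (i % q).toNat

theorem exNode_succ (u : Γ) (T : ℤ → ℤ) (v : ℤ → Γ) (q : ℕ) (hq : 1 ≤ q)
    (hT : ∀ i : ℤ, T (i % q) = T i) (hv : ∀ i : ℤ, v (i % q) = v i) (i : ℤ) :
    exNode u T v q (i + 1) = exNode u T v q i * u ^ (T i) * v i := by
  have hq0 : (0 : ℤ) < q := by exact_mod_cast hq
  have h0 : 0 ≤ i % q := Int.emod_nonneg _ hq0.ne'
  have h1 : i % q < q := Int.emod_lt_of_pos _ hq0
  obtain ⟨r, hr⟩ := Int.eq_ofNat_of_zero_le h0
  have hdm : (q : ℤ) * (i / q) + i % q = i := Int.mul_ediv_add_emod i q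
  have key : exPre u T v (r + 1) = exPre u T v r * u ^ (T i) * v i := by
    show exPre u T v r * u ^ (T (r : ℤ)) * v (r : ℤ) = _
    rw [← hr, hT, hv]
  by_cases hc : r + 1 < q
  · have e1 : (i + 1) / q = i / q := by
      rw [Int.ediv_eq_iff_of_pos hq0]
      constructor
      · nlinarith
      · have : (r : ℤ) + 1 < q := by exact_mod_cast hc
        nlinarith
    have e2 : (i + 1) % q = r + 1 := by
      have := Int.mul_ediv_add_emod (i + 1) q
      rw [e1] at this
      linarith
    unfold exNode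
    rw [e1, e2, hr]
    have : ((r : ℤ) + 1).toNat = r + 1 := by omega
    rw [this, key]
    simp [mul_assoc]
  · have hrq : r + 1 = q := by
      have : (r : ℤ) < q := by rw [← hr]; exact h1
      omega
    have hrq' : (r : ℤ) + 1 = q := by exact_mod_cast hrq
    have e1 : (i + 1) / q = i / q + 1 := by
      rw [Int.ediv_eq_iff_of_pos hq0]
      constructor
      · nlinarith
      · nlinarith
    have e2 : (i + 1) % q = 0 := by
      have := Int.mul_ediv_add_emod (i + 1) q
      rw [e1] at this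
      linarith
    unfold exNode
    rw [e1, e2, hr]
    simp only [Int.toNat_zero, Int.toNat_natCast]
    rw [zpow_add, zpow_one]
    have : exPre u T v q = exPre u T v r * u ^ (T i) * v i := by rw [← hrq, key]
    have h3 : exPre u T v q ^ (i / ↑q) * exPre u T v r * u ^ T i * v i =
        exPre u T v q ^ (i / ↑q) * (exPre u T v r * u ^ T i * v i) := by group
    rw [h3, ← this]
    simp [exPre]

theorem exists_chain (H : HypLen ℓ δ) (u : Γ) (p : Γ → ℤ) (K₀ K C θ : ℕ) (Q : QGeo ℓ u K₀)
    (MP : MetProj ℓ u p K) (PS : ProjSys ℓ u p C θ) (mal : Mal u) (e : ℤ) (he : e ≠ 0) (y s' : Γ)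
    (hy : y ∉ Subgroup.zpowers u) (hs' : s' ∉ Subgroup.zpowers u) :
    ∃ lam W : ℕ, ∀ q M₀ : ℕ, 3 ≤ q → ∃ (M' : ℕ) (T : ℤ → ℤ) (v h : ℤ → Γ), M₀ ≤ M' ∧
      Chn ℓ u p K₀ K C θ lam W T v h q ∧ (∀ i, (M' : ℤ) ≤ T i ∧ T i ≤ 2 * M') ∧
      (∀ i, v i = y ∨ v i = s') ∧ ∃ w₁ ∈ Subgroup.closure {u ^ e, y}, h q = w₁ * s' := by
  have hp1 : p 1 = 0 := by
    have h1 := MP.near 1 0
    have h2 : ℓ (u ^ p 1) = 0 := by
      have : dst ℓ (1 : Γ) (u ^ (0 : ℤ)) = 0 := by simp [dst, H.one]
      rw [this] at h1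
      simpa [dst] using h1
    have h3 : u ^ p 1 = 1 := H.eq_one _ h2
    have h4 : ∀ n : ℤ, p (u ^ n) = p 1 + n := by
      intro n
      induction n using Int.induction_on with
      | zero => simp
      | succ k ih =>
        have := MP.shift (u ^ (k : ℤ))
        rw [← zpow_one_add] at this
        rw [add_comm (k : ℤ) 1, this, ih]; ring
      | pred k ih =>
        have := MP.shift (u ^ (-(k : ℤ) - 1))
        rw [← zpow_one_add] at this
        have e1 : (1 : ℤ) + (-(k : ℤ) - 1) = -k := by ring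
        rw [e1, ih] at this
        linarith
    have h5 := h4 (p 1)
    rw [h3] at h5
    linarith
  set lam : ℕ := max (ℓ y) (ℓ s') with hlam
  set W : ℕ := C * lam + θ + C + K + K₀ + lam + 1 with hW
  refine ⟨lam, W, ?_⟩
  intro q M₀ hq
  have hq0 : (0 : ℤ) < q := by exact_mod_cast (by omega : 0 < q)
  set G0 : ℕ := 20 * W + 1 with hG0
  set M'' : ℕ := M₀ + 20 * W + G0 * q + 1 with hM''
  set E : ℕ := e.natAbs with hE
  have hE1 : 1 ≤ E := Int.natAbs_pos.mpr he
  set T : ℤ → ℤ := fun i => (E : ℤ) * (M'' + G0 * (i % q)) with hT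
  set v : ℤ → Γ := fun i => if i % q = q - 1 then s' else y with hv
  have hmodT : ∀ i : ℤ, T (i % q) = T i := by intro i; simp [hT]
  have hmodv : ∀ i : ℤ, v (i % q) = v i := by intro i; simp [hv]
  have hm0 : ∀ i : ℤ, 0 ≤ i % q := fun i => Int.emod_nonneg _ hq0.ne'
  have hm1 : ∀ i : ℤ, i % q < q := fun i => Int.emod_lt_of_pos _ hq0
  have hE1' : (1 : ℤ) ≤ E := by exact_mod_cast hE1
  have hlow : ∀ i, ((E * M'' : ℕ) : ℤ) ≤ T i := by
    intro i
    simp only [hT]
    push_cast
    have := mul_nonneg (mul_nonneg (by positivity : (0 : ℤ) ≤ E) (by positivity : (0 : ℤ) ≤ G0))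
      (hm0 i)
    nlinarith
  refine ⟨E * M'', T, v, exNode u T v q, ?_, ?_, ?_, ?_, ?_⟩
  · calc M₀ ≤ M'' := by omega
      _ = 1 * M'' := by ring
      _ ≤ E * M'' := Nat.mul_le_mul_right _ hE1
  · refine ⟨Q, MP, PS, mal, hp1, ?_, ?_, ?_, ?_, ?_, ?_, ?_, ?_, ?_, hq⟩
    · simp [exNode, exPre]
    · exact exNode_succ u T v q (by omega) hmodT hmodv
    · intro i
      simp only [hv]
      split_ifs
      · exact hs'
      · exact hy
    · intro i
      simp only [hv]
      split_ifs
      · exact le_max_right _ _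
      · exact le_max_left _ _
    · intro i; simp [hT]
    · intro i; simp [hv]
    · omega
    · intro i
      refine le_trans ?_ (hlow i)
      have h1 : 20 * W ≤ E * M'' := by
        calc 20 * W ≤ M'' := by omega
          _ = 1 * M'' := by ring
          _ ≤ E * M'' := Nat.mul_le_mul_right _ hE1
      exact_mod_cast h1
    · intro i j hij
      have e1 : T i - T j = (E : ℤ) * ((G0 : ℤ) * (i % q - j % q)) := by simp only [hT]; ring
      rw [e1, abs_mul, abs_mul] at hij
      have h0 : i % q - j % q = 0 := by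
        by_contra hne
        have h1 : (1 : ℤ) ≤ |i % q - j % q| := Int.one_le_abs hne
        have h2 : |(E : ℤ)| = E := abs_of_nonneg (by positivity)
        have h3 : |(G0 : ℤ)| = G0 := abs_of_nonneg (by positivity)
        rw [h2, h3] at hij
        have h4 : (G0 : ℤ) ≤ G0 * |i % q - j % q| := le_mul_of_one_le_right (by positivity) h1
        have h5 : (G0 : ℤ) ≤ E * (G0 * |i % q - j % q|) := by nlinarith
        have h6 : (G0 : ℤ) = 20 * W + 1 := by simp [hG0]
        linarith
      have h1 : i % q = j % q := by linarith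
      exact Int.ModEq.dvd (h1.symm : j ≡ i [ZMOD q])
  · intro i
    refine ⟨hlow i, ?_⟩
    have h1 : (G0 : ℤ) * (i % q) ≤ G0 * q := mul_le_mul_of_nonneg_left (hm1 i).le (by positivity)
    have h2 : (M'' : ℤ) = M₀ + 20 * W + G0 * q + 1 := by simp [hM'']
    simp only [hT]
    push_cast
    nlinarith
  · intro i
    simp only [hv]
    split_ifs
    · exact Or.inr rfl
    · exact Or.inl rfl
  · have huT : ∀ i, u ^ T i ∈ Subgroup.closure ({u ^ e, y} : Set Γ) := by
      intro i
      have h1 : u ^ e ∈ Subgroup.closure ({u ^ e, y} : Set Γ) :=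
        Subgroup.subset_closure (by simp)
      have h2 : ∃ k : ℤ, T i = e * k := by
        have : e ∣ T i := by
          simp only [hT]
          exact Dvd.dvd.mul_right (Int.dvd_natAbs.mpr dvd_rfl) _
        exact this
      obtain ⟨k, hk⟩ := h2
      rw [hk, zpow_mul]
      exact Subgroup.zpow_mem _ h1 k
    have hpre : ∀ n : ℕ, n + 1 ≤ q → exPre u T v n ∈ Subgroup.closure ({u ^ e, y} : Set Γ) := by
      intro n
      induction n with
      | zero => intro _; exact Subgroup.one_mem _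
      | succ n ih =>
        intro hn
        show exPre u T v n * u ^ (T (n : ℤ)) * v (n : ℤ) ∈ _
        refine Subgroup.mul_mem _ (Subgroup.mul_mem _ (ih (by omega)) (huT _)) ?_
        have e1 : (n : ℤ) % q = n := Int.emod_eq_of_lt (by positivity) (by exact_mod_cast (by omega))
        have e2 : ¬ ((n : ℤ) = q - 1) := by omega
        simp only [hv, e1, e2, if_false]
        exact Subgroup.subset_closure (by simp)
    refine ⟨exPre u T v (q - 1) * u ^ (T ((q - 1 : ℕ) : ℤ)),
      Subgroup.mul_mem _ (hpre _ (by omega)) (huT _), ?_⟩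
    have e1 : exNode u T v q q = exPre u T v q := by
      unfold exNode
      rw [Int.ediv_self hq0.ne', Int.emod_self]
      simp [exPre]
    rw [e1]
    have e2 : q = (q - 1) + 1 := by omega
    conv_lhs => rw [e2]
    show exPre u T v (q - 1) * u ^ (T ((q - 1 : ℕ) : ℤ)) * v ((q - 1 : ℕ) : ℤ) = _
    congr 1
    have e3 : ((q - 1 : ℕ) : ℤ) = q - 1 := by push_cast [Nat.cast_sub (by omega : 1 ≤ q)]; ring
    have e4 : ((q : ℤ) - 1) % q = q - 1 := Int.emod_eq_of_lt (by omega) (by omega)
    simp only [hv, e3, e4, if_true]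

end Pool.Agent.Lib.MP_e1b29e_al
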