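import Pool.Agent.Lib.MP_e1b29e_al.ChainAxis
import Pool.Agent.Lib.MP_e1b29e_al.ChainQC
import Pool.Agent.Lib.MP_e1b29e_al.ChainSub
import Pool.Agent.Lib.MP_e1b29e_al.ChainGap
import Pool.Agent.Lib.MP_e1b29e_al.ExistsChain
import Pool.Agent.Lib.MP_06935a_al.Lox
import Pool.Agent.Lib.MP_06935a_al.Proj
import Pool.Agent.Lib.MP_06935a_al.PSys
import Pool.Agent.Lib.MP_06935a_al.Root

/-!
# Existence of the axis of a long relator inside a malnormal subgroup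
-/

set_option autoImplicit false

namespace Pool.Agent.Lib.MP_e1b29e_al

open Pool.Agent.Lib.MP_06935a_al hiding Res Good
open scoped Pointwise

variable {Γ : Type} [Group Γ] {ℓ : Γ → ℕ} {δ : ℕ}

theorem Chn.h_memA {u : Γ} {p : Γ → ℤ} {K₀ K C θ lam W : ℕ} {T : ℤ → ℤ} {v h : ℤ → Γ} {q : ℕ}
    (D : Chn ℓ u p K₀ K C θ lam W T v h q) (A : Subgroup Γ) (hu : u ∈ A) (hv : ∀ i, v i ∈ A)
    (i : ℤ) : h i ∈ A := by
  induction i using Int.induction_on with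
  | zero => rw [D.h0]; exact A.one_mem
  | succ i ih =>
    rw [D.hs]
    exact A.mul_mem (A.mul_mem ih (A.zpow_mem hu _)) (hv _)
  | pred i ih =>
    have h1 := D.hs (-(i : ℤ) - 1)
    rw [sub_add_cancel] at h1
    have h2 : h (-(i : ℤ) - 1) = h (-(i : ℤ)) * (v (-(i : ℤ) - 1))⁻¹ *
        (u ^ T (-(i : ℤ) - 1))⁻¹ := by
      rw [h1]; group
    rw [h2]
    exact A.mul_mem (A.mul_mem ih (A.inv_mem (hv _))) (A.inv_mem (A.zpow_mem hu _))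

theorem exists_axis (H : HypLen ℓ δ) (hp : ProperLen ℓ) (tf : TF Γ) (A : Subgroup Γ)
    (hA : Maln A) (x y s : Γ) (hx : x ∈ A) (hy : y ∈ A) (hs : s ∈ A) (hxy : x * y ≠ y * x)
    (κ : ℕ) :
    ∃ κ' C θ K β : ℕ, ∀ c' R' q₀ : ℕ, ∃ q ≥ q₀, ∃ (S : Set Γ) (R : Γ) (P : Γ → ℤ) (pt : ℤ → Γ),
      Axis ℓ S R P pt q C θ K ∧ QC ℓ S κ' ∧ Gap ℓ pt q c' R' ∧ R ∈ A ∧ R ≠ 1 ∧
      (∃ w₁ ∈ Subgroup.closure {x, y}, ∃ w₂ ∈ Subgroup.closure {x, y}, R = w₁ * s * w₂) ∧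
      (∀ J : Subgroup Γ, QC ℓ (J : Set Γ) κ → ∀ g t : Γ, t ∈ J → (β : ℤ) ≤ |P g - P (g * t)| →
        ∃ c₁ ∈ A, ∃ c₂ ∈ A, c₁ * c₂ ≠ c₂ * c₁ ∧ g⁻¹ * c₁ * g ∈ J ∧ g⁻¹ * c₂ * g ∈ J) := by
  have hx1 : x ≠ 1 := by
    rintro rfl
    simp at hxy
  obtain ⟨u, hxu, mal⟩ := exists_root H hp
    (fun c _ hc hfc _ => absurd (tf c hfc) hc)
    (fun c hc => tf c (isOfFinOrder_iff_pow_eq_one.mpr ⟨2, by norm_num, hc⟩)) x
    (fun h => hx1 (tf x h))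
  obtain ⟨e, he⟩ := Subgroup.mem_zpowers_iff.mp hxu
  have he0 : e ≠ 0 := by
    rintro rfl
    rw [zpow_zero] at he
    exact hx1 he.symm
  have hu1 : u ≠ 1 := by
    rintro rfl
    rw [one_zpow] at he
    exact hx1 he.symm
  have huA : u ∈ A := by
    apply hA u x hx hx1
    have : u⁻¹ * x * u = x := by rw [← he]; group
    rwa [this]
  have comm : ∀ z ∈ Subgroup.zpowers u, x * z = z * x := by
    intro z hz
    obtain ⟨k, rfl⟩ := Subgroup.mem_zpowers_iff.mp hz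
    rw [← he, ← zpow_add, ← zpow_add, add_comm]
  have hyU : y ∉ Subgroup.zpowers u := fun h => hxy (comm y h)
  obtain ⟨s', w₂, hs'U, hs'A, hw₂, hs'⟩ : ∃ s' w₂ : Γ, s' ∉ Subgroup.zpowers u ∧ s' ∈ A ∧
      w₂ ∈ Subgroup.closure {x, y} ∧ s' = s * w₂ := by
    by_cases hsU : s ∈ Subgroup.zpowers u
    · refine ⟨s * y, y, ?_, A.mul_mem hs hy, Subgroup.subset_closure (by simp), rfl⟩
      intro h
      apply hyU
      have := Subgroup.mul_mem _ (Subgroup.inv_mem _ hsU) h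
      rwa [inv_mul_cancel_left] at this
    · exact ⟨s, 1, hsU, hs, Subgroup.one_mem _, by simp⟩
  obtain ⟨K₀, Q⟩ := exists_qgeo H hp u (fun h => hu1 (tf u h))
  obtain ⟨p, K, MP⟩ := exists_metProj H u K₀ Q
  obtain ⟨C, θ, PS⟩ := exists_projSys H hp u K₀ Q mal p K MP
  obtain ⟨lam, W, hch⟩ := exists_chain H u p K₀ K C θ Q MP PS mal e he0 y s' hyU hs'U
  obtain ⟨κ', hκ'⟩ := chain_qc H u p K₀ K C θ lam W
  obtain ⟨M₂, hM₂⟩ := chain_sub2 H hp u p K₀ K C θ lam W κ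
  refine ⟨κ', 1, 5, K + 6 * W * ℓ u, 5, ?_⟩
  intro c' R' q₀
  obtain ⟨I, hI⟩ := Q.unb ((q₀ + 3 * c' + 3) * (K₀ + 2 * lam + 2 * (K + 6 * W * ℓ u)) + R')
  obtain ⟨M', T, v, h, hM', D, hT, hv, w₁, hw₁, hhq⟩ :=
    hch (q₀ + 3 * c' + 3) (M₂ + I) (by omega)
  obtain ⟨P, hP⟩ := D.exists_idx H hp
  have Ax := D.axis H hP
  have hvA : ∀ i, v i ∈ A := by
    intro i
    rcases hv i with h | h
    · rw [h]; exact hy
    · rw [h]; exact hs'A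
  have hhA : ∀ i, h i ∈ A := D.h_memA A huA hvA
  refine ⟨q₀ + 3 * c' + 3, by omega, chS u T h, h (q₀ + 3 * c' + 3 : ℕ), P, h, Ax,
    hκ' T v h _ D, chain_gap H c' R' (by omega) M' D hT (hI M' (by omega)), hhA _, ?_, ?_, ?_⟩
  · intro hR
    have := Ax.shift 1
    rw [hR, one_mul] at this
    push_cast at this
    omega
  · refine ⟨w₁, ?_, w₂, hw₂, ?_⟩
    · rwa [he] at hw₁
    · rw [hhq, hs', mul_assoc]
  · intro J hJ g t ht hb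
    obtain ⟨i, m, n, h1, h2, h3⟩ := hM₂ T v h _ D (fun i => by
      have := (hT i).1
      push_cast at *
      have h4 : ((M₂ + I : ℕ) : ℤ) ≤ M' := by exact_mod_cast hM'
      push_cast at h4
      omega) P hP J hJ g t ht (by exact_mod_cast hb)
    exact ⟨_, A.mul_mem (A.mul_mem (hhA i) (A.zpow_mem huA m)) (A.inv_mem (hhA i)), _,
      A.mul_mem (A.mul_mem (hhA (i + 1)) (A.zpow_mem huA n)) (A.inv_mem (hhA (i + 1))), h3, h1, h2⟩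

end Pool.Agent.Lib.MP_e1b29e_al
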