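import Pool.Agent.Lib.MP_e1b29e_al.FZHyp
import Pool.Agent.Lib.MP_06935a_al.Cone2

/-!
Subgroups of the free product: membership in `HB B g`, quasi-convexity.
-/

set_option autoImplicit false
set_option linter.unusedSectionVars false

namespace Pool.Agent.Lib.MP_e1b29e_al

open Pool.Agent.Lib.MP_06935a_al
open scoped Pointwise

variable {Γ : Type} [Group Γ] {ℓ : Γ → ℕ} {δ : ℕ}

/-! ### membership -/

theorem alc_none (g : Γ) : alc g none = 1 := by simp [alc]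

theorem alc_one (g : Γ) : alc g (some 1) = 1 := by
  unfold alc
  rw [if_neg]
  rw [Option.some_inj]
  decide

theorem alc_neg (g : Γ) : alc g (some (-1)) = g := by simp [alc]

theorem bec_one (g : Γ) : bec g 1 = g⁻¹ := by simp [bec]

theorem bec_neg (g : Γ) : bec g (-1) = 1 := by
  unfold bec
  rw [if_neg (by decide)]

/-- only the left correction matters -/
theorem okB_shift (B : Subgroup Γ) (g : Γ) (o o' : Option ℤˣ) (x c : Γ) (L : List (ℤˣ × Γ))
    (hx : (alc g o)⁻¹ * c = (alc g o')⁻¹ * x) : okB B g o c L ↔ okB B g o' x L := by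
  cases L with
  | nil => simp only [okB, hx]
  | cons s L =>
    obtain ⟨e, a⟩ := s
    simp only [okB, hx]

theorem fi_mem_HB (B : Subgroup Γ) (g : Γ) {b : Γ} (hb : b ∈ B) : fi b ∈ HB B g :=
  Subgroup.subset_closure (Or.inl ⟨b, hb, rfl⟩)

theorem s_mem_HB (B : Subgroup Γ) (g : Γ) : (ft⁻¹ * fi g : FZ Γ) ∈ HB B g :=
  Subgroup.subset_closure (Or.inr rfl)

/-- corrected letters belong to the subgroup -/
theorem letter_mem_HB (B : Subgroup Γ) (g : Γ) (e : ℤˣ) :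
    fi (bec g e) * ft ^ (e : ℤ) * fi (alc g (some e)) ∈ HB B g := by
  rcases Int.units_eq_one_or e with rfl | rfl
  · rw [bec_one, alc_one]
    have := (HB B g).inv_mem (s_mem_HB B g)
    simpa using this
  · rw [bec_neg, alc_neg]
    have := s_mem_HB B g
    simpa using this

/-- one step of the decomposition -/
theorem step_HB (B : Subgroup Γ) (g : Γ) (o : Option ℤˣ) (c : Γ) (e : ℤˣ)
    (hc : (alc g o)⁻¹ * c * (bec g e)⁻¹ ∈ B) (y : FZ Γ)
    (hy : (fi (alc g (some e)))⁻¹ * y ∈ HB B g) :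
    (fi (alc g o))⁻¹ * (fi c * ft ^ (e : ℤ) * y) ∈ HB B g := by
  have h := (HB B g).mul_mem ((HB B g).mul_mem (fi_mem_HB B g hc) (letter_mem_HB B g e)) hy
  have e1 : fi ((alc g o)⁻¹ * c * (bec g e)⁻¹) *
      (fi (bec g e) * ft ^ (e : ℤ) * fi (alc g (some e))) * ((fi (alc g (some e)))⁻¹ * y) =
      (fi (alc g o))⁻¹ * (fi c * ft ^ (e : ℤ) * y) := by
    rw [map_mul, map_mul, map_inv, map_inv]
    group
  rwa [e1] at h

theorem okB_mem (B : Subgroup Γ) (g : Γ) (L : List (ℤˣ × Γ)) :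
    ∀ (o : Option ℤˣ) (c : Γ), okB B g o c L → (fi (alc g o))⁻¹ * val c L ∈ HB B g := by
  induction L with
  | nil =>
    intro o c h
    simp only [okB] at h
    rw [val_nil, ← map_inv, ← map_mul]
    exact fi_mem_HB B g h
  | cons s L ih =>
    obtain ⟨e, a⟩ := s
    intro o c h
    simp only [okB] at h
    rw [val_cons]
    exact step_HB B g o c e h.1 _ (ih (some e) a h.2)

/-- elements represented by an admissible reduced word -/
def PB (B : Subgroup Γ) (g : Γ) (x : FZ Γ) : Prop :=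
  ∃ (c : Γ) (L : List (ℤˣ × Γ)), Red L ∧ okB B g none c L ∧ val c L = x

theorem PB_one (B : Subgroup Γ) (g : Γ) : PB B g 1 := by
  refine ⟨1, [], red_nil, ?_, ?_⟩
  · simp only [okB, alc_none]
    simpa using B.one_mem
  · rw [val_nil, map_one]

theorem PB_fi (B : Subgroup Γ) (g : Γ) {b : Γ} (hb : b ∈ B) {x : FZ Γ} (hx : PB B g x) :
    PB B g (fi b * x) := by
  obtain ⟨c, L, h, hok, rfl⟩ := hx
  refine ⟨b * c, L, h, ?_, (fi_mul_val b c L).symm⟩
  cases L with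
  | nil =>
    simp only [okB, alc_none, inv_one, one_mul] at hok ⊢
    exact B.mul_mem hb hok
  | cons s L =>
    obtain ⟨e, a⟩ := s
    simp only [okB, alc_none, inv_one, one_mul] at hok ⊢
    refine ⟨?_, hok.2⟩
    have := B.mul_mem hb hok.1
    rwa [← mul_assoc] at this

theorem PB_s (B : Subgroup Γ) (g : Γ) {x : FZ Γ} (hx : PB B g x) :
    PB B g (ft⁻¹ * fi g * x) := by
  obtain ⟨c, L, h, hok, rfl⟩ := hx
  have e1 : ft⁻¹ * fi g * val c L = val 1 ((-1, g * c) :: L) := by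
    rw [mul_assoc, fi_mul_val, val_one_cons]
    simp
  rw [e1]
  by_cases hr : Red ((-1, g * c) :: L)
  · refine ⟨1, _, hr, ?_, rfl⟩
    simp only [okB, alc_none, bec_neg]
    refine ⟨by simpa using B.one_mem, ?_⟩
    rw [okB_shift B g (some (-1)) none c]
    · exact hok
    · rw [alc_neg, alc_none]; group
  · rcases L with _ | ⟨⟨e, a⟩, L'⟩
    · exact absurd (red_singleton _) hr
    · rw [red_cons_cons] at hr
      have hr' : g * c = 1 ∧ -1 ≠ e := by
        by_contra hcon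
        apply hr
        refine ⟨fun h1 => ?_, h⟩
        by_contra h2
        exact hcon ⟨h1, h2⟩
      have he : e = 1 := by
        have := units_neg_of_ne hr'.2
        rw [neg_neg] at this
        exact this.symm
      subst he
      refine ⟨a, L', h.tail, ?_, ?_⟩
      · simp only [okB] at hok
        rw [okB_shift B g none (some 1) a]
        · exact hok.2
        · rw [alc_one, alc_none]
      · rw [val_one_cons, val_cons, hr'.1, map_one]
        simp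

theorem PB_sinv (B : Subgroup Γ) (g : Γ) {x : FZ Γ} (hx : PB B g x) :
    PB B g ((ft⁻¹ * fi g)⁻¹ * x) := by
  obtain ⟨c, L, h, hok, rfl⟩ := hx
  have e1 : (ft⁻¹ * fi g)⁻¹ * val c L = val g⁻¹ ((1, c) :: L) := by
    rw [val_cons, map_inv]
    simp [mul_assoc]
  rw [e1]
  by_cases hr : Red ((1, c) :: L)
  · refine ⟨g⁻¹, _, hr, ?_, rfl⟩
    simp only [okB, alc_none, bec_one]
    refine ⟨by simpa using B.one_mem, ?_⟩
    rw [okB_shift B g (some 1) none c]
    · exact hok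
    · rw [alc_one, alc_none]
  · rcases L with _ | ⟨⟨e, a⟩, L'⟩
    · exact absurd (red_singleton _) hr
    · rw [red_cons_cons] at hr
      have hr' : c = 1 ∧ 1 ≠ e := by
        by_contra hcon
        apply hr
        refine ⟨fun h1 => ?_, h⟩
        by_contra h2
        exact hcon ⟨h1, h2⟩
      have he : e = -1 := (units_neg_of_ne hr'.2).symm
      subst he
      refine ⟨g⁻¹ * a, L', h.tail, ?_, ?_⟩
      · simp only [okB] at hok
        rw [okB_shift B g none (some (-1)) a]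
        · exact hok.2
        · rw [alc_neg, alc_none]; group
      · rw [val_cons, val_cons, hr'.1, map_one, ← fi_mul_val]
        simp

theorem mem_HB (B : Subgroup Γ) (g : Γ) (c : Γ) (L : List (ℤˣ × Γ)) (h : Red L) :
    val c L ∈ HB B g ↔ okB B g none c L := by
  constructor
  · intro hm
    have key : ∀ y ∈ HB B g, ∀ x, PB B g x ↔ PB B g (y * x) := by
      intro y hy
      unfold HB at hy
      induction hy using Subgroup.closure_induction with
      | mem y hy =>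
        rcases hy with ⟨b, hb, rfl⟩ | hy
        · intro x
          refine ⟨fun hx => PB_fi B g hb hx, fun hx => ?_⟩
          have := PB_fi B g (B.inv_mem hb) hx
          rwa [map_inv, inv_mul_cancel_left] at this
        · rw [Set.mem_singleton_iff] at hy
          subst hy
          intro x
          refine ⟨fun hx => PB_s B g hx, fun hx => ?_⟩
          have := PB_sinv B g hx
          rwa [inv_mul_cancel_left] at this
      | one => intro x; rw [one_mul]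
      | mul y z _ _ hy hz =>
        intro x
        rw [hz x, hy (z * x), mul_assoc]
      | inv y _ hy =>
        intro x
        rw [hy (y⁻¹ * x), mul_inv_cancel_left]
    have := (key _ hm 1).mp (PB_one B g)
    rw [mul_one] at this
    obtain ⟨c', L', h', hok, e⟩ := this
    obtain ⟨rfl, rfl⟩ := word_unique h' h e
    exact hok
  · intro hok
    have := okB_mem B g L none c hok
    rwa [alc_none, map_one, inv_one, one_mul] at this

/-! ### quasi-convexity -/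

/-- points on a geodesic from `1` to a word -/
theorem geo_cases (H : HypLen ℓ δ) {z : FZ Γ} {c : Γ} {L : List (ℤˣ × Γ)} (h : Red L)
    (hz : lz ℓ z + lz ℓ (z⁻¹ * val c L) = lz ℓ (val c L)) :
    (∃ d, z = fi d ∧ ℓ d + ℓ (d⁻¹ * c) = ℓ c) ∨
    (∃ (e : ℤˣ) (a : Γ) (L' : List (ℤˣ × Γ)) (z' : FZ Γ), L = (e, a) :: L' ∧
      z = fi c * ft ^ (e : ℤ) * z' ∧ lz ℓ z' + lz ℓ (z'⁻¹ * val a L') = lz ℓ (val a L')) := by
  obtain ⟨d, M, hM, rfl⟩ := exists_word z
  by_cases hs : Shr d M c L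
  · right
    obtain ⟨rfl, e, a, a', M', L', rfl, rfl⟩ := hs
    refine ⟨e, a', L', val a M', rfl, val_cons _ _ _ _, ?_⟩
    rw [lz_common, lz_val ℓ hM, lz_val ℓ h, wlen_cons, wlen_cons] at hz
    rw [lz_val ℓ hM.tail, lz_val ℓ h.tail]
    omega
  · left
    rw [lz_div H hM h hs, lz_val ℓ hM, lz_val ℓ h, wlen_eq, wlen_eq] at hz
    have h1 : ℓ c ≤ ℓ d + ℓ (d⁻¹ * c) := by
      have := H.mul d (d⁻¹ * c)
      rwa [mul_inv_cancel_left] at this
    rcases M with _ | ⟨⟨e, a⟩, M'⟩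
    · refine ⟨d, val_nil d, ?_⟩
      rw [slen_nil] at hz
      omega
    · rw [slen_cons] at hz
      omega

theorem lz_fi (H : HypLen ℓ δ) (x : Γ) : lz ℓ (fi x : FZ Γ) = ℓ x := by
  rw [← val_nil, lz_val ℓ red_nil, wlen_nil]

/-- a point on a geodesic from `1` to `α b β`, with short `α` and `β`, is close to `α B` -/
theorem near_cor (H : HypLen ℓ δ) (B : Subgroup Γ) (κ : ℕ) (hB : QC ℓ (B : Set Γ) κ) (r : ℕ)
    (α β c d : Γ) (hα : ℓ α ≤ r) (hβ : ℓ β ≤ r) (hc : α⁻¹ * c * β⁻¹ ∈ B)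
    (hd : ℓ d + ℓ (d⁻¹ * c) = ℓ c) : ∃ b ∈ B, ℓ (d⁻¹ * (α * b)) ≤ 2 * r + 2 * δ + κ := by
  obtain ⟨b₀, hb₀⟩ : ∃ b₀, b₀ = α⁻¹ * c * β⁻¹ := ⟨_, rfl⟩
  rw [← hb₀] at hc
  have ec : c = α * b₀ * β := by rw [hb₀]; group
  have h1 : dst ℓ 1 (α⁻¹ * d) ≤ ℓ d + r := by
    rw [dst_one_left]
    have := H.mul α⁻¹ d
    rw [H.inv] at this
    omega
  have h2 : dst ℓ (α⁻¹ * d) b₀ ≤ ℓ (d⁻¹ * c) + r := by
    have := H.mul (d⁻¹ * c) β⁻¹
    rw [H.inv] at this
    have e : d⁻¹ * c * β⁻¹ = (α⁻¹ * d)⁻¹ * b₀ := by rw [hb₀]; group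
    rw [e] at this
    unfold dst
    omega
  have h3 : ℓ c ≤ dst ℓ 1 b₀ + 2 * r := by
    rw [dst_one_left, ec]
    have a1 := H.mul (α * b₀) β
    have a2 := H.mul α b₀
    omega
  obtain ⟨p, hp1, hp2⟩ := H.near_geod 1 b₀ (α⁻¹ * d) (2 * r) (by
    unfold gpr
    rw [H.dst_comm b₀]
    push_cast
    omega)
  obtain ⟨b, hb, hpb⟩ := hB 1 B.one_mem b₀ hc p hp1
  refine ⟨b, hb, ?_⟩
  have h4 := H.dst_tri (α⁻¹ * d) p b
  have e : dst ℓ (α⁻¹ * d) b = ℓ (d⁻¹ * (α * b)) := by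
    unfold dst
    congr 1
    group
  omega

theorem HB_qc_aux (H : HypLen ℓ δ) (B : Subgroup Γ) (κ : ℕ) (hB : QC ℓ (B : Set Γ) κ) (g : Γ)
    (L : List (ℤˣ × Γ)) : ∀ (o : Option ℤˣ) (c : Γ) (z : FZ Γ), Red L → okB B g o c L →
      lz ℓ z + lz ℓ (z⁻¹ * val c L) = lz ℓ (val c L) →
      ∃ y, (fi (alc g o))⁻¹ * y ∈ HB B g ∧ lz ℓ (z⁻¹ * y) ≤ 2 * ℓ g + 2 * δ + κ := by
  have hal : ∀ o : Option ℤˣ, ℓ (alc g o) ≤ ℓ g := by
    intro o
    unfold alc
    split_ifs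
    · exact le_rfl
    · rw [H.one]; exact Nat.zero_le _
  have hbe : ∀ e : ℤˣ, ℓ (bec g e) ≤ ℓ g := by
    intro e
    unfold bec
    split_ifs
    · rw [H.inv]
    · rw [H.one]; exact Nat.zero_le _
  have base : ∀ (o : Option ℤˣ) (β c d : Γ), ℓ β ≤ ℓ g → (alc g o)⁻¹ * c * β⁻¹ ∈ B →
      ℓ d + ℓ (d⁻¹ * c) = ℓ c →
      ∃ y, (fi (alc g o))⁻¹ * y ∈ HB B g ∧
        lz ℓ ((fi d : FZ Γ)⁻¹ * y) ≤ 2 * ℓ g + 2 * δ + κ := by
    intro o β c d hβ hc hd
    obtain ⟨b, hb, hlb⟩ := near_cor H B κ hB (ℓ g) (alc g o) β c d (hal o) hβ hc hd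
    refine ⟨fi (alc g o * b), ?_, ?_⟩
    · rw [map_mul, inv_mul_cancel_left]
      exact fi_mem_HB B g hb
    · rw [← map_inv, ← map_mul, lz_fi H]
      exact hlb
  induction L with
  | nil =>
    intro o c z h hok hz
    rcases geo_cases H h hz with ⟨d, rfl, hd⟩ | ⟨e, a, L', z', h1, _⟩
    · simp only [okB] at hok
      exact base o 1 c d (by rw [H.one]; exact Nat.zero_le _) (by simpa using hok) hd
    · simp at h1
  | cons s L ih =>
    obtain ⟨e, a⟩ := s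
    intro o c z h hok hz
    simp only [okB] at hok
    rcases geo_cases H h hz with ⟨d, rfl, hd⟩ | ⟨e', a', L', z', h1, rfl, hz'⟩
    · exact base o (bec g e) c d (hbe e) hok.1 hd
    · rw [List.cons.injEq, Prod.mk.injEq] at h1
      obtain ⟨⟨rfl, rfl⟩, rfl⟩ := h1
      obtain ⟨y, hy, hzy⟩ := ih (some e) a z' h.tail hok.2 hz'
      refine ⟨fi c * ft ^ (e : ℤ) * y, step_HB B g o c e hok.1 y hy, ?_⟩
      have e1 : (fi c * ft ^ (e : ℤ) * z')⁻¹ * (fi c * ft ^ (e : ℤ) * y) = z'⁻¹ * y := by group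
      rw [e1]
      exact hzy

theorem HB_qc (H : HypLen ℓ δ) (B : Subgroup Γ) (κ : ℕ) (hB : QC ℓ (B : Set Γ) κ) (g : Γ) :
    ∃ κ' : ℕ, QC (lz ℓ) (HB B g : Set (FZ Γ)) κ' := by
  refine ⟨2 * ℓ g + 2 * δ + κ, ?_⟩
  intro a ha b hb z hz
  have hx : a⁻¹ * b ∈ HB B g := (HB B g).mul_mem ((HB B g).inv_mem ha) hb
  obtain ⟨c, L, h, e⟩ := exists_word (a⁻¹ * b)
  rw [← e, mem_HB B g c L h] at hx
  have hz' : lz ℓ (a⁻¹ * z) + lz ℓ ((a⁻¹ * z)⁻¹ * val c L) = lz ℓ (val c L) := by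
    rw [e]
    have e1 : (a⁻¹ * z)⁻¹ * (a⁻¹ * b) = z⁻¹ * b := by group
    rw [e1]
    exact hz
  obtain ⟨y, hy, hzy⟩ := HB_qc_aux H B κ hB g L none c (a⁻¹ * z) h hx hz'
  rw [alc_none, map_one, inv_one, one_mul] at hy
  refine ⟨a * y, (HB B g).mul_mem ha hy, ?_⟩
  have e2 : dst (lz ℓ) z (a * y) = lz ℓ ((a⁻¹ * z)⁻¹ * y) := by
    unfold dst
    congr 1
    group
  rw [e2]
  exact hzy

theorem fi_qc (H : HypLen ℓ δ) (C : Subgroup Γ) (κ : ℕ) (hC : QC ℓ (C : Set Γ) κ) :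
    QC (lz ℓ) ((C.map fi : Subgroup (FZ Γ)) : Set (FZ Γ)) κ := by
  rintro _ ⟨a, ha, rfl⟩ _ ⟨b, hb, rfl⟩ z hz
  have hz' : lz ℓ ((fi a)⁻¹ * z) + lz ℓ (((fi a)⁻¹ * z)⁻¹ * val (a⁻¹ * b) []) =
      lz ℓ (val (a⁻¹ * b) []) := by
    rw [val_nil, map_mul, map_inv]
    have e1 : ((fi a)⁻¹ * z)⁻¹ * ((fi a)⁻¹ * fi b) = z⁻¹ * fi b := by group
    rw [e1]
    exact hz
  rcases geo_cases H red_nil hz' with ⟨d, e, hd⟩ | ⟨e, a', L', z', h1, _⟩
  · obtain ⟨c, hc, hdc⟩ := hC a ha b hb (a * d) (by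
      have e1 : dst ℓ a (a * d) = ℓ d := dst_mul_right ℓ a d
      have e2 : dst ℓ (a * d) b = ℓ (d⁻¹ * (a⁻¹ * b)) := by
        unfold dst
        congr 1
        group
      rw [e1, e2]
      exact hd)
    refine ⟨fi c, ⟨c, hc, rfl⟩, ?_⟩
    have e3 : z = fi (a * d) := by
      rw [map_mul, ← e]
      group
    rw [e3]
    unfold dst at hdc ⊢
    rw [← map_inv, ← map_mul, lz_fi H]
    exact hdc
  · simp at h1

end Pool.Agent.Lib.MP_e1b29e_al
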