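import Pool.Agent.Lib.MP_e1b29e_al.FZWord
import Pool.Agent.Lib.MP_e1b29e_al.FZSub

/-!
Algebraic properties of the free product of `Γ` with an infinite cyclic group.
-/

set_option autoImplicit false

namespace Pool.Agent.Lib.MP_e1b29e_al

open Pool.Agent.Lib.MP_06935a_al
open scoped Pointwise

variable {Γ : Type} [Group Γ]

/-! ### auxiliary lemmas on words -/

theorem fza_red_append {L M : List (ℤˣ × Γ)} :
    Red (L ++ M) ↔ Red L ∧ Red M ∧ ∀ a ∈ L.getLast?, ∀ b ∈ M.head?, a.2 = 1 → a.1 = b.1 :=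
  List.isChain_append

theorem fza_red_last {L : List (ℤˣ × Γ)} {e : ℤˣ} {a : Γ} (a' : Γ) (h : Red (L ++ [(e, a)])) :
    Red (L ++ [(e, a')]) := by
  rw [fza_red_append] at h ⊢
  refine ⟨h.1, red_singleton _, ?_⟩
  intro x hx y hy
  have := h.2.2 x hx (e, a) (by simp)
  simp only [List.head?_cons, Option.mem_def, Option.some.injEq] at hy
  subst hy
  exact this

theorem fza_red_glue {L M : List (ℤˣ × Γ)} {e e' : ℤˣ} {a a' : Γ} (h : Red (L ++ [(e, a)]))
    (h' : Red ((e', a') :: M)) (hh : a = 1 → e = e') :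
    Red (L ++ (e, a) :: (e', a') :: M) := by
  have e1 : L ++ (e, a) :: (e', a') :: M = (L ++ [(e, a)]) ++ (e', a') :: M := by simp
  rw [e1, fza_red_append]
  refine ⟨h, h', ?_⟩
  intro x hx y hy
  simp only [List.getLast?_append, List.getLast?_singleton, Option.some_or, Option.mem_def,
    Option.some.injEq] at hx
  simp only [List.head?_cons, Option.mem_def, Option.some.injEq] at hy
  subst hx
  subst hy
  exact hh

theorem fza_red_left {L M : List (ℤˣ × Γ)} (h : Red (L ++ M)) : Red L :=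
  (fza_red_append.mp h).1

theorem fza_red_right {L M : List (ℤˣ × Γ)} (h : Red (L ++ M)) : Red M :=
  (fza_red_append.mp h).2.1

theorem fza_red_cons {e : ℤˣ} {a : Γ} {L M : List (ℤˣ × Γ)} {e' : ℤˣ} {a' : Γ}
    (h : Red (L ++ (e', a') :: M)) (hh : L = [] → a = 1 → e = e')
    (hh' : ∀ s L', L = s :: L' → a = 1 → e = s.1) : Red ((e, a) :: (L ++ (e', a') :: M)) := by
  rcases L with _ | ⟨⟨e1, a1⟩, L'⟩
  · simp only [List.nil_append] at h ⊢
    exact red_cons_cons.mpr ⟨hh rfl, h⟩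
  · simp only [List.cons_append] at h ⊢
    exact red_cons_cons.mpr ⟨hh' _ _ rfl, h⟩

theorem fza_val_mul (c x : Γ) (L : List (ℤˣ × Γ)) (e : ℤˣ) (a : Γ) :
    val c (L ++ [(e, a)]) * fi x = val c (L ++ [(e, a * x)]) := by
  rw [val_append, val_append, val_nil, val_nil, map_mul]
  group

theorem fza_neg (e : ℤˣ) : ((-e : ℤˣ) : ℤ) = -(e : ℤ) := Units.val_neg e

/-- a reduced word `t^(-e) x ⋯ t^e` -/
def FzaCrW (e : ℤˣ) (y : FZ Γ) : Prop :=
  ∃ (x : Γ) (N : List (ℤˣ × Γ)), Red ((-e, x) :: (N ++ [(e, 1)])) ∧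
    y = val 1 ((-e, x) :: (N ++ [(e, 1)]))

theorem fza_step {e e' : ℤˣ} {y : FZ Γ} {a : Γ} (h : FzaCrW e y) (ha : a = 1 → e = e') :
    FzaCrW e' (ft ^ (-(e' : ℤ)) * fi a⁻¹ * y * fi a * ft ^ (e' : ℤ)) := by
  obtain ⟨x, N, hR, rfl⟩ := h
  refine ⟨a⁻¹, (-e, x) :: (N ++ [(e, a)]), ?_, ?_⟩
  · have h1 : Red (((-e, x) :: N) ++ [(e, a)]) := fza_red_last (a := 1) a (by simpa using hR)
    have h2 := fza_red_glue h1 (red_singleton (e', (1 : Γ))) ha
    have h3 : Red ((-e', a⁻¹) :: (-e, x) :: (N ++ (e, a) :: [(e', 1)])) := by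
      rw [red_cons_cons]
      refine ⟨fun h => ?_, by simpa using h2⟩
      rw [ha (inv_eq_one.mp h)]
    simpa using h3
  · have : (-e', a⁻¹) :: ((-e, x) :: (N ++ [(e, a)]) ++ [(e', 1)])
        = ((-e', a⁻¹) :: (-e, x) :: N) ++ (e, a) :: [(e', 1)] := by simp
    rw [this]
    have h2 : (-e, x) :: (N ++ [(e, (1 : Γ))]) = ((-e, x) :: N) ++ (e, 1) :: [] := by simp
    rw [h2, val_append, val_append, val_cons, val_cons, val_cons, val_nil, val_cons, val_nil,
      map_one]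
    simp only [fza_neg]
    group

theorem fza_start1 {c : Γ} (hc : c ≠ 1) (e : ℤˣ) :
    FzaCrW e (ft ^ (-(e : ℤ)) * fi c * ft ^ (e : ℤ)) := by
  refine ⟨c, [], ?_, ?_⟩
  · simp only [List.nil_append]
    exact red_cons_cons.mpr ⟨fun h => absurd h hc, red_singleton _⟩
  · simp [val_cons, val_nil, mul_assoc]

theorem fza_start2 {c a : Γ} (hc : c ≠ 1) (ha : a ≠ 1) {e' : ℤˣ} {M : List (ℤˣ × Γ)}
    (hM : Red (M ++ [(e', a)])) (e : ℤˣ) :
    FzaCrW e (ft ^ (-(e : ℤ)) * val c (M ++ [(e', a)]) * ft ^ (e : ℤ)) := by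
  refine ⟨c, M ++ [(e', a)], ?_, ?_⟩
  · have h2 := fza_red_glue hM (red_singleton (e, (1 : Γ))) (fun h => absurd h ha)
    have h3 := fza_red_cons (e := -e) (a := c) h2 (fun _ h => absurd h hc)
      (fun _ _ _ h => absurd h hc)
    simpa using h3
  · have : (-e, c) :: (M ++ [(e', a)] ++ [(e, 1)]) = ((-e, c) :: M) ++ (e', a) :: [(e, 1)] := by
      simp
    rw [this, val_append, val_append, val_cons, val_cons, val_nil, val_nil, map_one, fza_neg]
    group

theorem fza_conj_aux (L : List (ℤˣ × Γ)) : ∀ (g : Γ) (e₁ : ℤˣ) (y : FZ Γ) (e : ℤˣ) (a : Γ),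
    FzaCrW e₁ y → Red ((e₁, g) :: (L ++ [(e, a)])) →
    ∃ z, FzaCrW e z ∧ (val g (L ++ [(e, a)]))⁻¹ * y * val g (L ++ [(e, a)]) = fi a⁻¹ * z * fi a := by
  induction L with
  | nil =>
    intro g e₁ y e a hy hR
    simp only [List.nil_append] at hR ⊢
    refine ⟨_, fza_step hy (red_cons_cons.mp hR).1, ?_⟩
    rw [val_cons, val_nil, map_inv, map_inv]
    group
  | cons s L ih =>
    obtain ⟨e₂, g₂⟩ := s
    intro g e₁ y e a hy hR
    simp only [List.cons_append] at hR ⊢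
    obtain ⟨z, hz, h⟩ := ih g₂ e₂ _ e a (fza_step hy (red_cons_cons.mp hR).1)
      (red_cons_cons.mp hR).2
    refine ⟨z, hz, ?_⟩
    rw [← h, val_cons, map_inv]
    group

/-- the conjugate of `y` by a word with letters, without cancellation, is a word with letters -/
theorem fza_conj (g : Γ) (e₁ : ℤˣ) (a₁ : Γ) (L : List (ℤˣ × Γ)) (hL : Red ((e₁, a₁) :: L))
    (y : FZ Γ) (hy : FzaCrW e₁ (ft ^ (-(e₁ : ℤ)) * fi g⁻¹ * y * fi g * ft ^ (e₁ : ℤ))) :
    ∃ (L' : List (ℤˣ × Γ)) (e : ℤˣ) (a x : Γ) (N : List (ℤˣ × Γ)),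
      (e₁, a₁) :: L = L' ++ [(e, a)] ∧ Red ((-e, x) :: N) ∧
      (val g ((e₁, a₁) :: L))⁻¹ * y * val g ((e₁, a₁) :: L) = val a⁻¹ ((-e, x) :: N) := by
  have key : ∃ (L' : List (ℤˣ × Γ)) (e : ℤˣ) (a : Γ) (z : FZ Γ),
      (e₁, a₁) :: L = L' ++ [(e, a)] ∧ FzaCrW e z ∧
      (val g ((e₁, a₁) :: L))⁻¹ * y * val g ((e₁, a₁) :: L) = fi a⁻¹ * z * fi a := by
    rcases List.eq_nil_or_concat L with rfl | ⟨L', ⟨e, a⟩, rfl⟩
    · refine ⟨[], e₁, a₁, _, by simp, hy, ?_⟩
      rw [val_cons, val_nil, map_inv, map_inv]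
      group
    · rw [List.concat_eq_append] at hL ⊢
      obtain ⟨z, hz, h⟩ := fza_conj_aux L' a₁ e₁ _ e a hy hL
      refine ⟨(e₁, a₁) :: L', e, a, z, by simp, hz, ?_⟩
      rw [← h, val_cons, map_inv]
      group
  obtain ⟨L', e, a, z, h1, ⟨x, N, hR, rfl⟩, h2⟩ := key
  refine ⟨L', e, a, x, N ++ [(e, a)], h1, ?_, ?_⟩
  · have : Red (((-e, x) :: N) ++ [(e, a)]) := fza_red_last (a := 1) a (by simpa using hR)
    simpa using this
  · rw [h2]
    have e1 : (-e, x) :: (N ++ [(e, (1 : Γ))]) = ((-e, x) :: N) ++ [(e, 1)] := by simp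
    have e2 : (-e, x) :: (N ++ [(e, a)]) = ((-e, x) :: N) ++ [(e, a)] := by simp
    rw [e1, e2, mul_assoc, fza_val_mul, fi_mul_val, one_mul, mul_one]

theorem fza_fi_ne {c d : Γ} {s : ℤˣ × Γ} {L : List (ℤˣ × Γ)} (h : Red (s :: L)) :
    fi c ≠ val d (s :: L) := by
  intro h1
  rw [← val_nil] at h1
  have := (word_unique red_nil h h1).2
  simp at this

/-! ### torsion -/

/-- words `c t^e₁ ⋯ t^e` with last syllable `1`, compatible with iteration -/
def FzaCyW (c : Γ) (e₁ : ℤˣ) (y : FZ Γ) : Prop :=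
  ∃ (L : List (ℤˣ × Γ)) (e : ℤˣ) (a : Γ) (M : List (ℤˣ × Γ)),
    L ++ [(e, 1)] = (e₁, a) :: M ∧ Red (L ++ [(e, 1)]) ∧ (c = 1 → e = e₁) ∧
      y = val c (L ++ [(e, 1)])

theorem fza_cyW_ne_one {c : Γ} {e₁ : ℤˣ} {y : FZ Γ} (h : FzaCyW c e₁ y) : y ≠ 1 := by
  obtain ⟨L, e, a, M, h1, h2, -, rfl⟩ := h
  rw [h1] at h2 ⊢
  rw [← map_one (fi : Γ →* FZ Γ)]
  exact (fza_fi_ne h2).symm

theorem fza_cyW_mul {c : Γ} {e₁ : ℤˣ} {y z : FZ Γ} (h : FzaCyW c e₁ y) (h' : FzaCyW c e₁ z) :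
    FzaCyW c e₁ (y * z) := by
  obtain ⟨L, e, a, M, h1, h2, h3, rfl⟩ := h
  obtain ⟨L', e', a', M', h1', h2', h3', rfl⟩ := h'
  have e0 : L ++ (e, c) :: (L' ++ [(e', 1)]) = (L ++ (e, c) :: L') ++ [(e', 1)] := by simp
  have hd : ∃ a'' M'', (L ++ (e, c) :: L') ++ [(e', 1)] = (e₁, a'') :: M'' := by
    rcases L with _ | ⟨⟨e2, a2⟩, L2⟩
    · simp only [List.nil_append, List.cons.injEq, Prod.mk.injEq] at h1 ⊢
      simp only [List.cons_append, List.cons.injEq, Prod.mk.injEq]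
      exact ⟨c, L' ++ [(e', 1)], ⟨h1.1.1, rfl⟩, rfl⟩
    · simp only [List.cons_append, List.cons.injEq, Prod.mk.injEq] at h1 ⊢
      exact ⟨_, _, ⟨h1.1.1, rfl⟩, rfl⟩
  obtain ⟨a'', M'', hd⟩ := hd
  refine ⟨L ++ (e, c) :: L', e', a'', M'', hd, ?_, h3', ?_⟩
  · rw [← e0, h1']
    rw [h1'] at h2'
    exact fza_red_glue (fza_red_last c h2) h2' h3
  · rw [← e0, val_append c L e c, val_append c L e 1 [], val_nil, map_one, mul_one]

theorem fza_cyW_pow {c : Γ} {e₁ : ℤˣ} {y : FZ Γ} (h : FzaCyW c e₁ y) (k : ℕ) :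
    FzaCyW c e₁ (y ^ (k + 1)) := by
  induction k with
  | zero => simpa using h
  | succ k ih => rw [pow_succ]; exact fza_cyW_mul ih h

theorem fza_tf_aux (tf : TF Γ) (n : ℕ) : ∀ (c : Γ) (L : List (ℤˣ × Γ)), L.length ≤ n → Red L →
    IsOfFinOrder (val c L) → val c L = 1 := by
  induction n using Nat.strong_induction_on with
  | _ n ih =>
    intro c L hn hL hf
    rcases List.eq_nil_or_concat L with rfl | ⟨L', ⟨e, a⟩, rfl⟩
    · rw [val_nil] at hf ⊢
      have : IsOfFinOrder c := by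
        rw [isOfFinOrder_iff_pow_eq_one] at hf ⊢
        obtain ⟨m, hm, h⟩ := hf
        refine ⟨m, hm, fi_injective ?_⟩
        rw [map_pow, h, map_one]
      rw [tf c this, map_one]
    · rw [List.concat_eq_append] at hL hf hn ⊢
      have hf' : IsOfFinOrder (val (a * c) (L' ++ [(e, 1)])) := by
        have := (MulAut.conj (fi a)).toMonoidHom.isOfFinOrder hf
        convert this using 1
        simp only [MulEquiv.toMonoidHom_eq_coe, MonoidHom.coe_coe, MulAut.conj_apply]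
        rw [fi_mul_val, ← map_inv, fza_val_mul, mul_inv_cancel]
      have key : val (a * c) (L' ++ [(e, 1)]) = 1 := by
        have hR : Red (L' ++ [(e, (1 : Γ))]) := fza_red_last 1 hL
        by_cases hc : ∃ e₁ a₁ M, L' ++ [(e, (1 : Γ))] = (e₁, a₁) :: M ∧ (a * c = 1 → e = e₁)
        · exfalso
          obtain ⟨e₁, a₁, M, h1, h2⟩ := hc
          have hC : FzaCyW (a * c) e₁ (val (a * c) (L' ++ [(e, 1)])) := ⟨L', e, a₁, M, h1, hR, h2, rfl⟩
          rw [isOfFinOrder_iff_pow_eq_one] at hf'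
          obtain ⟨m, hm, h⟩ := hf'
          obtain ⟨k, rfl⟩ : ∃ k, m = k + 1 := ⟨m - 1, by omega⟩
          exact fza_cyW_ne_one (fza_cyW_pow hC k) h
        · rcases L' with _ | ⟨⟨e₁, a₁⟩, L2⟩
          · exact absurd ⟨e, 1, [], rfl, fun _ => rfl⟩ hc
          · have h1 : a * c = 1 ∧ e ≠ e₁ := by
              by_contra h2
              refine hc ⟨e₁, a₁, L2 ++ [(e, 1)], rfl, fun h3 => ?_⟩
              by_contra h4
              exact h2 ⟨h3, h4⟩
            have h2 := units_neg_of_ne h1.2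
            subst h2
            have e0 : (-e, a₁) :: L2 ++ [(e, (1 : Γ))] = (-e, a₁) :: L2 ++ (e, 1) :: [] := rfl
            have e1 : val (a * c) ((-e, a₁) :: L2 ++ [(e, 1)])
                = ft ^ (-(e : ℤ)) * val a₁ L2 * ft ^ (e : ℤ) := by
              rw [h1.1, val_append, val_cons, val_nil, map_one, fza_neg]
              group
            have hf2 : IsOfFinOrder (val a₁ L2) := by
              rw [e1] at hf'
              have := (MulAut.conj ((ft : FZ Γ) ^ (e : ℤ))).toMonoidHom.isOfFinOrder hf'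
              convert this using 1
              simp only [MulEquiv.toMonoidHom_eq_coe, MonoidHom.coe_coe, MulAut.conj_apply]
              group
            have hl : L2.length < n := by
              simp only [List.length_append, List.length_cons, List.length_nil] at hn
              omega
            have := ih L2.length hl a₁ L2 le_rfl
              (fza_red_left (M := [(e, a)]) (by simpa using hL.tail)) hf2
            rw [e1, this]
            group
      have e2 : val c (L' ++ [(e, a)]) = fi a⁻¹ * val (a * c) (L' ++ [(e, 1)]) * fi a := by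
        rw [fi_mul_val, fza_val_mul]
        simp
      rw [e2, key]
      simp

theorem fz_tf (tf : TF Γ) : TF (FZ Γ) := by
  intro x hx
  obtain ⟨g, L, hL, rfl⟩ := exists_word x
  exact fza_tf_aux tf L.length g L le_rfl hL hx

theorem mal_fi (tf : TF Γ) (u : Γ) (hu : u ≠ 1) (mal : Mal u) : Mal (fi u : FZ Γ) := by
  intro w i j hi h
  have hui : u ^ i ≠ 1 := by
    intro h1
    apply hu
    apply tf u
    rw [isOfFinOrder_iff_zpow_eq_one]
    exact ⟨i, hi, h1⟩
  obtain ⟨g, L, hL, hw⟩ := exists_word w⁻¹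
  have h2 : (val g L)⁻¹ * fi (u ^ i) * val g L = fi (u ^ j) := by
    rw [hw, inv_inv, map_zpow, map_zpow, h]
  rcases L with _ | ⟨⟨e₁, a₁⟩, L⟩
  · rw [val_nil] at h2 hw
    rw [← map_inv, ← map_mul, ← map_mul] at h2
    have h3 := fi_injective h2
    have h4 := mal g⁻¹ i j hi (by rw [inv_inv]; exact h3)
    obtain ⟨k, hk⟩ := Subgroup.mem_zpowers_iff.mp h4
    rw [Subgroup.mem_zpowers_iff]
    refine ⟨k, ?_⟩
    rw [← map_zpow, hk, map_inv, hw, inv_inv]
  · exfalso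
    have h3 : FzaCrW e₁ (ft ^ (-(e₁ : ℤ)) * fi g⁻¹ * fi (u ^ i) * fi g * ft ^ (e₁ : ℤ)) := by
      have h4 : g⁻¹ * u ^ i * g ≠ 1 := by
        intro h5
        apply hui
        have : u ^ i = g * (g⁻¹ * u ^ i * g) * g⁻¹ := by group
        rw [this, h5]
        group
      have := fza_start1 h4 e₁
      rw [map_mul, map_mul] at this
      simpa only [mul_assoc] using this
    obtain ⟨L', e, a, x, N, -, h5, h6⟩ := fza_conj g e₁ a₁ L hL (fi (u ^ i)) h3
    rw [h2] at h6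
    exact fza_fi_ne h5 h6

/-! ### the subgroups -/

theorem fza_okB_one (B : Subgroup Γ) (L : List (ℤˣ × Γ)) : ∀ (o : Option ℤˣ) (c : Γ),
    okB B 1 o c L ↔ c ∈ B ∧ ∀ s ∈ L, s.2 ∈ B := by
  induction L with
  | nil => intro o c; simp [okB, alc]
  | cons s L ih =>
    obtain ⟨e, a⟩ := s
    intro o c
    simp [okB, alc, bec, ih]

theorem fza_mem_HB_one (B : Subgroup Γ) (c : Γ) (L : List (ℤˣ × Γ)) (h : Red L) :
    val c L ∈ HB B 1 ↔ c ∈ B ∧ ∀ s ∈ L, s.2 ∈ B := by
  rw [mem_HB B 1 c L h, fza_okB_one]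

theorem fza_fi_mem {B : Subgroup Γ} (g : Γ) {b : Γ} (hb : b ∈ B) : (fi b : FZ Γ) ∈ HB B g :=
  Subgroup.subset_closure (Or.inl ⟨b, hb, rfl⟩)

theorem fza_tg_mem (B : Subgroup Γ) (g : Γ) : (ft⁻¹ * fi g : FZ Γ) ∈ HB B g :=
  Subgroup.subset_closure (Or.inr rfl)

theorem fza_t_mem (B : Subgroup Γ) (k : ℤ) : (ft ^ k : FZ Γ) ∈ HB B 1 := by
  have h := fza_tg_mem B (1 : Γ)
  rw [map_one, mul_one] at h
  exact Subgroup.zpow_mem _ (inv_mem_iff.mp h) k

theorem fza_conj_ne {G : Type} [Group G] {x h : G} (hh : h ≠ 1) : x⁻¹ * h * x ≠ 1 := by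
  intro h5
  apply hh
  have : h = x * (x⁻¹ * h * x) * x⁻¹ := by group
  rw [this, h5]
  group

theorem fza_conj_mem {G : Type} [Group G] {H : Subgroup G} {x h : G} (hx : x ∈ H) (hh : h ∈ H) :
    x⁻¹ * h * x ∈ H := H.mul_mem (H.mul_mem (H.inv_mem hx) hh) hx

/-- conjugating an element of `HB A 1` by a syllable outside of `A` followed by a letter -/
theorem fza_start {A : Subgroup Γ} {h : FZ Γ} (hh : h ∈ HB A 1) (h1 : h ≠ 1) {g : Γ}
    (hg : g ∉ A) (e : ℤˣ) : FzaCrW e (ft ^ (-(e : ℤ)) * fi g⁻¹ * h * fi g * ft ^ (e : ℤ)) := by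
  obtain ⟨c, M, hM, rfl⟩ := exists_word h
  rw [fza_mem_HB_one A c M hM] at hh
  rcases List.eq_nil_or_concat M with rfl | ⟨M', ⟨e', a⟩, rfl⟩
  · rw [val_nil] at h1 ⊢
    have hc : c ≠ 1 := by
      rintro rfl
      exact h1 (map_one _)
    have := fza_start1 (fza_conj_ne (x := g) hc) e
    rw [map_mul, map_mul] at this
    simpa only [mul_assoc] using this
  · rw [List.concat_eq_append] at *
    have ha : a * g ≠ 1 := by
      intro h2
      apply hg
      have h3 := hh.2 (e', a) (by simp)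
      rw [← inv_eq_of_mul_eq_one_right h2]
      exact A.inv_mem h3
    have hc : g⁻¹ * c ≠ 1 := by
      intro h2
      apply hg
      rw [inv_mul_eq_one.mp h2]
      exact hh.1
    have := fza_start2 hc ha (fza_red_last (a * g) hM) e
    rw [← fza_val_mul, ← fi_mul_val] at this
    simpa only [mul_assoc] using this

theorem fza_maln_one (B : Subgroup Γ) (hB : Maln B) (n : ℕ) : ∀ (g : Γ) (L : List (ℤˣ × Γ)),
    L.length = n → Red L → ∀ h : FZ Γ, h ∈ HB B 1 → h ≠ 1 →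
      (val g L)⁻¹ * h * val g L ∈ HB B 1 → val g L ∈ HB B 1 := by
  induction n with
  | zero =>
    intro g L hn hL h hh h1 h2
    obtain rfl := List.length_eq_zero_iff.mp hn
    rw [val_nil] at h2 ⊢
    apply fza_fi_mem
    obtain ⟨c, M, hM, rfl⟩ := exists_word h
    rw [fza_mem_HB_one B c M hM] at hh
    rcases List.eq_nil_or_concat M with rfl | ⟨M', ⟨e', a⟩, rfl⟩
    · rw [val_nil] at h1 h2
      rw [← map_inv, ← map_mul, ← map_mul, ← val_nil, fza_mem_HB_one B _ _ red_nil] at h2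
      have hc : c ≠ 1 := by
        rintro rfl
        exact h1 (map_one _)
      exact hB g c hh.1 hc h2.1
    · rw [List.concat_eq_append] at *
      rw [← map_inv, fi_mul_val, fza_val_mul, fza_mem_HB_one B _ _ (fza_red_last _ hM)] at h2
      have := B.mul_mem hh.1 (B.inv_mem h2.1)
      rwa [mul_inv_rev, inv_inv, mul_inv_cancel_left] at this
  | succ n ih =>
    intro g L hn hL h hh h1 h2
    obtain ⟨⟨e₁, a₁⟩, L, rfl⟩ := List.exists_cons_of_length_eq_add_one hn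
    by_cases hg : g ∈ B
    · have hx : (fi g * ft ^ (e₁ : ℤ) : FZ Γ) ∈ HB B 1 :=
        Subgroup.mul_mem _ (fza_fi_mem 1 hg) (fza_t_mem B _)
      rw [val_cons] at h2 ⊢
      refine Subgroup.mul_mem _ hx (ih a₁ L (by simpa using hn) hL.tail
        ((fi g * ft ^ (e₁ : ℤ))⁻¹ * h * (fi g * ft ^ (e₁ : ℤ))) (fza_conj_mem hx hh)
        (fza_conj_ne h1) ?_)
      convert h2 using 1
      group
    · obtain ⟨L', e, a, x, N, h3, h4, h5⟩ := fza_conj g e₁ a₁ L hL h (fza_start hh h1 hg e₁)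
      rw [h3] at h2 h5 hL hn ⊢
      have h6 := h2
      rw [h5, fza_mem_HB_one B _ _ h4] at h6
      have ha : a ∈ B := inv_mem_iff.mp h6.1
      have hx : (ft ^ (e : ℤ) * fi a : FZ Γ) ∈ HB B 1 :=
        Subgroup.mul_mem _ (fza_t_mem B _) (fza_fi_mem 1 ha)
      rw [val_append, val_nil, mul_assoc] at h2 ⊢
      refine Subgroup.mul_mem _ (ih g L' (by simpa using hn) (fza_red_left hL) h hh h1 ?_) hx
      have := Subgroup.mul_mem _ (Subgroup.mul_mem _ hx h2) (Subgroup.inv_mem _ hx)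
      convert this using 1
      group

/-- the automorphism of the free product which maps `HB B 1` to `HB B g` -/
theorem fza_aut (g : Γ) : ∃ ψ : FZ Γ ≃* FZ Γ, (∀ x, ψ (fi x) = fi x) ∧
    ∀ B : Subgroup Γ, (HB B 1).map ψ.toMonoidHom = HB B g := by
  obtain ⟨F, hF1, hF2⟩ := fz_lift (Γ := Γ) (FZ Γ) fi ((fi g)⁻¹ * ft)
  obtain ⟨F', hF1', hF2'⟩ := fz_lift (Γ := Γ) (FZ Γ) fi (fi g * ft)
  have hc : ∀ K : FZ Γ →* FZ Γ, (∀ x, K (fi x) = fi x) → K ft = ft → K = MonoidHom.id _ := by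
    intro K h1 h2
    apply MonoidHom.eq_of_eqOn_dense fz_top
    rintro x (⟨y, rfl⟩ | hx)
    · rw [h1]; rfl
    · rw [Set.mem_singleton_iff] at hx
      subst hx
      rw [h2]; rfl
  have e1 : F'.comp F = MonoidHom.id _ := by
    apply hc
    · intro x; simp [hF1, hF1']
    · simp [hF2, hF2', hF1']
  have e2 : F.comp F' = MonoidHom.id _ := by
    apply hc
    · intro x; simp [hF1, hF1']
    · simp [hF2, hF2', hF1]
  refine ⟨MonoidHom.toMulEquiv F F' e1 e2, hF1, ?_⟩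
  intro B
  unfold HB
  rw [MonoidHom.map_closure]
  congr 1
  ext x
  simp only [Set.image_union, Set.image_singleton, Set.mem_union, Set.mem_image]
  constructor
  · rintro (⟨y, ⟨b, hb, rfl⟩, rfl⟩ | hx)
    · exact Or.inl ⟨b, hb, (hF1 b).symm⟩
    · right
      rw [Set.mem_singleton_iff] at hx ⊢
      subst hx
      change F (ft⁻¹ * fi 1) = _
      rw [map_mul, map_inv, hF2, hF1]
      simp
  · rintro (⟨b, hb, rfl⟩ | hx)
    · exact Or.inl ⟨fi b, ⟨b, hb, rfl⟩, hF1 b⟩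
    · right
      rw [Set.mem_singleton_iff] at hx ⊢
      subst hx
      change _ = F (ft⁻¹ * fi 1)
      rw [map_mul, map_inv, hF2, hF1]
      simp

theorem maln_HB (B : Subgroup Γ) (hB : Maln B) (g : Γ) : Maln (HB B g) := by
  obtain ⟨ψ, -, hψ⟩ := fza_aut g
  rw [← hψ B]
  rintro w - ⟨h, hh, rfl⟩ h1 ⟨k, hk, hk2⟩
  obtain ⟨w, rfl⟩ := ψ.surjective w
  obtain ⟨c, L, hL, rfl⟩ := exists_word w
  refine ⟨_, fza_maln_one B hB L.length c L rfl hL h hh ?_ ?_, rfl⟩
  · rintro rfl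
    exact h1 (map_one _)
  · have : k = (val c L)⁻¹ * h * val c L := by
      apply ψ.injective
      rw [map_mul, map_mul, map_inv]
      exact hk2
    rw [← this]
    exact hk

theorem fza_disj_map_one (B C : Subgroup Γ) (hd : Disj B C) (n : ℕ) :
    ∀ (g : Γ) (L : List (ℤˣ × Γ)), L.length = n → Red L → ∀ h : FZ Γ, h ∈ HB B 1 → h ≠ 1 →
      (val g L)⁻¹ * h * val g L ∉ C.map fi := by
  induction n with
  | zero =>
    rintro g L hn hL h hh h1 ⟨c, hc, h2⟩
    obtain rfl := List.length_eq_zero_iff.mp hn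
    rw [val_nil] at h2
    have h3 : h = fi (g * c * g⁻¹) := by
      rw [map_mul, map_mul, h2, map_inv]
      group
    rw [h3, ← val_nil, fza_mem_HB_one B _ _ red_nil] at hh
    refine hd g (g * c * g⁻¹) hh.1 ?_ ?_
    · intro h4
      rw [h4, map_one] at h3
      exact h1 h3
    · have h5 : g⁻¹ * (g * c * g⁻¹) * g = c := by group
      rw [h5]
      exact hc
  | succ n ih =>
    intro g L hn hL h hh h1 h2
    obtain ⟨⟨e₁, a₁⟩, L, rfl⟩ := List.exists_cons_of_length_eq_add_one hn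
    by_cases hg : g ∈ B
    · have hx : (fi g * ft ^ (e₁ : ℤ) : FZ Γ) ∈ HB B 1 :=
        Subgroup.mul_mem _ (fza_fi_mem 1 hg) (fza_t_mem B _)
      rw [val_cons] at h2
      refine ih a₁ L (by simpa using hn) hL.tail
        ((fi g * ft ^ (e₁ : ℤ))⁻¹ * h * (fi g * ft ^ (e₁ : ℤ))) (fza_conj_mem hx hh)
        (fza_conj_ne h1) ?_
      convert h2 using 1
      group
    · obtain ⟨L', e, a, x, N, h3, h4, h5⟩ := fza_conj g e₁ a₁ L hL h (fza_start hh h1 hg e₁)
      rw [h5] at h2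
      obtain ⟨c, hc, h6⟩ := h2
      exact fza_fi_ne h4 h6

theorem disj_HB_map (B C : Subgroup Γ) (g : Γ) (hd : Disj B C) :
    Disj (HB B g) (C.map fi) := by
  obtain ⟨ψ, hψ1, hψ⟩ := fza_aut g
  rw [← hψ B]
  rintro w - ⟨h, hh, rfl⟩ h1 ⟨c, hc, hk2⟩
  obtain ⟨w, rfl⟩ := ψ.surjective w
  obtain ⟨d, L, hL, rfl⟩ := exists_word w
  refine fza_disj_map_one B C hd L.length d L rfl hL h hh ?_ ⟨c, hc, ?_⟩
  · rintro rfl
    exact h1 (map_one _)
  · apply ψ.injective
    rw [map_mul, map_mul, map_inv, hψ1]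
    exact hk2

/-- two letters of an element of `HB A 1` conjugate into `HB B g` -/
theorem fza_disj_two (A B : Subgroup Γ) (g : Γ) (hd : Disj A B)
    (hg : ∀ a ∈ A, ∀ b ∈ B, g ≠ a * b) {o : Option ℤˣ} {c : Γ} {e₁ e₂ : ℤˣ} {a₁ a₂ : Γ}
    {M : List (ℤˣ × Γ)} (ha : a₁ ∈ A) (hR : a₁ = 1 → e₁ = e₂)
    (h : okB B g o c ((e₁, a₁) :: (e₂, a₂) :: M)) : False := by
  have h1 := h.2.1
  rcases Int.units_eq_one_or e₁ with rfl | rfl <;> rcases Int.units_eq_one_or e₂ with rfl | rfl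
  · simp only [alc, bec] at h1
    have h2 : a₁ * g ∈ B := by simpa using h1
    exact hg a₁⁻¹ (A.inv_mem ha) (a₁ * g) h2 (by group)
  · simp only [alc, bec] at h1
    have h2 : a₁ ∈ B := by simpa using h1
    have h3 : a₁ = 1 := by
      by_contra h4
      exact hd 1 a₁ ha h4 (by simpa using h2)
    exact absurd (hR h3) (by decide)
  · simp only [alc, bec] at h1
    have h2 : g⁻¹ * a₁ * g ∈ B := by simpa using h1
    have h3 : a₁ = 1 := by
      by_contra h4
      exact hd g a₁ ha h4 h2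
    exact absurd (hR h3) (by decide)
  · simp only [alc, bec] at h1
    have h2 : g⁻¹ * a₁ ∈ B := by simpa using h1
    exact hg a₁ ha (g⁻¹ * a₁)⁻¹ (B.inv_mem h2) (by group)

theorem fza_mul_right (g x : Γ) (L : List (ℤˣ × Γ)) (hL : Red L) :
    ∃ (g₂ : Γ) (L₂ : List (ℤˣ × Γ)), L₂.length = L.length ∧ Red L₂ ∧
      val g₂ L₂ = val g L * fi x := by
  rcases List.eq_nil_or_concat L with rfl | ⟨L', ⟨e, a⟩, rfl⟩
  · exact ⟨g * x, [], rfl, red_nil, by rw [val_nil, val_nil, map_mul]⟩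
  · rw [List.concat_eq_append] at *
    exact ⟨g, L' ++ [(e, a * x)], by simp, fza_red_last _ hL, (fza_val_mul g x L' e a).symm⟩

theorem fza_disj_aux (A B : Subgroup Γ) (g' : Γ) (hd : Disj A B)
    (hg' : ∀ a ∈ A, ∀ b ∈ B, g' ≠ a * b) (n : ℕ) :
    ∀ (g : Γ) (L : List (ℤˣ × Γ)), L.length = n → Red L → ∀ h : FZ Γ, h ∈ HB A 1 → h ≠ 1 →
      (val g L)⁻¹ * h * val g L ∉ HB B g' := by
  induction n with
  | zero =>
    intro g L hn hL h hh h1 h2
    obtain rfl := List.length_eq_zero_iff.mp hn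
    rw [val_nil] at h2
    obtain ⟨c, M, hM, rfl⟩ := exists_word h
    rw [fza_mem_HB_one A c M hM] at hh
    have two : ∀ (e₁ : ℤˣ) (a₁ : Γ) (M' : List (ℤˣ × Γ)) (e : ℤˣ) (a : Γ) (c : Γ),
        a₁ ∈ A → Red (((e₁, a₁) :: M') ++ [(e, a)]) →
        (fi g)⁻¹ * val c (((e₁, a₁) :: M') ++ [(e, a)]) * fi g ∈ HB B g' → False := by
      intro e₁ a₁ M' e a c ha hR h3
      have hR' := fza_red_last (a * g) hR
      rw [← map_inv, fi_mul_val, fza_val_mul, mem_HB B g' _ _ hR'] at h3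
      rcases M' with _ | ⟨⟨e₂, a₂⟩, M'⟩
      · exact fza_disj_two A B g' hd hg' ha (red_cons_cons.mp hR).1 h3
      · exact fza_disj_two A B g' hd hg' ha (red_cons_cons.mp hR).1 h3
    rcases List.eq_nil_or_concat M with rfl | ⟨M', ⟨e, a⟩, rfl⟩
    · rw [val_nil] at h1 h2
      rw [← map_inv, ← map_mul, ← map_mul, ← val_nil, mem_HB B g' _ _ red_nil] at h2
      have hc : c ≠ 1 := by
        rintro rfl
        exact h1 (map_one _)
      refine hd g c hh.1 hc ?_
      simpa [okB, alc] using h2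
    · rw [List.concat_eq_append] at *
      rcases M' with _ | ⟨⟨e₁, a₁⟩, M'⟩
      · have h3 := Subgroup.mul_mem _ h2 h2
        have ha : a ∈ A := hh.2 (e, a) (by simp)
        refine two e (a * c) [] e a c (A.mul_mem ha hh.1) ?_ ?_
        · exact red_cons_cons.mpr ⟨fun _ => rfl, red_singleton _⟩
        · convert h3 using 1
          simp only [List.nil_append, List.singleton_append, val_cons, val_nil, map_mul]
          group
      · exact two e₁ a₁ M' e a c (hh.2 (e₁, a₁) (by simp)) hM h2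
  | succ n ih =>
    intro g L hn hL h hh h1 h2
    obtain ⟨⟨e₁, a₁⟩, L, rfl⟩ := List.exists_cons_of_length_eq_add_one hn
    by_cases hg : g ∈ A
    · have hx : (fi g * ft ^ (e₁ : ℤ) : FZ Γ) ∈ HB A 1 :=
        Subgroup.mul_mem _ (fza_fi_mem 1 hg) (fza_t_mem A _)
      rw [val_cons] at h2
      refine ih a₁ L (by simpa using hn) hL.tail
        ((fi g * ft ^ (e₁ : ℤ))⁻¹ * h * (fi g * ft ^ (e₁ : ℤ))) (fza_conj_mem hx hh)
        (fza_conj_ne h1) ?_
      convert h2 using 1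
      group
    · obtain ⟨L', e, a, x, N, h3, h4, h5⟩ := fza_conj g e₁ a₁ L hL h (fza_start hh h1 hg e₁)
      rw [h3] at h2 h5 hL hn
      have h6 := h2
      rw [h5, mem_HB B g' _ _ h4] at h6
      have h7 := h6.1
      have h8 := fza_tg_mem B g'
      rcases Int.units_eq_one_or e with rfl | rfl
      · simp only [alc, bec] at h7
        have h9 : a ∈ B := by simpa using h7
        obtain ⟨g₂, L₂, h10, h11, h12⟩ := fza_mul_right g g' L' (fza_red_left hL)
        refine ih g₂ L₂ (by rw [h10]; simpa using hn) h11 h hh h1 ?_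
        rw [val_append, val_nil] at h2
        have h13 := fza_conj_mem
          (Subgroup.mul_mem _ (Subgroup.inv_mem _ (fza_fi_mem g' h9)) h8) h2
        rw [h12]
        convert h13 using 1
        simp only [Units.val_one, zpow_one]
        group
      · simp only [alc, bec] at h7
        have h9 : a⁻¹ * g' ∈ B := by simpa using h7
        have hx : (ft⁻¹ * fi a : FZ Γ) ∈ HB B g' := by
          have h10 := Subgroup.mul_mem _ h8 (Subgroup.inv_mem _ (fza_fi_mem g' h9))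
          convert h10 using 1
          rw [map_mul, map_inv]
          group
        rw [val_append, val_nil, mul_assoc] at h2
        refine ih g L' (by simpa using hn) (fza_red_left hL) h hh h1 ?_
        have := Subgroup.mul_mem _ (Subgroup.mul_mem _ hx h2) (Subgroup.inv_mem _ hx)
        convert this using 1
        simp
        group

theorem disj_HB (A B : Subgroup Γ) (g : Γ) (hd : Disj A B) (hg : ∀ a ∈ A, ∀ b ∈ B, g ≠ a * b) :
    Disj (HB A 1) (HB B g) := by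
  intro w h hh h1
  obtain ⟨c, L, hL, rfl⟩ := exists_word w
  exact fza_disj_aux A B g hd hg L.length c L rfl hL h hh h1

end Pool.Agent.Lib.MP_e1b29e_al
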