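import Pool.Agent.Lib.MP_e1b29e_al.FZWord

/-!
The length function on the free product satisfies the four point condition and is proper.
-/

set_option autoImplicit false
set_option linter.unusedSectionVars false

namespace Pool.Agent.Lib.MP_e1b29e_al

open Pool.Agent.Lib.MP_06935a_al
open scoped Pointwise

variable {Γ : Type} [Group Γ] {ℓ : Γ → ℕ} {δ : ℕ}

/-- sum of the lengths of the syllables of a list -/
def slen (ℓ : Γ → ℕ) (L : List (ℤˣ × Γ)) : ℕ := (L.map fun s => 1 + ℓ s.2).sum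

theorem slen_nil (ℓ : Γ → ℕ) : slen ℓ ([] : List (ℤˣ × Γ)) = 0 := rfl

theorem slen_cons (ℓ : Γ → ℕ) (e : ℤˣ) (a : Γ) (L : List (ℤˣ × Γ)) :
    slen ℓ ((e, a) :: L) = 1 + ℓ a + slen ℓ L := by
  simp [slen]

theorem wlen_eq (ℓ : Γ → ℕ) (g : Γ) (L : List (ℤˣ × Γ)) : wlen ℓ g L = ℓ g + slen ℓ L := rfl

/-- two words share the first syllable and the first letter -/
def Shr (g : Γ) (L : List (ℤˣ × Γ)) (g' : Γ) (L' : List (ℤˣ × Γ)) : Prop :=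
  g = g' ∧ ∃ (e : ℤˣ) (a a' : Γ) (M M' : List (ℤˣ × Γ)), L = (e, a) :: M ∧ L' = (e, a') :: M'

theorem Shr.symm {g g' : Γ} {L L' : List (ℤˣ × Γ)} (h : Shr g L g' L') : Shr g' L' g L := by
  obtain ⟨rfl, e, a, a', M, M', rfl, rfl⟩ := h
  exact ⟨rfl, e, a', a, M', M, rfl, rfl⟩

theorem Shr.trans {g g' g'' : Γ} {L L' L'' : List (ℤˣ × Γ)} (h : Shr g L g' L')
    (h' : Shr g' L' g'' L'') : Shr g L g'' L'' := by
  obtain ⟨rfl, e, a, a', M, M', rfl, rfl⟩ := h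
  obtain ⟨rfl, e', b, b', N, N', h1, rfl⟩ := h'
  rw [List.cons.injEq, Prod.mk.injEq] at h1
  obtain ⟨⟨rfl, rfl⟩, rfl⟩ := h1
  exact ⟨rfl, e, a, b', M, N', rfl, rfl⟩

theorem lz_div (H : HypLen ℓ δ) {g g' : Γ} {L L' : List (ℤˣ × Γ)} (h : Red L) (h' : Red L')
    (hd : ¬ Shr g L g' L') :
    lz ℓ ((val g L)⁻¹ * val g' L') = slen ℓ L + ℓ (g⁻¹ * g') + slen ℓ L' :=
  lz_diverge H g g' L L' h h' hd

theorem lz_tri_aux (H : HypLen ℓ δ) (L : List (ℤˣ × Γ)) :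
    ∀ (g g' : Γ) (L' : List (ℤˣ × Γ)), Red L → Red L' →
      lz ℓ ((val g L)⁻¹ * val g' L') ≤ wlen ℓ g L + wlen ℓ g' L' := by
  induction L with
  | nil =>
    intro g g' L' h h'
    rw [lz_div H h h' (by rintro ⟨_, e, a, a', M, M', h1, h2⟩; simp at h1), wlen_eq, wlen_eq,
      slen_nil]
    have := H.mul g⁻¹ g'
    rw [H.inv] at this
    omega
  | cons s M ih =>
    obtain ⟨e, a⟩ := s
    intro g g' L' h h'
    by_cases hs : Shr g ((e, a) :: M) g' L'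
    · obtain ⟨rfl, e', b, b', N, N', h1, rfl⟩ := hs
      rw [List.cons.injEq, Prod.mk.injEq] at h1
      obtain ⟨⟨rfl, rfl⟩, rfl⟩ := h1
      rw [lz_common]
      have := ih a b' N' h.tail h'.tail
      rw [wlen_cons, wlen_cons]
      omega
    · rw [lz_div H h h' hs, wlen_eq, wlen_eq]
      have := H.mul g⁻¹ g'
      rw [H.inv] at this
      omega

/-- upper bound for the distance between words, valid in all cases -/
theorem lz_le (H : HypLen ℓ δ) {g g' : Γ} {L L' : List (ℤˣ × Γ)} (h : Red L) (h' : Red L') :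
    lz ℓ ((val g L)⁻¹ * val g' L') ≤ slen ℓ L + ℓ (g⁻¹ * g') + slen ℓ L' := by
  by_cases hs : Shr g L g' L'
  · obtain ⟨rfl, e, a, a', M, M', rfl, rfl⟩ := hs
    rw [lz_common]
    have := lz_tri_aux H M a a' M' h.tail h'.tail
    rw [wlen_eq, wlen_eq] at this
    rw [slen_cons, slen_cons]
    omega
  · exact (lz_div H h h' hs).le

theorem lz_inv (H : HypLen ℓ δ) (x : FZ Γ) : lz ℓ x⁻¹ = lz ℓ x := by
  obtain ⟨g, L, h, rfl⟩ := exists_word x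
  have := lz_div H (g := g) (g' := 1) (L' := []) h red_nil
    (by rintro ⟨_, e, a, a', M, M', h1, h2⟩; simp at h2)
  rw [val_nil, map_one, mul_one] at this
  rw [this, lz_val ℓ h, wlen_eq, slen_nil, mul_one, H.inv]
  omega

theorem lz_mul (H : HypLen ℓ δ) (x y : FZ Γ) : lz ℓ (x * y) ≤ lz ℓ x + lz ℓ y := by
  obtain ⟨g, L, h, hx⟩ := exists_word x⁻¹
  obtain ⟨g', L', h', hy⟩ := exists_word y
  have := lz_tri_aux H L g g' L' h h'
  rw [hx, hy, inv_inv, ← lz_val ℓ h, ← lz_val ℓ h', hx, hy, lz_inv H] at this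
  exact this

/-- cutting a word at distance `k` from its beginning -/
theorem cut (H : HypLen ℓ δ) (L : List (ℤˣ × Γ)) :
    ∀ (g : Γ) (k : ℕ), Red L → k ≤ wlen ℓ g L → ∃ (g₁ : Γ) (L₁ : List (ℤˣ × Γ)) (z : Γ)
      (L₂ : List (ℤˣ × Γ)), Red L₁ ∧ Red L₂ ∧ val g L = val g₁ L₁ * val z L₂ ∧
        wlen ℓ g₁ L₁ = k ∧ k + wlen ℓ z L₂ = wlen ℓ g L ∧
        ∀ e, Red ((e, g) :: L) → Red ((e, g₁) :: L₁) := by
  induction L with
  | nil =>
    intro g k h hk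
    rw [wlen_nil] at hk
    obtain ⟨y, z, rfl, hy, hz⟩ := H.split g k hk
    refine ⟨y, [], z, [], h, h, ?_, ?_, ?_, fun e _ => red_singleton _⟩
    · rw [val_nil, val_nil, val_nil, map_mul]
    · rw [wlen_nil, hy]
    · rw [wlen_nil, wlen_nil, hz]
  | cons s M ih =>
    obtain ⟨e, a⟩ := s
    intro g k h hk
    by_cases hkg : k ≤ ℓ g
    · obtain ⟨y, z, rfl, hy, hz⟩ := H.split g k hkg
      refine ⟨y, [], z, (e, a) :: M, red_nil, h, ?_, ?_, ?_, fun e _ => red_singleton _⟩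
      · rw [val_nil, fi_mul_val]
      · rw [wlen_nil, hy]
      · rw [wlen_cons, wlen_cons]
        omega
    · rw [wlen_cons] at hk
      obtain ⟨a₁, L₁, z, L₂, h1, h2, h3, h4, h5, h6⟩ := ih a (k - ℓ g - 1) h.tail (by omega)
      refine ⟨g, (e, a₁) :: L₁, z, L₂, h6 e h, h2, ?_, ?_, ?_, ?_⟩
      · rw [val_cons, val_cons, h3]
        group
      · rw [wlen_cons, h4]
        omega
      · rw [wlen_cons]
        omega
      · intro e₀ he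
        rw [red_cons_cons] at he ⊢
        exact ⟨he.1, h6 e he.2⟩

theorem lz_four_aux (H : HypLen ℓ δ) (L₁ : List (ℤˣ × Γ)) :
    ∀ (g₁ g₂ g₃ : Γ) (L₂ L₃ : List (ℤˣ × Γ)), Red L₁ → Red L₂ → Red L₃ →
      lz ℓ ((val g₁ L₁)⁻¹ * val g₂ L₂) + wlen ℓ g₃ L₃ ≤
        lz ℓ ((val g₁ L₁)⁻¹ * val g₃ L₃) + wlen ℓ g₂ L₂ + 2 * δ ∨
      lz ℓ ((val g₁ L₁)⁻¹ * val g₂ L₂) + wlen ℓ g₃ L₃ ≤
        wlen ℓ g₁ L₁ + lz ℓ ((val g₂ L₂)⁻¹ * val g₃ L₃) + 2 * δ := by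
  have key : ∀ (g₁ g₂ g₃ : Γ) (L₁ L₂ L₃ : List (ℤˣ × Γ)), Red L₁ → Red L₂ → Red L₃ →
      ¬ (Shr g₁ L₁ g₂ L₂ ∧ Shr g₂ L₂ g₃ L₃) →
      lz ℓ ((val g₁ L₁)⁻¹ * val g₂ L₂) + wlen ℓ g₃ L₃ ≤
        lz ℓ ((val g₁ L₁)⁻¹ * val g₃ L₃) + wlen ℓ g₂ L₂ + 2 * δ ∨
      lz ℓ ((val g₁ L₁)⁻¹ * val g₂ L₂) + wlen ℓ g₃ L₃ ≤
        wlen ℓ g₁ L₁ + lz ℓ ((val g₂ L₂)⁻¹ * val g₃ L₃) + 2 * δ := by
    intro g₁ g₂ g₃ L₁ L₂ L₃ h₁ h₂ h₃ hn
    by_cases h13 : Shr g₁ L₁ g₃ L₃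
    · have h12 : ¬ Shr g₁ L₁ g₂ L₂ := fun h => hn ⟨h, h.symm.trans h13⟩
      have h23 : ¬ Shr g₂ L₂ g₃ L₃ := fun h => h12 (h13.trans h.symm)
      right
      rw [lz_div H h₁ h₂ h12, lz_div H h₂ h₃ h23, wlen_eq, wlen_eq, ← h13.1]
      have : ℓ (g₂⁻¹ * g₁) = ℓ (g₁⁻¹ * g₂) := by
        rw [← H.inv (g₁⁻¹ * g₂)]
        congr 1
        group
      omega
    · by_cases h23 : Shr g₂ L₂ g₃ L₃
      · have h12 : ¬ Shr g₁ L₁ g₂ L₂ := fun h => hn ⟨h, h23⟩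
        left
        rw [lz_div H h₁ h₂ h12, lz_div H h₁ h₃ h13, wlen_eq, wlen_eq, ← h23.1]
        omega
      · have h12 := lz_le H (g := g₁) (g' := g₂) h₁ h₂
        rw [lz_div H h₁ h₃ h13, lz_div H h₂ h₃ h23, wlen_eq, wlen_eq, wlen_eq]
        rcases H.four g₁ g₂ g₃ 1 with h | h
        · left
          rw [H.dst_one_right, H.dst_one_right] at h
          unfold dst at h
          omega
        · right
          rw [H.dst_one_right, H.dst_one_right] at h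
          unfold dst at h
          omega
  induction L₁ with
  | nil =>
    intro g₁ g₂ g₃ L₂ L₃ h₁ h₂ h₃
    apply key g₁ g₂ g₃ [] L₂ L₃ h₁ h₂ h₃
    rintro ⟨⟨_, e, a, a', M, M', h1, h2⟩, _⟩
    simp at h1
  | cons s M₁ ih =>
    obtain ⟨e, a₁⟩ := s
    intro g₁ g₂ g₃ L₂ L₃ h₁ h₂ h₃
    by_cases hs : Shr g₁ ((e, a₁) :: M₁) g₂ L₂ ∧ Shr g₂ L₂ g₃ L₃
    · obtain ⟨⟨rfl, e', b, a₂, N, M₂, h1, rfl⟩, ⟨rfl, e'', b', a₃, N', M₃, h2, rfl⟩⟩ := hs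
      rw [List.cons.injEq, Prod.mk.injEq] at h1 h2
      obtain ⟨⟨rfl, rfl⟩, rfl⟩ := h1
      obtain ⟨⟨rfl, rfl⟩, rfl⟩ := h2
      rw [lz_common, lz_common, lz_common, wlen_cons, wlen_cons, wlen_cons]
      rcases ih a₁ a₂ a₃ M₂ M₃ h₁.tail h₂.tail h₃.tail with h | h
      · left; omega
      · right; omega
    · exact key g₁ g₂ g₃ _ L₂ L₃ h₁ h₂ h₃ hs

theorem lz_hyp (H : HypLen ℓ δ) : HypLen (lz ℓ) δ where
  one := by
    have := lz_val ℓ (g := (1 : Γ)) (L := []) red_nil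
    rw [val_nil, map_one, wlen_nil, H.one] at this
    exact this
  eq_one := by
    intro x hx
    obtain ⟨g, L, h, rfl⟩ := exists_word x
    rw [lz_val ℓ h] at hx
    rcases L with _ | ⟨⟨e, a⟩, M⟩
    · rw [wlen_nil] at hx
      rw [val_nil, H.eq_one _ hx, map_one]
    · rw [wlen_cons] at hx
      omega
  inv := lz_inv H
  mul := lz_mul H
  split := by
    intro x k hk
    obtain ⟨g, L, h, rfl⟩ := exists_word x
    rw [lz_val ℓ h] at hk ⊢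
    obtain ⟨g₁, L₁, z, L₂, h1, h2, h3, h4, h5, _⟩ := cut H L g k h hk
    exact ⟨val g₁ L₁, val z L₂, h3, by rw [lz_val ℓ h1, h4], by rw [lz_val ℓ h2, h5]⟩
  four := by
    intro x y z w
    obtain ⟨g₁, L₁, h₁, e₁⟩ := exists_word (w⁻¹ * x)
    obtain ⟨g₂, L₂, h₂, e₂⟩ := exists_word (w⁻¹ * y)
    obtain ⟨g₃, L₃, h₃, e₃⟩ := exists_word (w⁻¹ * z)
    have := lz_four_aux H L₁ g₁ g₂ g₃ L₂ L₃ h₁ h₂ h₃
    rw [← lz_val ℓ h₁, ← lz_val ℓ h₂, ← lz_val ℓ h₃, e₁, e₂, e₃] at this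
    have c1 : ∀ a b : FZ Γ, (w⁻¹ * a)⁻¹ * (w⁻¹ * b) = a⁻¹ * b := fun a b => by group
    have c2 : ∀ a : FZ Γ, lz ℓ (w⁻¹ * a) = lz ℓ (a⁻¹ * w) := fun a => by
      rw [← lz_inv H]
      congr 1
      group
    rw [c1, c1, c1, c2 x, c2 y, c2 z] at this
    exact this

theorem lz_proper (H : HypLen ℓ δ) (hp : ProperLen ℓ) : ProperLen (lz ℓ) := by
  have HH := lz_hyp H
  have h1 : {x : FZ Γ | lz ℓ x ≤ 1}.Finite := by
    refine Set.Finite.subset ((((hp 1).image fi).union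
      ((Set.finite_singleton (ft : FZ Γ)).union (Set.finite_singleton (ft⁻¹ : FZ Γ))))) ?_
    intro x hx
    obtain ⟨g, L, h, rfl⟩ := exists_word x
    rw [Set.mem_ofPred_eq, lz_val ℓ h] at hx
    rcases L with _ | ⟨⟨e, a⟩, M⟩
    · left
      rw [wlen_nil] at hx
      exact ⟨g, hx, (val_nil g).symm⟩
    · right
      rw [wlen_cons] at hx
      have hg : g = 1 := H.eq_one _ (by omega)
      rcases M with _ | ⟨⟨e', b⟩, M'⟩
      · rw [wlen_nil] at hx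
        have ha : a = 1 := H.eq_one _ (by omega)
        subst hg ha
        rw [val_one_cons, val_nil, map_one, mul_one]
        rcases Int.units_eq_one_or e with rfl | rfl
        · left; simp
        · right; simp
      · rw [wlen_cons] at hx
        omega
  intro r
  induction r with
  | zero => exact h1.subset fun x hx => le_trans (show lz ℓ x ≤ 0 from hx) (Nat.zero_le 1)
  | succ r ih =>
    refine (ih.mul h1).subset ?_
    intro x hx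
    rw [Set.mem_ofPred_eq] at hx
    by_cases hr : lz ℓ x ≤ r
    · exact Set.mem_mul.mpr ⟨x, hr, 1, by rw [Set.mem_ofPred_eq, HH.one]; omega, mul_one x⟩
    · obtain ⟨y, z, rfl, hy, hz⟩ := HH.split x r (by omega)
      exact Set.mem_mul.mpr ⟨y, hy.le, z, by rw [Set.mem_ofPred_eq]; omega, rfl⟩

end Pool.Agent.Lib.MP_e1b29e_al
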