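import Pool.Agent.Lib.MP_e1b29e_al.FZWord
import Pool.Agent.Lib.MP_e1b29e_al.FZHyp
import Pool.Agent.Lib.MP_e1b29e_al.FZSub
import Pool.Agent.Lib.MP_e1b29e_al.FZAlg

/-!
# T9: free product with an infinite cyclic group
-/

set_option autoImplicit false

namespace Pool.Agent.Lib.MP_e1b29e_al

open Pool.Agent.Lib.MP_06935a_al hiding Res Good
open scoped Pointwise

variable {Γ : Type} [Group Γ] {ℓ : Γ → ℕ} {δ : ℕ}

theorem HB_one_eq (A : Subgroup Γ) :
    Subgroup.closure (fi '' (A : Set Γ) ∪ {(ft : FZ Γ)}) = HB A 1 := by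
  unfold HB
  rw [map_one, mul_one]
  apply le_antisymm
  · rw [Subgroup.closure_le]
    rintro z (hz | hz)
    · exact Subgroup.subset_closure (Or.inl hz)
    · rw [Set.mem_singleton_iff] at hz
      subst hz
      have h : (ft : FZ Γ)⁻¹ ∈ Subgroup.closure (fi '' (A : Set Γ) ∪ {(ft : FZ Γ)⁻¹}) :=
        Subgroup.subset_closure (Or.inr rfl)
      have := Subgroup.inv_mem _ h
      rwa [inv_inv] at this
  · rw [Subgroup.closure_le]
    rintro z (hz | hz)
    · exact Subgroup.subset_closure (Or.inl hz)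
    · rw [Set.mem_singleton_iff] at hz
      subst hz
      exact Subgroup.inv_mem _ (Subgroup.subset_closure (Or.inr rfl))

theorem ext_qc_mono {S : Set (FZ Γ)} {l : FZ Γ → ℕ} {κ κ' : ℕ} (h : κ ≤ κ') (hS : QC l S κ) :
    QC l S κ' := by
  intro a ha b hb z hz
  obtain ⟨c, hc, hle⟩ := hS a ha b hb z hz
  exact ⟨c, hc, hle.trans h⟩

theorem extend {A B C : Subgroup Γ} {L : Set Γ} (G : Good Γ A B C L) (g : Γ)
    (hg : ∀ a ∈ A, ∀ b ∈ B, g ≠ a * b) :
    ∃ (Γ' : Type) (_ : Group Γ') (i : Γ →* Γ') (z : Γ'), Function.Injective i ∧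
      Good Γ' (Subgroup.closure (i '' (A : Set Γ) ∪ {z}))
        (Subgroup.closure (i '' (B : Set Γ) ∪ {z⁻¹ * i g})) (C.map i) (i '' L) ∧
      Subgroup.closure (Set.range i ∪ {z}) = ⊤ ∧
      ∀ (Q : Type) [Group Q] (f : Γ →* Q) (t : Q), ∃ F : Γ' →* Q, (∀ x, F (i x) = f x) ∧ F z = t := by
  obtain ⟨ℓ, δ, κ, H, hp, qA, qB, qC⟩ := G.hyp
  obtain ⟨κA, hA⟩ := HB_qc H A κ qA 1
  obtain ⟨κB, hB⟩ := HB_qc H B κ qB g
  have hC := fi_qc H C κ qC
  refine ⟨FZ Γ, inferInstance, fi, ft, fi_injective, ?_, fz_top, fun Q _ f t => fz_lift Q f t⟩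
  rw [HB_one_eq]
  refine
    { hyp := ⟨lz ℓ, δ, κA + κB + κ, lz_hyp H, lz_proper H hp, ext_qc_mono (by omega) hA,
        ext_qc_mono (by omega) hB, ext_qc_mono (by omega) hC⟩
      tf := fz_tf G.tf
      malA := maln_HB A G.malA 1
      malB := maln_HB B G.malB g
      dAB := disj_HB A B g G.dAB hg
      dAC := disj_HB_map A C 1 G.dAC
      dBC := disj_HB_map B C g G.dBC
      fin := G.fin.image _
      malL := ?_ }
  rintro _ ⟨u, hu, rfl⟩
  obtain ⟨hu1, hmal⟩ := G.malL u hu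
  refine ⟨?_, mal_fi G.tf u hu1 hmal⟩
  intro h
  apply hu1
  apply fi_injective
  rw [h, map_one]

end Pool.Agent.Lib.MP_e1b29e_al
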