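import Pool.Agent.Lib.MP_e1b29e_al.Defs

/-!
The free product of `Γ` with an infinite cyclic group, as an HNN extension with trivial associated
subgroups.
-/

set_option autoImplicit false

namespace Pool.Agent.Lib.MP_e1b29e_al

open Pool.Agent.Lib.MP_06935a_al
open scoped Pointwise

/-- the free product of `Γ` with an infinite cyclic group -/
abbrev FZ (Γ : Type) [Group Γ] : Type :=
  HNNExtension Γ (⊥ : Subgroup Γ) (⊥ : Subgroup Γ) (MulEquiv.refl _)

variable {Γ : Type} [Group Γ]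

/-- the inclusion of `Γ` -/
def fi : Γ →* FZ Γ := HNNExtension.of

/-- the free generator -/
def ft : FZ Γ := HNNExtension.t

/-- value of the word `g t^(e₁) a₁ t^(e₂) a₂ …` -/
def val (g : Γ) (L : List (ℤˣ × Γ)) : FZ Γ :=
  fi g * (L.map fun s => ft ^ (s.1 : ℤ) * fi s.2).prod

/-- reduced words -/
def Red (L : List (ℤˣ × Γ)) : Prop := L.IsChain (fun a b => a.2 = 1 → a.1 = b.1)

/-- length of a word -/
def wlen (ℓ : Γ → ℕ) (g : Γ) (L : List (ℤˣ × Γ)) : ℕ := ℓ g + (L.map fun s => 1 + ℓ s.2).sum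

/-- the length on the free product -/
noncomputable def lz (ℓ : Γ → ℕ) (x : FZ Γ) : ℕ :=
  sInf {k | ∃ (g : Γ) (L : List (ℤˣ × Γ)), Red L ∧ val g L = x ∧ wlen ℓ g L = k}

/-- the subgroup generated by `B` and `t⁻¹ g` -/
def HB (B : Subgroup Γ) (g : Γ) : Subgroup (FZ Γ) :=
  Subgroup.closure (fi '' (B : Set Γ) ∪ {ft⁻¹ * fi g})

/-- left correction of a syllable preceded by the letter `o` -/
def alc (g : Γ) (o : Option ℤˣ) : Γ := if o = some (-1) then g else 1

/-- right correction of a syllable followed by the letter `e` -/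
def bec (g : Γ) (e : ℤˣ) : Γ := if e = 1 then g⁻¹ else 1

/-- the syllables of a word belong to the subgroup generated by `B` and `t⁻¹ g` -/
def okB (B : Subgroup Γ) (g : Γ) : Option ℤˣ → Γ → List (ℤˣ × Γ) → Prop
  | o, c, [] => (alc g o)⁻¹ * c ∈ B
  | o, c, (e, a) :: L => (alc g o)⁻¹ * c * (bec g e)⁻¹ ∈ B ∧ okB B g (some e) a L

end Pool.Agent.Lib.MP_e1b29e_al
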