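import Pool.Agent.Lib.MP_e1b29e_al.FZDefs

/-!
Words in the free product of `Γ` with an infinite cyclic group.
-/

set_option autoImplicit false

namespace Pool.Agent.Lib.MP_e1b29e_al

open Pool.Agent.Lib.MP_06935a_al
open scoped Pointwise

variable {Γ : Type} [Group Γ] {ℓ : Γ → ℕ} {δ : ℕ}

theorem fi_injective : Function.Injective (fi : Γ →* FZ Γ) :=
  HNNExtension.of_injective (MulEquiv.refl _)

theorem fz_lift (Q : Type) [Group Q] (f : Γ →* Q) (t : Q) :
    ∃ F : FZ Γ →* Q, (∀ x, F (fi x) = f x) ∧ F ft = t := by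
  have hx : ∀ a : (⊥ : Subgroup Γ), t * f ↑a = f ((MulEquiv.refl (⊥ : Subgroup Γ)) a : Γ) * t := by
    intro a
    have : (a : Γ) = 1 := Subgroup.mem_bot.mp a.2
    simp [this]
  refine ⟨HNNExtension.lift f t hx, fun x => ?_, ?_⟩
  · exact HNNExtension.lift_of f t hx x
  · exact HNNExtension.lift_t f t hx

theorem fz_top : Subgroup.closure (Set.range (fi : Γ →* FZ Γ) ∪ {ft}) = ⊤ := by
  rw [eq_top_iff]
  intro x _
  induction x using HNNExtension.induction_on with
  | of g => exact Subgroup.subset_closure (Or.inl ⟨g, rfl⟩)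
  | t => exact Subgroup.subset_closure (Or.inr rfl)
  | mul x y hx hy => exact Subgroup.mul_mem _ (hx trivial) (hy trivial)
  | inv x hx => exact Subgroup.inv_mem _ (hx trivial)

/-! ### unfolding words -/

theorem val_nil (g : Γ) : val g [] = fi g := by
  simp [val]

theorem val_cons (g : Γ) (e : ℤˣ) (a : Γ) (L : List (ℤˣ × Γ)) :
    val g ((e, a) :: L) = fi g * ft ^ (e : ℤ) * val a L := by
  simp [val, mul_assoc]

theorem fi_mul_val (x g : Γ) (L : List (ℤˣ × Γ)) : fi x * val g L = val (x * g) L := by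
  simp [val, mul_assoc]

theorem val_one_cons (e : ℤˣ) (a : Γ) (L : List (ℤˣ × Γ)) :
    val 1 ((e, a) :: L) = ft ^ (e : ℤ) * val a L := by
  simp [val_cons]

theorem val_append (g : Γ) (L : List (ℤˣ × Γ)) (e : ℤˣ) (a : Γ) (M : List (ℤˣ × Γ)) :
    val g (L ++ (e, a) :: M) = val g L * ft ^ (e : ℤ) * val a M := by
  simp [val, mul_assoc]

theorem red_nil : Red ([] : List (ℤˣ × Γ)) := List.isChain_nil

theorem red_singleton (s : ℤˣ × Γ) : Red [s] := List.isChain_singleton s

theorem red_cons_cons {e e' : ℤˣ} {a a' : Γ} {L : List (ℤˣ × Γ)} :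
    Red ((e, a) :: (e', a') :: L) ↔ (a = 1 → e = e') ∧ Red ((e', a') :: L) := by
  simp [Red]

theorem Red.tail {s : ℤˣ × Γ} {L : List (ℤˣ × Γ)} (h : Red (s :: L)) : Red L :=
  List.IsChain.tail h

theorem wlen_nil (ℓ : Γ → ℕ) (g : Γ) : wlen ℓ g [] = ℓ g := by simp [wlen]

theorem wlen_cons (ℓ : Γ → ℕ) (g : Γ) (e : ℤˣ) (a : Γ) (L : List (ℤˣ × Γ)) :
    wlen ℓ g ((e, a) :: L) = ℓ g + 1 + wlen ℓ a L := by
  simp [wlen]; ring

/-! ### normal forms -/

/-- the full transversal of the trivial subgroup -/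
def trv : HNNExtension.NormalWord.TransversalPair Γ (⊥ : Subgroup Γ) (⊥ : Subgroup Γ) where
  set := fun _ => Set.univ
  compl := by
    intro u
    have : (HNNExtension.toSubgroup (⊥ : Subgroup Γ) (⊥ : Subgroup Γ) u) = ⊥ := by
      unfold HNNExtension.toSubgroup
      split_ifs <;> rfl
    rw [this]
    exact Subgroup.isComplement_singleton_univ (g := (1 : Γ))

/-- a reduced word as a normal form -/
def nword (g : Γ) (L : List (ℤˣ × Γ)) (h : Red L) :
    HNNExtension.NormalWord (trv : HNNExtension.NormalWord.TransversalPair Γ _ _) where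
  head := g
  toList := L
  chain := by
    refine List.IsChain.imp ?_ h
    intro a b hab ha
    apply hab
    have : (HNNExtension.toSubgroup (⊥ : Subgroup Γ) (⊥ : Subgroup Γ) a.1) = ⊥ := by
      unfold HNNExtension.toSubgroup
      split_ifs <;> rfl
    rw [this] at ha
    exact Subgroup.mem_bot.mp ha
  mem_set := fun _ _ _ => Set.mem_univ _

theorem exists_word (x : FZ Γ) : ∃ (g : Γ) (L : List (ℤˣ × Γ)), Red L ∧ val g L = x := by
  obtain ⟨w, rfl⟩ := (HNNExtension.NormalWord.equiv (MulEquiv.refl (⊥ : Subgroup Γ)) trv).symm.surjective x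
  refine ⟨w.head, w.toList, ?_, rfl⟩
  refine List.IsChain.imp ?_ w.chain
  intro a b hab ha
  apply hab
  rw [ha]
  exact Subgroup.one_mem _

theorem word_unique {g g' : Γ} {L L' : List (ℤˣ × Γ)} (h : Red L) (h' : Red L')
    (e : val g L = val g' L') : g = g' ∧ L = L' := by
  have : nword g L h = nword g' L' h' :=
    HNNExtension.NormalWord.prod_injective (MulEquiv.refl (⊥ : Subgroup Γ)) trv e
  constructor
  · exact congrArg (fun w => w.head) this
  · exact congrArg (fun w => w.toList) this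

theorem lz_val (ℓ : Γ → ℕ) {g : Γ} {L : List (ℤˣ × Γ)} (h : Red L) :
    lz ℓ (val g L) = wlen ℓ g L := by
  have : {k | ∃ (g' : Γ) (L' : List (ℤˣ × Γ)), Red L' ∧ val g' L' = val g L ∧ wlen ℓ g' L' = k}
      = {wlen ℓ g L} := by
    ext k
    constructor
    · rintro ⟨g', L', h', e, rfl⟩
      obtain ⟨rfl, rfl⟩ := word_unique h' h e
      rfl
    · rintro rfl
      exact ⟨g, L, h, rfl, rfl⟩
  unfold lz
  rw [this]
  exact csInf_singleton _

/-- words with a common prefix -/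
theorem lz_common (g : Γ) (e : ℤˣ) (a a' : Γ) (L L' : List (ℤˣ × Γ)) :
    (val g ((e, a) :: L))⁻¹ * val g ((e, a') :: L') = (val a L)⁻¹ * val a' L' := by
  rw [val_cons, val_cons]
  group

theorem units_neg_of_ne {e e' : ℤˣ} (h : e ≠ e') : -e = e' := by
  rcases Int.units_eq_one_or e with rfl | rfl <;> rcases Int.units_eq_one_or e' with rfl | rfl <;>
    simp_all

theorem units_ne_neg (e : ℤˣ) : e ≠ -e := by
  rcases Int.units_eq_one_or e with rfl | rfl <;> decide

theorem inv_val_cons_mul (g x : Γ) (e : ℤˣ) (a : Γ) (L M : List (ℤˣ × Γ)) :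
    (val g ((e, a) :: L))⁻¹ * val x M = (val a L)⁻¹ * val 1 ((-e, g⁻¹ * x) :: M) := by
  rw [val_cons, val_one_cons, ← fi_mul_val, map_inv]
  have : (ft : FZ Γ) ^ ((-e : ℤˣ) : ℤ) = (ft ^ (e : ℤ))⁻¹ := by
    rw [← zpow_neg]
    simp
  rw [this]
  group

theorem lz_diverge_aux (H : HypLen ℓ δ) (L : List (ℤˣ × Γ)) :
    ∀ (g x : Γ) (M : List (ℤˣ × Γ)), Red L → Red M →
      (∀ (e e' : ℤˣ) (a a' : Γ) (L1 M1 : List (ℤˣ × Γ)), L = (e, a) :: L1 → M = (e', a') :: M1 →
        g = x → e ≠ e') →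
      lz ℓ ((val g L)⁻¹ * val x M) =
        (L.map fun s => 1 + ℓ s.2).sum + ℓ (g⁻¹ * x) + (M.map fun s => 1 + ℓ s.2).sum := by
  induction L with
  | nil =>
    intro g x M _ hM _
    rw [val_nil, ← map_inv, fi_mul_val, lz_val ℓ hM]
    simp [wlen]
  | cons s L1 ih =>
    obtain ⟨e, a⟩ := s
    intro g x M hL hM hd
    rw [inv_val_cons_mul, ih a 1 ((-e, g⁻¹ * x) :: M) hL.tail]
    · simp [H.inv]
      ring
    · rcases M with _ | ⟨⟨e', a'⟩, M1⟩
      · exact red_singleton _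
      · rw [red_cons_cons]
        refine ⟨fun hgx => ?_, hM⟩
        exact units_neg_of_ne (hd e e' a a' L1 M1 rfl rfl (inv_mul_eq_one.mp hgx))
    · intro e1 e' a1 a' L2 M1 h1 h2 h3
      subst h1
      have h4 := (red_cons_cons.mp hL).1 h3
      rw [List.cons.injEq, Prod.mk.injEq] at h2
      rw [← h2.1.1, ← h4]
      exact units_ne_neg e

/-- distance between words which diverge at the first syllable -/
theorem lz_diverge (H : HypLen ℓ δ) (g g' : Γ) (L L' : List (ℤˣ × Γ)) (h : Red L) (h' : Red L')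
    (hd : ¬ (g = g' ∧ ∃ (e : ℤˣ) (a a' : Γ) (M M' : List (ℤˣ × Γ)),
      L = (e, a) :: M ∧ L' = (e, a') :: M')) :
    lz ℓ ((val g L)⁻¹ * val g' L') =
      (L.map fun s => 1 + ℓ s.2).sum + ℓ (g⁻¹ * g') + (L'.map fun s => 1 + ℓ s.2).sum := by
  apply lz_diverge_aux H L g g' L' h h'
  intro e e' a a' L1 M1 h1 h2 h3 h4
  subst h4
  exact hd ⟨h3, e, a, a', L1, M1, h1, h2⟩

end Pool.Agent.Lib.MP_e1b29e_al
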