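import Pool.Agent.Lib.MP_e1b29e_al.QuotMain
import Pool.Agent.Lib.MP_e1b29e_al.ExistsAxis
import Pool.Agent.Lib.MP_06935a_al.Lox
import Pool.Agent.Lib.MP_06935a_al.Proj
import Pool.Agent.Lib.MP_06935a_al.PSys

/-!
# T-fill: one step of small cancellation inside the subgroup `A`
-/

set_option autoImplicit false

namespace Pool.Agent.Lib.MP_e1b29e_al

open Pool.Agent.Lib.MP_06935a_al hiding Res Good
open scoped Pointwise

variable {Γ : Type} [Group Γ] {ℓ : Γ → ℕ} {δ : ℕ}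

theorem Disj.symm {A B : Subgroup Γ} (h : Disj A B) : Disj B A := by
  intro g k hk hk1 hc
  refine h g⁻¹ (g⁻¹ * k * g) hc ?_ ?_
  · intro e
    apply hk1
    have e2 : k = g * (g⁻¹ * k * g) * g⁻¹ := by group
    rw [e2, e]; group
  · have e2 : g⁻¹⁻¹ * (g⁻¹ * k * g) * g⁻¹ = k := by group
    rwa [e2]

theorem Good.swap {A B C : Subgroup Γ} {L : Set Γ} (G : Good Γ A B C L) : Good Γ B A C L where
  hyp := by
    obtain ⟨ℓ, δ, κ, H, hp, qA, qB, qC⟩ := G.hyp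
    exact ⟨ℓ, δ, κ, H, hp, qB, qA, qC⟩
  tf := G.tf
  malA := G.malB
  malB := G.malA
  dAB := G.dAB.symm
  dAC := G.dBC
  dBC := G.dAC
  fin := G.fin
  malL := G.malL

theorem QC.mono {S : Set Γ} {κ κ' : ℕ} (h : κ ≤ κ') (hS : QC ℓ S κ) : QC ℓ S κ' := by
  intro a ha b hb z hz
  obtain ⟨c, hc, hle⟩ := hS a ha b hb z hz
  exact ⟨c, hc, hle.trans h⟩

/-- cyclic subgroups are quasiconvex -/
theorem qc_zpowers (H : HypLen ℓ δ) (hp : ProperLen ℓ) (tf : TF Γ) (u : Γ) (hu : u ≠ 1) :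
    ∃ κ : ℕ, QC ℓ ((Subgroup.zpowers u : Subgroup Γ) : Set Γ) κ := by
  obtain ⟨K₀, Q⟩ := exists_qgeo H hp u (fun h => hu (tf u h))
  obtain ⟨p, K, M⟩ := exists_metProj H u K₀ Q
  refine ⟨2 * K, ?_⟩
  rintro _ ⟨i, rfl⟩ _ ⟨j, rfl⟩ z hz
  refine ⟨u ^ p z, ⟨p z, rfl⟩, ?_⟩
  have h1 := psys_qc H M z i j 0 (by
    have e1 := H.dst_comm (u ^ i) z
    have e2 := H.dst_zpow u i j
    change dst ℓ (u ^ i) z + dst ℓ z (u ^ j) = dst ℓ (u ^ i) (u ^ j) at hz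
    omega)
  omega

/-- a common quasiconvexity constant for finitely many cyclic subgroups -/
theorem qc_finite (H : HypLen ℓ δ) (hp : ProperLen ℓ) (tf : TF Γ) (L : Set Γ) (hL : L.Finite)
    (h1 : ∀ u ∈ L, u ≠ 1) :
    ∃ κ : ℕ, ∀ u ∈ L, QC ℓ ((Subgroup.zpowers u : Subgroup Γ) : Set Γ) κ := by
  induction L, hL using Set.Finite.induction_on with
  | empty => exact ⟨0, fun u hu => absurd hu (Set.notMem_empty u)⟩
  | @insert a s _ _ ih =>
    obtain ⟨κ, hκ⟩ := ih fun u hu => h1 u (Set.mem_insert_of_mem _ hu)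
    obtain ⟨κ', hκ'⟩ := qc_zpowers H hp tf a (h1 a (Set.mem_insert _ _))
    refine ⟨κ + κ', fun u hu => ?_⟩
    rcases hu with rfl | hu
    · exact hκ'.mono (by omega)
    · exact (hκ u hu).mono (by omega)

omit [Group Γ] in
theorem len_finite (ℓ : Γ → ℕ) (E : Set Γ) (hE : E.Finite) : ∃ m : ℕ, ∀ e ∈ E, ℓ e ≤ m := by
  obtain ⟨m, hm⟩ := (hE.image ℓ).bddAbove
  exact ⟨m, fun e he => hm ⟨e, he, rfl⟩⟩

theorem fill {A B C : Subgroup Γ} {L : Set Γ} (G : Good Γ A B C L) (x y s : Γ) (hx : x ∈ A)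
    (hy : y ∈ A) (hs : s ∈ A) (hxy : x * y ≠ y * x) (E : Set Γ) (hE : E.Finite) :
    ∃ N : Subgroup Γ, ∃ _ : N.Normal,
      Good (Γ ⧸ N) (A.map (QuotientGroup.mk' N)) (B.map (QuotientGroup.mk' N))
        (C.map (QuotientGroup.mk' N)) ((QuotientGroup.mk' N) '' L) ∧
      (∀ e ∈ E, e ∈ N → e = 1) ∧ (∀ c ∈ C, c ∈ N → c = 1) ∧
      ∃ w ∈ Subgroup.closure {x, y}, w⁻¹ * s ∈ N := by
  obtain ⟨ℓ, δ, κ₀, H, hp, qA₀, qB₀, qC₀⟩ := G.hyp
  obtain ⟨κ₁, qL₀⟩ := qc_finite H hp G.tf L G.fin fun u hu => (G.malL u hu).1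
  set κ := κ₀ + κ₁ with hκ
  have qA := qA₀.mono (show κ₀ ≤ κ by omega)
  have qB := qB₀.mono (show κ₀ ≤ κ by omega)
  have qC := qC₀.mono (show κ₀ ≤ κ by omega)
  have qL := fun u hu => (qL₀ u hu).mono (show κ₁ ≤ κ by omega)
  obtain ⟨κ', c, θ, K, β, hax⟩ := exists_axis H hp G.tf A G.malA x y s hx hy hs hxy κ
  obtain ⟨c', R', q₀, hmain⟩ := quot_main H hp G.tf κ κ' c θ K β
  obtain ⟨m₁, hm₁⟩ := len_finite ℓ E hE
  obtain ⟨m₂, hm₂⟩ := len_finite ℓ L G.fin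
  obtain ⟨q, hq, S, R, P, pt, Ax, hS, hG, hRA, hR1, ⟨w₁, hw₁, w₂, hw₂, hR⟩, hJ⟩ :=
    hax c' R' (q₀ + 2 * c + 8 * θ + β + c * (m₁ + m₂) + 1)
  obtain ⟨⟨ℓ', δ', κ'', H', hp', hqc⟩, htf, hconj, hN⟩ :=
    hmain q (by omega) S R P pt Ax hS hG
  -- compatibility of subgroups
  have nc1 : ∀ c₁ c₂ : Γ, c₁ * c₂ ≠ c₂ * c₁ → c₁ ≠ 1 := by
    rintro c₁ c₂ h rfl
    simp at h
  have rA : RotH R P β A := by
    intro g t ht hb
    obtain ⟨c₁, h1, c₂, h2, hne, hg1, hg2⟩ := hJ A qA g t ht hb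
    have hg : g ∈ A := G.malA g c₁ h1 (nc1 _ _ hne) hg1
    exact A.mul_mem (A.mul_mem (A.inv_mem hg) hRA) hg
  have vac : ∀ J : Subgroup Γ, QC ℓ (J : Set Γ) κ → Disj A J → ∀ g t : Γ, t ∈ J →
      ¬ ((β : ℤ) ≤ |P g - P (g * t)|) := by
    intro J qJ dJ g t ht hb
    obtain ⟨c₁, h1, c₂, h2, hne, hg1, hg2⟩ := hJ J qJ g t ht hb
    exact dJ g c₁ h1 (nc1 _ _ hne) hg1
  have rB : RotH R P β B := fun g t ht hb => absurd hb (vac B qB G.dAB g t ht)
  have rC : RotH R P β C := fun g t ht hb => absurd hb (vac C qC G.dAC g t ht)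
  have rL : ∀ u ∈ L, RotH R P β (Subgroup.zpowers u) := by
    intro u hu g t ht hb
    exfalso
    obtain ⟨c₁, h1, c₂, h2, hne, hg1, hg2⟩ := hJ _ (qL u hu) g t ht hb
    apply hne
    obtain ⟨i, hi⟩ := Subgroup.mem_zpowers_iff.mp hg1
    obtain ⟨j, hj⟩ := Subgroup.mem_zpowers_iff.mp hg2
    have e1 : c₁ = g * u ^ i * g⁻¹ := by rw [hi]; group
    have e2 : c₂ = g * u ^ j * g⁻¹ := by rw [hj]; group
    rw [e1, e2]
    have e3 : g * u ^ i * g⁻¹ * (g * u ^ j * g⁻¹) = g * (u ^ i * u ^ j) * g⁻¹ := by group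
    have e4 : g * u ^ j * g⁻¹ * (g * u ^ i * g⁻¹) = g * (u ^ j * u ^ i) * g⁻¹ := by group
    rw [e3, e4, ← zpow_add, ← zpow_add, add_comm]
  -- Lipschitz bound
  have lipl : ∀ (n : ℕ) (g t : Γ), ℓ t ≤ n → |P g - P (g * t)| ≤ c * n := by
    intro n
    induction n with
    | zero =>
      intro g t ht
      have := H.eq_one t (by omega)
      subst this
      simp
    | succ n ih =>
      intro g t ht
      by_cases hle : ℓ t ≤ n
      · have := ih g t hle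
        push_cast
        nlinarith
      · obtain ⟨a, b, rfl, ha, hb⟩ := H.split t n (by omega)
        have h1 := ih g a (by omega)
        have h2 := Ax.lip (g * a) b (by omega)
        have h3 : |P g - P (g * (a * b))| ≤ |P g - P (g * a)| + |P (g * a) - P (g * (a * b))| :=
          abs_sub_le _ _ _
        rw [← mul_assoc, abs_sub_comm (P (g * a))] at h3
        rw [← mul_assoc]
        push_cast
        linarith
  have big : ∀ t ∈ NR R, t ≠ 1 → m₁ + m₂ < ℓ t := by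
    intro t ht ht1
    by_contra hcon
    push Not at hcon
    obtain ⟨h, hh⟩ := hN t ht ht1
    have h1 := lipl _ h t hcon
    have h2 : ((q₀ + 2 * c + 8 * θ + β + c * (m₁ + m₂) + 1 : ℕ) : ℤ) ≤ q := by exact_mod_cast hq
    push_cast at h1 h2
    have h3 : (0 : ℤ) ≤ q₀ := Int.natCast_nonneg _
    have h4 : (0 : ℤ) ≤ β := Int.natCast_nonneg _
    linarith
  have hLN : ∀ u ∈ L, u ∉ NR R := by
    intro u hu hc
    have h1 := big u hc (G.malL u hu).1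
    have h2 := hm₂ u hu
    omega
  refine ⟨NR R, inferInstance, ?_, ?_, ?_, ?_⟩
  · refine
      { hyp := ⟨ℓ', δ', κ'', H', hp', hqc A qA rA, hqc B qB rB, hqc C qC rC⟩
        tf := htf
        malA := ?_
        malB := ?_
        dAB := ?_
        dAC := ?_
        dBC := ?_
        fin := G.fin.image _
        malL := ?_ }
    · intro g' h' hh hh1 hg
      obtain ⟨g, h, rfl, h1, h2, h3⟩ := hconj A A qA qA rA rA g' h' hh hh1 hg
      exact ⟨g, G.malA g h h1 h2 h3, rfl⟩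
    · intro g' h' hh hh1 hg
      obtain ⟨g, h, rfl, h1, h2, h3⟩ := hconj B B qB qB rB rB g' h' hh hh1 hg
      exact ⟨g, G.malB g h h1 h2 h3, rfl⟩
    · intro g' h' hh hh1 hg
      obtain ⟨g, h, rfl, h1, h2, h3⟩ := hconj A B qA qB rA rB g' h' hh hh1 hg
      exact G.dAB g h h1 h2 h3
    · intro g' h' hh hh1 hg
      obtain ⟨g, h, rfl, h1, h2, h3⟩ := hconj A C qA qC rA rC g' h' hh hh1 hg
      exact G.dAC g h h1 h2 h3
    · intro g' h' hh hh1 hg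
      obtain ⟨g, h, rfl, h1, h2, h3⟩ := hconj B C qB qC rB rC g' h' hh hh1 hg
      exact G.dBC g h h1 h2 h3
    · rintro _ ⟨u, hu, rfl⟩
      obtain ⟨hu1, hmal⟩ := G.malL u hu
      have hne : (QuotientGroup.mk' (NR R)) u ≠ 1 := by
        intro h
        exact hLN u hu ((QuotientGroup.eq_one_iff u).mp h)
      refine ⟨hne, ?_⟩
      intro g' i j hi hgij
      -- `h' = u ^ i`
      have hinf : (QuotientGroup.mk' (NR R)) u ^ i ≠ 1 := by
        intro h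
        apply hne
        apply htf
        exact isOfFinOrder_iff_zpow_eq_one.mpr ⟨i, hi, h⟩
      have hmem : ∀ k : ℤ, (QuotientGroup.mk' (NR R)) u ^ k ∈
          (Subgroup.zpowers u).map (QuotientGroup.mk' (NR R)) := fun k =>
        ⟨u ^ k, ⟨k, rfl⟩, map_zpow _ _ _⟩
      obtain ⟨g, h, hgg, h1, h2, h3⟩ := hconj (Subgroup.zpowers u) (Subgroup.zpowers u)
        (qL u hu) (qL u hu) (rL u hu) (rL u hu) g'⁻¹ ((QuotientGroup.mk' (NR R)) u ^ i)
        (hmem i) hinf (by rw [inv_inv, hgij]; exact hmem j)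
      obtain ⟨a, rfl⟩ := Subgroup.mem_zpowers_iff.mp h1
      obtain ⟨b, hb⟩ := Subgroup.mem_zpowers_iff.mp h3
      have ha : a ≠ 0 := by
        rintro rfl
        exact h2 (zpow_zero u)
      have h4 := hmal g⁻¹ a b ha (by rw [inv_inv]; exact hb.symm)
      obtain ⟨t, ht⟩ := Subgroup.mem_zpowers_iff.mp h4
      refine Subgroup.mem_zpowers_iff.mpr ⟨t, ?_⟩
      have h5 : (QuotientGroup.mk' (NR R)) (u ^ t) = (QuotientGroup.mk' (NR R)) g⁻¹ := by rw [ht]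
      rw [map_zpow, map_inv] at h5
      rw [h5]
      have h6 : (QuotientGroup.mk' (NR R)) g = g'⁻¹ := hgg
      rw [h6, inv_inv]
  · intro e he heN
    by_contra hne
    have h1 := big e heN hne
    have h2 := hm₁ e he
    omega
  · intro t ht htN
    by_contra hne
    obtain ⟨h, hh⟩ := hN t htN hne
    apply vac C qC G.dAC h t ht
    have h2 : ((q₀ + 2 * c + 8 * θ + β + c * (m₁ + m₂) + 1 : ℕ) : ℤ) ≤ q := by exact_mod_cast hq
    push_cast at h2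
    have h3 : (0 : ℤ) ≤ q₀ := Int.natCast_nonneg _
    have h4 : (0 : ℤ) ≤ (c : ℤ) * (m₁ + m₂) := by positivity
    linarith
  · refine ⟨w₁⁻¹ * w₂⁻¹, Subgroup.mul_mem _ (Subgroup.inv_mem _ hw₁) (Subgroup.inv_mem _ hw₂), ?_⟩
    have e : (w₁⁻¹ * w₂⁻¹)⁻¹ * s = w₂ * (w₁ * s * w₂) * w₂⁻¹ := by group
    rw [e, ← hR]
    exact (inferInstance : (NR R).Normal).conj_mem _ (Subgroup.subset_normalClosure rfl) _

end Pool.Agent.Lib.MP_e1b29e_al
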