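import Mathlib

/-! The free group of rank two has a subgroup which is not finitely generated. -/

set_option autoImplicit false

namespace Pool.Agent.Lib.MP_e1b29e_al

namespace FreeNotFG

/-- shift on `ℤ × Bool` -/
def sh : Equiv.Perm (ℤ × Bool) where
  toFun x := (x.1 + 1, x.2)
  invFun x := (x.1 - 1, x.2)
  left_inv x := by ext <;> simp
  right_inv x := by ext <;> simp

/-- flip over `0` -/
def fl : Equiv.Perm (ℤ × Bool) where
  toFun x := (x.1, if x.1 = 0 then !x.2 else x.2)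
  invFun x := (x.1, if x.1 = 0 then !x.2 else x.2)
  left_inv x := by
    obtain ⟨n, b⟩ := x
    by_cases h : n = 0 <;> simp [h]
  right_inv x := by
    obtain ⟨n, b⟩ := x
    by_cases h : n = 0 <;> simp [h]

theorem sh_zpow (n : ℤ) (x : ℤ × Bool) : (sh ^ n) x = (x.1 + n, x.2) := by
  induction n using Int.induction_on generalizing x with
  | zero => simp
  | succ n ih =>
    rw [zpow_add_one, Equiv.Perm.mul_apply, ih]
    ext
    · simp [sh]; ring
    · simp [sh]
  | pred n ih =>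
    rw [zpow_sub_one, Equiv.Perm.mul_apply, ih]
    have : sh⁻¹ x = (x.1 - 1, x.2) := rfl
    rw [this]
    ext
    · simp; ring
    · rfl

/-- the homomorphism to permutations -/
def φ : FreeGroup (Fin 2) →* Equiv.Perm (ℤ × Bool) :=
  FreeGroup.lift fun i => if i = 0 then sh else fl

/-- conjugates of the flip -/
def c (n : ℤ) : FreeGroup (Fin 2) :=
  FreeGroup.of 0 ^ n * FreeGroup.of 1 * (FreeGroup.of 0 ^ n)⁻¹

theorem φ_c (n : ℤ) (x : ℤ × Bool) :
    φ (c n) x = (x.1, if x.1 = n then !x.2 else x.2) := by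
  have h : φ (c n) = sh ^ n * fl * sh ^ (-n) := by
    unfold c φ
    rw [map_mul, map_mul, map_inv, map_zpow, zpow_neg]
    simp
  rw [h, Equiv.Perm.mul_apply, Equiv.Perm.mul_apply, sh_zpow, sh_zpow]
  have e : (x.1 + -n = 0) ↔ x.1 = n := by omega
  simp [fl, e]

/-- the subgroup generated by the `c n` with `|n| ≤ k` -/
def Hk (k : ℕ) : Subgroup (FreeGroup (Fin 2)) := Subgroup.closure {x | ∃ n : ℤ, |n| ≤ k ∧ x = c n}

theorem Hk_mono {k l : ℕ} (h : k ≤ l) : Hk k ≤ Hk l := by
  apply Subgroup.closure_mono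
  rintro x ⟨n, hn, rfl⟩
  exact ⟨n, hn.trans (by exact_mod_cast h), rfl⟩

/-- the subgroup generated by all `c n` -/
def HH : Subgroup (FreeGroup (Fin 2)) := Subgroup.closure (Set.range c)

theorem mem_Hk {x : FreeGroup (Fin 2)} (hx : x ∈ HH) : ∃ k, x ∈ Hk k := by
  unfold HH at hx
  induction hx using Subgroup.closure_induction with
  | mem x hx =>
    obtain ⟨n, rfl⟩ := hx
    exact ⟨n.natAbs, Subgroup.subset_closure ⟨n, by rw [Int.natCast_natAbs], rfl⟩⟩
  | one => exact ⟨0, one_mem _⟩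
  | mul x y _ _ hx hy =>
    obtain ⟨k, hk⟩ := hx
    obtain ⟨l, hl⟩ := hy
    exact ⟨max k l, mul_mem (Hk_mono (le_max_left _ _) hk) (Hk_mono (le_max_right _ _) hl)⟩
  | inv x _ hx =>
    obtain ⟨k, hk⟩ := hx
    exact ⟨k, inv_mem hk⟩

theorem φ_Hk {k : ℕ} {x : FreeGroup (Fin 2)} (hx : x ∈ Hk k) :
    φ x ((k : ℤ) + 1, true) = ((k : ℤ) + 1, true) := by
  unfold Hk at hx
  induction hx using Subgroup.closure_induction with
  | mem x hx =>
    obtain ⟨n, hn, rfl⟩ := hx
    rw [φ_c]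
    have : ¬ ((k : ℤ) + 1 = n) := by
      rintro rfl
      have := le_abs_self ((k : ℤ) + 1)
      omega
    simp [this]
  | one => simp
  | mul x y _ _ hx hy => rw [map_mul, Equiv.Perm.mul_apply, hy, hx]
  | inv x _ hx =>
    rw [map_inv]
    conv_lhs => rw [← hx]
    exact (φ x).symm_apply_apply _

end FreeNotFG

open FreeNotFG in
theorem free_not_fg : ∃ H : Subgroup (FreeGroup (Fin 2)), ¬ H.FG := by
  refine ⟨HH, ?_⟩
  rintro ⟨S, hS⟩
  have key : ∀ S : Finset (FreeGroup (Fin 2)), (∀ s ∈ S, s ∈ HH) → ∃ k, ∀ s ∈ S, s ∈ Hk k := by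
    intro S
    induction S using Finset.induction_on with
    | empty => intro _; exact ⟨0, by simp⟩
    | insert a S _ ih =>
      intro h
      obtain ⟨k, hk⟩ := ih fun s hs => h s (Finset.mem_insert_of_mem hs)
      obtain ⟨l, hl⟩ := mem_Hk (h a (Finset.mem_insert_self _ _))
      refine ⟨max k l, fun s hs => ?_⟩
      rcases Finset.mem_insert.1 hs with rfl | hs
      · exact Hk_mono (le_max_right _ _) hl
      · exact Hk_mono (le_max_left _ _) (hk s hs)
  obtain ⟨k, hk⟩ := key S fun s hs => by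
    rw [← hS]; exact Subgroup.subset_closure hs
  have h1 : HH ≤ Hk k := by
    rw [← hS, Subgroup.closure_le]
    exact hk
  have h2 : c ((k : ℤ) + 1) ∈ Hk k := h1 (Subgroup.subset_closure ⟨_, rfl⟩)
  have h3 := φ_Hk h2
  rw [φ_c] at h3
  simp at h3

end Pool.Agent.Lib.MP_e1b29e_al
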