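import Pool.Agent.Lib.MP_e1b29e_al.Cone

/-!
# T5: quasiconvex subsets in the coned-off metric
-/

set_option autoImplicit false

namespace Pool.Agent.Lib.MP_e1b29e_al

open Pool.Agent.Lib.MP_06935a_al
open scoped Pointwise

variable {Γ : Type} [Group Γ] {ℓ : Γ → ℕ} {δ : ℕ}

/-- a quasiconvex set is quasiconvex for the coned-off metric -/
theorem qc_hat (H : HypLen ℓ δ) (κ κ' : ℕ) :
    ∃ κ'' : ℕ, ∀ S : Set Γ, QC ℓ S κ' → ∀ J : Set Γ, QC ℓ J κ →
      QC (wl (cset ℓ S)) J κ'' := by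
  obtain ⟨R₀, hR₀⟩ := cmorse H κ'
  obtain ⟨δ', hδ'⟩ := chyp H κ'
  refine ⟨3 * R₀ + 1 + κ, ?_⟩
  intro S hS J hJ a ha b hb z hz
  have M := hR₀ S hS
  have H' := hδ' S hS
  set d := dst (wl (cset ℓ S)) with hd
  have dtri : ∀ x y z, d x z ≤ d x y + d y z := hat_tri H S
  have dcomm : ∀ x y, d x y = d y x := hat_comm H S
  have dle : ∀ x y, d x y ≤ dst ℓ x y := hat_le H S
  obtain ⟨v, v0, vm, vz, hv⟩ : ∃ v : ℕ → Γ, v 0 = a ∧ v (d a b) = b ∧ v (d a z) = z ∧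
      ∀ i j, i ≤ j → j ≤ d a b → d (v i) (v j) = j - i := H'.exists_geod_through a b z hz
  obtain ⟨c, c0, cn, -, hc⟩ := H.exists_geod_through a b a (by rw [H.dst_self]; omega)
  set m := d a b with hm
  set n := dst ℓ a b with hn
  have hcl : ∀ j ≤ n, ∃ i ≤ m, d (c j) (v i) ≤ R₀ := by
    intro j hj
    apply M m v hv
    rw [v0, vm]
    have h1 := hc 0 j (Nat.zero_le _) hj
    have h2 := hc j n hj le_rfl
    rw [c0] at h1
    rw [cn] at h2
    omega
  have hcl' : ∀ j, ∃ i ≤ m, j ≤ n → d (c j) (v i) ≤ R₀ := by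
    intro j
    by_cases hj : j ≤ n
    · obtain ⟨i, hi, h⟩ := hcl j hj
      exact ⟨i, hi, fun _ => h⟩
    · exact ⟨0, Nat.zero_le _, fun h => absurd h hj⟩
  choose f hf1 hf2 using hcl'
  have hdv : ∀ i j, i ≤ m → j ≤ m → (i : ℤ) - j ≤ d (v i) (v j) ∧ (j : ℤ) - i ≤ d (v i) (v j) := by
    intro i j hi hj
    rcases Nat.le_total i j with h | h
    · have := hv i j h hj
      constructor <;> omega
    · have := hv j i h hi
      rw [dcomm (v i) (v j)]
      constructor <;> omega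
  have hf0 : f 0 ≤ R₀ := by
    have h1 := hf2 0 (Nat.zero_le _)
    rw [c0, ← v0] at h1
    have h2 := hdv 0 (f 0) (Nat.zero_le _) (hf1 0)
    omega
  have hfn : m ≤ f n + R₀ := by
    have h1 := hf2 n le_rfl
    rw [cn, ← vm] at h1
    have h2 := hdv m (f n) le_rfl (hf1 n)
    omega
  have hstep : ∀ j < n, (f (j + 1) : ℤ) - f j ≤ 2 * R₀ + 1 := by
    intro j hj
    have h1 := hf2 j (by omega)
    have h2 := hf2 (j + 1) (by omega)
    have h3 := hdv (f j) (f (j + 1)) (hf1 _) (hf1 _)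
    have h4 := dtri (v (f j)) (c j) (v (f (j + 1)))
    have h5 := dtri (c j) (c (j + 1)) (v (f (j + 1)))
    have h6 := dle (c j) (c (j + 1))
    have h7 := hc j (j + 1) (by omega) (by omega)
    have h8 := dcomm (v (f j)) (c j)
    omega
  set i₀ := d a z with hi₀
  have hi₀m : i₀ ≤ m := by
    have : d a z + d z b = d a b := hz
    omega
  obtain ⟨j, hj, hj1, hj2⟩ : ∃ j ≤ n, (f j : ℤ) - i₀ ≤ 2 * R₀ + 1 ∧
      (i₀ : ℤ) - f j ≤ 2 * R₀ + 1 := by
    by_cases h0 : f 0 ≤ i₀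
    · by_cases hn0 : f n ≤ i₀
      · exact ⟨n, le_rfl, by omega, by omega⟩
      · -- crossing
        have : ∃ j, j < n ∧ f j ≤ i₀ ∧ i₀ < f (j + 1) := by
          by_contra hcon
          push Not at hcon
          have hall : ∀ j ≤ n, f j ≤ i₀ := by
            intro j
            induction j with
            | zero => intro _; exact h0
            | succ j ih => intro hj; exact hcon j (by omega) (ih (by omega))
          exact hn0 (hall n le_rfl)
        obtain ⟨j, hj, h1, h2⟩ := this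
        have := hstep j hj
        exact ⟨j, by omega, by omega, by omega⟩
    · exact ⟨0, Nat.zero_le _, by omega, by omega⟩
  obtain ⟨e, he, hce⟩ := hJ a ha b hb (c j) (by
    have h1 := hc 0 j (Nat.zero_le _) hj
    have h2 := hc j n hj le_rfl
    rw [c0] at h1
    rw [cn] at h2
    omega)
  refine ⟨e, he, ?_⟩
  have h1 := dtri z (v (f j)) e
  have h2 := dtri (v (f j)) (c j) e
  have h3 := dle (c j) e
  have h4 := hf2 j hj
  have h5 := dcomm (v (f j)) (c j)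
  have h6 : (d z (v (f j)) : ℤ) ≤ 2 * R₀ + 1 := by
    rcases Nat.le_total i₀ (f j) with h | h
    · have h7 := hv i₀ (f j) h (hf1 j)
      rw [vz] at h7
      omega
    · have h7 := hv (f j) i₀ h hi₀m
      rw [vz, dcomm] at h7
      omega
  show d z e ≤ _
  omega

/-- bounded overlap: if `J₁` and `w J₂ w⁻¹` intersect trivially, elements of `J₁` which stay close
to `w J₂` in the coned-off metric are short in the coned-off metric -/
theorem bo_hat (H : HypLen ℓ δ) (hp : ProperLen ℓ) (κ κ' r : ℕ) :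
    ∃ f : ℕ, ∀ S : Set Γ, QC ℓ S κ' → ∀ J₁ J₂ : Subgroup Γ, QC ℓ (J₁ : Set Γ) κ →
      QC ℓ (J₂ : Set Γ) κ → ∀ w : Γ, (∀ h ∈ J₁, w⁻¹ * h * w ∈ J₂ → h = 1) →
      ∀ h₁ ∈ J₁, ∀ h₂ ∈ J₂, wl (cset ℓ S) w ≤ r → dst (wl (cset ℓ S)) h₁ (w * h₂) ≤ r →
        wl (cset ℓ S) h₁ ≤ f := by
  classical
  obtain ⟨R₀, hR₀⟩ := cmorse H κ'
  set ρ := 4 * δ + 2 * κ with hρ
  set r' := r + 2 * (R₀ + 2 * δ + 2 * δ) with hr'
  have hfin := hp ρ
  set V := hfin.toFinset.card with hV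
  refine ⟨2 * r' + V * (2 * κ + 1) + 1, ?_⟩
  intro S hS J₁ J₂ q1 q2 w hw h₁ hh₁ h₂ hh₂ hwr hd2
  have M := hR₀ S hS
  set d := dst (wl (cset ℓ S)) with hd
  have dtri : ∀ x y z, d x z ≤ d x y + d y z := hat_tri H S
  have dcomm : ∀ x y, d x y = d y x := hat_comm H S
  have dle : ∀ x y, d x y ≤ dst ℓ x y := hat_le H S
  have dself : ∀ x, d x x = 0 := hat_self S
  have d1 : ∀ x, d 1 x = wl (cset ℓ S) x := fun x => dst_one_left _ x
  by_contra hcon
  push Not at hcon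
  rw [← d1] at hcon hwr
  -- the key claim
  have key : ∀ z, dst ℓ 1 z + dst ℓ z h₁ = dst ℓ 1 h₁ → r' < d 1 z → r' < d z h₁ →
      ∃ a ∈ J₁, ∃ b ∈ J₂, dst ℓ z a ≤ κ ∧ ℓ (a⁻¹ * (w * b)) ≤ ρ := by
    intro z hz hz1 hz2
    have hg0 : gpr ℓ 1 h₁ z ≤ 0 := by
      unfold gpr
      have := H.dst_comm z h₁
      omega
    have hg1 : ¬ gpr ℓ 1 w z ≤ 2 * ((2 * δ : ℕ) : ℤ) := by
      intro h
      have := morse_star H S R₀ M 1 w z (2 * δ) h
      rw [← hd] at this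
      omega
    have hg2 : ¬ gpr ℓ (w * h₂) h₁ z ≤ 2 * ((2 * δ : ℕ) : ℤ) := by
      intro h
      have := morse_star H S R₀ M (w * h₂) h₁ z (2 * δ) h
      rw [← hd] at this
      have h3 := dcomm (w * h₂) h₁
      omega
    have hg3 : gpr ℓ w (w * h₂) z ≤ 2 * ((2 * δ : ℕ) : ℤ) := by
      rcases H.gpr_min 1 h₁ w z with h | h
      · exfalso; apply hg1; push_cast; omega
      · rcases H.gpr_min w h₁ (w * h₂) z with h' | h'
        · push_cast; omega
        · exfalso; apply hg2; push_cast; omega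
    obtain ⟨c, hc, hzc⟩ := H.near_geod w (w * h₂) z (2 * δ) hg3
    obtain ⟨a, ha, hza⟩ := q1 1 J₁.one_mem h₁ hh₁ z hz
    have hc' : dst ℓ 1 (w⁻¹ * c) + dst ℓ (w⁻¹ * c) h₂ = dst ℓ 1 h₂ := by
      rw [← dst_mul_left ℓ w 1, ← dst_mul_left ℓ w (w⁻¹ * c), ← dst_mul_left ℓ w 1 h₂]
      simpa using hc
    obtain ⟨b, hb, hcb⟩ := q2 1 J₂.one_mem h₂ hh₂ _ hc'
    refine ⟨a, ha, b, hb, hza, ?_⟩
    have h1 : dst ℓ c (w * b) ≤ κ := by
      rw [← dst_mul_left ℓ w] at hcb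
      simpa using hcb
    have h2 := H.dst_tri a z (w * b)
    have h3 := H.dst_tri z c (w * b)
    have h4 := H.dst_comm a z
    show dst ℓ a (w * b) ≤ ρ
    omega
  -- distance along the geodesic
  obtain ⟨c, c0, cn, -, hc⟩ := H.exists_geod_through 1 h₁ 1 (by rw [H.dst_self]; omega)
  set n := dst ℓ 1 h₁ with hn
  have hstep : ∀ i < n, d 1 (c (i + 1)) ≤ d 1 (c i) + 1 := by
    intro i hi
    have h1 := dtri 1 (c i) (c (i + 1))
    have h2 := dle (c i) (c (i + 1))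
    have h3 := hc i (i + 1) (by omega) (by omega)
    omega
  have hivt : ∀ t, t ≤ d 1 h₁ → ∃ j ≤ n, d 1 (c j) = t := by
    intro t ht
    obtain ⟨i, hi, he⟩ := nat_ivt (fun i => d 1 (c (n - i))) t n (by simpa [cn] using ht)
      (by simp [c0, dself]) (by
        intro i hi
        have h1 := hstep (n - (i + 1)) (by omega)
        have h2 : n - (i + 1) + 1 = n - i := by omega
        rw [h2] at h1
        exact h1)
    exact ⟨n - i, by omega, he⟩
  have hpts : ∀ k : Fin (V + 1), ∃ a ∈ J₁, ∃ b ∈ J₂, ℓ (a⁻¹ * (w * b)) ≤ ρ ∧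
      d 1 a ≤ r' + 1 + k * (2 * κ + 1) + κ ∧ r' + 1 + k * (2 * κ + 1) ≤ d 1 a + κ := by
    intro k
    have hk : (k : ℕ) ≤ V := Nat.lt_succ_iff.mp k.2
    have hk' : (k : ℕ) * (2 * κ + 1) ≤ V * (2 * κ + 1) := Nat.mul_le_mul_right _ hk
    obtain ⟨j, hj, he⟩ := hivt (r' + 1 + k * (2 * κ + 1)) (by omega)
    have h1 := hc 0 j (Nat.zero_le _) hj
    have h2 := hc j n hj le_rfl
    rw [c0] at h1
    rw [cn] at h2
    have h3 := dtri 1 (c j) h₁
    obtain ⟨a, ha, b, hb, hza, hab⟩ := key (c j) (by omega) (by omega) (by omega)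
    refine ⟨a, ha, b, hb, hab, ?_, ?_⟩
    · have h4 := dtri 1 (c j) a
      have h5 := dle (c j) a
      omega
    · have h4 := dtri 1 a (c j)
      have h5 := dle (c j) a
      have h6 := dcomm a (c j)
      omega
  choose a ha b hb hab hlo hhi using hpts
  -- pigeonhole
  obtain ⟨k, -, l, -, hkl, hkl'⟩ := Finset.exists_ne_map_eq_of_card_lt_of_maps_to
    (s := (Finset.univ : Finset (Fin (V + 1)))) (t := hfin.toFinset)
    (by rw [Finset.card_univ, Fintype.card_fin]; omega) (f := fun k => (a k)⁻¹ * (w * b k))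
    (by intro k _; simpa using hab k)
  have hkl' : (a k)⁻¹ * (w * b k) = (a l)⁻¹ * (w * b l) := hkl'
  have e1 : a k * (a l)⁻¹ = w * (b k * (b l)⁻¹) * w⁻¹ := by
    have h1 : w * b k = a k * ((a l)⁻¹ * (w * b l)) := by
      rw [← hkl']; group
    have h2 : a k * (a l)⁻¹ = (w * b k) * (b l)⁻¹ * w⁻¹ := by
      rw [h1]; group
    rw [h2]; group
  have e2 : a k * (a l)⁻¹ = 1 := by
    apply hw _ (J₁.mul_mem (ha k) (J₁.inv_mem (ha l)))
    rw [e1]
    have : w⁻¹ * (w * (b k * (b l)⁻¹) * w⁻¹) * w = b k * (b l)⁻¹ := by group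
    rw [this]
    exact J₂.mul_mem (hb k) (J₂.inv_mem (hb l))
  have e3 : a k = a l := mul_inv_eq_one.mp e2
  have h1 := hlo k
  have h2 := hhi k
  have h3 := hlo l
  have h4 := hhi l
  rw [e3] at h1 h2
  rcases Nat.lt_or_gt_of_ne (fun h => hkl (Fin.ext h)) with h | h
  · have h5 : ((k : ℕ) + 1) * (2 * κ + 1) ≤ l * (2 * κ + 1) := Nat.mul_le_mul_right _ h
    rw [Nat.add_mul] at h5
    omega
  · have h5 : ((l : ℕ) + 1) * (2 * κ + 1) ≤ k * (2 * κ + 1) := Nat.mul_le_mul_right _ h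
    rw [Nat.add_mul] at h5
    omega

end Pool.Agent.Lib.MP_e1b29e_al
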