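import Pool.Agent.Lib.MP_e1b29e_al.Base
import Pool.Agent.Lib.MP_e1b29e_al.Fill
import Pool.Agent.Lib.MP_e1b29e_al.FreeNotFG
import Pool.Agent.Lib.MP_06935a_al.Root

/-!
The limit of the tower.
-/

set_option autoImplicit false

namespace Pool.Agent.Lib.MP_e1b29e_al

open Pool.Agent.Lib.MP_06935a_al
open scoped Pointwise

/-! ### finitely generated subgroups -/

theorem fg_map_injective {G G' : Type} [Group G] [Group G'] (f : G →* G')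
    (hf : Function.Injective f) (H : Subgroup G) (h : (H.map f).FG) : H.FG := by
  rw [Subgroup.fg_iff_submonoid_fg] at h ⊢
  exact Submonoid.FG.map_injective f hf h

theorem fg_of_le_zpowers {G : Type} [Group G] (v : G) (H : Subgroup G)
    (h : H ≤ Subgroup.zpowers v) : H.FG := by
  have hc : IsCyclic (H.subgroupOf (Subgroup.zpowers v)) := inferInstance
  obtain ⟨w, hw⟩ := hc.exists_generator
  rw [Subgroup.fg_iff]
  refine ⟨{((w : Subgroup.zpowers v) : G)}, ?_, Set.finite_singleton _⟩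
  apply le_antisymm
  · rw [Subgroup.closure_le]
    intro x hx
    rw [Set.mem_singleton_iff] at hx
    subst hx
    exact Subgroup.mem_subgroupOf.mp w.2
  · intro x hx
    obtain ⟨k, hk⟩ := hw ⟨⟨x, h hx⟩, Subgroup.mem_subgroupOf.mpr hx⟩
    have hk' : (((w ^ k : H.subgroupOf (Subgroup.zpowers v)) : Subgroup.zpowers v) : G) = x := by
      have : (w ^ k : H.subgroupOf (Subgroup.zpowers v)) =
        ⟨⟨x, h hx⟩, Subgroup.mem_subgroupOf.mpr hx⟩ := hk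
      rw [this]
    have hk2 : (((w ^ k : H.subgroupOf (Subgroup.zpowers v)) : Subgroup.zpowers v) : G) =
        ((w : Subgroup.zpowers v) : G) ^ k := by
      rw [Subgroup.coe_zpow, Subgroup.coe_zpow]
    rw [← hk', hk2]
    exact Subgroup.zpow_mem _ (Subgroup.subset_closure (Set.mem_singleton _)) k

/-! ### stages -/

section stage

variable {Γ : Type} [Group Γ]

/-- the properties of the kernels of the tower -/
def Stage (A B C : Subgroup Γ) (a₁ a₂ b₁ b₂ : Γ) (N : Subgroup Γ) (L : Set Γ) : Prop :=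
  ∃ (Δ : Type) (_ : Group Δ) (f : Γ →* Δ), Function.Surjective f ∧ f.ker = N ∧
    Good Δ (A.map f) (B.map f) (C.map f) (f '' L) ∧ (∀ c ∈ C, f c = 1 → c = 1) ∧
    f a₁ * f a₂ ≠ f a₂ * f a₁ ∧ f b₁ * f b₂ ≠ f b₂ * f b₁

theorem Stage.swap {A B C : Subgroup Γ} {a₁ a₂ b₁ b₂ : Γ} {N : Subgroup Γ} {L : Set Γ}
    (S : Stage A B C a₁ a₂ b₁ b₂ N L) : Stage B A C b₁ b₂ a₁ a₂ N L := by
  obtain ⟨Δ, i, f, h1, h2, h3, h4, h5, h6⟩ := S
  exact ⟨Δ, i, f, h1, h2, h3.swap, h4, h6, h5⟩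

theorem fill_hom {Δ : Type} [Group Δ] {A B C : Subgroup Δ} {L : Set Δ} (G : Good Δ A B C L)
    (x y s : Δ) (hx : x ∈ A) (hy : y ∈ A) (hs : s ∈ A) (hxy : x * y ≠ y * x) (E : Set Δ)
    (hE : E.Finite) :
    ∃ (Δ' : Type) (_ : Group Δ') (π : Δ →* Δ'), Function.Surjective π ∧
      Good Δ' (A.map π) (B.map π) (C.map π) (π '' L) ∧ (∀ e ∈ E, π e = 1 → e = 1) ∧
      (∀ c ∈ C, π c = 1 → c = 1) ∧ ∃ w ∈ Subgroup.closure {x, y}, π w = π s := by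
  obtain ⟨N, hN, G', h1, h2, w, hw, hws⟩ := fill G x y s hx hy hs hxy E hE
  refine ⟨Δ ⧸ N, inferInstance, QuotientGroup.mk' N, QuotientGroup.mk'_surjective N, G', ?_, ?_,
    w, hw, ?_⟩
  · intro e he h
    exact h1 e he ((QuotientGroup.eq_one_iff e).mp h)
  · intro c hc h
    exact h2 c hc ((QuotientGroup.eq_one_iff c).mp h)
  · exact QuotientGroup.eq.mpr hws

theorem comm_iff {G : Type} [Group G] (x y : G) : x * y = y * x ↔ x * y * x⁻¹ * y⁻¹ = 1 := by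
  constructor
  · intro h
    rw [h]; group
  · intro h
    have : x * y = (x * y * x⁻¹ * y⁻¹) * (y * x) := by group
    rw [this, h, one_mul]

theorem map_comm {G G' : Type} [Group G] [Group G'] (f : G →* G') (x y : G) :
    f x * f y = f y * f x ↔ f (x * y * x⁻¹ * y⁻¹) = 1 := by
  rw [comm_iff]
  simp

/-- filling in a stage -/
theorem stage_fill {A B C : Subgroup Γ} {a₁ a₂ b₁ b₂ : Γ} {N : Subgroup Γ} {L : Set Γ}
    (S : Stage A B C a₁ a₂ b₁ b₂ N L) (x y s : Γ) (hx : x ∈ A) (hy : y ∈ A) (hs : s ∈ A)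
    (hxy : x * y * x⁻¹ * y⁻¹ ∉ N) :
    ∃ N' : Subgroup Γ, N ≤ N' ∧ Stage A B C a₁ a₂ b₁ b₂ N' L ∧ x * y * x⁻¹ * y⁻¹ ∉ N' ∧
      ∃ w ∈ Subgroup.closure {x, y}, w⁻¹ * s ∈ N' := by
  obtain ⟨Δ, inst, f, hf, hker, G, hC, ha, hb⟩ := S
  have hxy' : f x * f y ≠ f y * f x := by
    intro h
    apply hxy
    rw [map_comm] at h
    rw [← hker]
    exact h
  obtain ⟨Δ', inst', π, hπ, G', hE', hC', w, hw, hws⟩ := fill_hom G (f x) (f y) (f s)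
    ⟨x, hx, rfl⟩ ⟨y, hy, rfl⟩ ⟨s, hs, rfl⟩ hxy'
    {f (x * y * x⁻¹ * y⁻¹), f (a₁ * a₂ * a₁⁻¹ * a₂⁻¹), f (b₁ * b₂ * b₁⁻¹ * b₂⁻¹)} (by simp)
  have hw' : w ∈ (Subgroup.closure {x, y}).map f := by
    rw [MonoidHom.map_closure, Set.image_pair]
    exact hw
  obtain ⟨w₀, hw₀, rfl⟩ := hw'
  refine ⟨(π.comp f).ker, ?_, ⟨Δ', inst', π.comp f, hπ.comp hf, rfl, ?_, ?_, ?_, ?_⟩, ?_, w₀, hw₀, ?_⟩
  · intro n hn
    rw [← hker] at hn
    rw [MonoidHom.mem_ker, MonoidHom.comp_apply, (MonoidHom.mem_ker).mp hn, map_one]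
  · rw [← Subgroup.map_map, ← Subgroup.map_map, ← Subgroup.map_map]
    have : (π.comp f) '' L = π '' (f '' L) := by
      rw [MonoidHom.coe_comp, Set.image_comp]
    rw [this]
    exact G'
  · intro c hc h
    exact hC c hc (hC' (f c) ⟨c, hc, rfl⟩ h)
  · intro h
    apply ha
    rw [map_comm] at h ⊢
    exact hE' _ (by simp) h
  · intro h
    apply hb
    rw [map_comm] at h ⊢
    exact hE' _ (by simp) h
  · intro h
    rw [MonoidHom.mem_ker] at h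
    apply hxy
    rw [← hker, MonoidHom.mem_ker]
    exact hE' _ (by simp) h
  · rw [MonoidHom.mem_ker, map_mul, map_inv]
    rw [MonoidHom.comp_apply, MonoidHom.comp_apply, hws, inv_mul_cancel]

/-- a pair of noncommuting elements of `A` generates `A` -/
theorem stage_pair {A B C : Subgroup Γ} {a₁ a₂ b₁ b₂ : Γ} {N : Subgroup Γ} {L : Set Γ}
    (S : Stage A B C a₁ a₂ b₁ b₂ N L) (h1 : a₁ ∈ A) (h2 : a₂ ∈ A) (x y : Γ) (hx : x ∈ A)
    (hy : y ∈ A) :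
    ∃ N' : Subgroup Γ, N ≤ N' ∧ Stage A B C a₁ a₂ b₁ b₂ N' L ∧
      (x * y * x⁻¹ * y⁻¹ ∈ N' ∨ ((∃ w ∈ Subgroup.closure {x, y}, w⁻¹ * a₁ ∈ N') ∧
        ∃ w ∈ Subgroup.closure {x, y}, w⁻¹ * a₂ ∈ N')) := by
  by_cases hxy : x * y * x⁻¹ * y⁻¹ ∈ N
  · exact ⟨N, le_rfl, S, Or.inl hxy⟩
  · obtain ⟨N₁, hN₁, S₁, hxy₁, w₁, hw₁, hs₁⟩ := stage_fill S x y a₁ hx hy h1 hxy
    obtain ⟨N₂, hN₂, S₂, hxy₂, w₂, hw₂, hs₂⟩ := stage_fill S₁ x y a₂ hx hy h2 hxy₁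
    exact ⟨N₂, hN₁.trans hN₂, S₂, Or.inr ⟨⟨w₁, hw₁, hN₂ hs₁⟩, w₂, hw₂, hs₂⟩⟩

theorem map_closure_union {G G' : Type} [Group G] [Group G'] (π : G →* G') (T : Set G) (z : G)
    (hz : π z ∈ Subgroup.closure (π '' T)) :
    (Subgroup.closure (T ∪ {z})).map π = Subgroup.closure (π '' T) := by
  rw [MonoidHom.map_closure, Set.image_union, Set.image_singleton]
  apply le_antisymm
  · rw [Subgroup.closure_le]
    rintro x (hx | hx)
    · exact Subgroup.subset_closure hx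
    · rw [Set.mem_singleton_iff] at hx
      rw [hx]
      exact hz
  · exact Subgroup.closure_mono Set.subset_union_left

/-- every element becomes a product -/
theorem stage_elt {A B C : Subgroup Γ} {a₁ a₂ b₁ b₂ : Γ} {N : Subgroup Γ} {L : Set Γ}
    (S : Stage A B C a₁ a₂ b₁ b₂ N L) (hA : A = Subgroup.closure {a₁, a₂})
    (hB : B = Subgroup.closure {b₁, b₂}) (g : Γ) :
    ∃ N' : Subgroup Γ, N ≤ N' ∧ Stage A B C a₁ a₂ b₁ b₂ N' L ∧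
      ∃ a ∈ A, ∃ b ∈ B, (a * b)⁻¹ * g ∈ N' := by
  by_cases hg : ∃ a ∈ A, ∃ b ∈ B, (a * b)⁻¹ * g ∈ N
  · exact ⟨N, le_rfl, S, hg⟩
  push Not at hg
  have S' := S
  obtain ⟨Δ, inst, f, hf, hker, G, hC, ha, hb⟩ := S
  have hg' : ∀ a ∈ A.map f, ∀ b ∈ B.map f, f g ≠ a * b := by
    rintro _ ⟨a, ha', rfl⟩ _ ⟨b, hb', rfl⟩ h
    apply hg a ha' b hb'
    rw [← hker, MonoidHom.mem_ker, map_mul, map_inv, h, map_mul, inv_mul_cancel]
  obtain ⟨Δ₁, inst₁, i, z, hi, G₁, htop, -⟩ := extend G (f g) hg'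
  have ha₁ : a₁ ∈ A := by rw [hA]; exact Subgroup.subset_closure (by simp)
  have ha₂ : a₂ ∈ A := by rw [hA]; exact Subgroup.subset_closure (by simp)
  have hb₁ : b₁ ∈ B := by rw [hB]; exact Subgroup.subset_closure (by simp)
  have hb₂ : b₂ ∈ B := by rw [hB]; exact Subgroup.subset_closure (by simp)
  set A₁ := Subgroup.closure (i '' (A.map f : Set Δ) ∪ {z}) with hA₁
  set B₁ := Subgroup.closure (i '' (B.map f : Set Δ) ∪ {z⁻¹ * i (f g)}) with hB₁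
  have memA : ∀ a ∈ A, i (f a) ∈ A₁ := fun a h => Subgroup.subset_closure (Or.inl ⟨f a, ⟨a, h, rfl⟩, rfl⟩)
  have memB : ∀ b ∈ B, i (f b) ∈ B₁ := fun b h => Subgroup.subset_closure (Or.inl ⟨f b, ⟨b, h, rfl⟩, rfl⟩)
  have hzA : z ∈ A₁ := Subgroup.subset_closure (Or.inr rfl)
  have hzB : z⁻¹ * i (f g) ∈ B₁ := Subgroup.subset_closure (Or.inr rfl)
  have nca : i (f a₁) * i (f a₂) ≠ i (f a₂) * i (f a₁) := by
    intro h
    apply ha
    rw [← map_mul i, ← map_mul i] at h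
    exact hi h
  have ncb : i (f b₁) * i (f b₂) ≠ i (f b₂) * i (f b₁) := by
    intro h
    apply hb
    rw [← map_mul i, ← map_mul i] at h
    exact hi h
  -- first filling
  obtain ⟨Δ₂, inst₂, π₁, hπ₁, G₂, hE₁, hC₁, w₁, hw₁, hwz⟩ := fill_hom G₁ (i (f a₁)) (i (f a₂)) z
    (memA _ ha₁) (memA _ ha₂) hzA nca
    {i (f (a₁ * a₂ * a₁⁻¹ * a₂⁻¹)), i (f (b₁ * b₂ * b₁⁻¹ * b₂⁻¹))} (by simp)
  have hw₁' : w₁ ∈ (Subgroup.closure {a₁, a₂}).map (i.comp f) := by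
    rw [MonoidHom.map_closure, Set.image_pair]
    exact hw₁
  obtain ⟨a₀, ha₀, rfl⟩ := hw₁'
  rw [← hA] at ha₀
  set f₂ : Γ →* Δ₂ := π₁.comp (i.comp f) with hf₂
  have hza : π₁ z = f₂ a₀ := hwz.symm
  have hf₂s : Function.Surjective f₂ := by
    have h1 : (⊤ : Subgroup Δ₂) ≤ f₂.range := by
      have h2 : (⊤ : Subgroup Δ₁).map π₁ = ⊤ := by
        rw [← MonoidHom.range_eq_map, MonoidHom.range_eq_top]
        exact hπ₁
      rw [← h2, ← htop, MonoidHom.map_closure, Subgroup.closure_le]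
      rintro _ ⟨x, hx | hx, rfl⟩
      · obtain ⟨d, rfl⟩ := hx
        obtain ⟨γ, rfl⟩ := hf d
        exact ⟨γ, rfl⟩
      · rw [Set.mem_singleton_iff] at hx
        rw [hx, hza]
        exact ⟨a₀, rfl⟩
    exact MonoidHom.range_eq_top.mp (top_le_iff.mp h1)
  have himA : π₁ '' (i '' (A.map f : Set Δ)) = (A.map f₂ : Set Δ₂) := by
    rw [hf₂, ← Subgroup.map_map, ← Subgroup.map_map]
    rfl
  have himB : π₁ '' (i '' (B.map f : Set Δ)) = (B.map f₂ : Set Δ₂) := by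
    rw [hf₂, ← Subgroup.map_map, ← Subgroup.map_map]
    rfl
  have hA₂ : A₁.map π₁ = A.map f₂ := by
    rw [hA₁, map_closure_union, himA, Subgroup.closure_eq]
    rw [himA, Subgroup.closure_eq, hza]
    exact ⟨a₀, ha₀, rfl⟩
  have hzg : π₁ (z⁻¹ * i (f g)) = f₂ (a₀⁻¹ * g) := by
    rw [map_mul, map_inv, hza, map_mul, map_inv]
    rfl
  have himC : ((C.map f).map i).map π₁ = C.map f₂ := by
    rw [hf₂, ← Subgroup.map_map, ← Subgroup.map_map]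
  have himL : π₁ '' (i '' (f '' L)) = f₂ '' L := by
    rw [hf₂, MonoidHom.coe_comp, MonoidHom.coe_comp, Set.image_comp, Set.image_comp]
  rw [hA₂, himC, himL] at G₂
  have ncb₂ : f₂ b₁ * f₂ b₂ ≠ f₂ b₂ * f₂ b₁ := by
    intro h
    apply hb
    rw [map_comm] at h ⊢
    apply hi
    rw [map_one]
    exact hE₁ _ (by simp) h
  have nca₂ : f₂ a₁ * f₂ a₂ ≠ f₂ a₂ * f₂ a₁ := by
    intro h
    apply ha
    rw [map_comm] at h ⊢
    apply hi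
    rw [map_one]
    exact hE₁ _ (by simp) h
  have memB₂ : ∀ b ∈ B, f₂ b ∈ B₁.map π₁ := fun b h => ⟨_, memB b h, rfl⟩
  -- second filling
  obtain ⟨Δ₃, inst₃, π₂, hπ₂, G₃, hE₂, hC₂, w₂, hw₂, hwz₂⟩ := fill_hom G₂.swap (f₂ b₁) (f₂ b₂)
    (f₂ (a₀⁻¹ * g)) (memB₂ _ hb₁) (memB₂ _ hb₂) (by rw [← hzg]; exact ⟨_, hzB, rfl⟩) ncb₂
    {f₂ (a₁ * a₂ * a₁⁻¹ * a₂⁻¹), f₂ (b₁ * b₂ * b₁⁻¹ * b₂⁻¹)} (by simp)
  have hw₂' : w₂ ∈ (Subgroup.closure {b₁, b₂}).map f₂ := by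
    rw [MonoidHom.map_closure, Set.image_pair]
    exact hw₂
  obtain ⟨b₀, hb₀, rfl⟩ := hw₂'
  rw [← hB] at hb₀
  set f₃ : Γ →* Δ₃ := π₂.comp f₂ with hf₃
  have hB₃ : (B₁.map π₁).map π₂ = B.map f₃ := by
    rw [Subgroup.map_map, hB₁, map_closure_union]
    · rw [MonoidHom.coe_comp, Set.image_comp, himB, ← Subgroup.coe_map, Subgroup.closure_eq, hf₃,
        Subgroup.map_map]
    · rw [MonoidHom.coe_comp, Set.image_comp, himB, ← Subgroup.coe_map, Subgroup.closure_eq]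
      have : (π₂.comp π₁) (z⁻¹ * i (f g)) = π₂ (f₂ b₀) := by
        rw [MonoidHom.comp_apply, hzg, hwz₂]
      have e2 : (⇑π₂ ∘ ⇑π₁) (z⁻¹ * i (f g)) = (π₂.comp π₁) (z⁻¹ * i (f g)) := rfl
      rw [e2, this]
      exact ⟨f₂ b₀, ⟨b₀, hb₀, rfl⟩, rfl⟩
  refine ⟨f₃.ker, ?_, ⟨Δ₃, inst₃, f₃, hπ₂.comp hf₂s, rfl, ?_, ?_, ?_, ?_⟩, a₀, ha₀, b₀, hb₀, ?_⟩
  · intro n hn
    rw [← hker, MonoidHom.mem_ker] at hn
    rw [MonoidHom.mem_ker]
    show π₂ (π₁ (i (f n))) = 1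
    rw [hn, map_one, map_one, map_one]
  · have e1 : (A.map f₂).map π₂ = A.map f₃ := Subgroup.map_map _ _ _
    have e2 : (C.map f₂).map π₂ = C.map f₃ := Subgroup.map_map _ _ _
    have e3 : π₂ '' (f₂ '' L) = f₃ '' L := (Set.image_comp π₂ f₂ L).symm
    have G₄ := G₃.swap
    rw [e1, e2, e3, hB₃] at G₄
    exact G₄
  · intro c hc h
    apply hC c hc
    apply hi
    rw [map_one]
    apply hC₁ _ ⟨f c, ⟨c, hc, rfl⟩, rfl⟩
    exact hC₂ (f₂ c) ⟨c, hc, rfl⟩ h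
  · intro h
    apply nca₂
    rw [map_comm] at h ⊢
    exact hE₂ _ (by simp) h
  · intro h
    apply ncb₂
    rw [map_comm] at h ⊢
    exact hE₂ _ (by simp) h
  · rw [MonoidHom.mem_ker]
    have e : (a₀ * b₀)⁻¹ * g = b₀⁻¹ * (a₀⁻¹ * g) := by group
    rw [e, map_mul, map_inv]
    show (π₂ (f₂ b₀))⁻¹ * π₂ (f₂ (a₀⁻¹ * g)) = 1
    rw [hwz₂, inv_mul_cancel]

/-- roots -/
theorem stage_root {A B C : Subgroup Γ} {a₁ a₂ b₁ b₂ : Γ} {N : Subgroup Γ} {L : Set Γ}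
    (S : Stage A B C a₁ a₂ b₁ b₂ N L) (x : Γ) :
    ∃ L' : Set Γ, L ⊆ L' ∧ Stage A B C a₁ a₂ b₁ b₂ N L' ∧
      (x ∈ N ∨ ∃ u ∈ L', ∃ e : ℤ, (u ^ e)⁻¹ * x ∈ N) := by
  by_cases hx : x ∈ N
  · exact ⟨L, le_rfl, S, Or.inl hx⟩
  obtain ⟨Δ, inst, f, hf, hker, G, hC, ha, hb⟩ := S
  have hx1 : f x ≠ 1 := by
    intro h
    apply hx
    rw [← hker]
    exact h
  obtain ⟨ℓ, δ, κ, H, hp, -⟩ := G.hyp
  obtain ⟨u', ⟨e, he⟩, mal⟩ := exists_root H hp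
    (fun c h hc hf _ => absurd (G.tf c hf) hc)
    (fun c hc => G.tf c (isOfFinOrder_iff_pow_eq_one.mpr ⟨2, by norm_num, hc⟩)) (f x)
    (fun h => hx1 (G.tf _ h))
  obtain ⟨u, rfl⟩ := hf u'
  replace he : f u ^ e = f x := he
  refine ⟨insert u L, Set.subset_insert _ _, ⟨Δ, inst, f, hf, hker, ?_, hC, ha, hb⟩, Or.inr
    ⟨u, Set.mem_insert _ _, e, ?_⟩⟩
  · rw [Set.image_insert_eq]
    refine ⟨G.hyp, G.tf, G.malA, G.malB, G.dAB, G.dAC, G.dBC, G.fin.insert _, ?_⟩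
    rintro v (rfl | hv)
    · refine ⟨?_, mal⟩
      intro h
      apply hx1
      rw [← he, h, one_zpow]
    · exact G.malL v hv
  · rw [← hker, MonoidHom.mem_ker, map_mul, map_inv, map_zpow, he, inv_mul_cancel]

/-- the requirements satisfied along the tower -/
def Done (A B : Subgroup Γ) (a₁ a₂ b₁ b₂ : Γ) (N : Subgroup Γ) (L : Set Γ) :
    Fin 4 → Γ → Γ → Prop
  | 0, x, y => x ∈ A → y ∈ A → (x * y * x⁻¹ * y⁻¹ ∈ N ∨
      ((∃ w ∈ Subgroup.closure {x, y}, w⁻¹ * a₁ ∈ N) ∧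
        ∃ w ∈ Subgroup.closure {x, y}, w⁻¹ * a₂ ∈ N))
  | 1, x, y => x ∈ B → y ∈ B → (x * y * x⁻¹ * y⁻¹ ∈ N ∨
      ((∃ w ∈ Subgroup.closure {x, y}, w⁻¹ * b₁ ∈ N) ∧
        ∃ w ∈ Subgroup.closure {x, y}, w⁻¹ * b₂ ∈ N))
  | 2, g, _ => ∃ a ∈ A, ∃ b ∈ B, (a * b)⁻¹ * g ∈ N
  | 3, x, _ => x ∈ N ∨ ∃ u ∈ L, ∃ e : ℤ, (u ^ e)⁻¹ * x ∈ N

theorem stage_step {A B C : Subgroup Γ} {a₁ a₂ b₁ b₂ : Γ}
    (hA : A = Subgroup.closure {a₁, a₂}) (hB : B = Subgroup.closure {b₁, b₂})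
    (NL : Subgroup Γ × Set Γ) (S : Stage A B C a₁ a₂ b₁ b₂ NL.1 NL.2) (t : Fin 4 × Γ × Γ) :
    ∃ NL' : Subgroup Γ × Set Γ, NL.1 ≤ NL'.1 ∧ NL.2 ⊆ NL'.2 ∧
      Stage A B C a₁ a₂ b₁ b₂ NL'.1 NL'.2 ∧ Done A B a₁ a₂ b₁ b₂ NL'.1 NL'.2 t.1 t.2.1 t.2.2 := by
  obtain ⟨N, L⟩ := NL
  obtain ⟨k, x, y⟩ := t
  have ha₁ : a₁ ∈ A := by rw [hA]; exact Subgroup.subset_closure (by simp)
  have ha₂ : a₂ ∈ A := by rw [hA]; exact Subgroup.subset_closure (by simp)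
  have hb₁ : b₁ ∈ B := by rw [hB]; exact Subgroup.subset_closure (by simp)
  have hb₂ : b₂ ∈ B := by rw [hB]; exact Subgroup.subset_closure (by simp)
  fin_cases k
  · by_cases hxy : x ∈ A ∧ y ∈ A
    · obtain ⟨N', h1, h2, h3⟩ := stage_pair S ha₁ ha₂ x y hxy.1 hxy.2
      exact ⟨(N', L), h1, le_rfl, h2, fun _ _ => h3⟩
    · exact ⟨(N, L), le_rfl, le_rfl, S, fun h1 h2 => absurd ⟨h1, h2⟩ hxy⟩
  · by_cases hxy : x ∈ B ∧ y ∈ B
    · obtain ⟨N', h1, h2, h3⟩ := stage_pair S.swap hb₁ hb₂ x y hxy.1 hxy.2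
      exact ⟨(N', L), h1, le_rfl, h2.swap, fun _ _ => h3⟩
    · exact ⟨(N, L), le_rfl, le_rfl, S, fun h1 h2 => absurd ⟨h1, h2⟩ hxy⟩
  · obtain ⟨N', h1, h2, h3⟩ := stage_elt S hA hB x
    exact ⟨(N', L), h1, le_rfl, h2, h3⟩
  · obtain ⟨L', h1, h2, h3⟩ := stage_root S x
    exact ⟨(N, L'), le_rfl, h1, h2, h3⟩

theorem Good.countable {A B C : Subgroup Γ} {L : Set Γ} (G : Good Γ A B C L) : Countable Γ := by
  obtain ⟨ℓ, δ, κ, H, hp, -⟩ := G.hyp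
  rw [← Set.countable_univ_iff]
  have : (Set.univ : Set Γ) = ⋃ r : ℕ, {x | ℓ x ≤ r} := by
    ext x
    simp only [Set.mem_univ, Set.mem_iUnion, Set.mem_ofPred_eq, true_iff]
    exact ⟨ℓ x, le_rfl⟩
  rw [this]
  exact Set.countable_iUnion fun r => (hp r).countable

/-- the kernel of the limit group -/
theorem exists_limit {A B C : Subgroup Γ} {a₁ a₂ b₁ b₂ : Γ} (G : Good Γ A B C ∅)
    (hA : A = Subgroup.closure {a₁, a₂}) (hB : B = Subgroup.closure {b₁, b₂})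
    (ha : a₁ * a₂ ≠ a₂ * a₁) (hb : b₁ * b₂ ≠ b₂ * b₁) :
    ∃ N : Subgroup Γ, N.Normal ∧
      (∀ x ∈ A, ∀ y ∈ A, (x * y * x⁻¹ * y⁻¹ ∈ N ∨
        ((∃ w ∈ Subgroup.closure {x, y}, w⁻¹ * a₁ ∈ N) ∧
          ∃ w ∈ Subgroup.closure {x, y}, w⁻¹ * a₂ ∈ N))) ∧
      (∀ x ∈ B, ∀ y ∈ B, (x * y * x⁻¹ * y⁻¹ ∈ N ∨
        ((∃ w ∈ Subgroup.closure {x, y}, w⁻¹ * b₁ ∈ N) ∧
          ∃ w ∈ Subgroup.closure {x, y}, w⁻¹ * b₂ ∈ N))) ∧
      (∀ g : Γ, ∃ a ∈ A, ∃ b ∈ B, (a * b)⁻¹ * g ∈ N) ∧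
      (∀ x : Γ, x ∉ N → ∃ u : Γ, ∀ g : Γ, g * x * g⁻¹ * x⁻¹ ∈ N → ∃ j : ℤ, (u ^ j)⁻¹ * g ∈ N) ∧
      (∀ c ∈ C, c ∈ N → c = 1) := by
  have := G.countable
  obtain ⟨enum, henum⟩ := exists_surjective_nat (Fin 4 × Γ × Γ)
  have hstep : ∀ NL : Subgroup Γ × Set Γ, ∀ t : Fin 4 × Γ × Γ,
      ∃ NL' : Subgroup Γ × Set Γ, Stage A B C a₁ a₂ b₁ b₂ NL.1 NL.2 → NL.1 ≤ NL'.1 ∧
        NL.2 ⊆ NL'.2 ∧ Stage A B C a₁ a₂ b₁ b₂ NL'.1 NL'.2 ∧
        Done A B a₁ a₂ b₁ b₂ NL'.1 NL'.2 t.1 t.2.1 t.2.2 := by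
    intro NL t
    by_cases h : Stage A B C a₁ a₂ b₁ b₂ NL.1 NL.2
    · obtain ⟨NL', h'⟩ := stage_step hA hB NL h t
      exact ⟨NL', fun _ => h'⟩
    · exact ⟨NL, fun h' => absurd h' h⟩
  choose nxt hnxt using hstep
  obtain ⟨M, hM0, hMs⟩ : ∃ M : ℕ → Subgroup Γ × Set Γ, M 0 = (⊥, ∅) ∧
      ∀ k, M (k + 1) = nxt (M k) (enum k) :=
    ⟨fun k => Nat.rec (⊥, ∅) (fun i X => nxt X (enum i)) k, rfl, fun _ => rfl⟩
  have hst : ∀ k, Stage A B C a₁ a₂ b₁ b₂ (M k).1 (M k).2 := by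
    intro k
    induction k with
    | zero =>
      rw [hM0]
      refine ⟨Γ, inferInstance, MonoidHom.id Γ, Function.surjective_id, ?_, ?_, ?_, ha, hb⟩
      · ext x
        simp
      · simpa using G
      · intro c _ h
        exact h
    | succ k ih =>
      rw [hMs]
      exact (hnxt _ _ ih).2.2.1
  have hmono : Monotone fun k => (M k).1 := by
    apply monotone_nat_of_le_succ
    intro k
    rw [hMs]
    exact (hnxt _ _ (hst k)).1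
  have hmonoL : Monotone fun k => (M k).2 := by
    apply monotone_nat_of_le_succ
    intro k
    rw [hMs]
    exact (hnxt _ _ (hst k)).2.1
  have hdone : ∀ t : Fin 4 × Γ × Γ, ∃ k,
      Done A B a₁ a₂ b₁ b₂ (M k).1 (M k).2 t.1 t.2.1 t.2.2 := by
    intro t
    obtain ⟨k, rfl⟩ := henum t
    refine ⟨k + 1, ?_⟩
    rw [hMs]
    exact (hnxt _ _ (hst k)).2.2.2
  have hmem : ∀ x : Γ, x ∈ (⨆ k, (M k).1) ↔ ∃ k, x ∈ (M k).1 := by
    intro x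
    exact Subgroup.mem_iSup_of_directed hmono.directed_le
  have hle : ∀ k, (M k).1 ≤ ⨆ k, (M k).1 := fun k => le_iSup (fun k => (M k).1) k
  refine ⟨⨆ k, (M k).1, ?_, ?_, ?_, ?_, ?_, ?_⟩
  · constructor
    intro x hx g
    rw [hmem] at hx ⊢
    obtain ⟨k, hk⟩ := hx
    obtain ⟨Δ, _, f, _, hker, _⟩ := hst k
    refine ⟨k, ?_⟩
    rw [← hker] at hk ⊢
    exact (MonoidHom.normal_ker f).conj_mem x hk g
  · intro x hx y hy
    obtain ⟨k, hk⟩ := hdone (0, x, y)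
    rcases hk hx hy with h | ⟨⟨w, hw, h1⟩, w', hw', h2⟩
    · exact Or.inl (hle k h)
    · exact Or.inr ⟨⟨w, hw, hle k h1⟩, w', hw', hle k h2⟩
  · intro x hx y hy
    obtain ⟨k, hk⟩ := hdone (1, x, y)
    rcases hk hx hy with h | ⟨⟨w, hw, h1⟩, w', hw', h2⟩
    · exact Or.inl (hle k h)
    · exact Or.inr ⟨⟨w, hw, hle k h1⟩, w', hw', hle k h2⟩
  · intro g
    obtain ⟨k, a, ha, b, hb, h⟩ := hdone (2, g, 1)
    exact ⟨a, ha, b, hb, hle k h⟩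
  · intro x hx
    obtain ⟨k, hk⟩ := hdone (3, x, 1)
    have hk' : x ∈ (M k).1 ∨ ∃ u ∈ (M k).2, ∃ e : ℤ, (u ^ e)⁻¹ * x ∈ (M k).1 := hk
    rcases hk' with h | ⟨u, hu, e, he⟩
    · exact absurd (hle k h) hx
    refine ⟨u, fun g hg => ?_⟩
    rw [hmem] at hg
    obtain ⟨m, hm⟩ := hg
    set n := max k m with hn
    have h1 : g * x * g⁻¹ * x⁻¹ ∈ (M n).1 := hmono (le_max_right k m) hm
    have h2 : (u ^ e)⁻¹ * x ∈ (M n).1 := hmono (le_max_left k m) he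
    have h3 : u ∈ (M n).2 := hmonoL (le_max_left k m) hu
    have h4 : x ∉ (M n).1 := fun h => hx (hle n h)
    obtain ⟨Δ, _, f, _, hker, G', _⟩ := hst n
    obtain ⟨hu1, hmal⟩ := G'.malL (f u) ⟨u, h3, rfl⟩
    rw [← hker, MonoidHom.mem_ker] at h1 h2 h4
    rw [map_mul, map_inv, map_zpow, inv_mul_eq_one] at h2
    have he0 : e ≠ 0 := by
      rintro rfl
      apply h4
      rw [← h2, zpow_zero]
    have h5 : f g * f u ^ e * (f g)⁻¹ = f u ^ e := by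
      rw [h2]
      rw [map_mul, map_mul, map_mul, map_inv, map_inv, mul_inv_eq_one] at h1
      exact h1
    obtain ⟨j, hj⟩ := hmal (f g) e e he0 h5
    refine ⟨j, hle n ?_⟩
    rw [← hker, MonoidHom.mem_ker, map_mul, map_inv, map_zpow, inv_mul_eq_one]
    exact hj
  · intro c hc h
    rw [hmem] at h
    obtain ⟨k, hk⟩ := h
    obtain ⟨Δ, _, f, _, hker, _, hC, _⟩ := hst k
    rw [← hker] at hk
    exact hC c hc hk

/-- subgroups of the image of `A` are finitely generated -/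
theorem all_fg {A : Subgroup Γ} {a₁ a₂ : Γ} (hA : A = Subgroup.closure {a₁, a₂})
    (N : Subgroup Γ) [N.Normal]
    (hpair : ∀ x ∈ A, ∀ y ∈ A, (x * y * x⁻¹ * y⁻¹ ∈ N ∨
        ((∃ w ∈ Subgroup.closure {x, y}, w⁻¹ * a₁ ∈ N) ∧
          ∃ w ∈ Subgroup.closure {x, y}, w⁻¹ * a₂ ∈ N)))
    (hcent : ∀ x : Γ, x ∉ N → ∃ u : Γ, ∀ g : Γ, g * x * g⁻¹ * x⁻¹ ∈ N →
      ∃ j : ℤ, (u ^ j)⁻¹ * g ∈ N)
    (H : Subgroup (Γ ⧸ N)) (hH : H ≤ A.map (QuotientGroup.mk' N)) : H.FG := by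
  by_cases hcomm : ∃ x ∈ H, ∃ y ∈ H, x * y ≠ y * x
  · obtain ⟨x', hx', y', hy', hxy⟩ := hcomm
    obtain ⟨x, hx, rfl⟩ := hH hx'
    obtain ⟨y, hy, rfl⟩ := hH hy'
    rcases hpair x hx y hy with h | ⟨⟨w₁, hw₁, h1⟩, w₂, hw₂, h2⟩
    · exfalso
      apply hxy
      rw [map_comm]
      exact (QuotientGroup.eq_one_iff _).mpr h
    · have hcl : ∀ w ∈ Subgroup.closure {x, y}, QuotientGroup.mk' N w ∈ H := by
        intro w hw
        have : (Subgroup.closure {x, y}).map (QuotientGroup.mk' N) ≤ H := by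
          rw [MonoidHom.map_closure, Set.image_pair, Subgroup.closure_le]
          rintro z (rfl | hz)
          · exact hx'
          · rw [Set.mem_singleton_iff] at hz
            rw [hz]
            exact hy'
        exact this ⟨w, hw, rfl⟩
      have e1 : QuotientGroup.mk' N a₁ ∈ H := by
        have : (QuotientGroup.mk' N w₁) = QuotientGroup.mk' N a₁ := QuotientGroup.eq.mpr h1
        rw [← this]
        exact hcl w₁ hw₁
      have e2 : QuotientGroup.mk' N a₂ ∈ H := by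
        have : (QuotientGroup.mk' N w₂) = QuotientGroup.mk' N a₂ := QuotientGroup.eq.mpr h2
        rw [← this]
        exact hcl w₂ hw₂
      rw [Subgroup.fg_iff]
      refine ⟨{QuotientGroup.mk' N a₁, QuotientGroup.mk' N a₂}, ?_, by simp⟩
      apply le_antisymm
      · rw [Subgroup.closure_le]
        rintro z (rfl | hz)
        · exact e1
        · rw [Set.mem_singleton_iff] at hz
          rw [hz]
          exact e2
      · refine hH.trans ?_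
        rw [hA, MonoidHom.map_closure, Set.image_pair]
  · push Not at hcomm
    by_cases hbot : H = ⊥
    · rw [hbot]
      exact Subgroup.FG.bot
    · rw [Subgroup.eq_bot_iff_forall] at hbot
      push Not at hbot
      obtain ⟨x', hx', hx1⟩ := hbot
      obtain ⟨x, rfl⟩ := QuotientGroup.mk'_surjective N x'
      obtain ⟨u, hu⟩ := hcent x (fun h => hx1 ((QuotientGroup.eq_one_iff _).mpr h))
      apply fg_of_le_zpowers (QuotientGroup.mk' N u)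
      intro g' hg'
      obtain ⟨g, rfl⟩ := QuotientGroup.mk'_surjective N g'
      have h1 := hcomm _ hg' _ hx'
      rw [map_comm] at h1
      obtain ⟨j, hj⟩ := hu g ((QuotientGroup.eq_one_iff _).mp h1)
      refine ⟨j, ?_⟩
      have : (QuotientGroup.mk' N (u ^ j)) = QuotientGroup.mk' N g := QuotientGroup.eq.mpr hj
      rw [← this, map_zpow]

end stage

theorem main : ∃ (G : Type) (_ : Group G) (A B : Subgroup G),
    (∀ g : G, ∃ a ∈ A, ∃ b ∈ B, g = a * b) ∧ (∀ H : Subgroup G, H ≤ A → H.FG) ∧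
    (∀ H : Subgroup G, H ≤ B → H.FG) ∧ ∃ H : Subgroup G, ¬ H.FG := by
  obtain ⟨Γ, _, A, B, C, a₁, a₂, b₁, b₂, c, G, hA, hB, ha, hb, hc, hC⟩ := base
  obtain ⟨N, hN, hpA, hpB, helt, hcent, hCN⟩ := exists_limit G hA hB ha hb
  refine ⟨Γ ⧸ N, inferInstance, A.map (QuotientGroup.mk' N), B.map (QuotientGroup.mk' N), ?_,
    ?_, ?_, ?_⟩
  · intro g'
    obtain ⟨g, rfl⟩ := QuotientGroup.mk'_surjective N g'
    obtain ⟨a, ha, b, hb, h⟩ := helt g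
    refine ⟨QuotientGroup.mk' N a, ⟨a, ha, rfl⟩, QuotientGroup.mk' N b, ⟨b, hb, rfl⟩, ?_⟩
    rw [← map_mul]
    exact (QuotientGroup.eq.mpr h).symm
  · exact fun H hH => all_fg hA N hpA hcent H hH
  · exact fun H hH => all_fg hB N hpB hcent H hH
  · obtain ⟨H₀, hH₀⟩ := free_not_fg
    refine ⟨H₀.map ((QuotientGroup.mk' N).comp c), fun h => hH₀ (fg_map_injective _ ?_ H₀ h)⟩
    rw [injective_iff_map_eq_one]
    intro x hx
    apply hc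
    rw [map_one]
    apply hCN _ (by rw [hC]; exact ⟨x, rfl⟩)
    exact (QuotientGroup.eq_one_iff _).mp hx

end Pool.Agent.Lib.MP_e1b29e_al
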