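import Pool.Agent.Lib.MP_e1b29e_al.Cone

/-!
# T4: polygons and the quotient metric
-/

set_option autoImplicit false

namespace Pool.Agent.Lib.MP_e1b29e_al

open Pool.Agent.Lib.MP_06935a_al hiding Res
open scoped Pointwise

variable {Γ : Type} [Group Γ] {ℓ : Γ → ℕ} {δ : ℕ}

theorem poly_rot_mem (R h : Γ) (k : ℤ) : h * R ^ k * h⁻¹ ∈ NR R := by
  have h1 : R ∈ NR R := Subgroup.subset_normalClosure rfl
  exact (inferInstance : (NR R).Normal).conj_mem _ (Subgroup.zpow_mem _ h1 k) h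

theorem poly_mk_rot {R g : Γ} (hg : g ∈ NR R) (x : Γ) :
    ((g * x : Γ) : Γ ⧸ NR R) = (x : Γ ⧸ NR R) := by
  rw [QuotientGroup.mk_mul, (QuotientGroup.eq_one_iff g).mpr hg, one_mul]

/-- if all steps are small, the total is small -/
theorem poly_sum (f : ℕ → ℤ) (β : ℤ) (m : ℕ) (h : ∀ i < m, |f i - f (i + 1)| ≤ β) :
    |f 0 - f m| ≤ m * β := by
  induction m with
  | zero => simp
  | succ m ih =>
    have h1 := ih fun i hi => h i (by omega)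
    have h2 := h m (by omega)
    have h3 : |f 0 - f (m + 1)| ≤ |f 0 - f m| + |f m - f (m + 1)| := abs_sub_le _ _ _
    push_cast
    linarith

/-- polygon closing lemma -/
theorem pcl {R : Γ} {P : Γ → ℤ} {q : ℕ} {β c : ℤ} (hβ : 1 ≤ β) (m : ℕ) (hm : 1 ≤ m)
    (hq : m * β + c ≤ q) (x0 g : Γ) (hg : Res R P q c x0 g) :
    ∀ (Sg : ℕ → Γ → Γ → Prop) (x : ℕ → Γ), (∀ i < m, Rot R P β (Sg i)) → x 0 = x0 →
      x m = g * x0 → (∀ i < m, Sg i (x i) (x (i + 1))) →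
      ∃ x' : ℕ → Γ, x' 0 = x0 ∧ x' m = x0 ∧ (∀ i ≤ m, ∃ n ∈ NR R, x' i = n * x i) ∧
        ∀ i < m, Sg i (x' i) (x' (i + 1)) := by
  induction hg with
  | one =>
    intro Sg x _ h0 h1 h2
    exact ⟨x, h0, by rw [h1, one_mul], fun i _ => ⟨1, Subgroup.one_mem _, (one_mul _).symm⟩, h2⟩
  | step g h k hd _ ih =>
    intro Sg x hS h0 h1 h2
    have hρ : h * R ^ k * h⁻¹ ∈ NR R := poly_rot_mem R h k
    obtain ⟨i, hi, hbig⟩ : ∃ i < m, β ≤ |P (h⁻¹ * x i) - P (h⁻¹ * x (i + 1))| := by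
      by_contra hcon
      push Not at hcon
      have h3 := poly_sum (fun i => P (h⁻¹ * x i)) (β - 1) m (fun i hi => by
        have := hcon i hi
        show |P (h⁻¹ * x i) - P (h⁻¹ * x (i + 1))| ≤ β - 1
        omega)
      rw [h0, h1] at h3
      have h4 : (m : ℤ) * (β - 1) = m * β - m := by ring
      have h5 : (1 : ℤ) ≤ m := by exact_mod_cast hm
      linarith
    have key := ih Sg (fun j => if j ≤ i then x j else h * R ^ k * h⁻¹ * x j) hS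
      (by simp [h0]) (by
        show (if m ≤ i then x m else h * R ^ k * h⁻¹ * x m) = _
        rw [if_neg (by omega), h1]
        group) (by
        intro j hj
        show Sg j (if j ≤ i then x j else h * R ^ k * h⁻¹ * x j)
          (if j + 1 ≤ i then x (j + 1) else h * R ^ k * h⁻¹ * x (j + 1))
        rcases lt_trichotomy j i with hji | hji | hji
        · rw [if_pos (by omega), if_pos (by omega)]; exact h2 j hj
        · subst hji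
          rw [if_pos le_rfl, if_neg (by omega)]
          exact (hS j hj).rot h _ _ (h2 j hj) hbig k
        · rw [if_neg (by omega), if_neg (by omega)]
          exact (hS j hj).inv _ _ _ (h2 j hj))
    obtain ⟨x', e0, em, en, er⟩ := key
    refine ⟨x', e0, em, ?_, er⟩
    intro j hj
    obtain ⟨n, hn, e⟩ := en j hj
    by_cases hji : j ≤ i
    · exact ⟨n, hn, by rw [e]; simp only [if_pos hji]⟩
    · refine ⟨n * (h * R ^ k * h⁻¹), Subgroup.mul_mem _ hn hρ, ?_⟩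
      rw [e]
      simp only [if_neg hji]
      rw [mul_assoc n]

theorem rot_mono {R : Γ} {P : Γ → ℤ} {β β' : ℤ} (h : β ≤ β') {Sg : Γ → Γ → Prop}
    (hS : Rot R P β Sg) : Rot R P β' Sg :=
  ⟨hS.inv, fun h' a b hs hb k => hS.rot h' a b hs (h.trans hb) k⟩

theorem rot_sub {R : Γ} {P : Γ → ℤ} {β : ℤ} {J : Subgroup Γ} (h : RotH R P β J) :
    Rot R P β (fun a b => a⁻¹ * b ∈ J) := by
  refine ⟨?_, ?_⟩
  · intro g a b hab
    have e : (g * a)⁻¹ * (g * b) = a⁻¹ * b := by group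
    show (g * a)⁻¹ * (g * b) ∈ J
    rwa [e]
  · intro g a b hab hb k
    have e1 : g⁻¹ * b = (g⁻¹ * a) * (a⁻¹ * b) := by group
    rw [e1] at hb
    have h1 := h (g⁻¹ * a) (a⁻¹ * b) hab hb
    have h2 := J.mul_mem (J.zpow_mem h1 k) hab
    have e2 : ((g⁻¹ * a)⁻¹ * R * (g⁻¹ * a)) ^ k = (g⁻¹ * a)⁻¹ * R ^ k * (g⁻¹ * a) := by
      have := conj_zpow (i := k) (a := (g⁻¹ * a)⁻¹) (b := R)
      rwa [inv_inv] at this
    rw [e2] at h2
    have e3 : (g⁻¹ * a)⁻¹ * R ^ k * (g⁻¹ * a) * (a⁻¹ * b) = a⁻¹ * (g * R ^ k * g⁻¹ * b) := by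
      group
    show a⁻¹ * (g * R ^ k * g⁻¹ * b) ∈ J
    rwa [← e3]

theorem rot_hat (H : HypLen ℓ δ) {S : Set Γ} {R : Γ} {P : Γ → ℤ} {pt : ℤ → Γ} {q C θ K : ℕ}
    (Ax : Axis ℓ S R P pt q C θ K) (B : ℕ)
    (hB : ∀ x y h : Γ, (B : ℤ) ≤ |P (h⁻¹ * x) - P (h⁻¹ * y)| →
      ∃ a ∈ S, ∃ b ∈ S, dst (wl (cset ℓ S)) x (h * a) + 1 + dst (wl (cset ℓ S)) (h * b) y ≤
        dst (wl (cset ℓ S)) x y) (r : ℕ) :
    Rot R P B (fun a b => dst (wl (cset ℓ S)) a b ≤ r) := by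
  refine ⟨?_, ?_⟩
  · intro g a b hab
    show dst (wl (cset ℓ S)) (g * a) (g * b) ≤ r
    rw [dst_mul_left]; exact hab
  · intro h a b hab hb k
    obtain ⟨s, hs, s', hs', hle⟩ := hB a b h hb
    show dst (wl (cset ℓ S)) a (h * R ^ k * h⁻¹ * b) ≤ r
    have h1 := hat_tri H S a (h * s) (h * R ^ k * h⁻¹ * b)
    have h2 := hat_tri H S (h * s) (h * (R ^ k * s')) (h * R ^ k * h⁻¹ * b)
    have h3 := hat_le_one H S h s (R ^ k * s') hs (Ax.smul_mem k s' hs')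
    have h4 : dst (wl (cset ℓ S)) (h * (R ^ k * s')) (h * R ^ k * h⁻¹ * b) =
        dst (wl (cset ℓ S)) (h * s') b := by
      rw [← dst_mul_left _ (h * R ^ k * h⁻¹) (h * s') b]
      congr 1
      group
    have h5 : dst (wl (cset ℓ S)) a b ≤ r := hab
    omega

/-- the length on the quotient -/
noncomputable def qlen (ℓ : Γ → ℕ) (S : Set Γ) (R : Γ) : Γ ⧸ NR R → ℕ :=
  wl ((QuotientGroup.mk' (NR R)) '' cset ℓ S)

theorem qset_pow (ℓ : Γ → ℕ) (S : Set Γ) (R : Γ) (k : ℕ) :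
    ((QuotientGroup.mk' (NR R)) '' cset ℓ S) ^ k =
      (QuotientGroup.mk' (NR R)) '' (cset ℓ S ^ k) := by
  rw [Set.image_pow]

theorem qset_one (H : HypLen ℓ δ) (S : Set Γ) (R : Γ) :
    (1 : Γ ⧸ NR R) ∈ (QuotientGroup.mk' (NR R)) '' cset ℓ S :=
  ⟨1, cset_one H S, map_one _⟩

theorem qset_inv (H : HypLen ℓ δ) (S : Set Γ) (R : Γ) :
    ∀ x ∈ (QuotientGroup.mk' (NR R)) '' cset ℓ S, x⁻¹ ∈ (QuotientGroup.mk' (NR R)) '' cset ℓ S := by
  rintro _ ⟨x, hx, rfl⟩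
  exact ⟨x⁻¹, cset_inv H S x hx, map_inv _ _⟩

theorem qset_gen (H : HypLen ℓ δ) (S : Set Γ) (R : Γ) (x : Γ ⧸ NR R) :
    ∃ k : ℕ, x ∈ ((QuotientGroup.mk' (NR R)) '' cset ℓ S) ^ k := by
  obtain ⟨y, rfl⟩ := QuotientGroup.mk'_surjective (NR R) x
  obtain ⟨k, hk⟩ := cset_gen H S y
  refine ⟨k, ?_⟩
  rw [qset_pow]
  exact ⟨y, hk, rfl⟩

theorem qlen_le (H : HypLen ℓ δ) (S : Set Γ) (R x : Γ) :
    qlen ℓ S R (x : Γ ⧸ NR R) ≤ wl (cset ℓ S) x := by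
  apply wl_le
  rw [qset_pow]
  exact ⟨x, mem_pow_wl (cset_gen H S) x, rfl⟩

theorem qlen_lift (H : HypLen ℓ δ) (S : Set Γ) (R : Γ) (x : Γ ⧸ NR R) :
    ∃ y : Γ, (y : Γ ⧸ NR R) = x ∧ wl (cset ℓ S) y ≤ qlen ℓ S R x := by
  have h := mem_pow_wl (qset_gen H S R) x
  rw [qset_pow] at h
  obtain ⟨y, hy, rfl⟩ := h
  exact ⟨y, rfl, wl_le hy⟩

theorem qlen_dst_le (H : HypLen ℓ δ) (S : Set Γ) (R x y : Γ) :
    dst (qlen ℓ S R) (x : Γ ⧸ NR R) (y : Γ ⧸ NR R) ≤ dst (wl (cset ℓ S)) x y := by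
  unfold dst
  rw [← QuotientGroup.mk_inv, ← QuotientGroup.mk_mul]
  exact qlen_le H S R _

/-- optimal lift of the end point -/
theorem qlen_dst_lift (H : HypLen ℓ δ) (S : Set Γ) (R x : Γ) (y : Γ ⧸ NR R) :
    ∃ z : Γ, (z : Γ ⧸ NR R) = y ∧
      dst (wl (cset ℓ S)) x z ≤ dst (qlen ℓ S R) (x : Γ ⧸ NR R) y := by
  obtain ⟨t, ht, hle⟩ := qlen_lift H S R ((x : Γ ⧸ NR R)⁻¹ * y)
  refine ⟨x * t, ?_, ?_⟩
  · rw [QuotientGroup.mk_mul, ht, mul_inv_cancel_left]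
  · rw [dst_mul_right]
    exact hle

theorem qlen_proper (H : HypLen ℓ δ) (hp : ProperLen ℓ) {S : Set Γ} {R : Γ} {P : Γ → ℤ}
    {pt : ℤ → Γ} {q C θ K : ℕ} (Ax : Axis ℓ S R P pt q C θ K) : ProperLen (qlen ℓ S R) := by
  intro r
  have hfin : ((QuotientGroup.mk' (NR R)) '' cset ℓ S).Finite := by
    unfold cset
    rw [Set.image_union]
    refine Set.Finite.union ((hp 1).image _) ?_
    obtain ⟨F, hF⟩ := Ax.fin
    refine ((F.finite_toSet.prod F.finite_toSet).image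
      (fun z : Γ × Γ => (QuotientGroup.mk' (NR R)) (z.1⁻¹ * z.2))).subset ?_
    rintro _ ⟨_, ⟨a, ha, b, hb, rfl⟩, rfl⟩
    obtain ⟨f, hf, k, rfl⟩ := hF a ha
    obtain ⟨f', hf', k', rfl⟩ := hF b hb
    refine ⟨(f, f'), ⟨hf, hf'⟩, ?_⟩
    show (QuotientGroup.mk' (NR R)) (f⁻¹ * f') = (QuotientGroup.mk' (NR R)) _
    have hR : (QuotientGroup.mk' (NR R)) R = 1 :=
      (QuotientGroup.eq_one_iff _).mpr (Subgroup.subset_normalClosure rfl)
    simp only [map_mul, map_inv, map_zpow, hR, one_zpow, one_mul]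
  have hpw : ∀ k : ℕ, (((QuotientGroup.mk' (NR R)) '' cset ℓ S) ^ k).Finite := by
    intro k
    induction k with
    | zero => simp
    | succ k ih => rw [pow_succ]; exact ih.mul hfin
  refine (hpw r).subset ?_
  intro x hx
  exact pow_mono_one (qset_one H S R) hx (mem_pow_wl (qset_gen H S R) x)

theorem qlen_hyp (H : HypLen ℓ δ) {S : Set Γ} {R : Γ} {P : Γ → ℤ} {q : ℕ} {δ' B : ℕ} {c : ℤ}
    (hB1 : 1 ≤ B) (H' : HypLen (wl (cset ℓ S)) δ')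
    (hrot : ∀ r : ℕ, Rot R P B (fun a b => dst (wl (cset ℓ S)) a b ≤ r))
    (hwind : ∀ x g : Γ, g ∈ NR R → Res R P q c x g) (hq : 4 * (B : ℤ) + c ≤ q) :
    HypLen (qlen ℓ S R) δ' := by
  apply wl_hyp (qset_inv H S R) (qset_gen H S R)
  intro x y z w
  change dst (qlen ℓ S R) x y + dst (qlen ℓ S R) z w ≤
      dst (qlen ℓ S R) x z + dst (qlen ℓ S R) y w + 2 * δ' ∨
    dst (qlen ℓ S R) x y + dst (qlen ℓ S R) z w ≤
      dst (qlen ℓ S R) x w + dst (qlen ℓ S R) y z + 2 * δ'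
  obtain ⟨X, rfl⟩ := QuotientGroup.mk_surjective x
  obtain ⟨Z, rfl, tXZ⟩ := qlen_dst_lift H S R X z
  obtain ⟨Y, rfl, tZY⟩ := qlen_dst_lift H S R Z y
  obtain ⟨W, rfl, tYW⟩ := qlen_dst_lift H S R Y w
  obtain ⟨X', hX', tWX⟩ := qlen_dst_lift H S R W (X : Γ ⧸ NR R)
  have hg : X' * X⁻¹ ∈ NR R := by
    rw [← QuotientGroup.eq_one_iff, QuotientGroup.mk_mul, hX', QuotientGroup.mk_inv,
      mul_inv_cancel]
  let xs : ℕ → Γ := fun i => if i = 0 then X else if i = 1 then Z else if i = 2 then Y else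
    if i = 3 then W else X'
  let rs : ℕ → ℕ := fun i => if i = 0 then dst (qlen ℓ S R) (X : Γ ⧸ NR R) (Z : Γ ⧸ NR R) else
    if i = 1 then dst (qlen ℓ S R) (Z : Γ ⧸ NR R) (Y : Γ ⧸ NR R) else
    if i = 2 then dst (qlen ℓ S R) (Y : Γ ⧸ NR R) (W : Γ ⧸ NR R) else
      dst (qlen ℓ S R) (W : Γ ⧸ NR R) (X : Γ ⧸ NR R)
  obtain ⟨x', e0, e4, en, er⟩ := pcl (P := P) (c := c) (β := B) (by exact_mod_cast hB1) 4
    (by norm_num) (by push_cast; exact hq) X (X' * X⁻¹) (hwind X _ hg)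
    (fun i a b => dst (wl (cset ℓ S)) a b ≤ rs i) xs (fun i _ => hrot (rs i)) rfl
    (by show X' = _; group) (by
      intro i hi
      interval_cases i
      · exact tXZ
      · exact tZY
      · exact tYW
      · exact tWX)
  have r0 := er 0 (by norm_num)
  have r1 := er 1 (by norm_num)
  have r2 := er 2 (by norm_num)
  have r3 := er 3 (by norm_num)
  rw [e0] at r0
  norm_num at r0 r1 r2 r3
  rw [e4] at r3
  change dst (wl (cset ℓ S)) X (x' 1) ≤ dst (qlen ℓ S R) (X : Γ ⧸ NR R) (Z : Γ ⧸ NR R) at r0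
  change dst (wl (cset ℓ S)) (x' 1) (x' 2) ≤ dst (qlen ℓ S R) (Z : Γ ⧸ NR R) (Y : Γ ⧸ NR R) at r1
  change dst (wl (cset ℓ S)) (x' 2) (x' 3) ≤ dst (qlen ℓ S R) (Y : Γ ⧸ NR R) (W : Γ ⧸ NR R) at r2
  change dst (wl (cset ℓ S)) (x' 3) X ≤ dst (qlen ℓ S R) (W : Γ ⧸ NR R) (X : Γ ⧸ NR R) at r3
  have m1 : ((x' 1 : Γ) : Γ ⧸ NR R) = (Z : Γ ⧸ NR R) := by
    obtain ⟨n, hn, e⟩ := en 1 (by norm_num)
    rw [e]; exact poly_mk_rot hn _
  have m2 : ((x' 2 : Γ) : Γ ⧸ NR R) = (Y : Γ ⧸ NR R) := by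
    obtain ⟨n, hn, e⟩ := en 2 (by norm_num)
    rw [e]; exact poly_mk_rot hn _
  have m3 : ((x' 3 : Γ) : Γ ⧸ NR R) = (W : Γ ⧸ NR R) := by
    obtain ⟨n, hn, e⟩ := en 3 (by norm_num)
    rw [e]; exact poly_mk_rot hn _
  have d1 := qlen_dst_le H S R X (x' 2)
  have d2 := qlen_dst_le H S R (x' 1) (x' 3)
  rw [m2] at d1
  rw [m1, m3] at d2
  have comm : ∀ a b : Γ ⧸ NR R, dst (qlen ℓ S R) a b = dst (qlen ℓ S R) b a := by
    intro a b
    unfold dst qlen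
    rw [← wl_inv (qset_gen H S R) (qset_inv H S R) (a⁻¹ * b)]
    congr 1
    group
  have f := H'.four X (x' 2) (x' 1) (x' 3)
  rw [comm (Z : Γ ⧸ NR R) (Y : Γ ⧸ NR R)] at r1
  rw [comm (W : Γ ⧸ NR R)] at r3
  rw [H'.dst_comm (x' 1) (x' 2)] at r1
  rw [H'.dst_comm (x' 3) X] at r3
  rcases f with f | f
  · left; omega
  · right; omega

end Pool.Agent.Lib.MP_e1b29e_al
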