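import Pool.Agent.Lib.MP_e1b29e_al.Poly
import Pool.Agent.Lib.MP_e1b29e_al.Hat

/-!
# T6: images of compatible quasiconvex subgroups in the quotient
-/

set_option autoImplicit false

namespace Pool.Agent.Lib.MP_e1b29e_al

open Pool.Agent.Lib.MP_06935a_al
open scoped Pointwise

variable {Γ : Type} [Group Γ] {ℓ : Γ → ℕ} {δ : ℕ}

theorem mk_eq_of_mul {R n x y : Γ} (hn : n ∈ NR R) (h : y = n * x) :
    (y : Γ ⧸ NR R) = (x : Γ ⧸ NR R) := by
  rw [h, QuotientGroup.mk_mul, (QuotientGroup.eq_one_iff n).mpr hn, one_mul]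

/-- quasiconvexity of the image of a compatible subgroup -/
theorem quot_qc (H : HypLen ℓ δ) {S : Set Γ} {R : Γ} {P : Γ → ℤ} {q : ℕ} {β : ℕ} {c : ℤ}
    (hβ : 1 ≤ β) (hrot : ∀ r : ℕ, Rot R P β (fun a b => dst (wl (cset ℓ S)) a b ≤ r))
    (hwind : ∀ x g : Γ, g ∈ NR R → Res R P q c x g) (hq : 4 * (β : ℤ) + c ≤ q)
    (J : Subgroup Γ) (hJ : RotH R P β J) (κ'' : ℕ) (hqc : QC (wl (cset ℓ S)) (J : Set Γ) κ'') :
    QC (qlen ℓ S R) ((J.map (QuotientGroup.mk' (NR R)) : Subgroup _) : Set (Γ ⧸ NR R)) κ'' := by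
  rintro _ ⟨a, ha, rfl⟩ _ ⟨b, hb, rfl⟩ z' hz
  simp only [QuotientGroup.mk'_apply] at hz
  have ha' : a ∈ J := ha
  have hb' : b ∈ J := hb
  obtain ⟨y1, e1, hy1⟩ := qlen_lift H S R ((a : Γ ⧸ NR R)⁻¹ * z')
  obtain ⟨y2, e2, hy2⟩ := qlen_lift H S R (z'⁻¹ * (b : Γ ⧸ NR R))
  set d1 := qlen ℓ S R ((a : Γ ⧸ NR R)⁻¹ * z') with hd1
  set d2 := qlen ℓ S R (z'⁻¹ * (b : Γ ⧸ NR R)) with hd2
  have hzz : d1 + d2 = qlen ℓ S R ((a : Γ ⧸ NR R)⁻¹ * (b : Γ ⧸ NR R)) := hz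
  have mz : ((a * y1 : Γ) : Γ ⧸ NR R) = z' := by
    rw [QuotientGroup.mk_mul, e1]; group
  have mb : ((a * y1 * y2 : Γ) : Γ ⧸ NR R) = (b : Γ ⧸ NR R) := by
    rw [QuotientGroup.mk_mul, mz, e2]; group
  set g := a * y1 * y2 * b⁻¹ with hg
  have hgN : g ∈ NR R := by
    rw [← QuotientGroup.eq_one_iff, hg, QuotientGroup.mk_mul, mb, QuotientGroup.mk_inv]
    group
  let Sg : ℕ → Γ → Γ → Prop := fun i => match i with
    | 0 => fun x y => dst (wl (cset ℓ S)) x y ≤ d1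
    | 1 => fun x y => dst (wl (cset ℓ S)) x y ≤ d2
    | _ => fun x y => x⁻¹ * y ∈ J
  let x : ℕ → Γ := fun i => match i with
    | 0 => a
    | 1 => a * y1
    | 2 => a * y1 * y2
    | _ => g * a
  obtain ⟨x', h0, h3, hN, hS⟩ := pcl (β := (β : ℤ)) (c := c) (by exact_mod_cast hβ) 3 (by norm_num)
    (by push_cast; omega) a g (hwind a g hgN) Sg x
    (by
      intro i hi
      interval_cases i
      · exact hrot d1
      · exact hrot d2
      · exact rot_sub hJ)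
    rfl rfl
    (by
      intro i hi
      interval_cases i
      · show dst (wl (cset ℓ S)) a (a * y1) ≤ d1
        rw [dst_mul_right]; exact hy1
      · show dst (wl (cset ℓ S)) (a * y1) (a * y1 * y2) ≤ d2
        rw [dst_mul_right]; exact hy2
      · show (a * y1 * y2)⁻¹ * (g * a) ∈ J
        have : (a * y1 * y2)⁻¹ * (g * a) = b⁻¹ * a := by rw [hg]; group
        rw [this]
        exact J.mul_mem (J.inv_mem hb') ha')
  obtain ⟨n1, hn1, e3⟩ := hN 1 (by norm_num)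
  obtain ⟨n2, hn2, e4⟩ := hN 2 (by norm_num)
  have m1 : (x' 1 : Γ ⧸ NR R) = z' := by rw [mk_eq_of_mul hn1 e3]; exact mz
  have m2 : (x' 2 : Γ ⧸ NR R) = (b : Γ ⧸ NR R) := by rw [mk_eq_of_mul hn2 e4]; exact mb
  have s0 : dst (wl (cset ℓ S)) (x' 0) (x' 1) ≤ d1 := hS 0 (by norm_num)
  have s1 : dst (wl (cset ℓ S)) (x' 1) (x' 2) ≤ d2 := hS 1 (by norm_num)
  have s2 : (x' 2)⁻¹ * x' 3 ∈ J := hS 2 (by norm_num)
  rw [h0] at s0
  rw [h3] at s2
  have hx2 : x' 2 ∈ J := by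
    have h := J.mul_mem ha' (J.inv_mem s2)
    have e : a * ((x' 2)⁻¹ * a)⁻¹ = x' 2 := by group
    rwa [e] at h
  have t1 : qlen ℓ S R ((a : Γ ⧸ NR R)⁻¹ * (b : Γ ⧸ NR R)) ≤ dst (wl (cset ℓ S)) a (x' 2) := by
    have := qlen_le H S R (a⁻¹ * x' 2)
    rwa [QuotientGroup.mk_mul, QuotientGroup.mk_inv, m2] at this
  have t2 := hat_tri H S a (x' 1) (x' 2)
  obtain ⟨e, he, hle⟩ := hqc a ha (x' 2) hx2 (x' 1) (by omega)
  refine ⟨(e : Γ ⧸ NR R), ⟨e, he, rfl⟩, ?_⟩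
  have t3 := qlen_le H S R ((x' 1)⁻¹ * e)
  rw [QuotientGroup.mk_mul, QuotientGroup.mk_inv, m1] at t3
  exact t3.trans hle

/-- conjugacy of elements of compatible subgroups can be lifted -/
theorem quot_conj (H : HypLen ℓ δ) (hp : ProperLen ℓ) (κ κ' : ℕ) {S : Set Γ} {R : Γ} {P : Γ → ℤ}
    {q : ℕ} {β : ℕ} {c : ℤ} (hS : QC ℓ S κ')
    (hβ : 1 ≤ β) (hrot : ∀ r : ℕ, Rot R P β (fun a b => dst (wl (cset ℓ S)) a b ≤ r))
    (hwind : ∀ x g : Γ, g ∈ NR R → Res R P q c x g) (hq : 4 * (β : ℤ) + c ≤ q)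
    (hpq : ProperLen (qlen ℓ S R)) (htf : TF (Γ ⧸ NR R))
    (J₁ J₂ : Subgroup Γ) (h1 : RotH R P β J₁) (h2 : RotH R P β J₂)
    (q1 : QC ℓ (J₁ : Set Γ) κ) (q2 : QC ℓ (J₂ : Set Γ) κ)
    (g' h' : Γ ⧸ NR R) (hh : h' ∈ J₁.map (QuotientGroup.mk' (NR R))) (hh1 : h' ≠ 1)
    (hg : g'⁻¹ * h' * g' ∈ J₂.map (QuotientGroup.mk' (NR R))) :
    ∃ g h : Γ, (g : Γ ⧸ NR R) = g' ∧ h ∈ J₁ ∧ h ≠ 1 ∧ g⁻¹ * h * g ∈ J₂ := by
  by_contra hcon
  obtain ⟨a, ha, ea⟩ := hh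
  obtain ⟨b, hb, eb⟩ := hg
  have ha' : a ∈ J₁ := ha
  have hb' : b ∈ J₂ := hb
  have ea' : (a : Γ ⧸ NR R) = h' := ea
  have eb' : (b : Γ ⧸ NR R) = g'⁻¹ * h' * g' := eb
  obtain ⟨g, eg, hgl⟩ := qlen_lift H S R g'
  set r := wl (cset ℓ S) g with hr
  obtain ⟨f, hf⟩ := bo_hat H hp κ κ' r
  -- all powers are short
  have hpow : ∀ k : ℕ, qlen ℓ S R (h' ^ k) ≤ f := by
    intro k
    set g₀ := a ^ k * g * (b ^ k)⁻¹ * g⁻¹ with hg₀
    have hbk : (g'⁻¹ * h' * g') ^ k = g'⁻¹ * h' ^ k * g' := by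
      have := conj_pow (i := k) (a := g'⁻¹) (b := h')
      simpa using this
    have m3 : ((a ^ k * g * (b ^ k)⁻¹ : Γ) : Γ ⧸ NR R) = g' := by
      rw [QuotientGroup.mk_mul, QuotientGroup.mk_mul, QuotientGroup.mk_inv, QuotientGroup.mk_pow,
        QuotientGroup.mk_pow, ea', eb', eg, hbk]
      group
    have hgN : g₀ ∈ NR R := by
      rw [← QuotientGroup.eq_one_iff, hg₀, QuotientGroup.mk_mul, m3, QuotientGroup.mk_inv, eg]
      group
    let Sg : ℕ → Γ → Γ → Prop := fun i => match i with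
      | 0 => fun x y => x⁻¹ * y ∈ J₁
      | 1 => fun x y => dst (wl (cset ℓ S)) x y ≤ r
      | 2 => fun x y => x⁻¹ * y ∈ J₂
      | _ => fun x y => dst (wl (cset ℓ S)) x y ≤ r
    let x : ℕ → Γ := fun i => match i with
      | 0 => 1
      | 1 => a ^ k
      | 2 => a ^ k * g
      | 3 => a ^ k * g * (b ^ k)⁻¹
      | _ => g₀ * 1
    obtain ⟨x', h0, h4, hN, hSg⟩ := pcl (β := (β : ℤ)) (c := c) (by exact_mod_cast hβ) 4
      (by norm_num) (by push_cast; omega) 1 g₀ (hwind 1 g₀ hgN) Sg x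
      (by
        intro i hi
        interval_cases i
        · exact rot_sub h1
        · exact hrot r
        · exact rot_sub h2
        · exact hrot r)
      rfl rfl
      (by
        intro i hi
        interval_cases i
        · show (1 : Γ)⁻¹ * a ^ k ∈ J₁
          simpa using J₁.pow_mem ha' k
        · show dst (wl (cset ℓ S)) (a ^ k) (a ^ k * g) ≤ r
          rw [dst_mul_right]
        · show (a ^ k * g)⁻¹ * (a ^ k * g * (b ^ k)⁻¹) ∈ J₂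
          have : (a ^ k * g)⁻¹ * (a ^ k * g * (b ^ k)⁻¹) = (b ^ k)⁻¹ := by group
          rw [this]
          exact J₂.inv_mem (J₂.pow_mem hb' k)
        · show dst (wl (cset ℓ S)) (a ^ k * g * (b ^ k)⁻¹) (g₀ * 1) ≤ r
          rw [hg₀, mul_one, hat_comm H S]
          have : a ^ k * g * (b ^ k)⁻¹ = a ^ k * g * (b ^ k)⁻¹ * g⁻¹ * g := by group
          conv_lhs => rw [this]
          have e : a ^ k * g * (b ^ k)⁻¹ * g⁻¹ * g * g⁻¹ = a ^ k * g * (b ^ k)⁻¹ * g⁻¹ := by group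
          rw [e, dst_mul_right])
    obtain ⟨n1, hn1, e1⟩ := hN 1 (by norm_num)
    obtain ⟨n3, hn3, e3⟩ := hN 3 (by norm_num)
    have m1 : (x' 1 : Γ ⧸ NR R) = h' ^ k := by
      rw [mk_eq_of_mul hn1 e1]
      show ((a ^ k : Γ) : Γ ⧸ NR R) = h' ^ k
      rw [QuotientGroup.mk_pow, ea']
    have m3' : (x' 3 : Γ ⧸ NR R) = g' := by
      rw [mk_eq_of_mul hn3 e3]; exact m3
    have s0 : (x' 0)⁻¹ * x' 1 ∈ J₁ := hSg 0 (by norm_num)
    have s1 : dst (wl (cset ℓ S)) (x' 1) (x' 2) ≤ r := hSg 1 (by norm_num)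
    have s2 : (x' 2)⁻¹ * x' 3 ∈ J₂ := hSg 2 (by norm_num)
    have s3 : dst (wl (cset ℓ S)) (x' 3) (x' 4) ≤ r := hSg 3 (by norm_num)
    rw [h0, inv_one, one_mul] at s0
    rw [h4, hat_comm H S, dst_one_left] at s3
    have s2' : (x' 3)⁻¹ * x' 2 ∈ J₂ := by
      have := J₂.inv_mem s2
      have e : ((x' 2)⁻¹ * x' 3)⁻¹ = (x' 3)⁻¹ * x' 2 := by group
      rwa [e] at this
    have hfin := hf S hS J₁ J₂ q1 q2 (x' 3) (by
      intro h hh hh2
      by_contra hne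
      exact hcon ⟨x' 3, h, m3', hh, hne, hh2⟩) (x' 1) s0 ((x' 3)⁻¹ * x' 2) s2' s3 (by
      have : x' 3 * ((x' 3)⁻¹ * x' 2) = x' 2 := by group
      rw [this]; exact s1)
    have := qlen_le H S R (x' 1)
    rw [m1] at this
    exact this.trans hfin
  -- contradiction
  have hno : ¬ IsOfFinOrder h' := fun h => hh1 (htf h' h)
  have hinj : Function.Injective fun k : ℕ => h' ^ k :=
    injective_pow_iff_not_isOfFinOrder.mpr hno
  have hinf : (Set.range fun k : ℕ => h' ^ k).Infinite := Set.infinite_range_of_injective hinj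
  apply hinf
  refine (hpq f).subset ?_
  rintro _ ⟨k, rfl⟩
  exact hpow k

end Pool.Agent.Lib.MP_e1b29e_al
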