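import Pool.Agent.Lib.MP_e1b29e_al.Defs
import Pool.Agent.Lib.MP_06935a_al.Lox

/-!
Torsion-freeness of the quotient by a relator satisfying the axis axioms.
-/

set_option autoImplicit false

namespace Pool.Agent.Lib.MP_e1b29e_al

open Pool.Agent.Lib.MP_06935a_al
open scoped Pointwise

variable {Γ : Type} [Group Γ] {ℓ : Γ → ℕ} {δ : ℕ}

/-- iterated Lipschitz bound for the index -/
theorem tors_lipl (H : HypLen ℓ δ) {S : Set Γ} {R : Γ} {P : Γ → ℤ} {pt : ℤ → Γ} {q C θ K : ℕ}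
    (Ax : Axis ℓ S R P pt q C θ K) :
    ∀ (n : ℕ) (x s : Γ), ℓ s ≤ n → |P (x * s) - P x| ≤ C * n := by
  intro n
  induction n with
  | zero =>
    intro x s hs
    have : s = 1 := H.eq_one s (by omega)
    subst this
    simp
  | succ n ih =>
    intro x s hs
    by_cases h : ℓ s ≤ n
    · have := ih x s h
      have h2 : (C : ℤ) * n ≤ C * ((n + 1 : ℕ) : ℤ) := by
        push_cast
        nlinarith [Int.natCast_nonneg C]
      exact this.trans h2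
    · obtain ⟨y, z, rfl, hy, hz⟩ := H.split s n (by omega)
      have h1 := ih x y hy.le
      have h2 := Ax.lip (x * y) z (by omega)
      rw [mul_assoc] at h2
      have h3 : ((n + 1 : ℕ) : ℤ) = n + 1 := by push_cast; ring
      rw [h3, mul_add, mul_one]
      rw [abs_le] at *
      constructor <;> linarith [h1.1, h1.2, h2.1, h2.2]

theorem tors_lipd (H : HypLen ℓ δ) {S : Set Γ} {R : Γ} {P : Γ → ℤ} {pt : ℤ → Γ} {q C θ K : ℕ}
    (Ax : Axis ℓ S R P pt q C θ K) (x y : Γ) (n : ℕ) (h : dst ℓ x y ≤ n) :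
    |P x - P y| ≤ C * n := by
  have h1 := tors_lipl H Ax n x (x⁻¹ * y) h
  rw [mul_inv_cancel_left] at h1
  rw [abs_sub_comm]
  exact h1

/-- one-sided shortening at the base coset -/
theorem tors_short {S : Set Γ} {R : Γ} {P : Γ → ℤ} {pt : ℤ → Γ} {q C θ K : ℕ}
    (H : HypLen ℓ δ) (c R'' : ℕ) (hq : c + 10 ≤ q)
    (Ax : Axis ℓ S R P pt q C θ K) (G : Gap ℓ pt q (c + 3) (3 * K + R'')) (a b : Γ)
    (hab : (q : ℤ) - c ≤ P b - P a) : dst ℓ a (R⁻¹ * b) + R'' ≤ dst ℓ a b := by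
  set i : ℤ := P a + 2 with hi
  set i' : ℤ := P b - 1 with hi'
  have hq' : (c : ℤ) + 10 ≤ q := by exact_mod_cast hq
  have n1 := Ax.near a b i (by omega) (by omega)
  have n2 := Ax.near (pt i) b i' (by rw [Ax.P_pt]; omega) (by omega)
  have r1 : R⁻¹ * pt i' = pt (i' - q) := by
    have := Ax.pt_shift (i' - q)
    rw [sub_add_cancel] at this
    rw [this, inv_mul_cancel_left]
  have t1 : dst ℓ a (R⁻¹ * b) ≤ dst ℓ a (pt i) + dst ℓ (pt i) (R⁻¹ * b) := H.dst_tri _ _ _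
  have t2 : dst ℓ (pt i) (R⁻¹ * b) ≤ dst ℓ (pt i) (R⁻¹ * pt i') + dst ℓ (R⁻¹ * pt i') (R⁻¹ * b) :=
    H.dst_tri _ _ _
  rw [dst_mul_left, r1] at t2
  have key : dst ℓ (pt i) (pt (i' - q)) + 2 * K + R'' ≤ dst ℓ (pt i) (pt i') := by
    by_cases hc : i' - q ≤ i + 2
    · have g := G i (i' - q) i i' (by
        rw [abs_le]
        constructor
        · push_cast
          omega
        · push_cast
          omega) (by push_cast; omega)
      omega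
    · have n3 := Ax.near (pt i) (pt i') (i' - q) (by rw [Ax.P_pt]; omega) (by rw [Ax.P_pt]; omega)
      have g := G (i' - q) (i' - q) (i' - q) i' (by simp; positivity) (by push_cast; omega)
      rw [H.dst_self] at g
      omega
  omega

theorem shorten (H : HypLen ℓ δ) (C θ K c R'' : ℕ) :
    ∃ c' R' q₀ : ℕ, ∀ q ≥ q₀, ∀ (S : Set Γ) (R : Γ) (P : Γ → ℤ) (pt : ℤ → Γ),
      Axis ℓ S R P pt q C θ K → Gap ℓ pt q c' R' →
      ∀ a b h : Γ, (q : ℤ) - c ≤ |P (h⁻¹ * a) - P (h⁻¹ * b)| →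
      ∃ k : ℤ, dst ℓ a (h * R ^ k * h⁻¹ * b) + R'' ≤ dst ℓ a b := by
  refine ⟨c + 3, 3 * K + R'', c + 10, ?_⟩
  intro q hq S R P pt Ax G a b h hab
  rcases le_total (P (h⁻¹ * a)) (P (h⁻¹ * b)) with hle | hle
  · rw [abs_sub_comm, abs_of_nonneg (by omega)] at hab
    have := tors_short H c R'' hq Ax G _ _ hab
    refine ⟨-1, ?_⟩
    have e1 : dst ℓ a (h * R ^ (-1 : ℤ) * h⁻¹ * b) = dst ℓ (h⁻¹ * a) (R⁻¹ * (h⁻¹ * b)) := by
      rw [← dst_mul_left ℓ h (h⁻¹ * a)]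
      congr 1 <;> group
    rw [e1, ← dst_mul_left ℓ h⁻¹ a b]
    exact this
  · rw [abs_of_nonneg (by omega)] at hab
    have := tors_short H c R'' hq Ax G _ _ hab
    refine ⟨1, ?_⟩
    have e1 : dst ℓ a (h * R ^ (1 : ℤ) * h⁻¹ * b) = dst ℓ (h⁻¹ * b) (R⁻¹ * (h⁻¹ * a)) := by
      rw [H.dst_comm, ← dst_mul_left ℓ (h * R) (h⁻¹ * b)]
      congr 1 <;> group
    rw [e1, H.dst_comm a b, ← dst_mul_left ℓ h⁻¹ b a]
    exact this

/-! ### combinatorics of the second case -/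

theorem tors_comb (f : ℕ → ℤ) (Q Q' θ m : ℤ) (k : ℕ) (hk : 1 ≤ k)
    (hstar : ∀ j, |f (j + 1) - Q| ≤ θ ∨ |f j - Q'| ≤ θ) (hQ : 2 * θ < |Q - Q'|)
    (hS : ∀ j, |f j - f (j + 1)| < m) (h0 : m + 2 * θ ≤ |f 0 - f k|) :
    ∃ j, 1 ≤ j ∧ j + 1 ≤ k ∧ |f (j - 1) - Q'| ≤ θ ∧ |f (j + 1) - Q| ≤ θ ∧
      |f 0 - Q'| ≤ θ ∧ |f k - Q| ≤ θ := by
  classical
  have excl : ∀ j, |f j - Q'| ≤ θ → ¬ |f j - Q| ≤ θ := by
    intro j h1 h2
    have e1 := abs_le.mp h1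
    have e2 := abs_le.mp h2
    rcases lt_abs.mp hQ with h | h <;> omega
  have mpos : 0 < m := lt_of_le_of_lt (abs_nonneg _) (hS 0)
  have nA0 : ¬ |f 0 - Q| ≤ θ := by
    intro hA
    have all : ∀ j, |f j - Q| ≤ θ := by
      intro j
      induction j with
      | zero => exact hA
      | succ j ih =>
        rcases hstar j with h | h
        · exact h
        · exact absurd ih (excl j h)
    have e1 := abs_le.mp hA
    have e2 := abs_le.mp (all k)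
    rcases le_abs.mp h0 with h | h <;> omega
  have down : ∀ j, ¬ |f j - Q| ≤ θ → ∀ i < j, |f i - Q'| ≤ θ := by
    intro j
    induction j with
    | zero => intro _ i hi; omega
    | succ j ih =>
      intro hn i hi
      have hB : |f j - Q'| ≤ θ := (hstar j).resolve_left hn
      rcases Nat.lt_succ_iff_lt_or_eq.mp hi with h | h
      · exact ih (excl j hB) i h
      · rw [h]; exact hB
  set j0 := Nat.findGreatest (fun j => ¬ |f j - Q| ≤ θ) k with hj0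
  have hn0 : ¬ |f j0 - Q| ≤ θ :=
    Nat.findGreatest_spec (P := fun j => ¬ |f j - Q| ≤ θ) (Nat.zero_le k) nA0
  have hle : j0 ≤ k := Nat.findGreatest_le k
  have hgt : ∀ j, j0 < j → j ≤ k → |f j - Q| ≤ θ := by
    intro j h1 h2
    by_contra hc
    exact Nat.findGreatest_is_greatest (P := fun j => ¬ |f j - Q| ≤ θ) h1 h2 hc
  have hlt := down j0 hn0
  have hS' : ∀ j, -m < f j - f (j + 1) ∧ f j - f (j + 1) < m := fun j => abs_lt.mp (hS j)
  by_cases c1 : j0 = k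
  · exfalso
    have b0 := abs_le.mp (hlt 0 (by omega))
    have b1 := abs_le.mp (hlt (k - 1) (by omega))
    have s1 := hS' (k - 1)
    rw [Nat.sub_add_cancel hk] at s1
    rcases le_abs.mp h0 with h | h <;> omega
  by_cases c2 : j0 = 0
  · exfalso
    have b0 := abs_le.mp (hgt 1 (by omega) hk)
    have b1 := abs_le.mp (hgt k (by omega) le_rfl)
    have s1 := hS' 0
    rw [zero_add] at s1
    rcases le_abs.mp h0 with h | h <;> omega
  exact ⟨j0, by omega, by omega, hlt _ (by omega), hgt _ (by omega) (by omega),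
    hlt 0 (by omega), hgt k (by omega) le_rfl⟩

/-- two points with index close to `Q` seen from a far away point: the three points fold -/
theorem tors_fold (H : HypLen ℓ δ) {S : Set Γ} {R : Γ} {P : Γ → ℤ} {pt : ℤ → Γ} {q C θ K : ℕ}
    (Ax : Axis ℓ S R P pt q C θ K) (a b₁ b₂ : Γ) (Q : ℤ) (L : ℕ) (h1 : |P b₁ - Q| ≤ 3 * θ)
    (h2 : |P b₂ - Q| ≤ 3 * θ) (ha : 3 * θ + 3 + C * ((K + 4 * δ + 1 : ℕ) : ℤ) ≤ |P a - Q|)
    (d1 : dst ℓ b₁ a = L) (d2 : dst ℓ b₂ a = L)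
    (hL : 2 * L ≤ dst ℓ b₁ b₂ + 4 * δ ∨ L ≤ 4 * δ + 1) : False := by
  have e1 := abs_le.mp h1
  have e2 := abs_le.mp h2
  -- it is enough to find a node far from `a`
  have key : ∀ i : ℤ, (3 * θ + 3 + C * ((K + 4 * δ + 1 : ℕ) : ℤ)) - (3 * θ + 2) ≤ |P (pt i) - P a| →
      dst ℓ b₁ (pt i) + dst ℓ (pt i) a ≤ L + K → dst ℓ b₂ (pt i) + dst ℓ (pt i) a ≤ L + K →
      False := by
    intro i hi n1 n2
    have hd : K + 4 * δ + 1 < dst ℓ (pt i) a := by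
      by_contra hc
      rw [not_lt] at hc
      have := tors_lipd H Ax _ _ _ hc
      omega
    have t := H.dst_tri b₁ (pt i) b₂
    have t2 := H.dst_comm b₂ (pt i)
    rcases hL with h | h <;> omega
  rcases le_abs.mp ha with h | h
  · have n1 := Ax.near b₁ a (Q + 3 * θ + 2) (by omega) (by nlinarith [Int.natCast_nonneg C])
    have n2 := Ax.near b₂ a (Q + 3 * θ + 2) (by omega) (by nlinarith [Int.natCast_nonneg C])
    refine key (Q + 3 * θ + 2) ?_ (by omega) (by omega)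
    rw [Ax.P_pt, le_abs]
    right
    omega
  · have n1 := Ax.near a b₁ (Q - 3 * θ - 1) (by nlinarith [Int.natCast_nonneg C]) (by omega)
    have n2 := Ax.near a b₂ (Q - 3 * θ - 1) (by nlinarith [Int.natCast_nonneg C]) (by omega)
    have c0 := H.dst_comm a (pt (Q - 3 * θ - 1))
    have c1 := H.dst_comm (pt (Q - 3 * θ - 1)) b₁
    have c2 := H.dst_comm (pt (Q - 3 * θ - 1)) b₂
    have c3 := H.dst_comm a b₁
    have c4 := H.dst_comm a b₂
    refine key (Q - 3 * θ - 1) ?_ (by omega) (by omega)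
    rw [Ax.P_pt, le_abs]
    left
    omega

/-- the core of the argument: an element which is shortest in its class cannot be rotated -/
theorem tors_core (H : HypLen ℓ δ) {S : Set Γ} {R : Γ} {P : Γ → ℤ} {pt : ℤ → Γ} {q C θ K : ℕ}
    (c₀ : ℕ) (hq : c₀ + 20 * θ + 20 + 2 * (C * (K + 4 * δ + 1)) ≤ q)
    (Ax : Axis ℓ S R P pt q C θ K)
    (hsh : ∀ a b h : Γ, (q : ℤ) - (c₀ + 4 * θ + 2) ≤ |P (h⁻¹ * a) - P (h⁻¹ * b)| →
      ∃ k : ℤ, dst ℓ a (h * R ^ k * h⁻¹ * b) + (K + 1) ≤ dst ℓ a b)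
    (x h : Γ) (hmin : ∀ ρ ∈ NR R, ∀ b : Γ, ℓ x ≤ ℓ (b⁻¹ * (ρ * x) * b))
    (hx : h⁻¹ * x * h ∉ Subgroup.zpowers R) (k : ℕ) (hk : 1 ≤ k)
    (hbig : (q : ℤ) - c₀ ≤ |P (h⁻¹ * x ^ (0 : ℤ)) - P (h⁻¹ * x ^ (k : ℤ))|) : False := by
  have hRN : ∀ (w : Γ) (m : ℤ), w * R ^ m * w⁻¹ ∈ NR R := by
    intro w m
    have hR : R ∈ NR R := Subgroup.subset_normalClosure rfl
    exact (inferInstance : (NR R).Normal).conj_mem _ (Subgroup.zpow_mem _ hR m) w
  obtain ⟨f, hf⟩ : ∃ f : ℤ → ℤ, ∀ j, f j = P (h⁻¹ * x ^ j) := ⟨_, fun _ => rfl⟩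
  set g := h⁻¹ * x * h with hg
  have hq' : (c₀ : ℤ) + 20 * θ + 20 + 2 * (C * ((K + 4 * δ + 1 : ℕ) : ℤ)) ≤ q := by
    push_cast
    exact_mod_cast hq
  rw [← hf, ← hf] at hbig
  have hstar : ∀ j : ℤ, |f (j + 1) - P g| ≤ θ ∨ |f j - P g⁻¹| ≤ θ := by
    intro j
    have := Ax.behr g hx (h⁻¹ * x ^ (j + 1))
    have e : g⁻¹ * (h⁻¹ * x ^ (j + 1)) = h⁻¹ * x ^ j := by
      rw [hg]
      group
    rw [e] at this
    rw [hf, hf]
    exact this
  have hdx : ∀ j : ℤ, dst ℓ (x ^ j) (x ^ (j + 1)) = ℓ x := by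
    intro j
    rw [zpow_add_one, dst_mul_right]
  have hS : ∀ j : ℤ, |f j - f (j + 1)| < q - (c₀ + 4 * θ + 2) := by
    intro j
    by_contra hc
    rw [not_lt, hf, hf] at hc
    obtain ⟨m, hm⟩ := hsh _ _ _ hc
    rw [hdx] at hm
    have h1 := hmin ((x ^ (-j) * h) * R ^ m * (x ^ (-j) * h)⁻¹) (hRN _ _) 1
    have e : dst ℓ (x ^ j) (h * R ^ m * h⁻¹ * x ^ (j + 1)) =
        ℓ ((1 : Γ)⁻¹ * (((x ^ (-j) * h) * R ^ m * (x ^ (-j) * h)⁻¹) * x) * 1) := by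
      unfold dst
      congr 1
      group
    omega
  by_cases hQ : |P g - P g⁻¹| ≤ 2 * θ
  · -- Case I
    have hQ' := abs_le.mp hQ
    have hmin' : ∀ b : Γ, ℓ x ≤ ℓ (b⁻¹ * x * b) := by
      intro b
      have := hmin 1 (Subgroup.one_mem _) b
      rwa [one_mul] at this
    have hsq := conjmin_sq H x hmin'
    have hCn : (0 : ℤ) ≤ C * ((K + 4 * δ + 1 : ℕ) : ℤ) := by positivity
    obtain ⟨j, hj⟩ : ∃ j : ℤ, 3 * θ + 3 + C * ((K + 4 * δ + 1 : ℕ) : ℤ) ≤ |f j - P g| := by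
      by_contra hc
      push Not at hc
      have a0 := abs_lt.mp (hc 0)
      have a1 := abs_lt.mp (hc k)
      rcases le_abs.mp hbig with h' | h' <;> omega
    have s1 : |f (j - 1) - P g⁻¹| ≤ θ := by
      have := hstar (j - 1)
      rw [sub_add_cancel] at this
      refine this.resolve_left ?_
      intro h'
      omega
    have s2 : |f (j + 1) - P g| ≤ θ := by
      refine (hstar j).resolve_right ?_
      intro h'
      have := abs_le.mp h'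
      rcases le_abs.mp hj with h'' | h'' <;> omega
    have s1' := abs_le.mp s1
    have s2' := abs_le.mp s2
    rw [hf] at hj s1' s2'
    refine tors_fold H Ax (h⁻¹ * x ^ j) (h⁻¹ * x ^ (j - 1)) (h⁻¹ * x ^ (j + 1)) (P g) (ℓ x)
      (abs_le.mpr (by omega)) (abs_le.mpr (by omega)) hj ?_ ?_ ?_
    · rw [dst_mul_left]
      have := hdx (j - 1)
      rwa [sub_add_cancel] at this
    · rw [dst_mul_left, H.dst_comm]
      exact hdx j
    · rw [dst_mul_left]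
      have : dst ℓ (x ^ (j - 1)) (x ^ (j + 1)) = ℓ (x ^ 2) := by
        unfold dst
        congr 1
        group
      rw [this]
      exact hsq
  · -- Case II
    rw [not_le] at hQ
    obtain ⟨j, hj1, hj2, b1, a1, b0, ak⟩ := tors_comb (fun n : ℕ => f n) (P g) (P g⁻¹) θ
      (q - (c₀ + 4 * θ + 2)) k hk (fun n => by have := hstar n; push_cast; exact this) hQ
      (fun n => by have := hS n; push_cast; exact this) (by
        refine le_trans ?_ hbig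
        omega)
    have keyII : ∀ i : ℤ, dst ℓ (h⁻¹ * x ^ ((j : ℤ) - 1)) (pt i) +
        dst ℓ (pt i) (h⁻¹ * x ^ (j : ℤ)) ≤ ℓ x + K →
        (q : ℤ) - (c₀ + 4 * θ + 2) + θ ≤ |(i - 1) - P g| → False := by
      intro i hi hi2
      have e1 : h⁻¹ * (h * pt i) = pt i := inv_mul_cancel_left _ _
      have e2 : h⁻¹ * (x * (h * pt i)) = g * pt i := by rw [hg]; group
      have hb := abs_le.mp (Ax.bdd g hx (pt i) (Ax.pt_mem i))
      obtain ⟨m, hm⟩ := hsh (h * pt i) (x * (h * pt i)) h (by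
        rw [e1, e2, Ax.P_pt]
        rcases le_abs.mp hi2 with h' | h'
        · exact le_abs.mpr (Or.inl (by omega))
        · exact le_abs.mpr (Or.inr (by omega)))
      have t1 := H.dst_tri (h * pt i) (x ^ (j : ℤ)) (x * (h * pt i))
      have t2 : dst ℓ (x ^ (j : ℤ)) (x * (h * pt i)) = dst ℓ (h⁻¹ * x ^ ((j : ℤ) - 1)) (pt i) := by
        unfold dst
        congr 1
        group
      have t3 : dst ℓ (h * pt i) (x ^ (j : ℤ)) = dst ℓ (pt i) (h⁻¹ * x ^ (j : ℤ)) := by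
        rw [← dst_mul_left ℓ h (pt i), mul_inv_cancel_left]
      have h1 := hmin (h * R ^ m * h⁻¹) (hRN _ _) (h * pt i)
      have e3 : dst ℓ (h * pt i) (h * R ^ m * h⁻¹ * (x * (h * pt i))) =
          ℓ ((h * pt i)⁻¹ * (h * R ^ m * h⁻¹ * x) * (h * pt i)) := by
        unfold dst
        congr 1
        group
      omega
    have ej : ((j - 1 : ℕ) : ℤ) = (j : ℤ) - 1 := by omega
    have S0 := abs_lt.mp (hS (j : ℤ))
    have b1' : |f ((j - 1 : ℕ) : ℤ) - P g⁻¹| ≤ θ := b1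
    have a1' : |f ((j + 1 : ℕ) : ℤ) - P g| ≤ θ := a1
    have b0' : |f ((0 : ℕ) : ℤ) - P g⁻¹| ≤ θ := b0
    have ak' : |f (k : ℤ) - P g| ≤ θ := ak
    rw [ej] at b1'
    push_cast at a1' b0'
    have b1'' := abs_le.mp b1'
    have a1'' := abs_le.mp a1'
    have b0'' := abs_le.mp b0'
    have ak'' := abs_le.mp ak'
    rcases lt_abs.mp hQ with hlt | hlt
    · -- `P g⁻¹ < P g`
      have big2 : (q : ℤ) - c₀ - 2 * θ ≤ P g - P g⁻¹ := by
        rcases le_abs.mp hbig with h' | h' <;> omega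
      have hF : f ((j : ℤ) - 1) + 3 ≤ f j := by omega
      have n1 := Ax.near (h⁻¹ * x ^ ((j : ℤ) - 1)) (h⁻¹ * x ^ (j : ℤ)) (f ((j : ℤ) - 1) + 2)
        (by rw [hf]) (by rw [← hf]; omega)
      rw [dst_mul_left ℓ h⁻¹ (x ^ ((j : ℤ) - 1)) (x ^ (j : ℤ))] at n1
      have d1 := hdx ((j : ℤ) - 1)
      rw [sub_add_cancel] at d1
      exact keyII (f ((j : ℤ) - 1) + 2) (by omega) (le_abs.mpr (Or.inr (by omega)))
    · have big2 : (q : ℤ) - c₀ - 2 * θ ≤ P g⁻¹ - P g := by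
        rcases le_abs.mp hbig with h' | h' <;> omega
      have hF : f j + 3 ≤ f ((j : ℤ) - 1) := by omega
      have n1 := Ax.near (h⁻¹ * x ^ (j : ℤ)) (h⁻¹ * x ^ ((j : ℤ) - 1)) (f ((j : ℤ) - 1) - 1)
        (by rw [← hf]; omega) (by rw [← hf]; omega)
      rw [dst_mul_left ℓ h⁻¹ (x ^ (j : ℤ)) (x ^ ((j : ℤ) - 1))] at n1
      have d1 := hdx ((j : ℤ) - 1)
      rw [sub_add_cancel] at d1
      rw [H.dst_comm (x ^ (j : ℤ)), d1, H.dst_comm _ (pt (f ((j : ℤ) - 1) - 1)),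
        H.dst_comm (pt (f ((j : ℤ) - 1) - 1)) (h⁻¹ * x ^ ((j : ℤ) - 1))] at n1
      exact keyII (f ((j : ℤ) - 1) - 1) (by omega) (le_abs.mpr (Or.inl (by omega)))

theorem quot_tf (H : HypLen ℓ δ) (tf : TF Γ) (C θ K : ℕ) :
    ∃ c' R' q₀ : ℕ, ∀ q ≥ q₀, ∀ (S : Set Γ) (R : Γ) (P : Γ → ℤ) (pt : ℤ → Γ),
      Axis ℓ S R P pt q C θ K → Gap ℓ pt q c' R' →
      (∀ x g : Γ, g ∈ NR R → Res R P q (2 * C + 8 * θ) x g) → TF (Γ ⧸ NR R) := by
  obtain ⟨c', R', q₁, hsh⟩ := shorten H C θ K ((2 * C + 8 * θ) + 4 * θ + 2) (K + 1)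
  refine ⟨c', R', max q₁ ((2 * C + 8 * θ) + 20 * θ + 20 + 2 * (C * (K + 4 * δ + 1))), ?_⟩
  intro q hq S R P pt Ax G hres X hX
  classical
  by_contra hX1
  have hsh' := hsh q ((le_max_left _ _).trans hq) S R P pt Ax G
  -- shortest representative of a conjugate of `X`
  set Y : Set Γ := {y | ∃ w : Γ, (y : Γ ⧸ NR R) = (w : Γ ⧸ NR R)⁻¹ * X * w} with hY
  obtain ⟨x0, hx0⟩ := QuotientGroup.mk_surjective X
  have hne : (ℓ '' Y).Nonempty := ⟨ℓ x0, x0, ⟨1, by simp [hx0]⟩, rfl⟩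
  obtain ⟨x, ⟨w, hw⟩, hxl⟩ := Nat.sInf_mem hne
  have hmin : ∀ ρ ∈ NR R, ∀ b : Γ, ℓ x ≤ ℓ (b⁻¹ * (ρ * x) * b) := by
    intro ρ hρ b
    rw [hxl]
    refine Nat.sInf_le ⟨_, ⟨w * b, ?_⟩, rfl⟩
    have hρ1 : (ρ : Γ ⧸ NR R) = 1 := (QuotientGroup.eq_one_iff ρ).mpr hρ
    simp only [QuotientGroup.mk_mul, QuotientGroup.mk_inv, hρ1, hw]
    group
  have hord : IsOfFinOrder ((x : Γ ⧸ NR R)) := by
    rw [hw]
    obtain ⟨n, hn, hn1⟩ := isOfFinOrder_iff_pow_eq_one.mp hX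
    refine isOfFinOrder_iff_pow_eq_one.mpr ⟨n, hn, ?_⟩
    have : (w : Γ ⧸ NR R)⁻¹ * X * w = (w : Γ ⧸ NR R)⁻¹ * X * ((w : Γ ⧸ NR R)⁻¹)⁻¹ := by rw [inv_inv]
    rw [this, conj_pow, hn1]
    group
  have hxN : x ∉ NR R := by
    intro hc
    have : (x : Γ ⧸ NR R) = 1 := (QuotientGroup.eq_one_iff x).mpr hc
    rw [this] at hw
    apply hX1
    have : X = (w : Γ ⧸ NR R) * ((w : Γ ⧸ NR R)⁻¹ * X * w) * (w : Γ ⧸ NR R)⁻¹ := by group
    rw [this, ← hw]
    group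
  obtain ⟨k, hk, hk1⟩ := isOfFinOrder_iff_pow_eq_one.mp hord
  have hkN : x ^ k ∈ NR R := by
    rw [← QuotientGroup.mk_pow] at hk1
    exact (QuotientGroup.eq_one_iff _).mp hk1
  have hxk : x ^ k ≠ 1 := by
    intro hc
    have : x = 1 := tf x (isOfFinOrder_iff_pow_eq_one.mpr ⟨k, hk, hc⟩)
    exact hxN (this ▸ Subgroup.one_mem _)
  obtain ⟨h, hbig⟩ : ∃ h : Γ, (q : ℤ) - (2 * C + 8 * θ) ≤
      |P (h⁻¹ * x ^ (0 : ℤ)) - P (h⁻¹ * x ^ (k : ℤ))| := by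
    have hr := hres 1 (x ^ k) hkN
    obtain ⟨y, hy⟩ : ∃ y, y = x ^ k := ⟨_, rfl⟩
    rw [← hy] at hr hxk
    cases hr with
    | one => exact absurd rfl hxk
    | step _ h m hm _ =>
      refine ⟨h, ?_⟩
      rw [zpow_zero, zpow_natCast, ← hy]
      rw [mul_one y] at hm
      exact hm
  refine tors_core H (2 * C + 8 * θ) ((le_max_right _ _).trans hq) Ax ?_ x h hmin ?_ k hk ?_
  · intro a b h' hab
    refine hsh' a b h' ?_
    push_cast at hab ⊢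
    exact hab
  · intro hc
    apply hxN
    have h1 : h⁻¹ * x * h ∈ NR R := by
      have hR : R ∈ NR R := Subgroup.subset_normalClosure rfl
      exact (Subgroup.zpowers_le.mpr hR) hc
    have := (inferInstance : (NR R).Normal).conj_mem _ h1 h
    have e : h * (h⁻¹ * x * h) * h⁻¹ = x := by group
    rwa [e] at this
  · push_cast
    exact hbig

end Pool.Agent.Lib.MP_e1b29e_al
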