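import Pool.Agent.Lib.MP_e1b29e_al.Cone
import Pool.Agent.Lib.MP_e1b29e_al.Bgi
import Pool.Agent.Lib.MP_e1b29e_al.Wind
import Pool.Agent.Lib.MP_e1b29e_al.Poly
import Pool.Agent.Lib.MP_e1b29e_al.Hat
import Pool.Agent.Lib.MP_e1b29e_al.QuotSub
import Pool.Agent.Lib.MP_e1b29e_al.TorsFree

/-!
# The main theorem about the quotient by a long relator
-/

set_option autoImplicit false

namespace Pool.Agent.Lib.MP_e1b29e_al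

open Pool.Agent.Lib.MP_06935a_al hiding Res
open scoped Pointwise

variable {Γ : Type} [Group Γ] {ℓ : Γ → ℕ} {δ : ℕ}

theorem quot_main (H : HypLen ℓ δ) (hp : ProperLen ℓ) (tf : TF Γ) (κ κ' C θ K β : ℕ) :
    ∃ c' R' q₀ : ℕ, ∀ q ≥ q₀, ∀ (S : Set Γ) (R : Γ) (P : Γ → ℤ) (pt : ℤ → Γ),
      Axis ℓ S R P pt q C θ K → QC ℓ S κ' → Gap ℓ pt q c' R' →
      (∃ (ℓ' : Γ ⧸ NR R → ℕ) (δ' κ'' : ℕ), HypLen ℓ' δ' ∧ ProperLen ℓ' ∧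
        ∀ J : Subgroup Γ, QC ℓ (J : Set Γ) κ → RotH R P β J →
          QC ℓ' ((J.map (QuotientGroup.mk' (NR R)) : Subgroup _) : Set (Γ ⧸ NR R)) κ'') ∧
      TF (Γ ⧸ NR R) ∧
      (∀ J₁ J₂ : Subgroup Γ, QC ℓ (J₁ : Set Γ) κ → QC ℓ (J₂ : Set Γ) κ → RotH R P β J₁ →
        RotH R P β J₂ → ∀ g' h' : Γ ⧸ NR R, h' ∈ J₁.map (QuotientGroup.mk' (NR R)) → h' ≠ 1 →
        g'⁻¹ * h' * g' ∈ J₂.map (QuotientGroup.mk' (NR R)) →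
        ∃ g h : Γ, (g : Γ ⧸ NR R) = g' ∧ h ∈ J₁ ∧ h ≠ 1 ∧ g⁻¹ * h * g ∈ J₂) ∧
      (∀ g ∈ NR R, g ≠ 1 → ∃ h : Γ, (q : ℤ) - (2 * C + 8 * θ) ≤ |P h - P (h * g)|) := by
  obtain ⟨c', R', q₁, htf⟩ := quot_tf H tf C θ K
  obtain ⟨B, hB⟩ := bgi H κ' C θ K
  obtain ⟨δ', hδ'⟩ := chyp H κ'
  obtain ⟨κ'', hκ''⟩ := qc_hat H κ κ'
  refine ⟨c', R', q₁ + 4 * (β + B + 1) + 2 * C + 20 * θ + 1, ?_⟩
  intro q hq S R P pt Ax hS hG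
  have hw : ∀ x g : Γ, g ∈ NR R → Res R P q (2 * C + 8 * θ) x g :=
    fun x g hg => windmill H Ax (by omega) x g hg
  have hrot : ∀ r : ℕ, Rot R P ((β + B + 1 : ℕ) : ℤ)
      (fun a b => dst (wl (cset ℓ S)) a b ≤ r) := fun r =>
    rot_mono (by push_cast; omega) (rot_hat H Ax B (hB S R P pt q Ax hS) r)
  have hmono : ∀ J : Subgroup Γ, RotH R P β J → RotH R P ((β + B + 1 : ℕ) : ℤ) J :=
    fun J hJ g t ht h => hJ g t ht (le_trans (by push_cast; omega) h)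
  have hq4 : 4 * ((β + B + 1 : ℕ) : ℤ) + (2 * C + 8 * θ) ≤ q := by
    push_cast; omega
  have hT := htf q (by omega) S R P pt Ax hG hw
  have hprop := qlen_proper H hp Ax
  refine ⟨⟨qlen ℓ S R, δ', κ'', qlen_hyp H (by omega) (hδ' S hS) hrot hw hq4, hprop, ?_⟩, hT,
    ?_, ?_⟩
  · intro J hJ hrJ
    exact quot_qc H (by omega) hrot hw hq4 J (hmono J hrJ) κ'' (hκ'' S hS J hJ)
  · intro J₁ J₂ q1 q2 r1 r2 g' h' hh hh1 hg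
    exact quot_conj H hp κ κ' hS (by omega) hrot hw hq4 hprop hT J₁ J₂ (hmono _ r1) (hmono _ r2)
      q1 q2 g' h' hh hh1 hg
  · intro g hg hg1
    cases hw 1 g hg with
    | one => exact absurd rfl hg1
    | step _ h k hd _ =>
      refine ⟨h⁻¹, ?_⟩
      simpa using hd

end Pool.Agent.Lib.MP_e1b29e_al
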